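import Pool.Agent.P.MP_29cb78_nt.Iface

/-!
Poisson summation for the Gaussian on a lattice.
-/

namespace Pool.Agent.P.MP_29cb78_nt

open MeasureTheory Set
open scoped Real Matrix

noncomputable section

namespace Theta

variable {ι : Type} [Fintype ι]

/-- The integer vector as a real vector. -/
def cst (m : ι → ℤ) : ι → ℝ := fun i => (m i : ℝ)

omit [Fintype ι] in
lemma cst_add (m k : ι → ℤ) : cst (m + k) = cst m + cst k := by
  funext i
  simp [cst]

/-- The Gaussian on real vectors. -/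
def G (B : Matrix ι ι ℝ) (x : ι → ℝ) : ℝ := Real.exp (-π * ∑ j, (B.mulVec x j) ^ 2)

lemma G_pos (B : Matrix ι ι ℝ) (x : ι → ℝ) : 0 < G B x := Real.exp_pos _

lemma G_cont (B : Matrix ι ι ℝ) : Continuous (G B) := by
  unfold G
  simp only [Matrix.mulVec, dotProduct]
  fun_prop

lemma lower [DecidableEq ι] (B : Matrix ι ι ℝ) (hB : B.det ≠ 0) :
    ∃ c : ℝ, 0 < c ∧ ∀ x : ι → ℝ, c * ∑ i, x i ^ 2 ≤ ∑ j, (B.mulVec x j) ^ 2 := by
  set K : ℝ := ∑ i, ∑ j, (B⁻¹ i j) ^ 2 with hK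
  have hK0 : 0 ≤ K := Finset.sum_nonneg fun i _ => Finset.sum_nonneg fun j _ => sq_nonneg _
  refine ⟨1 / (K + 1), by positivity, fun x => ?_⟩
  set y := B.mulVec x with hy
  have hx : x = B⁻¹.mulVec y := by
    rw [hy, Matrix.mulVec_mulVec, Matrix.nonsing_inv_mul B (isUnit_iff_ne_zero.mpr hB),
      Matrix.one_mulVec]
  have hS : 0 ≤ ∑ j, y j ^ 2 := Finset.sum_nonneg fun j _ => sq_nonneg _
  have h1 : ∑ i, x i ^ 2 ≤ K * ∑ j, y j ^ 2 := by
    rw [hK, Finset.sum_mul]
    refine Finset.sum_le_sum fun i _ => ?_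
    have : x i = ∑ j, B⁻¹ i j * y j := by
      conv_lhs => rw [hx]
      rfl
    rw [this]
    exact Finset.sum_mul_sq_le_sq_mul_sq _ _ _
  rw [div_mul_eq_mul_div, one_mul, div_le_iff₀ (by positivity)]
  nlinarith

lemma summable_one {a : ℝ} (ha : 0 < a) : Summable fun n : ℤ => Real.exp (-a * (n : ℝ) ^ 2) := by
  have key : ∀ n : ℕ, Real.exp (-a * (n : ℝ) ^ 2) ≤ Real.exp (-a) ^ n := by
    intro n
    rw [← Real.exp_nat_mul]
    apply Real.exp_le_exp.mpr
    have h : (n : ℝ) ≤ (n : ℝ) ^ 2 := by exact_mod_cast Nat.le_self_pow two_ne_zero n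
    nlinarith
  have hs : Summable fun n : ℕ => Real.exp (-a * (n : ℝ) ^ 2) :=
    Summable.of_nonneg_of_le (fun n => (Real.exp_pos _).le) key
      (summable_geometric_of_lt_one (Real.exp_pos _).le (Real.exp_lt_one_iff.mpr (by linarith)))
  refine Summable.of_nat_of_neg ?_ ?_
  · simpa using hs
  · simpa using hs

lemma summable_pi {a : ℝ} (ha : 0 < a) :
    Summable fun m : ι → ℤ => Real.exp (-a * ∑ i, (m i : ℝ) ^ 2) := by
  classical
  refine summable_of_sum_le (c := ∏ _i : ι, ∑' n : ℤ, Real.exp (-a * (n : ℝ) ^ 2))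
    (fun m => (Real.exp_pos _).le) fun s => ?_
  set t : ι → Finset ℤ := fun i => s.image fun m => m i with ht
  have hsub : s ⊆ Fintype.piFinset t := by
    intro m hm
    rw [Fintype.mem_piFinset]
    exact fun i => Finset.mem_image_of_mem _ hm
  calc ∑ m ∈ s, Real.exp (-a * ∑ i, (m i : ℝ) ^ 2)
      ≤ ∑ m ∈ Fintype.piFinset t, Real.exp (-a * ∑ i, (m i : ℝ) ^ 2) :=
        Finset.sum_le_sum_of_subset_of_nonneg hsub fun m _ _ => (Real.exp_pos _).le
    _ = ∑ m ∈ Fintype.piFinset t, ∏ i, Real.exp (-a * (m i : ℝ) ^ 2) := by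
        refine Finset.sum_congr rfl fun m _ => ?_
        rw [Finset.mul_sum, Real.exp_sum]
    _ = ∏ i, ∑ n ∈ t i, Real.exp (-a * (n : ℝ) ^ 2) :=
        (Finset.prod_univ_sum _ fun _ (n : ℤ) => Real.exp (-a * (n : ℝ) ^ 2)).symm
    _ ≤ ∏ _i : ι, ∑' n : ℤ, Real.exp (-a * (n : ℝ) ^ 2) := by
        refine Finset.prod_le_prod (fun i _ => Finset.sum_nonneg fun n _ => (Real.exp_pos _).le)
          fun i _ => ?_
        exact (summable_one ha).sum_le_tsum _ fun n _ => (Real.exp_pos _).le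

lemma G_bound (B : Matrix ι ι ℝ) {c : ℝ} (hc : 0 < c)
    (h : ∀ x : ι → ℝ, c * ∑ i, x i ^ 2 ≤ ∑ j, (B.mulVec x j) ^ 2) (R : ℝ) (x : ι → ℝ)
    (hx : ‖x‖ < R) (m : ι → ℤ) :
    G B (x + cst m) ≤ Real.exp (π * c * (Fintype.card ι * R ^ 2)) *
      Real.exp (-(π * c / 2) * ∑ i, (m i : ℝ) ^ 2) := by
  rw [← Real.exp_add, G]
  apply Real.exp_le_exp.mpr
  have h1 := h (x + cst m)
  have h2 : (∑ i, (m i : ℝ) ^ 2) / 2 - Fintype.card ι * R ^ 2 ≤ ∑ i, (x + cst m) i ^ 2 := by
    have : (Fintype.card ι : ℝ) * R ^ 2 = ∑ _i : ι, R ^ 2 := by simp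
    rw [this, Finset.sum_div, ← Finset.sum_sub_distrib]
    refine Finset.sum_le_sum fun i _ => ?_
    have hi : |x i| < R := lt_of_le_of_lt (norm_le_pi_norm x i) hx
    have hi2 : x i ^ 2 ≤ R ^ 2 := by
      rw [← sq_abs]
      exact pow_le_pow_left₀ (abs_nonneg _) hi.le 2
    simp only [Pi.add_apply, cst]
    nlinarith [sq_nonneg (2 * x i + m i)]
  have h3 := mul_le_mul_of_nonneg_left h2 hc.le
  have h4 := mul_le_mul_of_nonneg_left (h3.trans h1) Real.pi_pos.le
  nlinarith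

lemma summable_G [DecidableEq ι] (B : Matrix ι ι ℝ) (hB : B.det ≠ 0) (x : ι → ℝ) :
    Summable fun m : ι → ℤ => G B (x + cst m) := by
  obtain ⟨c, hc, h⟩ := lower B hB
  exact Summable.of_nonneg_of_le (fun m => (G_pos _ _).le)
    (fun m => G_bound B hc h (‖x‖ + 1) x (by linarith) m)
    ((summable_pi (a := π * c / 2) (by positivity)).mul_left _)

/-- The periodised Gaussian. -/
def F (B : Matrix ι ι ℝ) (x : ι → ℝ) : ℂ := ∑' m : ι → ℤ, (G B (x + cst m) : ℂ)

lemma F_cont [DecidableEq ι] (B : Matrix ι ι ℝ) (hB : B.det ≠ 0) : Continuous (F B) := by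
  obtain ⟨c, hc, h⟩ := lower B hB
  rw [continuous_iff_continuousAt]
  intro x
  have hcont : ContinuousOn (F B) (Metric.ball 0 (‖x‖ + 1)) := by
    refine continuousOn_tsum (u := fun m : ι → ℤ =>
      Real.exp (π * c * (Fintype.card ι * (‖x‖ + 1) ^ 2)) *
        Real.exp (-(π * c / 2) * ∑ i, (m i : ℝ) ^ 2)) (fun m => ?_)
      ((summable_pi (a := π * c / 2) (by positivity)).mul_left _) fun m y hy => ?_
    · exact (Complex.continuous_ofReal.comp
        ((G_cont B).comp (continuous_id.add continuous_const))).continuousOn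
    · rw [Complex.norm_real, Real.norm_of_nonneg (G_pos _ _).le]
      exact G_bound B hc h _ y (by simpa using hy) m
  exact hcont.continuousAt (Metric.isOpen_ball.mem_nhds (by simp))

lemma F_per (B : Matrix ι ι ℝ) (x : ι → ℝ) (k : ι → ℤ) : F B (x + cst k) = F B x := by
  unfold F
  rw [← (Equiv.addLeft k).tsum_eq (fun m => (G B (x + cst m) : ℂ))]
  simp only [Equiv.coe_addLeft, cst_add, add_assoc]

/-- The periodised Gaussian on the torus. -/
def FT (B : Matrix ι ι ℝ) (t : UnitAddTorus ι) : ℂ := F B fun i => (t i).out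

lemma FT_mk (B : Matrix ι ι ℝ) (x : ι → ℝ) : FT B (fun i => (x i : UnitAddCircle)) = F B x := by
  have h : ∀ i, ∃ k : ℤ, (x i : UnitAddCircle).out = x i + k := by
    intro i
    obtain ⟨⟨z, hz⟩, h⟩ := QuotientAddGroup.mk_out_eq_add (AddSubgroup.zmultiples (1 : ℝ)) (x i)
    obtain ⟨k, rfl⟩ := AddSubgroup.mem_zmultiples_iff.mp hz
    exact ⟨k, by simpa using h⟩
  choose k hk using h
  rw [← F_per B x k, FT]
  congr 1
  funext i
  exact hk i

lemma FT_cont [DecidableEq ι] (B : Matrix ι ι ℝ) (hB : B.det ≠ 0) : Continuous (FT B) := by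
  have hq : IsOpenQuotientMap (Pi.map fun (_ : ι) (x : ℝ) => (x : UnitAddCircle)) :=
    IsOpenQuotientMap.piMap fun _ => QuotientAddGroup.isOpenQuotientMap_mk
  rw [← hq.continuous_comp_iff]
  have : FT B ∘ (Pi.map fun (_ : ι) (x : ℝ) => (x : UnitAddCircle)) = F B := by
    funext x
    exact FT_mk B x
  rw [this]
  exact F_cont B hB

/-- Translates of the unit cube. -/
def box (m : ι → ℤ) : Set (ι → ℝ) := {x | ∀ i, x i ∈ Ioc (m i : ℝ) (m i + 1)}

lemma box_meas (m : ι → ℤ) : MeasurableSet (box m) :=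
  MeasurableSet.univ_pi' fun _ => measurableSet_Ioc

omit [Fintype ι] in
lemma box_union : ⋃ m : ι → ℤ, box m = univ := by
  refine eq_univ_of_forall fun x => mem_iUnion.mpr ⟨fun i => ⌈x i⌉ - 1, fun i => ?_⟩
  push_cast
  constructor
  · linarith [Int.ceil_lt_add_one (x i)]
  · linarith [Int.le_ceil (x i)]

omit [Fintype ι] in
lemma box_disj : Pairwise (Function.onFun Disjoint (box : (ι → ℤ) → Set (ι → ℝ))) := by
  intro m k hmk
  rw [Function.onFun, Set.disjoint_left]
  intro x hm hk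
  apply hmk
  funext i
  have h1 : (m i : ℝ) < k i + 1 := lt_of_lt_of_le (hm i).1 (hk i).2
  have h2 : (k i : ℝ) < m i + 1 := lt_of_lt_of_le (hk i).1 (hm i).2
  have h1' : m i < k i + 1 := by exact_mod_cast h1
  have h2' : k i < m i + 1 := by exact_mod_cast h2
  omega

lemma unfold {E : Type} [NormedAddCommGroup E] [NormedSpace ℝ E] (g : (ι → ℝ) → E)
    (hg : Integrable g) :
    HasSum (fun m : ι → ℤ => ∫ x in box 0, g (x + cst m)) (∫ x, g x) := by
  have h := hasSum_integral_iUnion (f := g) (μ := volume) box_meas box_disj hg.integrableOn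
  rw [box_union, Measure.restrict_univ] at h
  convert h using 2 with m
  have hp : (fun x => x + cst m) ⁻¹' box m = box 0 := by
    ext x
    simp only [box, mem_preimage, mem_ofPred_eq, Pi.add_apply, cst, mem_Ioc, Pi.zero_apply,
      Int.cast_zero]
    refine forall_congr' fun i => ?_
    constructor
    · rintro ⟨h1, h2⟩
      constructor <;> linarith
    · rintro ⟨h1, h2⟩
      constructor <;> linarith
  rw [← hp]
  exact (measurePreserving_add_right volume (cst m)).setIntegral_preimage_emb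
    (measurableEmbedding_addRight (cst m)) g (box m)

lemma unfold_tsum (g : (ι → ℝ) → ℂ) (hg : Integrable g) :
    ∫ x in box 0, ∑' m : ι → ℤ, g (x + cst m) = ∫ x, g x := by
  rw [← integral_tsum_of_summable_integral_norm
    (fun m => (hg.comp_add_right (cst m)).integrableOn) (unfold _ hg.norm).summable]
  exact (unfold g hg).tsum_eq

/-- The character times the Gaussian. -/
def gch (B : Matrix ι ι ℝ) (n : ι → ℤ) (x : ι → ℝ) : ℂ :=
  Complex.exp (-(2 * π * Complex.I) * ∑ i, (n i : ℂ) * x i) * G B x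

lemma gch_eq [DecidableEq ι] (B : Matrix ι ι ℝ) (hB : B.det ≠ 0) (n : ι → ℤ) (x : ι → ℝ) :
    gch B n x = Complex.exp (-(π : ℂ) * ∑ j, ((B.mulVec x j : ℝ) : ℂ) ^ 2 +
      ∑ j, (-(2 * π * Complex.I) * ((B⁻¹)ᵀ.mulVec (cst n) j : ℝ)) * ((B.mulVec x j : ℝ) : ℂ)) := by
  have h : (B⁻¹)ᵀ.mulVec (cst n) ⬝ᵥ B.mulVec x = cst n ⬝ᵥ x := by
    rw [Matrix.mulVec_transpose, ← Matrix.dotProduct_mulVec, Matrix.mulVec_mulVec,
      Matrix.nonsing_inv_mul B (isUnit_iff_ne_zero.mpr hB), Matrix.one_mulVec]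
  have h2 : ∑ j, (-(2 * π * Complex.I) * ((B⁻¹)ᵀ.mulVec (cst n) j : ℝ)) *
      ((B.mulVec x j : ℝ) : ℂ) = -(2 * π * Complex.I) * ∑ i, (n i : ℂ) * x i := by
    have h3 := congrArg (fun r : ℝ => (r : ℂ)) h
    simp only [dotProduct, Complex.ofReal_sum, Complex.ofReal_mul] at h3
    simp only [mul_assoc _ _ ((B.mulVec x _ : ℝ) : ℂ), ← Finset.mul_sum]
    rw [h3]
    simp [cst]
  rw [h2, gch, G, Complex.exp_add, mul_comm]
  push_cast
  rfl

lemma gch_int [DecidableEq ι] (B : Matrix ι ι ℝ) (hB : B.det ≠ 0) (n : ι → ℤ) :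
    Integrable (gch B n) ∧ ∫ x, gch B n x = ((|B.det|⁻¹ * G (B⁻¹)ᵀ (cst n) : ℝ) : ℂ) := by
  set c : ι → ℂ := fun j => -(2 * π * Complex.I) * ((B⁻¹)ᵀ.mulVec (cst n) j : ℝ) with hc
  set h : (ι → ℝ) → ℂ := fun y =>
    Complex.exp (-(π : ℂ) * ∑ j, (y j : ℂ) ^ 2 + ∑ j, c j * y j) with hh
  have hpi : 0 < (π : ℂ).re := by simpa using Real.pi_pos
  have hint : Integrable h := GaussianFourier.integrable_cexp_neg_mul_sum_add hpi c
  have hval := GaussianFourier.integral_cexp_neg_mul_sum_add hpi c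
  have hg : gch B n = fun x => h (Matrix.toLin' B x) := by
    funext x
    rw [gch_eq B hB n x, Matrix.toLin'_apply]
  have hmeas : Measurable (Matrix.toLin' B) :=
    (LinearMap.continuous_of_finiteDimensional _).measurable
  have hmap := Real.map_matrix_volume_pi_eq_smul_volume_pi hB
  have hint' : Integrable h (Measure.map (Matrix.toLin' B) volume) := by
    rw [hmap]
    exact hint.smul_measure ENNReal.ofReal_ne_top
  refine ⟨?_, ?_⟩
  · rw [hg]
    exact hint'.comp_measurable hmeas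
  · rw [hg, ← integral_map hmeas.aemeasurable hint'.aestronglyMeasurable, hmap,
      integral_smul_measure, hh, hval, ENNReal.toReal_ofReal (abs_nonneg _), abs_inv]
    have hp0 : (π : ℂ) ≠ 0 := by exact_mod_cast Real.pi_ne_zero
    rw [div_self hp0, Complex.one_cpow, one_mul, G, Complex.real_smul]
    push_cast
    congr 2
    simp only [hc, mul_pow, neg_sq, Complex.I_sq, ← Finset.mul_sum]
    field_simp
    ring

lemma coeff [DecidableEq ι] (B : Matrix ι ι ℝ) (hB : B.det ≠ 0) (n : ι → ℤ) :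
    UnitAddTorus.mFourierCoeff (FT B) n = ((|B.det|⁻¹ * G (B⁻¹)ᵀ (cst n) : ℝ) : ℂ) := by
  rw [← (gch_int B hB n).2, ← unfold_tsum _ (gch_int B hB n).1,
    UnitAddTorus.mFourierCoeff_eq_integral _ _ (cst 0)]
  refine setIntegral_congr_fun (box_meas 0) fun x _ => ?_
  simp only [FT_mk, smul_eq_mul, F, ← tsum_mul_left]
  refine tsum_congr fun m => ?_
  rw [gch]
  congr 1
  simp only [UnitAddTorus.mFourier, ContinuousMap.coe_mk, fourier_coe_apply, ← Complex.exp_sum]
  rw [Complex.exp_eq_exp_iff_exists_int]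
  refine ⟨∑ i, n i * m i, ?_⟩
  simp only [Pi.neg_apply, Pi.add_apply, cst]
  push_cast
  simp only [Finset.mul_sum, Finset.sum_mul, ← Finset.sum_add_distrib]
  refine Finset.sum_congr rfl fun i _ => ?_
  ring

end Theta

open Theta in
theorem theta : THETA := by
  intro ι _ _ B hB
  have hB' : ((B⁻¹)ᵀ).det ≠ 0 := by
    rw [Matrix.det_transpose]
    exact (Matrix.isUnit_nonsing_inv_det B (isUnit_iff_ne_zero.mpr hB)).ne_zero
  have hs : ∀ A : Matrix ι ι ℝ, A.det ≠ 0 → Summable (gauss A) := fun A hA => by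
    have h := summable_G A hA 0
    simp only [zero_add] at h
    exact h
  refine ⟨hs B hB, ?_⟩
  let f : C(UnitAddTorus ι, ℂ) := ⟨FT B, FT_cont B hB⟩
  have hco : ∀ n, UnitAddTorus.mFourierCoeff f n = ((|B.det|⁻¹ * gauss (B⁻¹)ᵀ n : ℝ) : ℂ) :=
    fun n => coeff B hB n
  have hsum : Summable (UnitAddTorus.mFourierCoeff f) := by
    rw [funext hco]
    exact Complex.summable_ofReal.mpr ((hs _ hB').mul_left _)
  have h := UnitAddTorus.hasSum_mFourier_series_apply_of_summable hsum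
    (fun i => ((0 : ι → ℝ) i : UnitAddCircle))
  have hf0 : f (fun i => ((0 : ι → ℝ) i : UnitAddCircle)) = ((∑' m, gauss B m : ℝ) : ℂ) := by
    change FT B _ = _
    rw [FT_mk, F, Complex.ofReal_tsum]
    simp only [zero_add]
    rfl
  rw [hf0] at h
  have h2 : HasSum (fun n => ((|B.det|⁻¹ * gauss (B⁻¹)ᵀ n : ℝ) : ℂ))
      ((∑' m, gauss B m : ℝ) : ℂ) := by
    convert h using 2 with n
    rw [hco]
    simp [UnitAddTorus.mFourier]
  rw [← tsum_mul_left]
  exact (Complex.hasSum_ofReal.mp h2).tsum_eq.symm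

end

end Pool.Agent.P.MP_29cb78_nt
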