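import Pool.Agent.P.MP_29cb78_nt.Iface

/-!
The abelian condition.
-/

namespace Pool.Agent.P.MP_29cb78_nt

open NumberField NumberField.Units

namespace Abel

/-- The elements on which any two automorphisms commute. -/
def ab (k L : Type) [Field k] [Field L] [Algebra k L] : IntermediateField k L where
  carrier := {y | ∀ a b : Gal(L/k), a (b y) = b (a y)}
  mul_mem' := fun {x y} hx hy a b => by simp only [map_mul, hx a b, hy a b]
  one_mem' := fun a b => by simp
  add_mem' := fun {x y} hx hy a b => by simp only [map_add, hx a b, hy a b]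
  zero_mem' := fun a b => by simp
  algebraMap_mem' := fun r a b => by simp
  inv_mem' := fun x hx a b => by simp only [map_inv₀, hx a b]

lemma ab_abelian (k L : Type) [Field k] [Field L] [Algebra k L] [IsGalois k L] :
    IsAbelianGalois k (ab k L) := by
  have h1 : Normal k (ab k L) := by
    rw [IntermediateField.normal_iff_forall_map_le']
    rintro σ _ ⟨y, hy, rfl⟩ a b
    have e1 := hy a (b * σ)
    have e2 := hy σ a
    simp only [AlgEquiv.mul_apply] at e1
    change a (b (σ y)) = b (a (σ y))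
    rw [e1, e2]
  have h2 : IsGalois k (ab k L) := ⟨⟩
  refine { is_comm := ⟨fun f g => ?_⟩ }
  obtain ⟨a, rfl⟩ := AlgEquiv.restrictNormalHom_surjective L f
  obtain ⟨b, rfl⟩ := AlgEquiv.restrictNormalHom_surjective L g
  rw [← map_mul, ← map_mul]
  ext y
  rw [AlgEquiv.restrictNormalHom_apply, AlgEquiv.restrictNormalHom_apply]
  exact y.2 a b

lemma root_mem (K L : Type) [Field K] [NumberField K] [Field L] [Algebra K L] {z : L}
    (hz : z ^ torsionOrder K = 1) : ∃ y : K, algebraMap K L y = z := by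
  obtain ⟨g, hg⟩ := IsCyclic.exists_ofOrder_eq_natCard (α := torsion K)
  have h1 : IsPrimitiveRoot g (torsionOrder K) := IsPrimitiveRoot.iff_orderOf.mpr hg
  have h2 := ((IsPrimitiveRoot.coe_units_iff.mpr
    (IsPrimitiveRoot.coe_submonoidClass_iff.mpr h1)).map_of_injective
      (RingOfIntegers.coe_injective (K := K))).map_of_injective (algebraMap K L).injective
  obtain ⟨i, -, hi⟩ := h2.eq_pow_of_pow_eq_one hz
  exact ⟨_, by rw [map_pow, hi]⟩

end Abel

open Abel in
theorem abel : ABEL := by
  intro k K _ _ _ _ _ _ ι _ η d n sgn v hd hη hz x hx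
  let L := AlgebraicClosure K
  have : Algebra.IsAlgebraic k L := Algebra.IsAlgebraic.trans k K L
  have : IsAlgClosure k L := ⟨inferInstance, inferInstance⟩
  have := ab_abelian k L
  have he := torsionOrder_ne_zero K
  have hd0 : ∀ i, d i ≠ 0 := fun i h => he (by simpa [h] using hd i)
  have hK : ∀ y : K, algebraMap K L y ∈ ab k L := fun y a b => by
    simp only [← AlgEquiv.restrictNormal_commutes]
    rw [← AlgEquiv.mul_apply, ← AlgEquiv.mul_apply, IsMulCommutative.is_comm.comm]
  choose y hy using fun i => IsAlgClosed.exists_pow_nat_eq (algebraMap K L (η i : K))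
    (Nat.pos_of_ne_zero (hd0 i))
  have hy0 : ∀ i, y i ≠ 0 := fun i h => by
    have := hy i
    rw [h, zero_pow (hd0 i)] at this
    exact NumberField.Units.coe_ne_zero (η i) ((algebraMap K L).injective (by
      rw [← this, map_zero]))
  have key : ∀ i (a : Gal(L/k)), ∃ z : K, z ^ d i = 1 ∧
      a (y i) = algebraMap K L z * y i ^ sgn i (a.restrictNormal K) := by
    intro i a
    have h1 : (a (y i) / y i ^ sgn i (a.restrictNormal K)) ^ d i = 1 := by
      rw [div_pow, ← map_pow, hy, ← AlgEquiv.restrictNormal_commutes, hη, map_zpow₀, ← hy,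
        ← zpow_natCast, ← zpow_natCast, ← zpow_mul, ← zpow_mul, mul_comm,
        div_self (zpow_ne_zero _ (hy0 i))]
    obtain ⟨c, hc⟩ := hd i
    obtain ⟨z, hz⟩ := root_mem K L (z := a (y i) / y i ^ sgn i (a.restrictNormal K))
      (by rw [hc, pow_mul, h1, one_pow])
    exact ⟨z, (algebraMap K L).injective (by rw [map_pow, hz, h1, map_one]),
      by rw [hz, div_mul_cancel₀ _ (zpow_ne_zero _ (hy0 i))]⟩
  have hyA : ∀ i, y i ∈ ab k L := fun i a b => by
    obtain ⟨za, ha, ha'⟩ := key i a
    obtain ⟨zb, hb, hb'⟩ := key i b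
    rw [hb', map_mul, map_zpow₀, ha', map_mul, map_zpow₀, hb', ← AlgEquiv.restrictNormal_commutes,
      ← AlgEquiv.restrictNormal_commutes, hz i _ _ ha, hz i _ _ hb, map_zpow₀, map_zpow₀, mul_zpow,
      mul_zpow, ← zpow_mul, ← zpow_mul, mul_comm (sgn i _)]
    ring
  have hu : algebraMap K L (v : K) * ∏ i, y i ^ n i ≠ 0 :=
    mul_ne_zero ((map_ne_zero _).mpr (NumberField.Units.coe_ne_zero v))
      (Finset.prod_ne_zero_iff.mpr fun i _ => zpow_ne_zero _ (hy0 i))
  obtain ⟨ξ, hξ⟩ := root_mem K L (z := x / (algebraMap K L (v : K) * ∏ i, y i ^ n i)) (by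
    rw [div_pow, div_eq_one_iff_eq (pow_ne_zero _ hu), hx, NumberField.Units.coe_mul, map_mul,
      NumberField.Units.coe_pow, map_pow, mul_pow, ← Finset.prod_pow]
    congr 1
    have : ∀ f : ι → (𝓞 K)ˣ, ((∏ i, f i : (𝓞 K)ˣ) : K) = ∏ i, (f i : K) := fun f => by simp
    rw [this, map_prod]
    refine Finset.prod_congr rfl fun i _ => ?_
    rw [NumberField.Units.coe_zpow, map_zpow₀, ← hy, ← zpow_natCast, ← zpow_natCast, ← zpow_mul,
      ← zpow_mul, ← mul_assoc, ← Nat.cast_mul, Nat.mul_div_cancel' (hd i), mul_comm])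
  have hxA : x ∈ ab k L := by
    rw [← div_mul_cancel₀ x hu, ← hξ]
    exact mul_mem (hK _) (mul_mem (hK _) (prod_mem fun i _ => zpow_mem (hyA i) _))
  have hle : ∀ t ∈ IntermediateField.adjoin K {x}, t ∈ ab k L := by
    intro t ht
    induction ht using IntermediateField.adjoin_induction with
    | mem t ht => exact ht ▸ hxA
    | algebraMap t => exact hK t
    | add _ _ _ _ h1 h2 => exact add_mem h1 h2
    | inv _ _ h1 => exact inv_mem h1
    | mul _ _ _ _ h1 h2 => exact mul_mem h1 h2
  exact IsAbelianGalois.of_algHom (M := ab k L)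
    (((IntermediateField.adjoin K {x}).val.restrictScalars k).codRestrict
      (ab k L).toSubalgebra fun t => hle t t.2)

end Pool.Agent.P.MP_29cb78_nt
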