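import Pool.Agent.P.MP_29cb78_nt.Iface

/-!
The local factor of an Artin `L`-series through the induced character.
-/

namespace Pool.Agent.P.MP_29cb78_nt

open NumberField Set Ideal
open scoped Classical

namespace Art1

/-- The series of the logarithm, spread along the multiples of `f`. -/
theorem hasSum_log (a T : ℂ) (f : ℕ) (hf : 0 < f) (ha : ‖a‖ ≤ 1) (hT : ‖T‖ < 1) :
    HasSum (fun m : ℕ => T ^ (m + 1) / (m + 1) *
      (if f ∣ m + 1 then (f : ℂ) * a ^ ((m + 1) / f) else 0)) (-Complex.log (1 - a * T ^ f)) := by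
  have hx : ‖a * T ^ f‖ < 1 := by
    rw [norm_mul, norm_pow]
    have h1 : ‖T‖ ^ f < 1 := pow_lt_one₀ (norm_nonneg _) hT hf.ne'
    have h2 : 0 ≤ ‖T‖ ^ f := by positivity
    nlinarith [norm_nonneg a]
  let F : ℕ → ℂ := fun m => T ^ m / m * (if f ∣ m then (f : ℂ) * a ^ (m / f) else 0)
  have hinj : Function.Injective (fun j : ℕ => f * j) := fun i j h =>
    Nat.eq_of_mul_eq_mul_left hf h
  have hF : HasSum F (-Complex.log (1 - a * T ^ f)) := by
    rw [← hinj.hasSum_iff]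
    · convert Complex.hasSum_taylorSeries_neg_log hx using 2 with j
      have hf' : (f : ℂ) ≠ 0 := by exact_mod_cast hf.ne'
      simp only [Function.comp, F, dvd_mul_right, if_true, Nat.mul_div_cancel_left _ hf,
        Nat.cast_mul, mul_pow, pow_mul]
      by_cases hj : (j : ℂ) = 0
      · simp [hj]
      · field_simp
    · intro m hm
      have : ¬ f ∣ m := fun ⟨j, hj⟩ => hm ⟨j, hj.symm⟩
      simp [F, this]
  have h2 := (hasSum_nat_add_iff' 1).mpr hF
  simpa [F] using h2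

theorem dvd_of_pow_sub_one {q f m : ℕ} (hq : 1 < q) (h : q ^ f - 1 ∣ q ^ m - 1) : f ∣ m := by
  have h1 := Nat.gcd_eq_left h
  rw [Nat.pow_sub_one_gcd_pow_sub_one] at h1
  have h2 : 0 < q ^ Nat.gcd f m := by positivity
  have h3 : 0 < q ^ f := by positivity
  have h4 : q ^ Nat.gcd f m = q ^ f := by omega
  have h5 := Nat.pow_right_injective hq h4
  exact h5 ▸ Nat.gcd_dvd_right f m

/-- If every element satisfies `y = y ^ N` modulo `P` then `N P - 1` divides `N - 1`. -/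
theorem norm_sub_one_dvd {L : Type} [Field L] [NumberField L] (P : Ideal (𝓞 L))
    (hP : P.IsMaximal) (N : ℕ) (hN : 0 < N) (h : ∀ y : 𝓞 L, y - y ^ N ∈ P) :
    absNorm P - 1 ∣ N - 1 := by
  have hP0 : P ≠ ⊥ := Ring.ne_bot_of_isMaximal_of_not_isField hP (RingOfIntegers.not_isField L)
  let : Field (𝓞 L ⧸ P) := Ideal.Quotient.field P
  have : Finite (𝓞 L ⧸ P) := Ideal.finiteQuotientOfFreeOfNeBot P hP0
  let : Fintype (𝓞 L ⧸ P) := Fintype.ofFinite _
  have hc : absNorm P = Fintype.card (𝓞 L ⧸ P) := by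
    rw [absNorm_apply, Submodule.cardQuot_apply, Nat.card_eq_fintype_card]
  rw [hc, ← FiniteField.forall_pow_eq_one_iff]
  intro x
  obtain ⟨y, hy⟩ := Ideal.Quotient.mk_surjective (x : 𝓞 L ⧸ P)
  have h1 : (x : 𝓞 L ⧸ P) = (x : 𝓞 L ⧸ P) ^ N := by
    rw [← hy, ← map_pow]
    exact Ideal.Quotient.eq.mpr (h y)
  have h2 : x = x ^ N := Units.ext (by simpa using h1)
  have h3 : x ^ N = x * x ^ (N - 1) := by
    rw [← pow_succ']
    congr 1
    omega
  rw [h3] at h2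
  exact (left_eq_mul.mp h2)

section

variable {k0 L K : Type} [Field k0] [Field L] [Field K] [NumberField k0] [NumberField L]
  [NumberField K] [Algebra k0 L] [Algebra k0 K] [Algebra L K] [IsScalarTower k0 L K]
  [IsGalois k0 K]

/-- Sum of `Ψ` over the automorphisms that act as `z ↦ z ^ N` modulo `Q`. -/
noncomputable def S (Ψ : Gal(K/k0) → ℂ) (Q : Ideal (𝓞 K)) (N : ℕ) : ℂ :=
  ∑ g : Gal(K/k0), if ∀ z : 𝓞 K, g • z - z ^ N ∈ Q then Ψ g else 0

/-- The number of elements of the inertia group that fix `L`. -/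
noncomputable def e (k0 L : Type) {K : Type} [Field k0] [Field L] [Field K] [NumberField k0]
    [NumberField K] [Algebra k0 K] [Algebra L K] (Q : Ideal (𝓞 K)) : ℕ :=
  (Finset.univ.filter fun g : Gal(K/k0) =>
    g ∈ fixSub k0 L K ∧ g ∈ Q.inertia Gal(K/k0)).card

omit [NumberField k0] [NumberField L] [NumberField K] [Algebra k0 L] [IsScalarTower k0 L K]
  [IsGalois k0 K] in
theorem smul_algebraMap {g : Gal(K/k0)} (hg : g ∈ fixSub k0 L K) (y : 𝓞 L) :
    g • algebraMap (𝓞 L) (𝓞 K) y = algebraMap (𝓞 L) (𝓞 K) y := by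
  apply RingOfIntegers.ext
  exact hg (y : L)

omit [Algebra k0 L] [IsScalarTower k0 L K] [IsGalois k0 K] in
theorem S_eq_zero {Ψ : Gal(K/k0) → ℂ} (hΨ : IsChar k0 L K Ψ) (Q : Ideal (𝓞 K))
    (hQ : Q.IsMaximal) (N : ℕ) (hN : 0 < N) (h : ¬ absNorm (Q.under (𝓞 L)) - 1 ∣ N - 1) :
    S Ψ Q N = 0 := by
  refine Finset.sum_eq_zero fun g _ => ?_
  split_ifs with hg
  · refine hΨ.zero g fun hH => h ?_
    refine norm_sub_one_dvd _ inferInstance N hN fun y => ?_
    have := hg (algebraMap (𝓞 L) (𝓞 K) y)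
    rw [smul_algebraMap hH, ← map_pow, ← map_sub] at this
    exact this
  · rfl

omit [NumberField k0] [NumberField K] [IsGalois k0 K] in
theorem frob_pow {φ : Gal(K/k0)} {Q : Ideal (𝓞 K)} {n : ℕ}
    (hφ : ∀ z : 𝓞 K, φ • z - z ^ n ∈ Q) (j : ℕ) (z : 𝓞 K) : φ ^ j • z - z ^ n ^ j ∈ Q := by
  induction j generalizing z with
  | zero => simp
  | succ j ih =>
    have h1 := Ideal.Quotient.eq.mpr (ih (φ • z))
    have h2 := Ideal.Quotient.eq.mpr (hφ z)
    apply Ideal.Quotient.eq.mp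
    rw [pow_succ, mul_smul, h1, map_pow, h2, ← map_pow, ← pow_mul, pow_succ']

omit [NumberField k0] [NumberField L] [NumberField K] [Algebra k0 L] [IsScalarTower k0 L K]
  [IsGalois k0 K] in
theorem char_mul {Ψ : Gal(K/k0) → ℂ} (hΨ : IsChar k0 L K Ψ) (t : Gal(K/k0)) {g : Gal(K/k0)}
    (hg : g ∈ fixSub k0 L K) : Ψ (t * g) = Ψ t * Ψ g := by
  by_cases ht : t ∈ fixSub k0 L K
  · exact hΨ.mul t ht g hg
  · rw [hΨ.zero t ht, hΨ.zero (t * g), zero_mul]
    intro h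
    exact ht ((Subgroup.mul_mem_cancel_right _ hg).mp h)

omit [NumberField k0] [NumberField L] [NumberField K] [Algebra k0 L] [IsScalarTower k0 L K]
  [IsGalois k0 K] in
theorem char_pow {Ψ : Gal(K/k0) → ℂ} (hΨ : IsChar k0 L K Ψ) {g : Gal(K/k0)}
    (hg : g ∈ fixSub k0 L K) (j : ℕ) : Ψ (g ^ j) = Ψ g ^ j := by
  induction j with
  | zero => simpa using hΨ.one
  | succ j ih => rw [pow_succ, char_mul hΨ _ hg, ih, pow_succ]

omit [Algebra k0 L] [IsScalarTower k0 L K] [IsGalois k0 K] in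
theorem S_eq {Ψ : Gal(K/k0) → ℂ} {A : Ideal (𝓞 L) →* ℂ} (hA : ArtData k0 L K Ψ A)
    (Q : Ideal (𝓞 K)) (hQ : Q.IsMaximal) {φ : Gal(K/k0)} (hφH : φ ∈ fixSub k0 L K)
    (hφ : ∀ z : 𝓞 K, φ • z - z ^ absNorm (Q.under (𝓞 L)) ∈ Q) (j : ℕ) (hj : 0 < j) :
    S Ψ Q (absNorm (Q.under (𝓞 L)) ^ j) = e k0 L Q * A (Q.under (𝓞 L)) ^ j := by
  have hΨ := hA.char
  have key : ∀ t : Gal(K/k0),
      (∀ z : 𝓞 K, (t * φ ^ j) • z - z ^ absNorm (Q.under (𝓞 L)) ^ j ∈ Q) ↔
        t ∈ Q.inertia Gal(K/k0) := by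
    intro t
    constructor
    · intro h z
      have h1 := h ((φ ^ j)⁻¹ • z)
      have h2 := frob_pow hφ j ((φ ^ j)⁻¹ • z)
      rw [mul_smul, smul_inv_smul] at h1
      rw [smul_inv_smul] at h2
      have h3 := Q.sub_mem h1 h2
      rw [sub_sub_sub_cancel_right] at h3
      exact h3
    · intro h z
      have h1 : t • (φ ^ j • z) - φ ^ j • z ∈ Q := h (φ ^ j • z)
      have h3 := Q.add_mem h1 (frob_pow hφ j z)
      rw [sub_add_sub_cancel] at h3
      rw [mul_smul]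
      exact h3
  set U : ℂ := ∑ t : Gal(K/k0), if t ∈ Q.inertia Gal(K/k0) then Ψ t else 0 with hU
  have h1 : S Ψ Q (absNorm (Q.under (𝓞 L)) ^ j) = U * Ψ φ ^ j := by
    rw [S, ← Equiv.sum_comp (Equiv.mulRight (φ ^ j)), hU, Finset.sum_mul]
    refine Finset.sum_congr rfl fun t _ => ?_
    simp only [Equiv.coe_mulRight, key t]
    split_ifs
    · rw [char_mul hΨ _ (pow_mem hφH j), char_pow hΨ hφH]
    · rw [zero_mul]
  rw [h1]
  by_cases hr : ∀ g ∈ fixSub k0 L K, g ∈ Q.inertia Gal(K/k0) → Ψ g = 1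
  · rw [hA.frob Q hQ hr φ hφH hφ]
    congr 1
    rw [hU, e, Finset.card_filter]
    push_cast
    refine Finset.sum_congr rfl fun t _ => ?_
    by_cases ht : t ∈ Q.inertia Gal(K/k0)
    · by_cases htH : t ∈ fixSub k0 L K
      · simp [ht, htH, hr t htH ht]
      · simp [ht, htH, hΨ.zero t htH]
    · simp [ht]
  · push Not at hr
    obtain ⟨t0, ht0H, ht0, hne⟩ := hr
    rw [hA.ram Q hQ ⟨t0, ht0H, ht0, hne⟩, zero_pow hj.ne', mul_zero]
    have h2 : U = U * Ψ t0 := by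
      conv_lhs => rw [hU, ← Equiv.sum_comp (Equiv.mulRight t0)]
      rw [hU, Finset.sum_mul]
      refine Finset.sum_congr rfl fun t _ => ?_
      simp only [Equiv.coe_mulRight, Subgroup.mul_mem_cancel_right _ ht0]
      split_ifs
      · rw [char_mul hΨ _ ht0H]
      · rw [zero_mul]
    have h3 : U = 0 := by
      by_contra h
      exact hne (mul_left_cancel₀ h (h2.symm.trans (mul_one U).symm))
    rw [h3, zero_mul]

omit [NumberField L] in
theorem isGaloisGroup_fixSub : IsGaloisGroup (fixSub k0 L K) L K := by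
  have h : fixSub k0 L K = fixingSubgroup Gal(K/k0) (Set.range (algebraMap L K)) := by
    ext g
    rw [mem_fixingSubgroup_iff]
    constructor
    · rintro hg _ ⟨y, rfl⟩
      exact hg y
    · intro hg y
      exact hg _ ⟨y, rfl⟩
  rw [h]
  exact IsGaloisGroup.of_isScalarTower Gal(K/k0) k0 K L

theorem count_one (P : Ideal (𝓞 L)) (hP : P.IsMaximal) (Q : Ideal (𝓞 K)) [Q.IsPrime]
    [Q.LiesOver P] :
    (P.primesOver (𝓞 K)).ncard * (e k0 L Q * Q.inertiaDeg (𝓞 L)) = Nat.card (fixSub k0 L K) := by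
  have := isGaloisGroup_fixSub (k0 := k0) (L := L) (K := K)
  have : SMulDistribClass (fixSub k0 L K) (𝓞 K) K := ⟨fun g r s => smul_distrib_smul g.1 r s⟩
  have := IsGaloisGroup.of_isFractionRing (fixSub k0 L K) (𝓞 L) (𝓞 K) L K
  have hP0 : P ≠ ⊥ := Ring.ne_bot_of_isMaximal_of_not_isField hP (RingOfIntegers.not_isField L)
  have : Finite (𝓞 L ⧸ P) := Ideal.finiteQuotientOfFreeOfNeBot P hP0
  have h := ncard_primesOver_mul_card_inertia_mul_finrank (G := fixSub k0 L K) P Q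
  rw [← h, mul_assoc]
  congr 2
  rw [e, ← Fintype.card_subtype, ← Nat.card_eq_fintype_card]
  refine Nat.card_congr ⟨fun g => ⟨⟨g.1, g.2.1⟩, fun z => g.2.2 z⟩,
    fun g => ⟨g.1.1, g.1.2, fun z => g.2 z⟩, fun _ => rfl, fun _ => rfl⟩

theorem count_sum (p : Ideal (𝓞 k0)) (hp : p.IsMaximal) (P : Ideal (𝓞 L))
    (hP : P ∈ IsDedekindDomain.primesOverFinset p (𝓞 L)) :
    ∑ Q ∈ (IsDedekindDomain.primesOverFinset p (𝓞 K)).filter (fun Q => Q.under (𝓞 L) = P),
      Q.inertiaDeg (𝓞 k0) * e k0 L Q = P.inertiaDeg (𝓞 k0) * Nat.card (fixSub k0 L K) := by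
  have hp0 : p ≠ ⊥ := Ring.ne_bot_of_isMaximal_of_not_isField hp (RingOfIntegers.not_isField k0)
  obtain ⟨hP1, hP2⟩ := (IsDedekindDomain.mem_primesOverFinset_iff hp0 _).mp hP
  have hPm : P.IsMaximal := IsMaximal.of_liesOver_isMaximal P p
  set F := (IsDedekindDomain.primesOverFinset p (𝓞 K)).filter (fun Q => Q.under (𝓞 L) = P)
    with hF
  have hmem : ∀ Q, Q ∈ F ↔ Q ∈ P.primesOver (𝓞 K) := by
    intro Q
    rw [hF, Finset.mem_filter, IsDedekindDomain.mem_primesOverFinset_iff hp0]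
    constructor
    · rintro ⟨⟨h1, _⟩, h3⟩
      exact ⟨h1, ⟨h3.symm⟩⟩
    · rintro ⟨h1, h2⟩
      exact ⟨⟨h1, LiesOver.trans Q P p⟩, h2.over.symm⟩
  have hcard : F.card = (P.primesOver (𝓞 K)).ncard := by
    rw [← Set.ncard_coe_finset]
    congr 1
    ext Q
    exact hmem Q
  have hpos : 0 < (P.primesOver (𝓞 K)).ncard := by
    obtain ⟨Q, hQ1, hQ2⟩ := (inferInstance : Nonempty (P.primesOver (𝓞 K)))
    rw [← hcard]
    exact Finset.card_pos.mpr ⟨Q, (hmem Q).mpr ⟨hQ1, hQ2⟩⟩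
  apply Nat.eq_of_mul_eq_mul_left hpos
  rw [Finset.mul_sum, Finset.sum_congr rfl
    (g := fun _ => P.inertiaDeg (𝓞 k0) * Nat.card (fixSub k0 L K)), Finset.sum_const, hcard,
    smul_eq_mul]
  intro Q hQ
  obtain ⟨h1, h2⟩ := (hmem Q).mp hQ
  rw [← count_one (k0 := k0) P hPm Q, inertiaDeg_tower (R := 𝓞 k0) P Q]
  ring

theorem frobSum_eq (hE : ARTEX) {Ψ : Gal(K/k0) → ℂ} {A : Ideal (𝓞 L) →* ℂ}
    (hA : ArtData k0 L K Ψ A) (p : Ideal (𝓞 k0)) (hp : p.IsMaximal) (m : ℕ) (hm : 0 < m) :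
    frobSum (fun g => Ψ g / Nat.card (fixSub k0 L K)) p m =
      ∑ P ∈ IsDedekindDomain.primesOverFinset p (𝓞 L),
        if P.inertiaDeg (𝓞 k0) ∣ m then
          (P.inertiaDeg (𝓞 k0) : ℂ) * A P ^ (m / P.inertiaDeg (𝓞 k0)) else 0 := by
  have hp0 : p ≠ ⊥ := Ring.ne_bot_of_isMaximal_of_not_isField hp (RingOfIntegers.not_isField k0)
  have hq : 1 < absNorm p := by
    have h0 : absNorm p ≠ 0 := fun h => hp0 (absNorm_eq_zero_iff.mp h)
    have h1 : absNorm p ≠ 1 := fun h => hp.ne_top (absNorm_eq_one_iff.mp h)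
    omega
  have hH : ((Nat.card (fixSub k0 L K) : ℕ) : ℂ) ≠ 0 := by
    exact_mod_cast (Nat.card_pos (α := fixSub k0 L K)).ne'
  have h1 : frobSum (fun g => Ψ g / Nat.card (fixSub k0 L K)) p m =
      ∑ Q ∈ IsDedekindDomain.primesOverFinset p (𝓞 K),
        (Q.inertiaDeg (𝓞 k0) : ℂ) * S Ψ Q (absNorm p ^ m) / Nat.card (fixSub k0 L K) := by
    refine Finset.sum_congr rfl fun Q _ => ?_
    rw [mul_div_assoc, S, Finset.sum_div]
    congr 1
    refine Finset.sum_congr rfl fun g _ => ?_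
    split_ifs
    · rfl
    · rw [zero_div]
  have hmaps : ∀ Q ∈ IsDedekindDomain.primesOverFinset p (𝓞 K),
      Q.under (𝓞 L) ∈ IsDedekindDomain.primesOverFinset p (𝓞 L) := by
    intro Q hQ
    obtain ⟨h1, h2⟩ := (IsDedekindDomain.mem_primesOverFinset_iff hp0 _).mp hQ
    exact (IsDedekindDomain.mem_primesOverFinset_iff hp0 _).mpr
      ⟨inferInstance, LiesOver.tower_bot Q _ p⟩
  rw [h1, ← Finset.sum_fiberwise_of_maps_to hmaps]
  refine Finset.sum_congr rfl fun P hP => ?_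
  obtain ⟨hP1, hP2⟩ := (IsDedekindDomain.mem_primesOverFinset_iff hp0 _).mp hP
  have hN : absNorm p ^ P.inertiaDeg (𝓞 k0) = absNorm P := absNorm_pow_inertiaDeg p P
  have hf : 0 < P.inertiaDeg (𝓞 k0) := inertiaDeg_pos P _
  have hQm : ∀ Q ∈ (IsDedekindDomain.primesOverFinset p (𝓞 K)).filter
      (fun Q => Q.under (𝓞 L) = P), Q.IsMaximal ∧ Q.under (𝓞 L) = P := by
    intro Q hQ
    obtain ⟨h1, h2⟩ := Finset.mem_filter.mp hQ
    obtain ⟨h3, h4⟩ := (IsDedekindDomain.mem_primesOverFinset_iff hp0 _).mp h1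
    exact ⟨IsMaximal.of_liesOver_isMaximal Q p, h2⟩
  split_ifs with hd
  · obtain ⟨j, rfl⟩ := hd
    have hj : 0 < j := Nat.pos_of_mul_pos_left hm
    rw [Nat.mul_div_cancel_left _ hf, pow_mul, hN]
    have hc := congrArg (Nat.cast : ℕ → ℂ) (count_sum (K := K) p hp P hP)
    push_cast at hc
    rw [← Finset.sum_div, div_eq_iff hH, mul_right_comm, ← hc, Finset.sum_mul]
    refine Finset.sum_congr rfl fun Q hQ => ?_
    obtain ⟨h2, h3⟩ := hQm Q hQ
    obtain ⟨φ, hφH, hφ⟩ := (hE k0 L K).2.1 Q h2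
    have := S_eq hA Q h2 hφH hφ j hj
    rw [h3] at this
    rw [this, mul_assoc]
  · refine Finset.sum_eq_zero fun Q hQ => ?_
    obtain ⟨h2, h3⟩ := hQm Q hQ
    rw [S_eq_zero hA.char Q h2 _ (by positivity), mul_zero, zero_div]
    rw [h3, ← hN]
    exact fun h => hd (dvd_of_pow_sub_one hq h)

end

end Art1

theorem art1 : ARTEX → ART1 := by
  intro hE k0 L K _ _ _ _ _ _ _ _ _ _ _ Ψ A hA p hp T hT
  have hp0 : p ≠ ⊥ := Ring.ne_bot_of_isMaximal_of_not_isField hp (RingOfIntegers.not_isField k0)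
  rw [← Finset.sum_neg_distrib]
  have h := hasSum_sum (s := IsDedekindDomain.primesOverFinset p (𝓞 L)) fun P hP => by
    obtain ⟨hP1, _⟩ := (IsDedekindDomain.mem_primesOverFinset_iff hp0 _).mp hP
    exact Art1.hasSum_log (A P) T (P.inertiaDeg (𝓞 k0)) (inertiaDeg_pos P _) (hA.bound P) hT
  convert h using 2 with m
  rw [Art1.frobSum_eq hE hA p hp (m + 1) m.succ_pos, Finset.mul_sum]

end Pool.Agent.P.MP_29cb78_nt
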