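import Pool.Agent.P.MP_29cb78_nt.Iface

/-! Coefficients of primitive Artin `L`-series of linear characters. -/

set_option linter.unusedSectionVars false

namespace Pool.Agent.P.MP_29cb78_nt

open NumberField Ideal UniqueFactorizationMonoid
open scoped Classical Pointwise

namespace ArtEx

variable {k0 L K : Type} [Field k0] [Field L] [Field K] [NumberField k0] [NumberField L]
  [NumberField K] [Algebra k0 L] [Algebra k0 K] [Algebra L K] [IsScalarTower k0 L K]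
  [IsGalois k0 K]

omit [NumberField k0] [NumberField L] [NumberField K] [Algebra k0 L] [IsScalarTower k0 L K]
  [IsGalois k0 K] in
theorem fixSub_eq :
    fixSub k0 L K = fixingSubgroup Gal(K/k0) (Set.range (algebraMap L K)) := by
  ext g
  rw [mem_fixingSubgroup_iff]
  constructor
  · rintro h _ ⟨y, rfl⟩
    exact h y
  · intro h y
    exact h _ ⟨y, rfl⟩

omit [NumberField L] in
theorem galois : IsGaloisGroup (fixSub k0 L K) L K := by
  rw [fixSub_eq]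
  exact IsGaloisGroup.of_isScalarTower Gal(K/k0) k0 K L

theorem exists_frob (Q : Ideal (𝓞 K)) (hQ : Q.IsMaximal) : ∃ g ∈ fixSub k0 L K,
    ∀ z : 𝓞 K, g • z - z ^ absNorm (Q.under (𝓞 L)) ∈ Q := by
  have := IsGalois.tower_top_of_isGalois k0 L K
  have hQ0 : Q ≠ ⊥ := Ring.ne_bot_of_isMaximal_of_not_isField hQ (RingOfIntegers.not_isField K)
  have : Finite (𝓞 K ⧸ Q) := Ring.HasFiniteQuotients.finiteQuotient hQ0
  obtain ⟨g, hg⟩ := IsArithFrobAt.exists_of_isInvariant (𝓞 L) Gal(K/L) Q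
  refine ⟨g.restrictScalars k0, g.commutes, fun z => ?_⟩
  rw [absNorm_apply, Submodule.cardQuot_apply]
  exact hg z

theorem exists_conj {Q Q' : Ideal (𝓞 K)} (hQ : Q.IsMaximal) (hQ' : Q'.IsMaximal)
    (h : Q.under (𝓞 L) = Q'.under (𝓞 L)) :
    ∃ u ∈ fixSub k0 L K, ∀ z ∈ Q', u⁻¹ • z ∈ Q := by
  have := IsGalois.tower_top_of_isGalois k0 L K
  obtain ⟨u, hu⟩ := Algebra.IsInvariant.exists_smul_of_under_eq (𝓞 L) (𝓞 K) Gal(K/L) Q Q' h
  refine ⟨u.restrictScalars k0, u.commutes, fun z hz => ?_⟩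
  rw [hu, mem_pointwise_smul_iff_inv_smul_mem] at hz
  exact hz

section char
variable {Ψ : Gal(K/k0) → ℂ}

omit [NumberField k0] [NumberField L] [NumberField K] [Algebra k0 L] [IsScalarTower k0 L K]
  [IsGalois k0 K] in
theorem char_conj (hΨ : IsChar k0 L K Ψ) {u g : Gal(K/k0)} (hu : u ∈ fixSub k0 L K)
    (hg : g ∈ fixSub k0 L K) : Ψ (u⁻¹ * g * u) = Ψ g := by
  have h1 := hΨ.mul _ (inv_mem hu) _ hu
  rw [inv_mul_cancel, hΨ.one] at h1
  rw [hΨ.mul _ (mul_mem (inv_mem hu) hg) _ hu, hΨ.mul _ (inv_mem hu) _ hg]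
  linear_combination (-Ψ g) * h1

omit [NumberField L] [Algebra k0 L] [IsScalarTower k0 L K] [IsGalois k0 K] in
theorem char_norm (hΨ : IsChar k0 L K Ψ) {g : Gal(K/k0)} (hg : g ∈ fixSub k0 L K) :
    ‖Ψ g‖ ≤ 1 := by
  have h1 : ∀ n : ℕ, Ψ (g ^ n) = Ψ g ^ n := by
    intro n
    induction n with
    | zero => simpa using hΨ.one
    | succ n ih => rw [pow_succ, hΨ.mul _ (pow_mem hg n) _ hg, ih, pow_succ]
  have h2 := h1 (orderOf g)
  rw [pow_orderOf_eq_one, hΨ.one] at h2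
  exact (Complex.norm_eq_one_of_pow_eq_one h2.symm (orderOf_pos g).ne').le

/-- `Ψ` is unramified at `Q`. -/
def Unr (L : Type) [Field L] [Algebra L K] (Ψ : Gal(K/k0) → ℂ) (Q : Ideal (𝓞 K)) : Prop :=
  ∀ g ∈ fixSub k0 L K, g ∈ Q.inertia Gal(K/k0) → Ψ g = 1

theorem unr_of_under (hΨ : IsChar k0 L K Ψ) {Q Q' : Ideal (𝓞 K)} (hQ : Q.IsMaximal)
    (hQ' : Q'.IsMaximal) (h : Q.under (𝓞 L) = Q'.under (𝓞 L)) (hu : Unr L Ψ Q) : Unr L Ψ Q' := by
  obtain ⟨u, huH, hc⟩ := exists_conj (k0 := k0) hQ hQ' h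
  intro g hg hgi
  rw [← char_conj hΨ huH hg]
  refine hu _ (mul_mem (mul_mem (inv_mem huH) hg) huH) fun z => ?_
  have := hc _ (hgi (u • z))
  simpa [smul_sub, mul_smul] using this

theorem frob_unique (hΨ : IsChar k0 L K Ψ) {Q Q' : Ideal (𝓞 K)} (hQ : Q.IsMaximal)
    (hQ' : Q'.IsMaximal) (h : Q.under (𝓞 L) = Q'.under (𝓞 L)) (hu : Unr L Ψ Q) {N : ℕ}
    {g g' : Gal(K/k0)} (hg : g ∈ fixSub k0 L K) (hg' : g' ∈ fixSub k0 L K)
    (hf : ∀ z : 𝓞 K, g • z - z ^ N ∈ Q) (hf' : ∀ z : 𝓞 K, g' • z - z ^ N ∈ Q') :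
    Ψ g = Ψ g' := by
  obtain ⟨u, huH, hc⟩ := exists_conj (k0 := k0) hQ hQ' h
  have hm : u⁻¹ * g' * u ∈ fixSub k0 L K := mul_mem (mul_mem (inv_mem huH) hg') huH
  have h1 : ∀ z : 𝓞 K, (u⁻¹ * g' * u) • z - z ^ N ∈ Q := by
    intro z
    have := hc _ (hf' (u • z))
    simpa [smul_sub, mul_smul, smul_pow'] using this
  have h2 : Ψ (u⁻¹ * g' * u * g⁻¹) = 1 := by
    refine hu _ (mul_mem hm (inv_mem hg)) fun z => ?_
    have := sub_mem (h1 (g⁻¹ • z)) (hf (g⁻¹ • z))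
    simpa [mul_smul] using this
  have h3 := hΨ.mul _ (mul_mem hm (inv_mem hg)) _ hg
  rw [inv_mul_cancel_right, h2, one_mul, char_conj hΨ huH hg'] at h3
  exact h3.symm

end char

/-- The data that determine the coefficient at `P`. -/
def Dat (Ψ : Gal(K/k0) → ℂ) (P : Ideal (𝓞 L)) (g : Gal(K/k0)) : Prop :=
  g ∈ fixSub k0 L K ∧ ∃ Q : Ideal (𝓞 K), Q.IsMaximal ∧ Q.under (𝓞 L) = P ∧ Unr L Ψ Q ∧
    ∀ z : 𝓞 K, g • z - z ^ absNorm P ∈ Q

/-- The coefficient at a prime. -/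
noncomputable def coef (Ψ : Gal(K/k0) → ℂ) (P : Ideal (𝓞 L)) : ℂ :=
  if h : ∃ g, Dat Ψ P g then Ψ h.choose else 0

/-- The multiplicative extension of a function on primes. -/
noncomputable def ext (a : Ideal (𝓞 L) → ℂ) : Ideal (𝓞 L) →* ℂ where
  toFun I := if I = 0 then 0 else ((normalizedFactors I).map a).prod
  map_one' := by rw [if_neg one_ne_zero, normalizedFactors_one]; simp
  map_mul' I J := by
    by_cases hI : I = 0
    · simp [hI]
    by_cases hJ : J = 0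
    · simp [hJ]
    rw [if_neg hI, if_neg hJ, if_neg (mul_ne_zero hI hJ), normalizedFactors_mul hI hJ,
      Multiset.map_add, Multiset.prod_add]

theorem ext_apply (a : Ideal (𝓞 L) → ℂ) (I : Ideal (𝓞 L)) :
    ext a I = if I = 0 then 0 else ((normalizedFactors I).map a).prod := rfl

theorem ext_prime (a : Ideal (𝓞 L) → ℂ) {P : Ideal (𝓞 L)} (hP : P.IsMaximal) :
    ext a P = a P := by
  have h0 : P ≠ ⊥ := Ring.ne_bot_of_isMaximal_of_not_isField hP (RingOfIntegers.not_isField L)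
  rw [ext_apply, if_neg (show ¬ P = 0 from h0),
    normalizedFactors_irreducible (prime_of_isPrime h0 hP.isPrime).irreducible, normalize_eq]
  simp

theorem ext_norm {a : Ideal (𝓞 L) → ℂ} (ha : ∀ P, ‖a P‖ ≤ 1) (I : Ideal (𝓞 L)) :
    ‖ext a I‖ ≤ 1 := by
  rw [ext_apply]
  split_ifs
  · simp
  · induction normalizedFactors I using Multiset.induction_on with
    | empty => simp
    | cons P s ih =>
      rw [Multiset.map_cons, Multiset.prod_cons, norm_mul]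
      exact mul_le_one₀ (ha P) (norm_nonneg _) ih

theorem exists_data {Ψ : Gal(K/k0) → ℂ} (hΨ : IsChar k0 L K Ψ) :
    ∃ A : Ideal (𝓞 L) →* ℂ, ArtData k0 L K Ψ A := by
  refine ⟨ext (coef Ψ), hΨ, ext_norm fun P => ?_, fun Q hQ hu g hg hf => ?_, fun Q hQ hr => ?_⟩
  · unfold coef
    split_ifs with h
    · exact char_norm hΨ h.choose_spec.1
    · simp
  · have hex : ∃ g, Dat Ψ (Q.under (𝓞 L)) g := ⟨g, hg, Q, hQ, rfl, hu, hf⟩
    rw [ext_prime _ (IsMaximal.under _ Q), coef, dif_pos hex]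
    obtain ⟨h1, Q', hQ', h2, h3, h4⟩ := hex.choose_spec
    exact frob_unique hΨ hQ' hQ h2 h3 h1 hg h4 hf
  · rw [ext_prime _ (IsMaximal.under _ Q), coef, dif_neg]
    rintro ⟨g, -, Q', hQ', h2, h3, -⟩
    obtain ⟨g', hg', hi, hne⟩ := hr
    exact hne (unr_of_under hΨ hQ' hQ h2 h3 g' hg' hi)

end ArtEx

theorem artex : ARTEX := by
  intro k0 L K _ _ _ _ _ _ _ _ _ _ _
  refine ⟨?_, ArtEx.exists_frob, fun Ψ hΨ => ArtEx.exists_data hΨ⟩
  have := ArtEx.galois (k0 := k0) (L := L) (K := K)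
  exact IsGaloisGroup.card_eq_finrank _ L K

end Pool.Agent.P.MP_29cb78_nt
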