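import Pool.Agent.P.MP_29cb78_nt.Iface

/-!
Invariance of Artin `L`-series under induction, from the Euler product and the local factors.
-/

namespace Pool.Agent.P.MP_29cb78_nt

open NumberField NumberField.InfinitePlace NumberField.Units MeasureTheory Set Ideal
open scoped Classical Real Matrix nonZeroDivisors Pointwise

noncomputable section

namespace Artin

section Frob

variable {k0 K : Type} [Field k0] [Field K] [NumberField k0] [NumberField K] [Algebra k0 K]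

theorem frobSum_comb (W1 W2 W3 : Gal(K/k0) → ℂ) (p : Ideal (𝓞 k0)) (m : ℕ) :
    frobSum (fun g => W1 g + W2 g - W3 g) p m =
      frobSum W1 p m + frobSum W2 p m - frobSum W3 p m := by
  unfold frobSum
  rw [← Finset.sum_add_distrib, ← Finset.sum_sub_distrib]
  refine Finset.sum_congr rfl fun Q _ => ?_
  rw [← mul_add, ← mul_sub, ← Finset.sum_add_distrib, ← Finset.sum_sub_distrib]
  congr 1
  refine Finset.sum_congr rfl fun g _ => ?_
  split_ifs <;> simp

theorem frobSum_sum (W : Gal(K/k0) → Gal(K/k0) → ℂ) (p : Ideal (𝓞 k0)) (m : ℕ) :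
    frobSum (fun x => ∑ g, W g x) p m = ∑ g, frobSum (W g) p m := by
  unfold frobSum
  rw [Finset.sum_comm]
  refine Finset.sum_congr rfl fun Q _ => ?_
  rw [← Finset.mul_sum, Finset.sum_comm]
  congr 1
  refine Finset.sum_congr rfl fun g _ => ?_
  split_ifs <;> simp

theorem frobSum_zero (p : Ideal (𝓞 k0)) (m : ℕ) :
    frobSum (fun _ : Gal(K/k0) => (0 : ℂ)) p m = 0 := by
  unfold frobSum
  simp

omit [NumberField k0] [NumberField K] in
theorem cond_iff (g x : Gal(K/k0)) (Q : Ideal (𝓞 K)) (n : ℕ) :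
    (∀ z : 𝓞 K, (g * x * g⁻¹) • z - z ^ n ∈ g • Q) ↔ ∀ z : 𝓞 K, x • z - z ^ n ∈ Q := by
  constructor
  · intro h z
    have h1 := h (g • z)
    rw [mul_smul, inv_smul_smul, mul_smul, ← smul_pow', ← smul_sub,
      Ideal.smul_mem_pointwise_smul_iff] at h1
    exact h1
  · intro h z
    have h1 := h (g⁻¹ • z)
    rw [Ideal.mem_pointwise_smul_iff_inv_smul_mem, smul_sub, smul_pow', ← mul_smul, ← mul_assoc,
      ← mul_assoc, inv_mul_cancel, one_mul, mul_smul]
    exact h1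

omit [NumberField k0] [NumberField K] in
theorem smulComm : SMulCommClass Gal(K/k0) (𝓞 k0) (𝓞 K) := ⟨fun g a z => by
  rw [Algebra.smul_def, Algebra.smul_def, smul_mul']
  congr 1
  apply Subtype.ext
  exact g.commutes (a : k0)⟩

omit [NumberField k0] in
theorem smul_mem (g : Gal(K/k0)) (p : Ideal (𝓞 k0)) [p.IsMaximal] (hp : p ≠ ⊥) (Q : Ideal (𝓞 K))
    (hQ : Q ∈ IsDedekindDomain.primesOverFinset p (𝓞 K)) :
    g • Q ∈ IsDedekindDomain.primesOverFinset p (𝓞 K) := by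
  rw [IsDedekindDomain.mem_primesOverFinset_iff hp] at hQ ⊢
  obtain ⟨h1, h2⟩ := hQ
  have := smulComm (k0 := k0) (K := K)
  exact ⟨inferInstance, inferInstance⟩

theorem frobSum_conj (W : Gal(K/k0) → ℂ) (g : Gal(K/k0)) (p : Ideal (𝓞 k0)) [p.IsMaximal]
    (hp : p ≠ ⊥) (m : ℕ) :
    frobSum (fun x => W (g * x * g⁻¹)) p m = frobSum W p m := by
  unfold frobSum
  refine Finset.sum_nbij' (fun Q => g • Q) (fun Q => g⁻¹ • Q) (fun Q hQ => smul_mem g p hp Q hQ)
    (fun Q hQ => smul_mem g⁻¹ p hp Q hQ) (fun Q _ => inv_smul_smul g Q)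
    (fun Q _ => smul_inv_smul g Q) fun Q _ => ?_
  have := smulComm (k0 := k0) (K := K)
  rw [Ideal.inertiaDeg_smul]
  congr 1
  refine Fintype.sum_equiv (MulAut.conj g).toEquiv _ _ fun x => ?_
  have h := cond_iff g x Q (absNorm p ^ m)
  simp only [MulEquiv.toEquiv_eq_coe, EquivLike.coe_coe, MulAut.conj_apply]
  by_cases hc : ∀ z : 𝓞 K, x • z - z ^ (absNorm p ^ m) ∈ Q
  · rw [if_pos hc, if_pos (h.2 hc)]
  · rw [if_neg hc, if_neg (fun h' => hc (h.1 h'))]

theorem frobSum_eq_zero (W : Gal(K/k0) → ℂ) (hW : ∀ x, ∑ g : Gal(K/k0), W (g * x * g⁻¹) = 0)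
    (p : Ideal (𝓞 k0)) [p.IsMaximal] (hp : p ≠ ⊥) (m : ℕ) : frobSum W p m = 0 := by
  have h1 := frobSum_sum (fun g x => W (g * x * g⁻¹)) p m
  simp only [hW, frobSum_zero, frobSum_conj W _ p hp m, Finset.sum_const, Finset.card_univ,
    nsmul_eq_mul] at h1
  have h2 : (Fintype.card Gal(K/k0) : ℂ) ≠ 0 := by exact_mod_cast Fintype.card_ne_zero
  exact (mul_eq_zero.1 h1.symm).resolve_left h2

end Frob

section Fibre

variable {k0 L : Type} [Field k0] [Field L] [NumberField k0] [NumberField L] [Algebra k0 L]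

theorem norm_lt (p : IsDedekindDomain.HeightOneSpectrum (𝓞 k0)) (s : ℂ) (hs : 1 < s.re) :
    ‖(absNorm p.asIdeal : ℂ) ^ (-s)‖ < 1 := by
  have h0 : absNorm p.asIdeal ≠ 0 := by
    rw [Ne, Ideal.absNorm_eq_zero_iff]
    exact p.ne_bot
  have h1 : absNorm p.asIdeal ≠ 1 := by
    rw [Ne, Ideal.absNorm_eq_one_iff]
    exact p.isPrime.ne_top
  have h2 : (1 : ℝ) < absNorm p.asIdeal := by
    have : 1 < absNorm p.asIdeal := by omega
    exact_mod_cast this
  rw [Complex.norm_natCast_cpow_of_pos (Nat.pos_of_ne_zero h0)]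
  refine Real.rpow_lt_one_of_one_lt_of_neg h2 ?_
  rw [Complex.neg_re]
  linarith

theorem pow_eq (p : IsDedekindDomain.HeightOneSpectrum (𝓞 k0)) (P : Ideal (𝓞 L))
    (hP : P ∈ IsDedekindDomain.primesOverFinset p.asIdeal (𝓞 L)) (s : ℂ) :
    ((absNorm p.asIdeal : ℂ) ^ (-s)) ^ P.inertiaDeg (𝓞 k0) = (absNorm P : ℂ) ^ (-s) := by
  have := p.isMaximal
  rw [IsDedekindDomain.mem_primesOverFinset_iff p.ne_bot] at hP
  obtain ⟨h1, h2⟩ := hP
  rw [← Ideal.absNorm_pow_inertiaDeg p.asIdeal P, Nat.cast_pow, ← Complex.cpow_nat_mul,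
    Complex.natCast_cpow_natCast_mul]

theorem hasSum_fibre (F : Ideal (𝓞 L) → ℂ)
    (hF : Summable (fun P : IsDedekindDomain.HeightOneSpectrum (𝓞 L) => F P.asIdeal)) :
    HasSum (fun p : IsDedekindDomain.HeightOneSpectrum (𝓞 k0) =>
      ∑ P ∈ IsDedekindDomain.primesOverFinset p.asIdeal (𝓞 L), F P)
      (∑' P : IsDedekindDomain.HeightOneSpectrum (𝓞 L), F P.asIdeal) := by
  have h1 := (Equiv.sigmaFiberEquiv (IsDedekindDomain.HeightOneSpectrum.under (𝓞 k0)
    (B := 𝓞 L))).hasSum_iff.2 hF.hasSum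
  refine h1.sigma fun p => ?_
  have := p.isMaximal
  have h2 := (IsDedekindDomain.primesOverFinset p.asIdeal (𝓞 L)).hasSum F
  let e : {P : IsDedekindDomain.HeightOneSpectrum (𝓞 L) //
      IsDedekindDomain.HeightOneSpectrum.under (𝓞 k0) P = p} ≃
      {P : Ideal (𝓞 L) // P ∈ IsDedekindDomain.primesOverFinset p.asIdeal (𝓞 L)} :=
    { toFun := fun P => ⟨P.1.asIdeal, by
        rw [IsDedekindDomain.mem_primesOverFinset_iff p.ne_bot]
        exact ⟨P.1.isPrime, ⟨(congrArg IsDedekindDomain.HeightOneSpectrum.asIdeal P.2).symm⟩⟩⟩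
      invFun := fun P => ⟨⟨P.1,
        ((IsDedekindDomain.mem_primesOverFinset_iff p.ne_bot _).1 P.2).1,
        Ideal.ne_bot_of_mem_primesOver p.ne_bot
          ((IsDedekindDomain.mem_primesOverFinset_iff p.ne_bot _).1 P.2)⟩, by
        ext1
        exact ((IsDedekindDomain.mem_primesOverFinset_iff p.ne_bot _).1 P.2).2.over.symm⟩
      left_inv := fun P => rfl
      right_inv := fun P => rfl }
  exact e.hasSum_iff.2 h2

end Fibre

end Artin

theorem artin : EULER → ART1 → ARTIN := by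
  intro hE h1 k0 K L1 L2 L3 _ _ _ _ _ _ _ _ _ _ _ _ _ _ _ _ _ _ _ _ _ Ψ1 Ψ2 Ψ3 A1 A2 A3 d1 d2 d3
    hx s hs
  obtain ⟨s1, e1⟩ := hE L1 A1 d1.bound s hs
  obtain ⟨s2, e2⟩ := hE L2 A2 d2.bound s hs
  obtain ⟨s3, e3⟩ := hE L3 A3 d3.bound s hs
  have f1 := Artin.hasSum_fibre (k0 := k0)
    (fun P => Complex.log (1 - A1 P * (absNorm P : ℂ) ^ (-s))) s1
  have f2 := Artin.hasSum_fibre (k0 := k0)
    (fun P => Complex.log (1 - A2 P * (absNorm P : ℂ) ^ (-s))) s2
  have f3 := Artin.hasSum_fibre (k0 := k0)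
    (fun P => Complex.log (1 - A3 P * (absNorm P : ℂ) ^ (-s))) s3
  have key : ∀ p : IsDedekindDomain.HeightOneSpectrum (𝓞 k0),
      ∑ P ∈ IsDedekindDomain.primesOverFinset p.asIdeal (𝓞 L1),
          Complex.log (1 - A1 P * (absNorm P : ℂ) ^ (-s)) +
        ∑ P ∈ IsDedekindDomain.primesOverFinset p.asIdeal (𝓞 L2),
          Complex.log (1 - A2 P * (absNorm P : ℂ) ^ (-s)) =
        ∑ P ∈ IsDedekindDomain.primesOverFinset p.asIdeal (𝓞 L3),
          Complex.log (1 - A3 P * (absNorm P : ℂ) ^ (-s)) := by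
    intro p
    have hm := p.isMaximal
    have hT := Artin.norm_lt p s hs
    have a1 := h1 k0 L1 K Ψ1 A1 d1 p.asIdeal hm _ hT
    have a2 := h1 k0 L2 K Ψ2 A2 d2 p.asIdeal hm _ hT
    have a3 := h1 k0 L3 K Ψ3 A3 d3 p.asIdeal hm _ hT
    rw [Finset.sum_congr rfl fun P hP => by rw [Artin.pow_eq p P hP s]] at a1 a2 a3
    have a4 := (a1.add a2).sub a3
    have hz : ∀ m : ℕ,
        frobSum (fun g => Ψ1 g / Nat.card (fixSub k0 L1 K)) p.asIdeal m +
          frobSum (fun g => Ψ2 g / Nat.card (fixSub k0 L2 K)) p.asIdeal m -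
          frobSum (fun g => Ψ3 g / Nat.card (fixSub k0 L3 K)) p.asIdeal m = 0 := fun m => by
      rw [← Artin.frobSum_comb]
      exact Artin.frobSum_eq_zero _ hx p.asIdeal p.ne_bot m
    simp only [← mul_add, ← mul_sub, hz, mul_zero] at a4
    have a5 := a4.unique hasSum_zero
    linear_combination -a5
  have f4 := f1.add f2
  simp only [key] at f4
  have f5 := f4.unique f3
  rw [e1, e2, e3, ← Complex.exp_add, ← f5, neg_add]

end

end Pool.Agent.P.MP_29cb78_nt
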