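import Pool.Agent.P.MP_29cb78_nt.Iface

/-!
Series over ideals versus `LSeries`, and removal of finitely many Euler factors.
-/

namespace Pool.Agent.P.MP_29cb78_nt

open NumberField NumberField.InfinitePlace NumberField.Units MeasureTheory Set Ideal Filter
open scoped Classical Real Matrix nonZeroDivisors Topology

namespace Diri

variable (L : Type) [Field L] [NumberField L]

theorem tendsto_count : ∃ c : ℝ, Tendsto (fun n : ℕ =>
    (∑ k ∈ Finset.Icc 1 n, (Nat.card {I : Ideal (𝓞 L) // absNorm I = k} : ℝ)) / n) atTop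
      (𝓝 c) := by
  refine ⟨_, ((NumberField.Ideal.tendsto_norm_le_div_atTop₀ L).comp
    tendsto_natCast_atTop_atTop).congr fun n ↦ ?_⟩
  simp only [Function.comp_apply, Nat.cast_le, ← Nat.cast_sum]
  congr
  rw [← add_left_inj 1, ← card_norm_le_eq_card_norm_le_add_one,
    show Finset.Icc 1 n = Finset.Ioc 0 n from Finset.Icc_succ_left_eq_Ioc _ _,
    show 1 = Nat.card {I : Ideal (𝓞 L) // absNorm I = 0} by simp [Ideal.absNorm_eq_zero_iff],
    Finset.sum_Ioc_add_eq_sum_Icc (n.zero_le),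
    ← Finset.card_preimage_eq_sum_card_image_eq (fun k _ ↦ finite_setOfPred_absNorm_eq k)]
  simp [Set.coe_eq_subtype]

theorem lsummable (s : ℂ) (hs : 1 < s.re) :
    LSeriesSummable (fun n => (Nat.card {I : Ideal (𝓞 L) // absNorm I = n} : ℂ)) s := by
  obtain ⟨c, hc⟩ := tendsto_count L
  have hO : (fun n : ℕ => ∑ k ∈ Finset.Icc 1 n,
      (Nat.card {I : Ideal (𝓞 L) // absNorm I = k} : ℝ)) =O[atTop] fun n ↦ (n : ℝ) ^ (1 : ℝ) := by
    simp_rw [Real.rpow_one]
    refine Asymptotics.isBigO_of_div_tendsto_nhds ?_ c hc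
    filter_upwards [eventually_ne_atTop 0] with n hn h
    exact absurd (Nat.cast_eq_zero.mp h) hn
  have h := LSeriesSummable_of_sum_norm_bigO_and_nonneg hO (fun _ => Nat.cast_nonneg _)
    zero_le_one hs
  simpa using h

instance finFib (n : ℕ) : Finite {I : Ideal (𝓞 L) // absNorm I = n} :=
  (finite_setOfPred_absNorm_eq (S := 𝓞 L) n).to_subtype

theorem term_eq (a : ℕ → ℂ) (s : ℂ) (hs : s ≠ 0) (n : ℕ) :
    LSeries.term a s n = a n * (n : ℂ) ^ (-s) := by
  rcases eq_or_ne n 0 with rfl | hn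
  · simp [Complex.zero_cpow (neg_ne_zero.mpr hs)]
  · rw [LSeries.term_of_ne_zero hn, Complex.cpow_neg, div_eq_mul_inv]

theorem summable_norm (s : ℂ) (hs : 1 < s.re) :
    Summable (fun I : Ideal (𝓞 L) => ‖(absNorm I : ℂ) ^ (-s)‖) := by
  have hs0 : s ≠ 0 := fun h => by rw [h] at hs; simp at hs; linarith
  rw [← (Equiv.sigmaFiberEquiv (fun I : Ideal (𝓞 L) => absNorm I)).summable_iff]
  refine (summable_sigma_of_nonneg (fun _ => norm_nonneg _)).mpr ⟨fun n => Summable.of_finite, ?_⟩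
  refine (lsummable L s hs).norm.congr fun n => ?_
  have := Fintype.ofFinite {I : Ideal (𝓞 L) // absNorm I = n}
  rw [term_eq _ s hs0, norm_mul, tsum_fintype]
  have h1 : ∀ y : {I : Ideal (𝓞 L) // absNorm I = n},
      ‖(absNorm ((Equiv.sigmaFiberEquiv (fun I : Ideal (𝓞 L) => absNorm I)) ⟨n, y⟩) : ℂ) ^ (-s)‖ =
        ‖(n : ℂ) ^ (-s)‖ := fun y => by
    simp [Equiv.sigmaFiberEquiv, y.2]
  rw [Finset.sum_congr rfl fun y _ => h1 y]
  simp [Nat.card_eq_fintype_card]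

theorem lseries_eq (s : ℂ) (hs : 1 < s.re) (p : Ideal (𝓞 L) → Prop) :
    LSeries (fun n => (Nat.card {I : Ideal (𝓞 L) // p I ∧ absNorm I = n} : ℂ)) s =
      Lser (fun I => if p I then 1 else 0) s := by
  have hs0 : s ≠ 0 := fun h => by rw [h] at hs; simp at hs; linarith
  have hsum : Summable (fun I : Ideal (𝓞 L) =>
      (if p I then (1 : ℂ) else 0) * (absNorm I : ℂ) ^ (-s)) := by
    refine Summable.of_norm_bounded (summable_norm L s hs) fun I => ?_
    by_cases h : p I <;> simp [h]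
  have hf := hsum.hasSum.tsum_fiberwise (fun I : Ideal (𝓞 L) => absNorm I)
  unfold Lser LSeries
  rw [← hf.tsum_eq]
  refine tsum_congr fun n => ?_
  rw [term_eq _ s hs0]
  have hfin : Finite ((fun I : Ideal (𝓞 L) => absNorm I) ⁻¹' {n}) := finFib L n
  have := Fintype.ofFinite ((fun I : Ideal (𝓞 L) => absNorm I) ⁻¹' {n})
  rw [tsum_fintype]
  have h1 : ∀ y : ((fun I : Ideal (𝓞 L) => absNorm I) ⁻¹' {n}),
      (if p y then (1 : ℂ) else 0) * (absNorm (y : Ideal (𝓞 L)) : ℂ) ^ (-s) =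
        (if p y then (1 : ℂ) else 0) * (n : ℂ) ^ (-s) := fun y => by
    have : absNorm (y : Ideal (𝓞 L)) = n := y.2
    rw [this]
  simp_rw [h1]
  rw [← Finset.sum_mul]
  congr 1
  rw [Finset.sum_boole]
  congr 1
  rw [← Fintype.card_subtype, ← Nat.card_eq_fintype_card]
  refine Nat.card_congr ⟨fun x => ⟨⟨x.1, x.2.2⟩, x.2.1⟩, fun x => ⟨x.1.1, x.2, x.1.2⟩,
    fun _ => rfl, fun _ => rfl⟩

variable {L}

theorem one_sub_ne (A : Ideal (𝓞 L) →* ℂ) (hA : ∀ I, ‖A I‖ ≤ 1) (s : ℂ) (hs : 1 < s.re)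
    (P : IsDedekindDomain.HeightOneSpectrum (𝓞 L)) :
    1 - A P.asIdeal * (absNorm P.asIdeal : ℂ) ^ (-s) ≠ 0 := by
  have h0 : absNorm P.asIdeal ≠ 0 := by
    rw [Ne, Ideal.absNorm_eq_zero_iff]; exact P.ne_bot
  have h1 : absNorm P.asIdeal ≠ 1 := by
    rw [Ne, Ideal.absNorm_eq_one_iff]; exact P.isPrime.ne_top
  have h2 : (1 : ℝ) < absNorm P.asIdeal := by
    have : 1 < absNorm P.asIdeal := by omega
    exact_mod_cast this
  have h3 : ‖(absNorm P.asIdeal : ℂ) ^ (-s)‖ < 1 := by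
    rw [Complex.norm_natCast_cpow_of_pos (Nat.pos_of_ne_zero h0)]
    exact Real.rpow_lt_one_of_one_lt_of_neg h2 (by simp; linarith)
  have h4 : ‖A P.asIdeal * (absNorm P.asIdeal : ℂ) ^ (-s)‖ < 1 := by
    rw [norm_mul]
    calc _ ≤ 1 * ‖(absNorm P.asIdeal : ℂ) ^ (-s)‖ := by gcongr; exact hA _
      _ < 1 := by rwa [one_mul]
  intro h
  rw [sub_eq_zero] at h
  rw [← h] at h4
  simp at h4

end Diri

theorem diri : DIRI := fun L _ _ s hs =>
  ⟨Diri.summable_norm L s hs, Diri.lsummable L s hs, Diri.lseries_eq L s hs⟩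

theorem corr : EULER → CORR := by
  intro hE L _ _ A A' f hf hA hA' hP s hs
  obtain ⟨hs1, he1⟩ := hE L A hA s hs
  obtain ⟨hs2, he2⟩ := hE L A' hA' s hs
  have hfin : {P : IsDedekindDomain.HeightOneSpectrum (𝓞 L) | f ≤ P.asIdeal}.Finite := by
    have := Ideal.finite_factors (I := f) hf
    simpa [Ideal.dvd_iff_le] using this
  set T := hfin.toFinset with hT
  have hmem : ∀ P, P ∈ T ↔ f ≤ P.asIdeal := fun P => by simp [hT]
  have hdiff : ∑' P : IsDedekindDomain.HeightOneSpectrum (𝓞 L),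
      Complex.log (1 - A P.asIdeal * (absNorm P.asIdeal : ℂ) ^ (-s)) -
      ∑' P : IsDedekindDomain.HeightOneSpectrum (𝓞 L),
      Complex.log (1 - A' P.asIdeal * (absNorm P.asIdeal : ℂ) ^ (-s)) =
      ∑ P ∈ T, Complex.log (1 - A P.asIdeal * (absNorm P.asIdeal : ℂ) ^ (-s)) := by
    rw [← hs1.tsum_sub hs2, tsum_eq_sum (s := T)]
    · refine Finset.sum_congr rfl fun P hPT => ?_
      rw [hP P.asIdeal P.isMaximal, if_pos ((hmem P).mp hPT)]
      simp
    · intro P hPT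
      rw [hP P.asIdeal P.isMaximal, if_neg (fun h => hPT ((hmem P).mpr h)), sub_self]
  have hprod : ∏ P ∈ pdiv f, (1 - A P * (absNorm P : ℂ) ^ (-s)) =
      ∏ P ∈ T, (1 - A P.asIdeal * (absNorm P.asIdeal : ℂ) ^ (-s)) := by
    symm
    refine Finset.prod_bij (fun P _ => P.asIdeal) ?_ ?_ ?_ (fun _ _ => rfl)
    · intro P hPT
      simp only [pdiv, Multiset.mem_toFinset]
      exact (Ideal.mem_normalizedFactors_iff hf).mpr ⟨P.isPrime, (hmem P).mp hPT⟩
    · intro P _ Q _ h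
      exact IsDedekindDomain.HeightOneSpectrum.ext h
    · intro P hPf
      simp only [pdiv, Multiset.mem_toFinset] at hPf
      obtain ⟨h1, h2⟩ := (Ideal.mem_normalizedFactors_iff hf).mp hPf
      have h3 : P ≠ ⊥ := fun h => hf (le_bot_iff.mp (h ▸ h2))
      exact ⟨⟨P, h1, h3⟩, (hmem _).mpr h2, rfl⟩
  rw [he1, he2, hprod]
  have hexp : ∏ P ∈ T, (1 - A P.asIdeal * (absNorm P.asIdeal : ℂ) ^ (-s)) =
      Complex.exp (∑ P ∈ T, Complex.log (1 - A P.asIdeal * (absNorm P.asIdeal : ℂ) ^ (-s))) := by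
    rw [Complex.exp_sum]
    exact Finset.prod_congr rfl fun P _ => (Complex.exp_log (Diri.one_sub_ne A hA s hs P)).symm
  rw [hexp, ← Complex.exp_add, ← hdiff]
  congr 1
  ring

end Pool.Agent.P.MP_29cb78_nt
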