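import Pool.Agent.P.MP_29cb78_nt.Iface

/-!
The Euler product over the prime ideals of a number field, by sieving.
-/

namespace Pool.Agent.P.MP_29cb78_nt

open NumberField Ideal IsDedekindDomain Filter Topology
open scoped Classical

namespace Euler

variable {R : Type} [CommRing R] [IsDedekindDomain R]

/-- The sum over the ideals prime to the primes in `S`. -/
noncomputable def sieve (F : Ideal R → ℂ) (S : Finset (HeightOneSpectrum R)) : ℂ :=
  ∑' I : Ideal R, if ∀ P ∈ S, ¬ P.asIdeal ∣ I then F I else 0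

omit [IsDedekindDomain R] in
theorem summable_ite {F : Ideal R → ℂ} (hF : Summable fun I => ‖F I‖) (p : Ideal R → Prop)
    [DecidablePred p] : Summable fun I => if p I then F I else 0 := by
  refine Summable.of_norm_bounded hF fun I => ?_
  split_ifs <;> simp

theorem not_dvd_of_ne {P Q : HeightOneSpectrum R} (h : Q ≠ P) : ¬ Q.asIdeal ∣ P.asIdeal := by
  intro hd
  apply h
  have h1 : P.asIdeal ≤ Q.asIdeal := Ideal.le_of_dvd hd
  have h2 := P.isMaximal.eq_of_le Q.isPrime.ne_top h1
  exact HeightOneSpectrum.ext h2.symm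

theorem sieve_insert {F : Ideal R → ℂ} (hF : Summable fun I => ‖F I‖)
    (hm : ∀ I J, F (I * J) = F I * F J) (S : Finset (HeightOneSpectrum R))
    (P : HeightOneSpectrum R) (hP : P ∉ S) :
    sieve F (insert P S) = (1 - F P.asIdeal) * sieve F S := by
  have h1 : sieve F S = sieve F (insert P S) +
      ∑' I : Ideal R, if (∀ Q ∈ S, ¬ Q.asIdeal ∣ I) ∧ P.asIdeal ∣ I then F I else 0 := by
    unfold sieve
    rw [← (summable_ite hF _).tsum_add (summable_ite hF _)]
    refine tsum_congr fun I => ?_
    by_cases h : ∀ Q ∈ S, ¬ Q.asIdeal ∣ I <;> by_cases h' : P.asIdeal ∣ I <;>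
      simp [h, h']
  have h2 : (∑' I : Ideal R, if (∀ Q ∈ S, ¬ Q.asIdeal ∣ I) ∧ P.asIdeal ∣ I then F I else 0) =
      F P.asIdeal * sieve F S := by
    unfold sieve
    rw [← tsum_mul_left]
    have hinj : Function.Injective fun J : Ideal R => P.asIdeal * J :=
      mul_right_injective₀ P.ne_bot
    rw [← hinj.tsum_eq]
    · refine tsum_congr fun J => ?_
      have : (∀ Q ∈ S, ¬ Q.asIdeal ∣ P.asIdeal * J) ↔ ∀ Q ∈ S, ¬ Q.asIdeal ∣ J := by
        refine forall₂_congr fun Q hQ => not_congr ?_
        have hne : Q ≠ P := fun h => hP (h ▸ hQ)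
        rw [Q.prime.dvd_mul]
        simp [not_dvd_of_ne hne]
      by_cases h : ∀ Q ∈ S, ¬ Q.asIdeal ∣ J
      · simp only [this, hm]
        simp
      · simp only [this, h]
        simp
    · intro I hI
      have : P.asIdeal ∣ I := by
        by_contra h
        simp [h] at hI
      obtain ⟨J, rfl⟩ := this
      exact ⟨J, rfl⟩
  rw [h2] at h1
  linear_combination -h1

theorem sieve_eq {F : Ideal R → ℂ} (hF : Summable fun I => ‖F I‖)
    (hm : ∀ I J, F (I * J) = F I * F J) (S : Finset (HeightOneSpectrum R)) :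
    sieve F S = (∏ P ∈ S, (1 - F P.asIdeal)) * ∑' I, F I := by
  induction S using Finset.induction_on with
  | empty => simp [sieve]
  | insert P S hP ih => rw [sieve_insert hF hm S P hP, Finset.prod_insert hP, ih, mul_assoc]

theorem sieve_tendsto {F : Ideal R → ℂ} (hF : Summable fun I => ‖F I‖) (h0 : F ⊥ = 0) :
    Tendsto (sieve F) atTop (𝓝 (F ⊤)) := by
  have : F ⊤ = ∑' I : Ideal R, if I = ⊤ then F I else 0 := by
    rw [tsum_eq_single ⊤] <;> simp +contextual
  rw [this]
  refine tendsto_tsum_of_dominated_convergence hF (fun I => ?_) (.of_forall fun S I => ?_)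
  · by_cases hI : I = ⊤
    · subst hI
      have : ∀ S : Finset (HeightOneSpectrum R), ∀ P ∈ S, ¬ P.asIdeal ∣ (⊤ : Ideal R) := by
        intro S P _ h
        exact P.isPrime.ne_top (top_le_iff.mp (Ideal.le_of_dvd h))
      simp only [if_true]
      refine tendsto_const_nhds.congr fun S => ?_
      rw [if_pos (this S)]
    · by_cases hb : I = ⊥
      · subst hb
        simp [h0]
      · obtain ⟨M, hM, hIM⟩ := Ideal.exists_le_maximal I hI
        have hM0 : M ≠ ⊥ := fun h => hb (le_bot_iff.mp (h ▸ hIM))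
        let P : HeightOneSpectrum R := ⟨M, hM.isPrime, hM0⟩
        rw [if_neg hI]
        refine tendsto_const_nhds.congr' ?_
        filter_upwards [eventually_ge_atTop ({P} : Finset _)] with S hS
        rw [if_neg]
        intro h
        exact h P (hS (Finset.mem_singleton_self P)) (Ideal.dvd_iff_le.mpr hIM)
  · split_ifs <;> simp

theorem euler_gen {F : Ideal R → ℂ} (hF : Summable fun I => ‖F I‖)
    (hm : ∀ I J, F (I * J) = F I * F J) (h0 : F ⊥ = 0) (h1 : F ⊤ = 1)
    (hne : ∀ P : HeightOneSpectrum R, 1 - F P.asIdeal ≠ 0) :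
    Summable (fun P : HeightOneSpectrum R => Complex.log (1 - F P.asIdeal)) ∧
      ∑' I, F I = Complex.exp (-∑' P : HeightOneSpectrum R, Complex.log (1 - F P.asIdeal)) := by
  have hs : Summable (fun P : HeightOneSpectrum R => Complex.log (1 - F P.asIdeal)) := by
    have h2 : Summable fun P : HeightOneSpectrum R => -F P.asIdeal :=
      (hF.of_norm.comp_injective fun P Q h => HeightOneSpectrum.ext h).neg
    simpa [sub_eq_add_neg] using Complex.summable_log_one_add_of_summable h2
  refine ⟨hs, ?_⟩
  have h3 : Tendsto (sieve F) atTop (𝓝 (Complex.exp (∑' P : HeightOneSpectrum R,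
      Complex.log (1 - F P.asIdeal)) * ∑' I, F I)) := by
    have h4 := ((Complex.continuous_exp.tendsto _).comp hs.hasSum).mul_const (∑' I, F I)
    refine h4.congr fun S => ?_
    rw [sieve_eq hF hm, Function.comp, Complex.exp_sum]
    congr 1
    exact Finset.prod_congr rfl fun P _ => Complex.exp_log (hne P)
  have h5 := tendsto_nhds_unique h3 (sieve_tendsto hF h0)
  rw [h1] at h5
  rw [Complex.exp_neg]
  exact eq_inv_of_mul_eq_one_right h5

end Euler

theorem euler : DIRI → EULER := by
  intro hD L _ _ A hA s hs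
  have hs0 : s ≠ 0 := by
    rintro rfl
    norm_num at hs
  refine Euler.euler_gen (F := fun I => A I * (absNorm I : ℂ) ^ (-s)) ?_ ?_ ?_ ?_ ?_
  · refine Summable.of_nonneg_of_le (fun _ => norm_nonneg _) (fun I => ?_) (hD L s hs).1
    rw [norm_mul]
    exact mul_le_of_le_one_left (norm_nonneg _) (hA I)
  · intro I J
    simp only [map_mul, Nat.cast_mul, Complex.natCast_mul_natCast_cpow]
    ring
  · simp [hs0]
  · have : A ⊤ = 1 := by rw [← Ideal.one_eq_top, map_one]
    simp [this]
  · intro P h
    have h2 : 2 ≤ absNorm P.asIdeal := by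
      have h0 : absNorm P.asIdeal ≠ 0 := by
        rw [Ne, Ideal.absNorm_eq_zero_iff]
        exact P.ne_bot
      have h1 : absNorm P.asIdeal ≠ 1 := by
        rw [Ne, Ideal.absNorm_eq_one_iff]
        exact P.isPrime.ne_top
      omega
    have h3 : ‖(absNorm P.asIdeal : ℂ) ^ (-s)‖ < 1 := by
      rw [Complex.norm_natCast_cpow_of_pos (by omega)]
      apply Real.rpow_lt_one_of_one_lt_of_neg
      · exact_mod_cast h2
      · simp only [Complex.neg_re]
        linarith
    have h4 : ‖A P.asIdeal * (absNorm P.asIdeal : ℂ) ^ (-s)‖ < 1 := by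
      rw [norm_mul]
      exact lt_of_le_of_lt (mul_le_of_le_one_left (norm_nonneg _) (hA _)) h3
    rw [← sub_eq_zero.mp h] at h4
    simp at h4

end Pool.Agent.P.MP_29cb78_nt
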