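import Pool.Agent.P.MP_29cb78_nt.Iface

/-! Every prime counted by `nfull` gives a factor two. -/

namespace Pool.Agent.P.MP_29cb78_nt

open NumberField Ideal
open scoped Classical Pointwise

namespace Even

theorem four (z : ℂ) (h : z ^ 4 = 1) : z = 1 ∨ z = -1 ∨ z = Complex.I ∨ z = -Complex.I := by
  have h1 : (z - 1) * ((z + 1) * ((z - Complex.I) * (z + Complex.I))) = 0 := by
    have := Complex.I_sq
    linear_combination h - (z ^ 2 - 1) * this
  rcases mul_eq_zero.1 h1 with h | h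
  · exact Or.inl (by linear_combination h)
  rcases mul_eq_zero.1 h with h | h
  · exact Or.inr (Or.inl (by linear_combination h))
  rcases mul_eq_zero.1 h with h | h
  · exact Or.inr (Or.inr (Or.inl (by linear_combination h)))
  · exact Or.inr (Or.inr (Or.inr (by linear_combination h)))

/-- The Gaussian integers as a subring of the complex numbers. -/
noncomputable def GI : Subring ℂ := GaussianInt.toComplex.range

theorem I_mem : Complex.I ∈ GI := ⟨⟨0, 1⟩, by simp [GaussianInt.toComplex_def]⟩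

theorem root_mem (z : ℂ) (h : z ^ 4 = 1) : z ∈ GI := by
  rcases four z h with rfl | rfl | rfl | rfl
  · exact GI.one_mem
  · exact GI.neg_mem GI.one_mem
  · exact I_mem
  · exact GI.neg_mem I_mem

theorem two_one (z : ℂ) (h : z * z = 1) : ∃ w ∈ GI, 1 - z = 2 * w := by
  rcases mul_self_eq_one_iff.1 h with rfl | rfl
  · exact ⟨0, GI.zero_mem, by simp⟩
  · exact ⟨1, GI.one_mem, by norm_num⟩

theorem two_two (z z' : ℂ) (h : z ^ 4 = 1) (h' : z * z' = 1) :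
    ∃ w ∈ GI, (1 - z) * (1 - z') = 2 * w := by
  have hI := Complex.I_sq
  rcases four z h with rfl | rfl | rfl | rfl
  · exact ⟨0, GI.zero_mem, by simp⟩
  · refine ⟨1 + 1, GI.add_mem GI.one_mem GI.one_mem, ?_⟩
    linear_combination 2 * h'
  · refine ⟨1, GI.one_mem, ?_⟩
    linear_combination (1 + Complex.I) * h' - z' * hI
  · refine ⟨1, GI.one_mem, ?_⟩
    linear_combination (1 - Complex.I) * h' - z' * hI

theorem mem_pdiv {L : Type} [Field L] [NumberField L] {f : Ideal (𝓞 L)} (hf : f ≠ ⊥)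
    {P : Ideal (𝓞 L)} : P ∈ pdiv f ↔ P.IsMaximal ∧ f ≤ P := by
  unfold pdiv
  rw [Multiset.mem_toFinset, Ideal.mem_normalizedFactors_iff hf]
  constructor
  · rintro ⟨h1, h2⟩
    exact ⟨h1.isMaximal fun h => hf (le_bot_iff.1 (h ▸ h2)), h2⟩
  · rintro ⟨h1, h2⟩
    exact ⟨h1.isPrime, h2⟩

theorem absNorm_congr {L : Type} [Field L] [NumberField L] (e : 𝓞 L ≃+* 𝓞 L)
    (I J : Ideal (𝓞 L)) (h : ∀ x, x ∈ J ↔ e x ∈ I) : absNorm J = absNorm I := by
  have h1 : J = I.comap (e : 𝓞 L →+* 𝓞 L) := Ideal.ext fun x => h x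
  have h2 : I = J.map (e : 𝓞 L →+* 𝓞 L) := by
    rw [h1]
    exact (Ideal.map_comap_of_surjective (e : 𝓞 L →+* 𝓞 L) e.surjective I).symm
  rw [absNorm_apply, absNorm_apply, Submodule.cardQuot_apply, Submodule.cardQuot_apply]
  exact Nat.card_congr (Ideal.quotientEquiv J I e h2).toEquiv

variable {k0 k K : Type} [Field k0] [Field k] [Field K] [NumberField k0] [NumberField k]
  [NumberField K] [Algebra k0 k] [Algebra k0 K] [Algebra k K] [IsScalarTower k0 k K]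

omit [NumberField k0] [NumberField k] [NumberField K] in
theorem smul_max (g : Gal(K/k0)) (Q : Ideal (𝓞 K)) (hQ : Q.IsMaximal) : (g • Q).IsMaximal := by
  have h : g • Q = Q.comap (MulSemiringAction.toRingEquiv Gal(K/k0) (𝓞 K) g⁻¹) := by
    ext z
    rw [mem_pointwise_smul_iff_inv_smul_mem, mem_comap]
    rfl
  rw [h]
  exact comap_isMaximal_of_equiv _

omit [NumberField k0] [NumberField k] [NumberField K] [Algebra k0 k] [IsScalarTower k0 k K] in
theorem under_fix {h : Gal(K/k0)} (hh : h ∈ fixSub k0 k K) (Q : Ideal (𝓞 K)) :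
    (h • Q).under (𝓞 k) = Q.under (𝓞 k) := by
  ext y
  rw [under, under, mem_comap, mem_comap, mem_pointwise_smul_iff_inv_smul_mem]
  have : h⁻¹ • algebraMap (𝓞 k) (𝓞 K) y = algebraMap (𝓞 k) (𝓞 K) y :=
    RingOfIntegers.ext ((fixSub k0 k K).inv_mem hh (y : k))
  rw [this]

omit [NumberField K] in
theorem norm_smul (h2 : Module.finrank k0 k = 2) (τ : Gal(K/k0)) (Q : Ideal (𝓞 K)) :
    absNorm ((τ • Q).under (𝓞 k)) = absNorm (Q.under (𝓞 k)) := by
  have : Algebra.IsQuadraticExtension k0 k := { finrank_eq_two' := h2 }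
  refine absNorm_congr
    (MulSemiringAction.toRingEquiv Gal(k/k0) (𝓞 k) (τ⁻¹.restrictNormal k)) _ _ fun y => ?_
  rw [under, under, mem_comap, mem_comap, mem_pointwise_smul_iff_inv_smul_mem]
  have : τ⁻¹ • algebraMap (𝓞 k) (𝓞 K) y = algebraMap (𝓞 k) (𝓞 K)
      (MulSemiringAction.toRingEquiv Gal(k/k0) (𝓞 k) (τ⁻¹.restrictNormal k) y) :=
    RingOfIntegers.ext (AlgEquiv.restrictNormal_commutes τ⁻¹ k (y : k)).symm
  rw [this]

variable [IsGalois k0 K] {Ψ : Gal(K/k0) → ℂ} {A : Ideal (𝓞 k) →* ℂ}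

theorem index_two (hA : ARTEX) (h2 : Module.finrank k0 k = 2) : (fixSub k0 k K).index = 2 := by
  have h1 := (hA k0 k K).1
  have h3 := (fixSub k0 k K).card_mul_index
  rw [h1, IsGalois.card_aut_eq_finrank, ← Module.finrank_mul_finrank k0 k K, h2, mul_comm 2] at h3
  exact Nat.eq_of_mul_eq_mul_left Module.finrank_pos h3

theorem factor_mem (hA : ARTEX) (hD : ArtData k0 k K Ψ A)
    (h4 : ∀ g ∈ fixSub k0 k K, Ψ g ^ 4 = 1) (P : Ideal (𝓞 k)) (hP : P.IsMaximal) :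
    1 - A P ∈ GI := by
  obtain ⟨Q, hQ, hl⟩ := exists_maximal_ideal_liesOver_of_isIntegral (S := 𝓞 K) P
  refine GI.sub_mem GI.one_mem ?_
  rw [hl.over]
  by_cases hr : ∃ g ∈ fixSub k0 k K, g ∈ Q.inertia Gal(K/k0) ∧ Ψ g ≠ 1
  · rw [hD.ram Q hQ hr]
    exact GI.zero_mem
  · obtain ⟨g, hg, hF⟩ := (hA k0 k K).2.1 Q hQ
    rw [hD.frob Q hQ (fun g hg hi => by_contra fun h => hr ⟨g, hg, hi, h⟩) g hg hF]
    exact root_mem _ (h4 g hg)

theorem unram (hA : ARTEX) (hD : ArtData k0 k K Ψ A) {f : Ideal (𝓞 k)} (hf : f ≠ ⊥)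
    (h2 : Module.finrank k0 k = 2) (hinv : ∀ g, g ∉ fixSub k0 k K → g * g = 1)
    (h4 : ∀ g ∈ fixSub k0 k K, Ψ g ^ 4 = 1) (p : Ideal (𝓞 k0)) (hp : p.IsMaximal)
    (hfull : ∀ P : Ideal (𝓞 k), P.IsMaximal → P.under (𝓞 k0) = p → f ≤ P)
    (hun : ¬∃ Q : Ideal (𝓞 K), Q.IsMaximal ∧ Q.under (𝓞 k0) = p ∧
      ∃ g ∈ fixSub k0 k K, g ∈ Q.inertia Gal(K/k0) ∧ Ψ g ≠ 1) :
    ∃ w ∈ GI, ∏ P ∈ (pdiv f).filter (fun P => P.under (𝓞 k0) = p), (1 - A P) = 2 * w := by
  have hi := index_two (K := K) hA h2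
  obtain ⟨τ, hτ⟩ : ∃ τ, τ ∉ fixSub k0 k K := by
    by_contra h
    push Not at h
    rw [(Subgroup.eq_top_iff' _).2 h, Subgroup.index_top] at hi
    omega
  have hττ := hinv τ hτ
  obtain ⟨Q, hQ, hl⟩ := exists_maximal_ideal_liesOver_of_isIntegral (S := 𝓞 K) p
  have hQ' := smul_max τ Q hQ
  have hu : Q.under (𝓞 k0) = p := hl.over.symm
  have hu' : (τ • Q).under (𝓞 k0) = p := by rw [under_smul, hu]
  have hset : (pdiv f).filter (fun P => P.under (𝓞 k0) = p) =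
      {Q.under (𝓞 k), (τ • Q).under (𝓞 k)} := by
    ext P
    rw [Finset.mem_filter, mem_pdiv hf, Finset.mem_insert, Finset.mem_singleton]
    constructor
    · rintro ⟨⟨hP, -⟩, hP'⟩
      obtain ⟨Q1, hQ1, hl1⟩ := exists_maximal_ideal_liesOver_of_isIntegral (S := 𝓞 K) P
      obtain ⟨g, hg⟩ := Algebra.IsInvariant.exists_smul_of_under_eq (𝓞 k0) (𝓞 K) Gal(K/k0) Q Q1
        (by rw [hu, ← hP', hl1.over, under_under])
      rw [hl1.over, hg]
      by_cases hgH : g ∈ fixSub k0 k K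
      · exact Or.inl (under_fix hgH Q)
      · have h3 : g * τ ∈ fixSub k0 k K :=
          (Subgroup.mul_mem_iff_of_index_two hi).2 (iff_of_false hgH hτ)
        right
        rw [← under_fix h3 (τ • Q), smul_smul, mul_assoc, hττ, mul_one]
    · rintro (rfl | rfl)
      · have h3 : (Q.under (𝓞 k)).under (𝓞 k0) = p := by rw [under_under, hu]
        exact ⟨⟨inferInstance, hfull _ inferInstance h3⟩, h3⟩
      · have h3 : ((τ • Q).under (𝓞 k)).under (𝓞 k0) = p := by rw [under_under, hu']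
        exact ⟨⟨inferInstance, hfull _ inferInstance h3⟩, h3⟩
  obtain ⟨g, hg, hF⟩ := (hA k0 k K).2.1 Q hQ
  have e1 : A (Q.under (𝓞 k)) = Ψ g :=
    hD.frob Q hQ (fun g hg hi => by_contra fun h => hun ⟨Q, hQ, hu, g, hg, hi, h⟩) g hg hF
  have hgτ : τ⁻¹ * g⁻¹ = g * τ⁻¹ := by
    have h3 : g * τ ∉ fixSub k0 k K := fun h =>
      hτ (((Subgroup.mul_mem_iff_of_index_two hi).1 h).1 hg)
    rw [← mul_inv_rev, inv_eq_of_mul_eq_one_right (hinv _ h3), inv_eq_of_mul_eq_one_right hττ]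
  have e2 : A ((τ • Q).under (𝓞 k)) = Ψ g⁻¹ := by
    refine hD.frob _ hQ' (fun g hg hi => by_contra fun h => hun ⟨_, hQ', hu', g, hg, hi, h⟩) _
      ((fixSub k0 k K).inv_mem hg) fun z => ?_
    rw [mem_pointwise_smul_iff_inv_smul_mem, smul_sub, smul_smul, hgτ, mul_smul, smul_pow',
      norm_smul h2]
    exact hF _
  have e3 : Ψ g * Ψ g⁻¹ = 1 := by
    rw [← hD.char.mul g hg _ ((fixSub k0 k K).inv_mem hg), mul_inv_cancel, hD.char.one]
  rw [hset]
  by_cases he : Q.under (𝓞 k) = (τ • Q).under (𝓞 k)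
  · rw [← he, Finset.pair_eq_singleton, Finset.prod_singleton, e1]
    refine two_one _ ?_
    rw [← he, e1] at e2
    rw [← e3, ← e2]
  · rw [Finset.prod_pair he, e1, e2]
    exact two_two _ _ (h4 g hg) e3

omit [IsGalois k0 K] [NumberField k0] [Algebra k0 k] [IsScalarTower k0 k K] in
theorem neg_one (hD : ArtData k0 k K Ψ A) (h4 : ∀ g ∈ fixSub k0 k K, Ψ g ^ 4 = 1)
    (Q : Ideal (𝓞 K)) (h : ∃ g ∈ fixSub k0 k K, g ∈ Q.inertia Gal(K/k0) ∧ Ψ g ≠ 1) :
    ∃ g ∈ fixSub k0 k K, g ∈ Q.inertia Gal(K/k0) ∧ Ψ g = -1 := by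
  obtain ⟨g, hg, hi, h1⟩ := h
  rcases four _ (h4 g hg) with h | h | h | h
  · exact absurd h h1
  · exact ⟨g, hg, hi, h⟩
  · exact ⟨g * g, Subgroup.mul_mem _ hg hg, Subgroup.mul_mem _ hi hi, by
      rw [hD.char.mul g hg g hg, h, Complex.I_mul_I]⟩
  · exact ⟨g * g, Subgroup.mul_mem _ hg hg, Subgroup.mul_mem _ hi hi, by
      rw [hD.char.mul g hg g hg, h, neg_mul_neg, Complex.I_mul_I]⟩

end Even

open _root_.Pool.Agent.P.MP_29cb78_nt.Even in
theorem even_factor : ARTEX → EVEN := by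
  intro hA k0 k K _ _ _ _ _ _ _ _ _ _ _ Ψ A f hf hD h2 hinv h4
  let U : Finset (Ideal (𝓞 k0)) := (pdiv f).image fun P => P.under (𝓞 k0)
  let Full : Ideal (𝓞 k0) → Prop := fun p => p.IsMaximal ∧
    ∀ P : Ideal (𝓞 k), P.IsMaximal → P.under (𝓞 k0) = p → f ≤ P
  let Ram : Ideal (𝓞 k0) → Prop := fun p => ∃ Q : Ideal (𝓞 K), Q.IsMaximal ∧
    Q.under (𝓞 k0) = p ∧ ∃ g ∈ fixSub k0 k K, g ∈ Q.inertia Gal(K/k0) ∧ Ψ g ≠ 1
  have hn : nfull k0 f = (U.filter Full).card := by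
    unfold nfull
    rw [← Set.ncard_coe_finset]
    congr 1
    ext p
    rw [Finset.mem_coe, Finset.mem_filter]
    refine ⟨fun h => ⟨?_, h⟩, fun h => h.2⟩
    have := h.1
    obtain ⟨P, hP, hl⟩ := exists_maximal_ideal_liesOver_of_isIntegral (S := 𝓞 k) p
    exact Finset.mem_image.2 ⟨P, (mem_pdiv hf).2 ⟨hP, h.2 P hP hl.over.symm⟩, hl.over.symm⟩
  have hR : ∀ p ∈ (U.filter Full).filter Ram, ∃ Q : Ideal (𝓞 K), Q.under (𝓞 k0) = p ∧
      Q.IsMaximal ∧ ∃ g ∈ fixSub k0 k K, g ∈ Q.inertia Gal(K/k0) ∧ Ψ g = -1 := by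
    intro p hp
    obtain ⟨Q, h1, h2, h3⟩ := (Finset.mem_filter.1 hp).2
    exact ⟨Q, h2, h1, neg_one hD h4 Q h3⟩
  choose! Qf hQ using hR
  have hw : ∀ p ∈ U, ∃ w ∈ GI, ∏ P ∈ (pdiv f).filter (fun P => P.under (𝓞 k0) = p), (1 - A P) =
      (if p ∈ (U.filter Full).filter (fun p => ¬Ram p) then 2 else 1) * w := by
    intro p _
    split_ifs with h
    · obtain ⟨h1, h3⟩ := Finset.mem_filter.1 h
      obtain ⟨-, h5, h6⟩ := Finset.mem_filter.1 h1
      exact unram hA hD hf h2 hinv h4 p h5 h6 h3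
    · refine ⟨_, GI.prod_mem fun P hP => ?_, (one_mul _).symm⟩
      exact factor_mem hA hD h4 P ((mem_pdiv hf).1 (Finset.mem_filter.1 hP).1).1
  choose! w hw1 hw2 using hw
  refine ⟨((U.filter Full).filter Ram).image Qf, ?_, ?_, ?_⟩
  · intro Q hQ'
    obtain ⟨p, hp, rfl⟩ := Finset.mem_image.1 hQ'
    exact (hQ p hp).2
  · intro Q1 h1 Q2 h3 he
    obtain ⟨p1, hp1, rfl⟩ := Finset.mem_image.1 (Finset.mem_coe.1 h1)
    obtain ⟨p2, hp2, rfl⟩ := Finset.mem_image.1 (Finset.mem_coe.1 h3)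
    have he' : (Qf p1).under (𝓞 k0) = (Qf p2).under (𝓞 k0) := he
    rw [(hQ p1 hp1).1, (hQ p2 hp2).1] at he'
    rw [he']
  · obtain ⟨z, hz⟩ : ∏ p ∈ U, w p ∈ GI := GI.prod_mem hw1
    refine ⟨z.re, z.im, ?_⟩
    have hinj : Set.InjOn Qf ((U.filter Full).filter Ram : Finset _) := fun p1 h1 p2 h3 he => by
      rw [← (hQ p1 (Finset.mem_coe.1 h1)).1, ← (hQ p2 (Finset.mem_coe.1 h3)).1, he]
    have hsub : U ∩ (U.filter Full).filter (fun p => ¬Ram p) =
        (U.filter Full).filter (fun p => ¬Ram p) :=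
      Finset.inter_eq_right.2 ((Finset.filter_subset _ _).trans (Finset.filter_subset _ _))
    rw [Finset.card_image_of_injOn hinj, hn, ← GaussianInt.toComplex_def, hz,
      ← Finset.prod_fiberwise_of_maps_to (t := U) (g := fun P => P.under (𝓞 k0))
        (fun P hP => Finset.mem_image_of_mem _ hP),
      Finset.prod_congr rfl hw2, Finset.prod_mul_distrib, Finset.prod_ite_mem, hsub,
      Finset.prod_const, ← Finset.card_filter_add_card_filter_not (s := U.filter Full) Ram,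
      pow_add, mul_assoc]

end Pool.Agent.P.MP_29cb78_nt
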