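import Pool.Agent.P.MP_29cb78_nt.Iface

/-! Unfolding of the Gaussian integral over a unit lattice. -/

namespace Pool.Agent.P.MP_29cb78_nt

open MeasureTheory Set
open scoped Real Matrix ENNReal

namespace GaussInt

/-- The one-dimensional integrand. -/
noncomputable def g1 (a σ u : ℝ) : ℝ := Real.exp (-π * (Real.exp u * a) ^ 2) * Real.exp (σ * u)

theorem g1_nonneg (a σ u : ℝ) : 0 ≤ g1 a σ u := by unfold g1; positivity

theorem continuous_g1 (a σ : ℝ) : Continuous (g1 a σ) := by unfold g1; fun_prop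

theorem lint_g1 {a σ : ℝ} (ha : 0 < a) (hσ : 0 < σ) :
    ∫⁻ u, ENNReal.ofReal (g1 a σ u) =
      ENNReal.ofReal (1 / 2 * Real.Gamma (σ / 2) * (π * a ^ 2) ^ (-(σ / 2))) := by
  have hb : 0 < π * a ^ 2 := by positivity
  have h1 := lintegral_image_eq_lintegral_abs_deriv_mul (s := univ) (f := Real.exp)
    (f' := Real.exp) MeasurableSet.univ (fun x _ => (Real.hasDerivAt_exp x).hasDerivWithinAt)
    Real.exp_injective.injOn
    (fun x => ENNReal.ofReal (x ^ (σ - 1) * Real.exp (-(π * a ^ 2) * x ^ 2)))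
  rw [image_univ, Real.range_exp, Measure.restrict_univ] at h1
  have h2 : ∀ u, ENNReal.ofReal (g1 a σ u) = ENNReal.ofReal |Real.exp u| *
      ENNReal.ofReal (Real.exp u ^ (σ - 1) * Real.exp (-(π * a ^ 2) * Real.exp u ^ 2)) := by
    intro u
    rw [← ENNReal.ofReal_mul (abs_nonneg _), abs_of_pos (Real.exp_pos u), ← Real.exp_mul,
      ← mul_assoc, ← Real.exp_add, g1, mul_comm]
    congr 3 <;> ring
  simp only [h2]
  rw [← h1, ← ofReal_integral_eq_lintegral_ofReal
    (integrableOn_rpow_mul_exp_neg_mul_sq hb (by linarith))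
    (ae_restrict_of_forall_mem measurableSet_Ioi fun x hx => by
      have : (0 : ℝ) < x := hx
      positivity)]
  have h3 := integral_rpow_mul_exp_neg_mul_rpow (p := 2) (q := σ - 1) two_pos (by linarith) hb
  simp only [Real.rpow_two, sub_add_cancel] at h3
  rw [h3, neg_div]
  congr 1
  ring

theorem lint_prod {P : Type} [Fintype P] (f : P → ℝ → ℝ) (v : P → ℝ) (hc : ∀ w, Continuous (f w))
    (h0 : ∀ w u, 0 ≤ f w u) (hv : ∀ w, 0 ≤ v w)
    (h : ∀ w, ∫⁻ u, ENNReal.ofReal (f w u) = ENNReal.ofReal (v w)) :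
    ∫⁻ u : P → ℝ, ENNReal.ofReal (∏ w, f w (u w)) = ENNReal.ofReal (∏ w, v w) := by
  have hi : ∀ w, Integrable (f w) := fun w =>
    (lintegral_ofReal_ne_top_iff_integrable (hc w).aestronglyMeasurable
      (Filter.Eventually.of_forall (h0 w))).mp (by rw [h w]; exact ENNReal.ofReal_ne_top)
  have he : ∀ w, ∫ u, f w u = v w := fun w => by
    rw [integral_eq_lintegral_of_nonneg_ae (Filter.Eventually.of_forall (h0 w))
      (hc w).aestronglyMeasurable, h w, ENNReal.toReal_ofReal (hv w)]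
  rw [← ofReal_integral_eq_lintegral_ofReal (μ := volume) (Integrable.fintype_prod hi)
    (Filter.Eventually.of_forall fun u => Finset.prod_nonneg fun w _ => h0 w _),
    integral_fintype_prod_volume_eq_prod]
  simp only [he]

theorem tile {ρ : Type} [Fintype ρ] (f : (ρ → ℝ) → ℝ≥0∞) :
    ∑' k : ρ → ℤ, ∫⁻ c in cube ρ, f (fun i => c i + k i) = ∫⁻ c, f c := by
  let A : (ρ → ℤ) → Set (ρ → ℝ) := fun k => Set.pi univ fun i => Ico (k i : ℝ) (k i + 1)
  have hA : ∀ k, MeasurableSet (A k) := fun k => MeasurableSet.univ_pi fun _ => measurableSet_Ico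
  have hm : ∀ k c, c ∈ A k ↔ ∀ i, ⌊c i⌋ = k i := fun k c => by
    simp only [A, mem_pi, mem_univ, forall_const, mem_Ico, Int.floor_eq_iff]
  have hU : ⋃ k, A k = univ := eq_univ_of_forall fun c =>
    mem_iUnion.2 ⟨fun i => ⌊c i⌋, (hm _ c).2 fun _ => rfl⟩
  have hd : Pairwise (Function.onFun Disjoint A) := fun k l hkl =>
    Set.disjoint_left.2 fun c h1 h2 =>
      hkl (funext fun i => ((hm k c).1 h1 i).symm.trans ((hm l c).1 h2 i))
  rw [← setLIntegral_univ, ← hU, lintegral_iUnion hA hd]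
  refine tsum_congr fun k => ?_
  have hC : MeasurableSet (cube ρ) := MeasurableSet.univ_pi fun _ => measurableSet_Ico
  rw [← lintegral_indicator (hA k), ← lintegral_indicator hC,
    ← lintegral_add_right_eq_self ((A k).indicator f) fun i => (k i : ℝ)]
  refine lintegral_congr fun c => ?_
  have : (c + fun i => (k i : ℝ)) ∈ A k ↔ c ∈ cube ρ := by
    simp only [A, cube, mem_pi, mem_univ, forall_const, mem_Ico, Pi.add_apply]
    exact forall_congr' fun i => ⟨fun h => ⟨by linarith [h.1], by linarith [h.2]⟩,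
      fun h => ⟨by linarith [h.1], by linarith [h.2]⟩⟩
  by_cases hc : c ∈ cube ρ
  · rw [indicator_of_mem hc, indicator_of_mem (this.2 hc)]; rfl
  · rw [indicator_of_notMem hc, indicator_of_notMem fun h => hc (this.1 h)]

theorem radial (Φ : ℝ → ℝ≥0∞) {n : ℝ} (hn : 0 < n) (s : ℝ) :
    ∫⁻ y in Ioi (0 : ℝ), Φ (Real.log y / n) * ENNReal.ofReal (y ^ (s - 1)) =
      ENNReal.ofReal n * ∫⁻ t, Φ t * ENNReal.ofReal (Real.exp (s * (n * t))) := by
  have h1 := lintegral_image_eq_lintegral_abs_deriv_mul (s := univ)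
    (f := fun t => Real.exp (n * t)) (f' := fun t => Real.exp (n * t) * n) MeasurableSet.univ
    (fun x _ => by
      simpa using ((hasDerivAt_id x).const_mul n).exp.hasDerivWithinAt (s := univ))
    (fun x _ y _ h => mul_left_cancel₀ hn.ne' (Real.exp_injective h))
    (fun y => Φ (Real.log y / n) * ENNReal.ofReal (y ^ (s - 1)))
  have h2 : (fun t => Real.exp (n * t)) '' univ = Ioi 0 := by
    ext y
    refine ⟨fun ⟨t, _, h⟩ => h ▸ Real.exp_pos _, fun hy => ⟨Real.log y / n, trivial, ?_⟩⟩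
    simp only [mul_div_cancel₀ _ hn.ne', Real.exp_log hy]
  rw [h2, Measure.restrict_univ] at h1
  rw [h1, ← lintegral_const_mul' _ _ ENNReal.ofReal_ne_top]
  refine lintegral_congr fun t => ?_
  rw [Real.log_exp, mul_div_cancel_left₀ _ hn.ne', mul_left_comm, mul_left_comm (ENNReal.ofReal n),
    ← ENNReal.ofReal_mul (abs_nonneg _), ← ENNReal.ofReal_mul hn.le, abs_of_pos (by positivity),
    ← Real.exp_mul, mul_right_comm, ← Real.exp_add, mul_comm n (Real.exp _)]
  congr 4
  ring

section split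

variable {P ρ : Type} [Fintype P] [DecidableEq P] [Fintype ρ] (w' : P) (e : {w : P // w ≠ w'} ≃ ρ)

/-- Coordinates with one distinguished place. -/
def spl (z : ℝ × (ρ → ℝ)) (i : P) : ℝ := if h : i = w' then z.1 else z.2 (e ⟨i, h⟩)

omit [Fintype P] [Fintype ρ] in
theorem spl_symm (z : ℝ × (ρ → ℝ)) (j : ρ) : spl w' e z (e.symm j) = z.2 j := by
  rw [spl, dif_neg (e.symm j).2]
  simp

omit [Fintype P] [Fintype ρ] in
theorem spl_self (z : ℝ × (ρ → ℝ)) : spl w' e z w' = z.1 := dif_pos rfl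

theorem prod_split {M : Type} [CommMonoid M] (f : P → M) :
    ∏ i, f i = f w' * ∏ j, f (e.symm j) := by
  rw [Fintype.prod_eq_mul_prod_subtype_ne f w', ← Equiv.prod_comp e.symm]

theorem sum_split (f : P → ℝ) : ∑ i, f i = f w' + ∑ j, f (e.symm j) := by
  rw [Fintype.sum_eq_add_sum_subtype_ne f w', ← Equiv.sum_comp e.symm]

theorem spl_pres : MeasurePreserving (spl w' e) (volume.prod volume) volume := by
  have hm : Measurable (spl w' e) := measurable_pi_lambda _ fun i => by
    unfold spl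
    split_ifs
    · exact measurable_fst
    · exact (measurable_pi_apply _).comp measurable_snd
  refine ⟨hm, (Measure.pi_eq fun s hs => ?_).symm⟩
  have : spl w' e ⁻¹' Set.pi univ s = s w' ×ˢ Set.pi univ fun j => s (e.symm j) := by
    ext z
    simp only [mem_preimage, mem_pi, mem_univ, forall_const, mem_prod]
    refine ⟨fun h => ⟨spl_self w' e z ▸ h w', fun j => spl_symm w' e z j ▸ h _⟩, fun h i => ?_⟩
    unfold spl
    split_ifs with hi
    · exact hi ▸ h.1
    · simpa using h.2 (e ⟨i, hi⟩)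
  rw [Measure.map_apply hm (MeasurableSet.univ_pi hs), this, Measure.prod_prod, volume_pi_pi,
    prod_split w' e]

theorem change (lam : ρ → P → ℝ) (G : (P → ℝ) → ℝ≥0∞) (hG : Measurable G)
    (hdet : (Matrix.of fun i w : P => if h : i = w' then (1 : ℝ) else lam (e ⟨i, h⟩) w).det ≠ 0) :
    ∫⁻ t : ℝ, ∫⁻ c : ρ → ℝ, G (fun w => ∑ i, c i * lam i w + t) =
      ENNReal.ofReal
        |(Matrix.of fun i w : P => if h : i = w' then (1 : ℝ) else lam (e ⟨i, h⟩) w).det|⁻¹ *
        ∫⁻ u, G u := by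
  set M := Matrix.of fun i w : P => if h : i = w' then (1 : ℝ) else lam (e ⟨i, h⟩) w with hM
  have hT : Measurable (Matrix.toLin' Mᵀ) :=
    (Matrix.toLin' Mᵀ).continuous_of_finiteDimensional.measurable
  have h1 := Real.map_matrix_volume_pi_eq_smul_volume_pi (M := Mᵀ) (by rwa [Matrix.det_transpose])
  have h2 := lintegral_map (μ := volume) hG hT
  rw [h1, lintegral_smul_measure, Matrix.det_transpose, abs_inv, smul_eq_mul] at h2
  rw [h2, ← (spl_pres w' e).lintegral_comp (f := fun a => G (Matrix.toLin' Mᵀ a)) (hG.comp hT),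
    lintegral_prod (fun z => G (Matrix.toLin' Mᵀ (spl w' e z)))
      ((hG.comp hT).comp (spl_pres w' e).measurable).aemeasurable]
  refine lintegral_congr fun t => lintegral_congr fun c => ?_
  congr 1
  funext w
  rw [Matrix.toLin'_apply, Matrix.mulVec, dotProduct, sum_split w' e, spl_self, add_comm]
  simp only [Matrix.transpose_apply, hM, Matrix.of_apply, dif_pos, one_mul, spl_symm]
  congr 1
  refine Finset.sum_congr rfl fun j _ => ?_
  rw [dif_neg (e.symm j).2, mul_comm]
  simp

end split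

end GaussInt

open GaussInt in
theorem gaussint : GAUSSINT := by
  intro P ρ _ _ _ m lam w' e a s hm hlam ha hs hdet
  have hn : (0 : ℝ) < (∑ w, m w : ℕ) := by
    exact_mod_cast Finset.sum_pos (fun w _ => hm w) ⟨w', Finset.mem_univ _⟩
  set n : ℝ := ((∑ w, m w : ℕ) : ℝ) with hnd
  let F : (ρ → ℝ) → ℝ → ℝ≥0∞ := fun c t =>
    ENNReal.ofReal (Real.exp (-π * ∑ w, (Real.exp (∑ i, c i * lam i w + t) * a w) ^ 2))
  have hF : ∀ k : ρ → ℤ, Measurable fun t => ∫⁻ c in cube ρ, F (fun i => c i + k i) t := fun k =>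
    Measurable.lintegral_prod_right' (ν := volume.restrict (cube ρ))
      (f := fun z : ℝ × (ρ → ℝ) => F (fun i => z.2 i + k i) z.1) (by simp only [F]; fun_prop)
  have h1 : ∑' k : ρ → ℤ, ∫⁻ y in Ioi (0 : ℝ),
      (∫⁻ c in cube ρ, F (fun i => c i + k i) (Real.log y / n)) * ENNReal.ofReal (y ^ (s - 1)) =
      ∫⁻ y in Ioi (0 : ℝ), (∫⁻ c, F c (Real.log y / n)) * ENNReal.ofReal (y ^ (s - 1)) := by
    refine (lintegral_tsum fun k => (((hF k).comp (Real.measurable_log.div_const n)).mul
      (by fun_prop : Measurable fun y : ℝ => ENNReal.ofReal (y ^ (s - 1)))).aemeasurable).symm.trans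
      (lintegral_congr fun y => ?_)
    simp only [Function.comp_apply, Pi.mul_apply]
    rw [ENNReal.tsum_mul_right]
    congr 1
    exact tile fun c => F c (Real.log y / n)
  refine h1.trans ?_
  rw [radial (fun t => ∫⁻ c, F c t) hn s]
  let G : (P → ℝ) → ℝ≥0∞ := fun u => ENNReal.ofReal (∏ w, g1 (a w) (s * m w) (u w))
  have hG : Measurable G := ENNReal.measurable_ofReal.comp
    (continuous_finsetProd _ fun w _ => (continuous_g1 _ _).comp (continuous_apply w)).measurable
  have h2 : ∀ t, (∫⁻ c, F c t) * ENNReal.ofReal (Real.exp (s * (n * t))) =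
      ∫⁻ c : ρ → ℝ, G (fun w => ∑ i, c i * lam i w + t) := fun t => by
    rw [← lintegral_mul_const' _ _ ENNReal.ofReal_ne_top]
    refine lintegral_congr fun c => ?_
    simp only [F, G, g1]
    rw [← ENNReal.ofReal_mul (Real.exp_pos _).le, Finset.prod_mul_distrib, ← Real.exp_sum,
      ← Real.exp_sum, ← Finset.mul_sum]
    congr 3
    have h3 : ∑ w, (m w : ℝ) * ∑ i, c i * lam i w = 0 := by
      simp only [Finset.mul_sum]
      rw [Finset.sum_comm]
      refine Finset.sum_eq_zero fun i _ => ?_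
      simp only [mul_left_comm _ (c i), ← Finset.mul_sum, hlam i, mul_zero]
    simp only [mul_assoc, mul_add, Finset.sum_add_distrib, ← Finset.mul_sum, h3, ← Finset.sum_mul,
      hnd, Nat.cast_sum, mul_zero, zero_add]
  simp only [h2]
  have hσ : ∀ w, 0 < s * m w := fun w => mul_pos hs (Nat.cast_pos.2 (hm w))
  rw [change w' e lam G hG hdet, lint_prod (fun w => g1 (a w) (s * m w)) _
    (fun w => continuous_g1 _ _) (fun w => g1_nonneg _ _) (fun w => ?_)
    (fun w => lint_g1 (ha w) (hσ w)), ← mul_assoc, ← ENNReal.ofReal_mul hn.le,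
    ← ENNReal.ofReal_mul (by positivity), div_eq_mul_inv n]
  have := Real.Gamma_pos_of_pos (half_pos (hσ w))
  have := ha w
  positivity

end Pool.Agent.P.MP_29cb78_nt
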