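import Pool.Agent.P.MP_29cb78_nt.Iface

/-!
Continuation of the Mellin transform of the averaged theta series.
-/

namespace Pool.Agent.P.MP_29cb78_nt

open MeasureTheory Set Filter Asymptotics
open scoped Classical Real Matrix

noncomputable section

namespace Mellin

variable {ι ρ : Type} [Fintype ι] [DecidableEq ι] [Fintype ρ]

/-- The quadratic form of the lattice. -/
def Qf (B : Matrix ι ι ℝ) (m : ι → ℤ) : ℝ := ∑ j, (B.mulVec (fun i => (m i : ℝ)) j) ^ 2

/-- The diagonal matrix of the scaling. -/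
def Dm (lam : ρ → ι → ℝ) (c : ρ → ℝ) (y : ℝ) : Matrix ι ι ℝ :=
  Matrix.diagonal (fun j => Real.exp (∑ i, c i * lam i j + Real.log y / Fintype.card ι))

/-- The theta series without its constant term. -/
def Tz (B : Matrix ι ι ℝ) : ENNReal :=
  ∑' m : {m : ι → ℤ // m ≠ 0}, ENNReal.ofReal (gauss B m)

/-- The average over the cube. -/
def Fz (B : Matrix ι ι ℝ) (lam : ρ → ι → ℝ) (y : ℝ) : ENNReal :=
  ∫⁻ c in cube ρ, Tz (Dm lam c y * B)

omit [DecidableEq ι] in
lemma gauss_pos (B : Matrix ι ι ℝ) (m : ι → ℤ) : 0 < gauss B m := Real.exp_pos _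

omit [DecidableEq ι] in
lemma gauss_zero (B : Matrix ι ι ℝ) : gauss B 0 = 1 := by
  have : (fun i : ι => (((0 : ι → ℤ) i : ℤ) : ℝ)) = 0 := by
    funext i; simp
  unfold gauss
  rw [this, Matrix.mulVec_zero]
  simp

lemma gauss_diag (d : ι → ℝ) (B : Matrix ι ι ℝ) (m : ι → ℤ) :
    gauss (Matrix.diagonal d * B) m =
      Real.exp (-π * ∑ j, d j ^ 2 * (B.mulVec (fun i => (m i : ℝ)) j) ^ 2) := by
  unfold gauss
  congr 2
  refine Finset.sum_congr rfl fun j _ => ?_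
  rw [← Matrix.mulVec_mulVec, Matrix.mulVec_diagonal, mul_pow]

omit [DecidableEq ι] in
lemma one_add_Tz (B : Matrix ι ι ℝ) (hs : Summable (gauss B)) :
    1 + Tz B = ENNReal.ofReal (∑' m, gauss B m) := by
  rw [ENNReal.ofReal_tsum_of_nonneg (fun m => (gauss_pos B m).le) hs,
    ENNReal.tsum_eq_add_tsum_ite (0 : ι → ℤ), gauss_zero, ENNReal.ofReal_one]
  congr 1
  have h := tsum_subtype {m : ι → ℤ | m ≠ 0} (fun m => ENNReal.ofReal (gauss B m))
  unfold Tz
  refine h.trans (tsum_congr fun m => ?_)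
  by_cases hm : m = 0
  · simp [hm]
  · simp [hm]

omit [DecidableEq ι] in
lemma Tz_ne_top (B : Matrix ι ι ℝ) (hs : Summable (gauss B)) : Tz B ≠ ⊤ := by
  have h := one_add_Tz B hs
  intro ht
  rw [ht, add_top] at h
  exact ENNReal.ofReal_ne_top h.symm

lemma volume_cube : volume (cube ρ) = 1 := by
  unfold cube
  rw [Real.volume_pi_Ico]
  simp

omit [Fintype ρ] in
lemma measurableSet_cube [Finite ρ] : MeasurableSet (cube ρ) :=
  MeasurableSet.univ_pi fun _ => measurableSet_Ico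

lemma one_add_Fz (B : Matrix ι ι ℝ) (lam : ρ → ι → ℝ) (y : ℝ) :
    1 + Fz B lam y = ∫⁻ c in cube ρ, (1 + Tz (Dm lam c y * B)) := by
  rw [lintegral_add_left measurable_const, setLIntegral_const, volume_cube, mul_one]
  rfl

lemma det_Dm [Nonempty ι] (lam : ρ → ι → ℝ) (hl : ∀ i, ∑ j, lam i j = 0) (c : ρ → ℝ) {y : ℝ}
    (hy : 0 < y) : (Dm lam c y).det = y := by
  have hn : (Fintype.card ι : ℝ) ≠ 0 := by exact_mod_cast Fintype.card_ne_zero
  unfold Dm
  rw [Matrix.det_diagonal, ← Real.exp_sum, Finset.sum_add_distrib, Finset.sum_comm]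
  have : ∑ i, ∑ j, c i * lam i j = 0 := by
    refine Finset.sum_eq_zero fun i _ => ?_
    rw [← Finset.mul_sum, hl i, mul_zero]
  rw [this, zero_add, Finset.sum_const, Finset.card_univ, nsmul_eq_mul, mul_div_cancel₀ _ hn,
    Real.exp_log hy]

lemma Dm_mul (lam : ρ → ι → ℝ) (c : ρ → ℝ) (y : ℝ) :
    Dm lam c (1 / y) * Dm (-lam) c y = 1 := by
  unfold Dm
  rw [Matrix.diagonal_mul_diagonal, ← Matrix.diagonal_one]
  congr 1
  funext j
  rw [← Real.exp_add, one_div, Real.log_inv]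
  have : ∑ i, c i * (-lam) i j = -∑ i, c i * lam i j := by
    rw [← Finset.sum_neg_distrib]
    refine Finset.sum_congr rfl fun i _ => ?_
    simp
  rw [this, ← Real.exp_zero]
  congr 1
  ring

lemma inv_transpose (B : Matrix ι ι ℝ) (lam : ρ → ι → ℝ) (c : ρ → ℝ) (y : ℝ) :
    ((Dm lam c (1 / y) * B)⁻¹)ᵀ = Dm (-lam) c y * (B⁻¹)ᵀ := by
  rw [Matrix.mul_inv_rev, Matrix.inv_eq_right_inv (Dm_mul lam c y), Matrix.transpose_mul]
  congr 1
  unfold Dm
  rw [Matrix.diagonal_transpose]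

lemma det_inv_transpose (B : Matrix ι ι ℝ) (hB : B.det ≠ 0) : ((B⁻¹)ᵀ).det ≠ 0 := by
  rw [Matrix.det_transpose, Matrix.det_nonsing_inv, Ring.inverse_eq_inv']
  exact inv_ne_zero hB

lemma feq [Nonempty ι] (hT : THETA) (B : Matrix ι ι ℝ) (hB : B.det ≠ 0) (lam : ρ → ι → ℝ)
    (hl : ∀ i, ∑ j, lam i j = 0) {y : ℝ} (hy : 0 < y) :
    1 + Fz B lam (1 / y) = ENNReal.ofReal (|B.det|⁻¹ * y) * (1 + Fz (B⁻¹)ᵀ (-lam) y) := by
  have hl' : ∀ i, ∑ j, (-lam) i j = 0 := fun i => by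
    simp [Finset.sum_neg_distrib, hl i]
  rw [one_add_Fz, one_add_Fz, ← lintegral_const_mul' _ _ ENNReal.ofReal_ne_top]
  refine lintegral_congr fun c => ?_
  have hd : (Dm lam c (1 / y) * B).det = 1 / y * B.det := by
    rw [Matrix.det_mul, det_Dm lam hl c (one_div_pos.2 hy)]
  have hd0 : (Dm lam c (1 / y) * B).det ≠ 0 := by
    rw [hd]; exact mul_ne_zero (one_div_pos.2 hy).ne' hB
  have hd1 : (Dm (-lam) c y * (B⁻¹)ᵀ).det ≠ 0 := by
    rw [Matrix.det_mul, det_Dm (-lam) hl' c hy]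
    exact mul_ne_zero hy.ne' (det_inv_transpose B hB)
  obtain ⟨h1, h2⟩ := hT ι _ hd0
  rw [one_add_Tz _ h1, one_add_Tz _ (hT ι _ hd1).1, h2, inv_transpose, hd,
    ← ENNReal.ofReal_mul (by positivity)]
  congr 2
  rw [abs_mul, abs_of_pos (one_div_pos.2 hy), mul_inv, one_div, inv_inv, mul_comm]

lemma Qf_lower (B : Matrix ι ι ℝ) (hB : B.det ≠ 0) :
    ∃ μ : ℝ, 0 < μ ∧ ∀ m : ι → ℤ, m ≠ 0 → μ ≤ Qf B m := by
  set S : ℝ := ∑ i, ∑ j, (B⁻¹ i j) ^ 2 with hS
  have hS0 : 0 ≤ S := Finset.sum_nonneg fun i _ => Finset.sum_nonneg fun j _ => sq_nonneg _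
  refine ⟨1 / (S + 1), by positivity, fun m hm => ?_⟩
  obtain ⟨i, hi⟩ := Function.ne_iff.1 hm
  have hi' : m i ≠ 0 := hi
  have h1 : (1 : ℝ) ≤ (m i : ℝ) ^ 2 := by
    have : (1 : ℤ) ≤ m i ^ 2 := by
      have := sq_pos_of_ne_zero hi'
      omega
    exact_mod_cast this
  have hQ : 0 ≤ Qf B m := Finset.sum_nonneg fun j _ => sq_nonneg _
  have h2 : (m i : ℝ) = ∑ j, B⁻¹ i j * B.mulVec (fun i => (m i : ℝ)) j := by
    have : B⁻¹.mulVec (B.mulVec (fun i => (m i : ℝ))) = fun i => (m i : ℝ) := by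
      rw [Matrix.mulVec_mulVec, Matrix.nonsing_inv_mul _ (Ne.isUnit hB), Matrix.one_mulVec]
    exact (congrFun this i).symm
  have h3 : (m i : ℝ) ^ 2 ≤ (∑ j, (B⁻¹ i j) ^ 2) * Qf B m := by
    rw [h2]
    exact Finset.sum_mul_sq_le_sq_mul_sq _ _ _
  have h4 : ∑ j, (B⁻¹ i j) ^ 2 ≤ S :=
    Finset.single_le_sum (f := fun i => ∑ j, (B⁻¹ i j) ^ 2)
      (fun i _ => Finset.sum_nonneg fun j _ => sq_nonneg _) (Finset.mem_univ i)
  rw [div_le_iff₀ (by positivity)]
  nlinarith [mul_le_mul_of_nonneg_right h4 hQ]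

lemma Fz_anti [Nonempty ι] (B : Matrix ι ι ℝ) (lam : ρ → ι → ℝ) {x y : ℝ} (hx : 0 < x)
    (hxy : x ≤ y) : Fz B lam y ≤ Fz B lam x := by
  refine lintegral_mono fun c => ENNReal.tsum_le_tsum fun m => ENNReal.ofReal_le_ofReal ?_
  unfold Dm
  rw [gauss_diag, gauss_diag, Real.exp_le_exp, neg_mul, neg_mul, neg_le_neg_iff]
  refine mul_le_mul_of_nonneg_left (Finset.sum_le_sum fun j _ => ?_) Real.pi_pos.le
  refine mul_le_mul_of_nonneg_right ?_ (sq_nonneg _)
  refine pow_le_pow_left₀ (Real.exp_pos _).le (Real.exp_le_exp.2 ?_) 2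
  have : Real.log x ≤ Real.log y := Real.log_le_log hx hxy
  gcongr

/-- A lower bound for the exponents on the cube. -/
def Lb (lam : ρ → ι → ℝ) : ℝ := ∑ i, ∑ j, |lam i j|

omit [DecidableEq ι] in
lemma Lb_le (lam : ρ → ι → ℝ) {c : ρ → ℝ} (hc : c ∈ cube ρ) (j : ι) :
    -Lb lam ≤ ∑ i, c i * lam i j := by
  unfold Lb
  rw [← Finset.sum_neg_distrib]
  refine Finset.sum_le_sum fun i _ => ?_
  have h := hc i (mem_univ i)
  have h1 : |lam i j| ≤ ∑ j, |lam i j| :=
    Finset.single_le_sum (f := fun j => |lam i j|) (fun j _ => abs_nonneg _) (Finset.mem_univ j)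
  have h2 : |c i * lam i j| ≤ |lam i j| := by
    rw [abs_mul, abs_of_nonneg h.1]
    exact mul_le_of_le_one_left (abs_nonneg _) h.2.le
  linarith [neg_abs_le (c i * lam i j)]

lemma Fz_le (B : Matrix ι ι ℝ) (lam : ρ → ι → ℝ) (y : ℝ) :
    Fz B lam y ≤ Tz (Matrix.diagonal
      (fun _ => Real.exp (-Lb lam + Real.log y / Fintype.card ι)) * B) := by
  unfold Fz
  refine (setLIntegral_mono' measurableSet_cube (g := fun _ => Tz (Matrix.diagonal
      (fun _ => Real.exp (-Lb lam + Real.log y / Fintype.card ι)) * B)) fun c hc => ?_).trans ?_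
  · refine ENNReal.tsum_le_tsum fun m => ENNReal.ofReal_le_ofReal ?_
    unfold Dm
    rw [gauss_diag, gauss_diag, Real.exp_le_exp, neg_mul, neg_mul, neg_le_neg_iff]
    refine mul_le_mul_of_nonneg_left (Finset.sum_le_sum fun j _ => ?_) Real.pi_pos.le
    refine mul_le_mul_of_nonneg_right ?_ (sq_nonneg _)
    refine pow_le_pow_left₀ (Real.exp_pos _).le (Real.exp_le_exp.2 ?_) 2
    linarith [Lb_le lam hc j]
  · rw [setLIntegral_const, volume_cube, mul_one]

lemma Tz_scal_ne_top (hT : THETA) (B : Matrix ι ι ℝ) (hB : B.det ≠ 0) (t : ℝ) :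
    Tz (Matrix.diagonal (fun _ => Real.exp t) * B) ≠ ⊤ := by
  refine Tz_ne_top _ (hT ι _ ?_).1
  rw [Matrix.det_mul, Matrix.det_diagonal]
  exact mul_ne_zero (Finset.prod_ne_zero_iff.2 fun _ _ => (Real.exp_pos _).ne') hB

lemma Fz_ne_top (hT : THETA) (B : Matrix ι ι ℝ) (hB : B.det ≠ 0) (lam : ρ → ι → ℝ) (y : ℝ) :
    Fz B lam y ≠ ⊤ :=
  ne_top_of_le_ne_top (Tz_scal_ne_top hT B hB _) (Fz_le B lam y)

lemma Tz_decay (B : Matrix ι ι ℝ) {μ : ℝ} (hμ : ∀ m : ι → ℤ, m ≠ 0 → μ ≤ Qf B m) {a b : ℝ}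
    (hab : a ^ 2 ≤ b ^ 2) :
    Tz (Matrix.diagonal (fun _ => b) * B) ≤
      ENNReal.ofReal (Real.exp (-π * μ * (b ^ 2 - a ^ 2))) *
        Tz (Matrix.diagonal (fun _ => a) * B) := by
  unfold Tz
  rw [← ENNReal.tsum_mul_left]
  refine ENNReal.tsum_le_tsum fun m => ?_
  rw [← ENNReal.ofReal_mul (Real.exp_pos _).le]
  refine ENNReal.ofReal_le_ofReal ?_
  rw [gauss_diag, gauss_diag, ← Real.exp_add, Real.exp_le_exp, ← Finset.mul_sum, ← Finset.mul_sum]
  have h := hμ m.1 m.2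
  unfold Qf at h
  have := mul_le_mul_of_nonneg_left h (mul_nonneg Real.pi_pos.le (sub_nonneg.2 hab))
  linarith

lemma Fz_isBigO [Nonempty ι] (hT : THETA) (B : Matrix ι ι ℝ) (hB : B.det ≠ 0)
    (lam : ρ → ι → ℝ) (r : ℝ) :
    (fun y => (Fz B lam y).toReal) =O[atTop] (fun y : ℝ => y ^ r) := by
  have hn : (0 : ℝ) < Fintype.card ι := by exact_mod_cast Fintype.card_pos
  obtain ⟨μ, hμ0, hμ⟩ := Qf_lower B hB
  set δ : ℝ := Real.exp (-Lb lam) with hδ
  have hδ0 : 0 < δ := Real.exp_pos _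
  set C : ℝ := (Tz (Matrix.diagonal (fun _ => δ) * B)).toReal with hC
  have hfin : Tz (Matrix.diagonal (fun _ => δ) * B) ≠ ⊤ := Tz_scal_ne_top hT B hB _
  have hk : 0 < π * μ * δ ^ 2 := by have := Real.pi_pos; positivity
  have h1 : (fun y => (Fz B lam y).toReal) =O[atTop]
      (fun y : ℝ => Real.exp (-(π * μ * δ ^ 2) * y ^ (2 / Fintype.card ι : ℝ))) := by
    refine IsBigO.of_bound (C * Real.exp (π * μ * δ ^ 2)) ?_
    filter_upwards [eventually_ge_atTop (1 : ℝ)] with y hy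
    have hy0 : 0 < y := by linarith
    have hb : Real.exp (-Lb lam + Real.log y / Fintype.card ι) ^ 2 =
        δ ^ 2 * y ^ (2 / Fintype.card ι : ℝ) := by
      rw [Real.exp_add, mul_pow, Real.rpow_def_of_pos hy0,
        ← Real.exp_nat_mul (Real.log y / Fintype.card ι)]
      congr 2
      push_cast
      ring
    have hab : δ ^ 2 ≤ Real.exp (-Lb lam + Real.log y / Fintype.card ι) ^ 2 := by
      rw [hb]
      exact le_mul_of_one_le_right (sq_nonneg _) (Real.one_le_rpow hy (by positivity))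
    have h := (Fz_le B lam y).trans (Tz_decay B hμ hab)
    have h' := ENNReal.toReal_mono (ENNReal.mul_ne_top ENNReal.ofReal_ne_top hfin) h
    rw [ENNReal.toReal_mul, ENNReal.toReal_ofReal (Real.exp_pos _).le, hb] at h'
    rw [Real.norm_of_nonneg ENNReal.toReal_nonneg, Real.norm_of_nonneg (Real.exp_pos _).le,
      mul_assoc, ← Real.exp_add]
    refine h'.trans (le_of_eq ?_)
    rw [mul_comm]
    congr 2
    ring
  have h2 := (isLittleO_exp_neg_mul_rpow_atTop hk (r * Fintype.card ι / 2)).isBigO.comp_tendsto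
    (tendsto_rpow_atTop (y := 2 / Fintype.card ι) (by positivity))
  refine h1.trans (h2.congr' EventuallyEq.rfl ?_)
  filter_upwards [eventually_ge_atTop (0 : ℝ)] with y hy
  simp only [Function.comp]
  rw [← Real.rpow_mul hy]
  congr 1
  field_simp

/-- The averaged theta series. -/
def ff (B : Matrix ι ι ℝ) (lam : ρ → ι → ℝ) (y : ℝ) : ℂ := (((Fz B lam y).toReal : ℝ) : ℂ) + 1

lemma ff_int [Nonempty ι] (hT : THETA) (B : Matrix ι ι ℝ) (hB : B.det ≠ 0) (lam : ρ → ι → ℝ) :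
    LocallyIntegrableOn (ff B lam) (Ioi 0) := by
  refine LocallyIntegrableOn.add ?_ (locallyIntegrableOn_const _)
  rw [locallyIntegrableOn_iff isOpen_Ioi.isLocallyClosed]
  intro k hk hc
  have : IntegrableOn (fun y => (Fz B lam y).toReal) k := by
    refine AntitoneOn.integrableOn_isCompact hc fun x hx y _ hxy => ?_
    exact ENNReal.toReal_mono (Fz_ne_top hT B hB lam x) (Fz_anti B lam (hk hx) hxy)
  exact this.ofReal

lemma ff_top [Nonempty ι] (hT : THETA) (B : Matrix ι ι ℝ) (hB : B.det ≠ 0) (lam : ρ → ι → ℝ)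
    (r : ℝ) : (fun y => ff B lam y - 1) =O[atTop] (fun y : ℝ => y ^ r) := by
  have : (fun y => ff B lam y - 1) = fun y => (((Fz B lam y).toReal : ℝ) : ℂ) := by
    funext y; simp [ff]
  rw [this, Complex.isBigO_ofReal_left]
  exact Fz_isBigO hT B hB lam r

/-- The pair of functions with a functional equation. -/
def pair [Nonempty ι] (hT : THETA) (B : Matrix ι ι ℝ) (hB : B.det ≠ 0) (lam : ρ → ι → ℝ)
    (hl : ∀ i, ∑ j, lam i j = 0) : WeakFEPair ℂ where
  f := ff B lam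
  g := ff (B⁻¹)ᵀ (-lam)
  k := 1
  ε := ((|B.det|⁻¹ : ℝ) : ℂ)
  f₀ := 1
  g₀ := 1
  hf_int := ff_int hT B hB lam
  hg_int := ff_int hT _ (det_inv_transpose B hB) _
  hk := one_pos
  hε := Complex.ofReal_ne_zero.2 (inv_ne_zero (abs_ne_zero.2 hB))
  h_feq := fun x hx => by
    have hx0 : 0 < x := hx
    have h := congrArg ENNReal.toReal (feq hT B hB lam hl hx0)
    rw [ENNReal.toReal_mul, ENNReal.toReal_add ENNReal.one_ne_top (Fz_ne_top hT B hB lam _),
      ENNReal.toReal_add ENNReal.one_ne_top (Fz_ne_top hT _ (det_inv_transpose B hB) _ _),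
      ENNReal.toReal_ofReal (by positivity), ENNReal.toReal_one] at h
    have h' := congrArg (fun t : ℝ => (t : ℂ)) h
    simp only [Complex.ofReal_add, Complex.ofReal_mul, Complex.ofReal_one] at h'
    unfold ff
    rw [Real.rpow_one, smul_eq_mul]
    linear_combination h'
  hf_top := ff_top hT B hB lam
  hg_top := ff_top hT _ (det_inv_transpose B hB) _

end Mellin

open Mellin in
theorem mellin_cont : THETA → MELLIN := by
  intro hT ι ρ _ _ _ _ B lam hB hl
  refine ⟨(pair hT B hB lam hl).Λ₀, (pair hT B hB lam hl).differentiable_Λ₀, fun s hs => ?_⟩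
  have hM := (pair hT B hB lam hl).hasMellin (s := (s : ℂ)) (by simpa [pair] using hs)
  have heq : EqOn (fun t : ℝ => (t : ℂ) ^ ((s : ℂ) - 1) •
      ((pair hT B hB lam hl).f t - (pair hT B hB lam hl).f₀))
      (fun t : ℝ => (((Fz B lam t).toReal * t ^ (s - 1) : ℝ) : ℂ)) (Ioi 0) := by
    intro t ht
    have ht0 : (0 : ℝ) ≤ t := le_of_lt ht
    simp only [pair, ff, add_sub_cancel_right, smul_eq_mul]
    rw [Complex.ofReal_mul, Complex.ofReal_cpow ht0, mul_comm]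
    push_cast
    rfl
  have hint : IntegrableOn (fun t : ℝ => (Fz B lam t).toReal * t ^ (s - 1)) (Ioi 0) := by
    have h1 : IntegrableOn (fun t : ℝ => (((Fz B lam t).toReal * t ^ (s - 1) : ℝ) : ℂ)) (Ioi 0) :=
      IntegrableOn.congr_fun hM.1 heq measurableSet_Ioi
    unfold IntegrableOn
    simpa using Integrable.re h1
  have hnn : 0 ≤ᵐ[volume.restrict (Ioi (0 : ℝ))]
      (fun t : ℝ => (Fz B lam t).toReal * t ^ (s - 1)) := by
    filter_upwards [ae_restrict_mem measurableSet_Ioi] with t ht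
    exact mul_nonneg ENNReal.toReal_nonneg (Real.rpow_nonneg (le_of_lt ht) _)
  refine ⟨∫ t in Ioi (0 : ℝ), (Fz B lam t).toReal * t ^ (s - 1), integral_nonneg_of_ae hnn, ?_, ?_⟩
  · rw [ofReal_integral_eq_lintegral_ofReal hint hnn]
    refine lintegral_congr fun t => ?_
    rw [ENNReal.ofReal_mul ENNReal.toReal_nonneg, ENNReal.ofReal_toReal (Fz_ne_top hT B hB lam t)]
    rfl
  · have h2 := hM.2
    unfold mellin at h2
    rw [setIntegral_congr_fun measurableSet_Ioi heq, integral_complex_ofReal] at h2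
    rw [h2]
    simp [WeakFEPair.Λ, pair]

end

end Pool.Agent.P.MP_29cb78_nt
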