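import Pool.Agent.P.MP_29cb78_nt.Iface

/-!
Parity of the number of ramified real places in an unramified quadratic extension, and
elementary facts on unit ranks and roots of unity.
-/

namespace Pool.Agent.P.MP_29cb78_nt

open NumberField NumberField.InfinitePlace NumberField.Units Ideal
open scoped Classical

namespace Par

variable {F M : Type} [Field F] [Field M] [NumberField F] [NumberField M] [Algebra F M]

lemma isGalois (h2 : Module.finrank F M = 2) : IsGalois F M := by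
  have : Algebra.IsQuadraticExtension F M := ⟨h2⟩
  infer_instance

lemma gal_cases (h2 : Module.finrank F M = 2) {ρ : Gal(M/F)} (hρ : ρ ≠ 1) (τ : Gal(M/F)) :
    τ = 1 ∨ τ = ρ := by
  have := isGalois h2
  have hc : Nat.card Gal(M/F) = 2 := by rw [IsGalois.card_aut_eq_finrank, h2]
  obtain ⟨y, -, hy⟩ := (Nat.card_eq_two_iff' (1 : Gal(M/F))).1 hc
  by_cases h : τ = 1
  · exact Or.inl h
  · exact Or.inr ((hy τ h).trans (hy ρ hρ).symm)

lemma rho_mul_rho (h2 : Module.finrank F M = 2) {ρ : Gal(M/F)} (hρ : ρ ≠ 1) : ρ * ρ = 1 := by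
  rcases gal_cases h2 hρ (ρ * ρ) with h | h
  · exact h
  · exact absurd (mul_left_cancel (h.trans (mul_one ρ).symm)) hρ

lemma rho_rho (h2 : Module.finrank F M = 2) {ρ : Gal(M/F)} (hρ : ρ ≠ 1) (x : 𝓞 M) :
    ρ • ρ • x = x := by
  rw [← mul_smul, rho_mul_rho h2 hρ, one_smul]

lemma fixed (h2 : Module.finrank F M = 2) {ρ : Gal(M/F)} (hρ : ρ ≠ 1) (x : M) (hx : ρ x = x) :
    ∃ y : F, algebraMap F M y = x := by
  have := isGalois h2
  have h : x ∈ (⊥ : IntermediateField F M) := by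
    rw [IsGalois.mem_bot_iff_fixed]
    intro τ
    rcases gal_cases h2 hρ τ with rfl | rfl
    · rfl
    · exact hx
  exact IntermediateField.mem_bot.1 h

omit [NumberField F] [NumberField M] in
lemma coe_smul (ρ : Gal(M/F)) (x : 𝓞 M) : ((ρ • x : 𝓞 M) : M) = ρ (x : M) := rfl

omit [NumberField F] [NumberField M] in
lemma coe_alg (y : 𝓞 F) : ((algebraMap (𝓞 F) (𝓞 M) y : 𝓞 M) : M) = algebraMap F M (y : F) := rfl

omit [NumberField F] [NumberField M] in
lemma smul_alg (ρ : Gal(M/F)) (y : 𝓞 F) :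
    ρ • algebraMap (𝓞 F) (𝓞 M) y = algebraMap (𝓞 F) (𝓞 M) y := by
  apply RingOfIntegers.ext
  rw [coe_smul, coe_alg, AlgEquiv.commutes]

lemma fixedO (h2 : Module.finrank F M = 2) {ρ : Gal(M/F)} (hρ : ρ ≠ 1) (x : 𝓞 M)
    (hx : ρ • x = x) : ∃ y : 𝓞 F, algebraMap (𝓞 F) (𝓞 M) y = x := by
  obtain ⟨y, hy⟩ := fixed h2 hρ (x : M) (by rw [← coe_smul, hx])
  have hi : IsIntegral ℤ y := by
    have h : IsIntegral ℤ (x : M) := x.isIntegral_coe
    rw [← hy] at h
    exact (isIntegral_algHom_iff (IsScalarTower.toAlgHom ℤ F M)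
      (algebraMap F M).injective).1 h
  exact ⟨⟨y, hi⟩, RingOfIntegers.ext hy⟩

lemma norm_add_mul (m : ℕ) (x y : 𝓞 F) :
    ((Algebra.norm ℤ (x + m * y) : ℤ) : ZMod m) = ((Algebra.norm ℤ x : ℤ) : ZMod m) := by
  let b := RingOfIntegers.basis F
  rw [Algebra.norm_eq_matrix_det b, Algebra.norm_eq_matrix_det b]
  have h1 := (Int.castRingHom (ZMod m)).map_det (Algebra.leftMulMatrix b (x + m * y))
  have h2 := (Int.castRingHom (ZMod m)).map_det (Algebra.leftMulMatrix b x)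
  simp only [eq_intCast] at h1 h2
  rw [h1, h2]
  congr 1
  rw [map_add, map_mul, map_natCast, map_add, map_mul, map_natCast]
  have : ((m : ℕ) : Matrix (Module.Free.ChooseBasisIndex ℤ (𝓞 F))
      (Module.Free.ChooseBasisIndex ℤ (𝓞 F)) (ZMod m)) = 0 := by
    rw [← map_natCast (algebraMap (ZMod m) _) m, ZMod.natCast_self, map_zero]
  rw [this, zero_mul, add_zero]

/-- The square of `γ - ρ γ` comes from below and is a square modulo four. -/
lemma exists_D (h2 : Module.finrank F M = 2) {ρ : Gal(M/F)} (hρ : ρ ≠ 1) (γ : 𝓞 M) :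
    ∃ t n : 𝓞 F, algebraMap (𝓞 F) (𝓞 M) (t ^ 2 + (4 : ℕ) * n) = (γ - ρ • γ) ^ 2 := by
  obtain ⟨t, ht⟩ := fixedO h2 hρ (γ + ρ • γ) (by rw [smul_add, rho_rho h2 hρ, add_comm])
  obtain ⟨n, hn⟩ := fixedO h2 hρ (γ * ρ • γ) (by rw [smul_mul', rho_rho h2 hρ, mul_comm])
  refine ⟨t, -n, ?_⟩
  simp only [map_add, map_mul, map_pow, map_neg, map_natCast, ht, hn]
  push_cast
  ring

lemma mem_of_mem (h2 : Module.finrank F M = 2) {ρ : Gal(M/F)} (hρ : ρ ≠ 1) (γ : 𝓞 M)
    {P Q : Ideal (𝓞 M)} (hQ : Q.IsPrime) (h : P.under (𝓞 F) = Q.under (𝓞 F))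
    (hm : γ - ρ • γ ∈ P) : γ - ρ • γ ∈ Q := by
  obtain ⟨t, n, hD⟩ := exists_D h2 hρ γ
  have h1 : t ^ 2 + (4 : ℕ) * n ∈ P.under (𝓞 F) := by
    rw [Ideal.under, mem_comap, hD]
    exact Ideal.pow_mem_of_mem P hm 2 two_pos
  rw [h, Ideal.under, mem_comap, hD] at h1
  exact hQ.mem_of_pow_mem 2 h1

lemma exists_gamma (h2 : Module.finrank F M = 2) {ρ : Gal(M/F)} (hρ : ρ ≠ 1)
    (hu : ∀ P : Ideal (𝓞 M), P.IsMaximal → ∃ γ : 𝓞 M, γ - ρ • γ ∉ P)
    (S : Finset (Ideal (𝓞 F))) (hS : ∀ p ∈ S, p.IsMaximal) :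
    ∃ γ : 𝓞 M, ∀ P : Ideal (𝓞 M), P.IsMaximal → P.under (𝓞 F) ∈ S → γ - ρ • γ ∉ P := by
  induction S using Finset.induction_on with
  | empty => exact ⟨0, fun P _ h => absurd h (Finset.notMem_empty _)⟩
  | insert p S hp ih =>
    obtain ⟨γ, hγ⟩ := ih fun q hq => hS q (Finset.mem_insert_of_mem hq)
    have hpm : p.IsMaximal := hS p (Finset.mem_insert_self _ _)
    obtain ⟨P0, hP0, hP0p⟩ := Ideal.exists_ideal_over_maximal_of_isIntegral (S := 𝓞 M) p (by
      rw [(RingHom.injective_iff_ker_eq_bot _).1 (FaithfulSMul.algebraMap_injective (𝓞 F) (𝓞 M))]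
      exact bot_le)
    obtain ⟨γ0, hγ0⟩ := hu P0 hP0
    have hco : IsCoprime p (∏ q ∈ S, q) := by
      refine IsCoprime.prod_right fun q hq => ?_
      rw [Ideal.isCoprime_iff_sup_eq]
      exact hpm.coprime_of_ne (hS q (Finset.mem_insert_of_mem hq)) (fun h => hp (h ▸ hq))
    obtain ⟨a, ha, e, he, hae⟩ := Ideal.isCoprime_iff_exists.1 hco
    refine ⟨algebraMap (𝓞 F) (𝓞 M) e * γ0 + algebraMap (𝓞 F) (𝓞 M) a * γ, fun P hP hPS hm => ?_⟩
    have h1 : algebraMap (𝓞 F) (𝓞 M) a + algebraMap (𝓞 F) (𝓞 M) e = 1 := by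
      rw [← map_add, hae, map_one]
    rw [smul_add, smul_mul', smul_mul', smul_alg, smul_alg] at hm
    rcases Finset.mem_insert.1 hPS with h | h
    · have haP : algebraMap (𝓞 F) (𝓞 M) a ∈ P := by
        rw [← h] at ha
        exact ha
      refine hγ0 (mem_of_mem h2 hρ γ0 hP0.isPrime (P := P) (h.trans hP0p.symm) ?_)
      have := P.add_mem hm (P.mul_mem_right ((γ0 - ρ • γ0) - (γ - ρ • γ)) haP)
      convert this using 1
      linear_combination (ρ • γ0 - γ0) * h1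
    · have heP : algebraMap (𝓞 F) (𝓞 M) e ∈ P :=
        (Ideal.prod_le_inf.trans (Finset.inf_le h) : ∏ q ∈ S, q ≤ P.under (𝓞 F)) he
      refine hγ P hP h ?_
      have := P.add_mem hm (P.mul_mem_right ((γ - ρ • γ) - (γ0 - ρ • γ0)) heP)
      convert this using 1
      linear_combination (ρ • γ - γ) * h1

/-- Invariant ideals come from below when nothing ramifies. -/
lemma map_under (h2 : Module.finrank F M = 2) {ρ : Gal(M/F)} (hρ : ρ ≠ 1)
    (hu : ∀ P : Ideal (𝓞 M), P.IsMaximal → ∃ γ : 𝓞 M, γ - ρ • γ ∉ P)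
    (I : Ideal (𝓞 M)) (hI : ∀ z ∈ I, ρ • z ∈ I) :
    (I.under (𝓞 F)).map (algebraMap (𝓞 F) (𝓞 M)) = I := by
  refine le_antisymm Ideal.map_comap_le fun z hz => ?_
  set J := (I.under (𝓞 F)).map (algebraMap (𝓞 F) (𝓞 M))
  have htr : ∀ x ∈ I, x + ρ • x ∈ J := fun x hx => by
    obtain ⟨t, ht⟩ := fixedO h2 hρ (x + ρ • x) (by rw [smul_add, rho_rho h2 hρ, add_comm])
    rw [← ht]
    refine Ideal.mem_map_of_mem _ ?_
    rw [Ideal.under, mem_comap, ht]
    exact I.add_mem hx (hI x hx)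
  by_contra hzJ
  have hne : J.colon {z} ≠ ⊤ := by
    intro h
    have h1 : (1 : 𝓞 M) ∈ J.colon {z} := h ▸ Submodule.mem_top
    rw [Submodule.mem_colon_singleton, one_smul] at h1
    exact hzJ h1
  obtain ⟨P, hP, hle⟩ := Ideal.exists_le_maximal _ hne
  obtain ⟨γ, hγ⟩ := hu P hP
  refine hγ (hle ?_)
  rw [Submodule.mem_colon_singleton, smul_eq_mul]
  have h1 := htr _ (I.mul_mem_left γ hz)
  have h3 := J.mul_mem_left (ρ • γ) (htr _ hz)
  rw [smul_mul'] at h1
  convert J.sub_mem h1 h3 using 1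
  ring

lemma absNorm_sq (h2 : Module.finrank F M = 2) {ρ : Gal(M/F)} (hρ : ρ ≠ 1)
    (hu : ∀ P : Ideal (𝓞 M), P.IsMaximal → ∃ γ : 𝓞 M, γ - ρ • γ ∉ P)
    (γ : 𝓞 M) (D : 𝓞 F) (hD : algebraMap (𝓞 F) (𝓞 M) D = (γ - ρ • γ) ^ 2) :
    ∃ k : ℕ, (Algebra.norm ℤ D).natAbs = k ^ 2 := by
  have hI : ∀ z ∈ span {γ - ρ • γ}, ρ • z ∈ span {γ - ρ • γ} := fun z hz => by
    obtain ⟨c, rfl⟩ := Ideal.mem_span_singleton'.1 hz
    refine Ideal.mem_span_singleton'.2 ⟨-(ρ • c), ?_⟩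
    rw [smul_mul', smul_sub, rho_rho h2 hρ]
    ring
  have h := map_under h2 hρ hu _ hI
  set a := (span {γ - ρ • γ} : Ideal (𝓞 M)).under (𝓞 F)
  have h1 : (span {D}).map (algebraMap (𝓞 F) (𝓞 M)) = (a ^ 2).map (algebraMap (𝓞 F) (𝓞 M)) := by
    rw [Ideal.map_pow, h, Ideal.map_span, Set.image_singleton, hD, Ideal.span_singleton_pow]
  have h3 := congrArg absNorm h1
  rw [Ideal.absNorm_algebraMap, Ideal.absNorm_algebraMap] at h3
  have hpos : Module.finrank (𝓞 F) (𝓞 M) ≠ 0 := Module.finrank_pos.ne'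
  refine ⟨absNorm a, ?_⟩
  rw [← Ideal.absNorm_span_singleton, Nat.pow_left_injective hpos h3, map_pow]

lemma sign_at [IsTotallyReal F] (h2 : Module.finrank F M = 2) {ρ : Gal(M/F)} (hρ : ρ ≠ 1)
    (δ : M) (hδ : ρ δ = -δ) (h0 : δ ≠ 0) (φ : M →+* ℂ) :
    ((mk φ).IsUnramified F → 0 < (φ δ ^ 2).re ∧ (φ δ ^ 2).im = 0) ∧
    ((mk φ).IsRamified F → (φ δ ^ 2).re < 0 ∧ (φ δ ^ 2).im = 0) := by
  have := isGalois h2
  have hφ0 : φ δ ≠ 0 := (map_ne_zero φ).2 h0
  constructor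
  · intro h
    have hr : (mk φ).IsReal := (isUnramified_iff.1 h).resolve_right
      (not_isComplex_iff_isReal.2 (IsTotallyReal.isReal _))
    rw [isReal_mk_iff, ComplexEmbedding.isReal_iff] at hr
    have h1 : (starRingEnd ℂ) (φ δ) = φ δ := by
      rw [← ComplexEmbedding.conjugate_coe_eq, hr]
    have him : (φ δ).im = 0 := Complex.conj_eq_iff_im.1 h1
    have hre : (φ δ).re ≠ 0 := fun h => hφ0 (Complex.ext h him)
    simp only [sq, Complex.mul_re, Complex.mul_im, him, mul_zero, sub_zero, zero_mul, add_zero,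
      and_true]
    exact mul_self_pos.2 hre
  · intro h
    obtain ⟨σ, hσ⟩ := exists_isConj_of_isRamified h
    have hσ1 : σ ≠ 1 := fun h1 => h ((hσ.isUnramified_mk_iff).2 h1)
    obtain rfl : σ = ρ := (gal_cases h2 hρ σ).resolve_left hσ1
    have h1 := hσ.eq δ
    rw [hδ, map_neg] at h1
    have hre : (φ δ).re = 0 := by
      have := congrArg Complex.re h1
      simp only [Complex.neg_re, Complex.star_def, Complex.conj_re] at this
      linarith
    have him : (φ δ).im ≠ 0 := fun h => hφ0 (Complex.ext hre h)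
    simp only [sq, Complex.mul_re, Complex.mul_im, hre, mul_zero, zero_sub, zero_mul, add_zero,
      and_true, neg_lt_zero]
    exact mul_self_pos.2 him

lemma norm_neg [IsTotallyReal F] (h2 : Module.finrank F M = 2) {ρ : Gal(M/F)} (hρ : ρ ≠ 1)
    (w0 : InfinitePlace M) (hev : Even (Module.finrank ℚ F)) (hw0 : w0.IsUnramified F)
    (hw : ∀ w : InfinitePlace M, w.comap (algebraMap F M) ≠ w0.comap (algebraMap F M) →
      w.IsRamified F) (δ : M) (hδ : ρ δ = -δ) (h0 : δ ≠ 0) (D : F)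
    (hD : algebraMap F M D = δ ^ 2) : Algebra.norm ℚ D < 0 := by
  set σ0 : F →+* ℂ := w0.embedding.comp (algebraMap F M) with hσ0
  have hpos : 0 < (σ0 D).re ∧ (σ0 D).im = 0 := by
    have := (sign_at h2 hρ δ hδ h0 w0.embedding).1 (by rwa [mk_embedding])
    rwa [← map_pow, ← hD] at this
  have hneg : ∀ σ : F →+* ℂ, σ ≠ σ0 → (σ D).re < 0 ∧ (σ D).im = 0 := fun σ hσ => by
    have hne : (mk (ComplexEmbedding.lift M σ)).comap (algebraMap F M) ≠
        w0.comap (algebraMap F M) := by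
      rw [comap_mk_lift, ← mk_embedding w0, comap_mk]
      intro h
      rcases mk_eq_iff.1 h with h1 | h1
      · exact hσ h1
      · rw [ComplexEmbedding.isReal_iff.1 (IsTotallyReal.complexEmbedding_isReal σ)] at h1
        exact hσ h1
    have := (sign_at h2 hρ δ hδ h0 _).2 (hw _ hne)
    rwa [← map_pow, ← hD, ComplexEmbedding.lift_algebraMap_apply] at this
  have hre : ∀ σ : F →+* ℂ, σ D = ((σ D).re : ℂ) := fun σ => by
    refine Complex.ext (by simp) ?_
    by_cases h : σ = σ0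
    · rw [h, hpos.2, Complex.ofReal_im]
    · rw [(hneg σ h).2, Complex.ofReal_im]
  have h1 : ((Algebra.norm ℚ D : ℚ) : ℂ) = ∏ σ : F →+* ℂ, σ D := by
    have := Algebra.norm_eq_prod_embeddings ℚ ℂ D
    rw [eq_ratCast] at this
    rw [this]
    exact (Fintype.prod_equiv (RingHom.equivRatAlgHom F ℂ) (fun σ => σ D) (fun σ => σ D)
      fun _ => rfl).symm
  have h3 : ((Algebra.norm ℚ D : ℚ) : ℝ) = ∏ σ : F →+* ℂ, (σ D).re := by
    apply Complex.ofReal_injective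
    rw [Complex.ofReal_ratCast, h1, Complex.ofReal_prod]
    exact Finset.prod_congr rfl fun σ _ => hre σ
  have hodd : Odd (Finset.univ.erase σ0).card := by
    rw [Finset.card_erase_of_mem (Finset.mem_univ _), Finset.card_univ, Embeddings.card]
    exact Nat.Even.sub_odd Module.finrank_pos hev odd_one
  have h4 : ∏ σ ∈ Finset.univ.erase σ0, (σ D).re < 0 := by
    have h5 : 0 < ∏ σ ∈ Finset.univ.erase σ0, -(σ D).re :=
      Finset.prod_pos fun σ hσ => neg_pos.2 (hneg σ (Finset.ne_of_mem_erase hσ)).1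
    rw [Finset.prod_neg, hodd.neg_one_pow] at h5
    linarith
  rw [← Finset.mul_prod_erase _ _ (Finset.mem_univ σ0)] at h3
  have : ((Algebra.norm ℚ D : ℚ) : ℝ) < 0 := h3 ▸ mul_neg_of_pos_of_neg hpos.1 h4
  exact_mod_cast this

end Par

open Par in
theorem par : PAR := by
  intro F M _ _ _ _ _ _ ρ w0 h2 hρ hev hw0 hw
  by_contra hcon
  have hu : ∀ P : Ideal (𝓞 M), P.IsMaximal → ∃ γ : 𝓞 M, γ - ρ • γ ∉ P := fun P hP => by
    by_contra h
    push Not at h
    refine hcon ⟨P, hP, fun x => ?_⟩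
    have := P.neg_mem (h x)
    rwa [neg_sub] at this
  have h20 : (span {(2 : 𝓞 F)} : Ideal (𝓞 F)) ≠ ⊥ := by simp
  obtain ⟨γ, hγ⟩ := exists_gamma h2 hρ hu
    (UniqueFactorizationMonoid.normalizedFactors (span {(2 : 𝓞 F)})).toFinset (fun p hp => by
      rw [Multiset.mem_toFinset, Ideal.mem_normalizedFactors_iff h20] at hp
      exact hp.1.isMaximal fun h => h20 (le_bot_iff.1 (h ▸ hp.2)))
  obtain ⟨t, n, hD⟩ := exists_D h2 hρ γ
  set D := t ^ 2 + (4 : ℕ) * n with hDdef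
  have hcop : span {D} ⊔ span {(2 : 𝓞 F)} = ⊤ := by
    by_contra hne
    obtain ⟨p, hp, hle⟩ := Ideal.exists_le_maximal _ hne
    obtain ⟨P, hP, hPp⟩ := Ideal.exists_ideal_over_maximal_of_isIntegral (S := 𝓞 M) p (by
      rw [(RingHom.injective_iff_ker_eq_bot _).1 (FaithfulSMul.algebraMap_injective (𝓞 F) (𝓞 M))]
      exact bot_le)
    refine hγ P hP ?_ (hP.isPrime.mem_of_pow_mem 2 ?_)
    · rw [Multiset.mem_toFinset, Ideal.mem_normalizedFactors_iff h20, Ideal.under, hPp]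
      exact ⟨hp.isPrime, le_sup_right.trans hle⟩
    · rw [← hD, ← mem_comap, hPp]
      exact hle (Ideal.mem_sup_left (Ideal.mem_span_singleton_self D))
  obtain ⟨a, b, hab⟩ : ∃ a b : 𝓞 F, a * D = 1 + (2 : ℕ) * b := by
    obtain ⟨x, hx, y, hy, hxy⟩ := Submodule.mem_sup.1 ((Ideal.eq_top_iff_one _).1 hcop)
    obtain ⟨a, rfl⟩ := Ideal.mem_span_singleton'.1 hx
    obtain ⟨b, rfl⟩ := Ideal.mem_span_singleton'.1 hy
    refine ⟨a, -b, ?_⟩
    push_cast
    linear_combination hxy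
  have hm2 := norm_add_mul 2 1 b
  rw [← hab, map_mul, map_one] at hm2
  have hm4 := norm_add_mul 4 (t ^ 2) n
  rw [← hDdef, map_pow] at hm4
  obtain ⟨k, hk⟩ := absNorm_sq h2 hρ hu γ D hD
  have hodd : ¬ (2 : ℤ) ∣ Algebra.norm ℤ D := fun ⟨c, hc⟩ => by
    rw [hc] at hm2
    push_cast at hm2
    have h0 : (2 : ZMod 2) = 0 := rfl
    rw [h0, zero_mul, mul_zero] at hm2
    exact zero_ne_one hm2
  have hD0 : γ - ρ • γ ≠ 0 := fun h => by
    rw [h, zero_pow two_ne_zero, map_eq_zero_iff _ (FaithfulSMul.algebraMap_injective _ _)] at hD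
    rw [hD, Algebra.norm_zero] at hodd
    exact hodd (dvd_zero 2)
  have hneg := norm_neg h2 hρ w0 hev hw0 hw ((γ - ρ • γ : 𝓞 M) : M) (by
      rw [← coe_smul, smul_sub, rho_rho h2 hρ]
      simp) (fun h => hD0 (RingOfIntegers.coe_eq_zero_iff.1 h)) (D : F) (by
      rw [← coe_alg, hD]
      simp)
  rw [← Algebra.coe_norm_int] at hneg
  have hneg' : Algebra.norm ℤ D < 0 := by exact_mod_cast hneg
  have hk' : Algebra.norm ℤ D = -(k : ℤ) ^ 2 := by
    have := Int.ofNat_natAbs_of_nonpos hneg'.le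
    rw [hk] at this
    push_cast at this
    linarith
  rw [hk'] at hm4 hodd
  rw [ZMod.intCast_eq_intCast_iff'] at hm4
  generalize Algebra.norm ℤ t = u at hm4
  have hk2 : (k : ℤ) % 2 = 1 := by
    rcases Int.emod_two_eq_zero_or_one k with h | h
    · exact absurd ((dvd_pow (Int.dvd_of_emod_eq_zero h) two_ne_zero).neg_right) hodd
    · exact h
  obtain ⟨j, hj⟩ : ∃ j : ℤ, (k : ℤ) = 2 * j + 1 := ⟨k / 2, by omega⟩
  rcases Int.even_or_odd' u with ⟨v, rfl | rfl⟩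
  · rw [hj, show -(2 * j + 1) ^ 2 = 3 + 4 * (-j ^ 2 - j - 1) by ring,
      show (2 * v) ^ 2 = 0 + 4 * v ^ 2 by ring] at hm4
    push_cast at hm4
    omega
  · rw [hj, show -(2 * j + 1) ^ 2 = 3 + 4 * (-j ^ 2 - j - 1) by ring,
      show (2 * v + 1) ^ 2 = 1 + 4 * (v ^ 2 + v) by ring] at hm4
    push_cast at hm4
    omega

theorem rank_tors : RANK := by
  intro F M _ _ _ _ _
  refine ⟨fun h2 w1 w2 hw1 hw2 hne => ?_, ?_, fun z hz => ?_⟩
  · have := Par.isGalois h2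
    have h := card_eq_card_isUnramifiedIn F M
    have hc := Finset.card_add_card_compl
      ({w : InfinitePlace F | w.IsUnramifiedIn M} : Finset (InfinitePlace F))
    have h1 : 1 < ({w : InfinitePlace F | w.IsUnramifiedIn M} : Finset (InfinitePlace F)).card := by
      refine Finset.one_lt_card.2 ⟨_, ?_, _, ?_, hne⟩
      · exact (Finset.mem_filter_univ _).2 (isUnramifiedIn_comap.2 hw1)
      · exact (Finset.mem_filter_univ _).2 (isUnramifiedIn_comap.2 hw2)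
    rw [h2] at h
    unfold rank
    omega
  · let f : torsion F →* torsion M :=
      ((Units.map (algebraMap (𝓞 F) (𝓞 M)).toMonoidHom).comp (torsion F).subtype).codRestrict
        (torsion M) fun x => MonoidHom.isOfFinOrder _ (isOfFinOrder_of_finite x)
    refine Subgroup.card_dvd_of_injective f fun x y hxy => ?_
    have h1 := congrArg Subtype.val hxy
    exact Subtype.ext (Units.map_injective (FaithfulSMul.algebraMap_injective (𝓞 F) (𝓞 M)) h1)
  · obtain ⟨g, hg⟩ := IsCyclic.exists_ofOrder_eq_natCard (α := torsion F)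
    have h1 : IsPrimitiveRoot ((g : (𝓞 F)ˣ) : F) (torsionOrder F) := by
      rw [IsPrimitiveRoot.coe_coe_iff, torsionOrder, ← hg, ← Subgroup.orderOf_coe]
      exact IsPrimitiveRoot.orderOf _
    obtain ⟨i, -, hi⟩ := (h1.map_of_injective (algebraMap F M).injective).eq_pow_of_pow_eq_one hz
    exact ⟨_, by rw [← hi, ← map_pow]⟩

end Pool.Agent.P.MP_29cb78_nt
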