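import Pool.Agent.P.MP_29cb78_nt.Iface

/-!
Class numbers in a quadratic extension: the ambiguous class number divisibility.
-/

namespace Pool.Agent.P.MP_29cb78_nt

open NumberField NumberField.InfinitePlace NumberField.Units Set Ideal
open scoped Classical nonZeroDivisors

noncomputable section

namespace TCl

theorem relIndex_dvd_right {G : Type*} [CommGroup G] (H K L : Subgroup G) (h : K ≤ L) :
    H.relIndex K ∣ H.relIndex L := by
  rw [← Subgroup.relIndex_sup_left K H, ← Subgroup.relIndex_sup_left L H,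
    ← Subgroup.relIndex_mul_relIndex H (H ⊔ K) (H ⊔ L) le_sup_left (sup_le_sup_left h H)]
  exact Dvd.intro _ rfl

variable {F M : Type} [Field F] [Field M] [NumberField F] [NumberField M] [Algebra F M]

theorem card_gal (ρ : Gal(M/F)) (h2 : Module.finrank F M = 2) (hρ : ρ ≠ 1) :
    Nat.card Gal(M/F) = 2 := by
  apply le_antisymm
  · rw [← h2, Nat.card_eq_fintype_card]
    exact AlgEquiv.card_le
  · have : Nontrivial Gal(M/F) := ⟨⟨ρ, 1, hρ⟩⟩
    exact Finite.one_lt_card

theorem isGalois (ρ : Gal(M/F)) (h2 : Module.finrank F M = 2) (hρ : ρ ≠ 1) : IsGalois F M :=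
  IsGalois.of_card_aut_eq_finrank F M (by rw [card_gal ρ h2 hρ, h2])

theorem gal_cases (ρ : Gal(M/F)) (h2 : Module.finrank F M = 2) (hρ : ρ ≠ 1) (σ : Gal(M/F)) :
    σ = 1 ∨ σ = ρ := by
  obtain ⟨y, -, hy⟩ := (Nat.card_eq_two_iff' (1 : Gal(M/F))).1 (card_gal ρ h2 hρ)
  by_cases h : σ = 1
  · exact Or.inl h
  · exact Or.inr ((hy σ h).trans (hy ρ hρ).symm)

theorem rho_rho (ρ : Gal(M/F)) (h2 : Module.finrank F M = 2) (hρ : ρ ≠ 1) (x : M) :
    ρ (ρ x) = x := by
  rcases gal_cases ρ h2 hρ (ρ * ρ) with h | h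
  · rw [← AlgEquiv.mul_apply, h, AlgEquiv.one_apply]
  · exact absurd (mul_left_cancel (h.trans (mul_one ρ).symm)) hρ

theorem fixed (ρ : Gal(M/F)) (h2 : Module.finrank F M = 2) (hρ : ρ ≠ 1) (x : M) (hx : ρ x = x) :
    ∃ y : F, algebraMap F M y = x := by
  have := isGalois ρ h2 hρ
  have h := (IsGalois.mem_range_algebraMap_iff_fixed (F := F) x).2 (fun σ => by
    rcases gal_cases ρ h2 hρ σ with h | h
    · rw [h, AlgEquiv.one_apply]
    · rw [h, hx])
  exact h

omit [NumberField F] [NumberField M] in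
theorem coe_smul (ρ : Gal(M/F)) (z : 𝓞 M) :
    algebraMap (𝓞 M) M (ρ • z) = ρ (algebraMap (𝓞 M) M z) := rfl

omit [NumberField F] [NumberField M] in
theorem mem_one_rho (ρ : Gal(M/F)) {x : M} (hx : x ∈ (1 : FractionalIdeal (𝓞 M)⁰ M)) :
    ρ x ∈ (1 : FractionalIdeal (𝓞 M)⁰ M) := by
  rw [FractionalIdeal.mem_one_iff] at hx ⊢
  obtain ⟨z, rfl⟩ := hx
  exact ⟨ρ • z, coe_smul ρ z⟩

/-- The fractional ideals that are stable under `ρ`. -/
def stab (ρ : Gal(M/F)) (hr : ∀ x, ρ (ρ x) = x) : Subgroup (FractionalIdeal (𝓞 M)⁰ M)ˣ where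
  carrier := {I | ∀ x ∈ (I : FractionalIdeal (𝓞 M)⁰ M), ρ x ∈ (I : FractionalIdeal (𝓞 M)⁰ M)}
  one_mem' := fun _ hx => mem_one_rho ρ hx
  mul_mem' := fun {a b} ha hb x hx => by
    rw [Units.val_mul] at hx ⊢
    refine FractionalIdeal.mul_induction_on hx (fun i hi j hj => ?_) (fun x y hx hy => ?_)
    · rw [map_mul]
      exact FractionalIdeal.mul_mem_mul (ha i hi) (hb j hj)
    · rw [map_add]
      exact Submodule.add_mem _ hx hy
  inv_mem' := fun {a} ha x hx => by
    rw [Units.val_inv_eq_inv_val, FractionalIdeal.mem_inv_iff a.ne_zero] at hx ⊢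
    intro y hy
    have h := mem_one_rho ρ (hx (ρ y) (ha y hy))
    rwa [map_mul, hr] at h

/-- Extension of fractional ideals. -/
def ext (F M : Type) [Field F] [Field M] [NumberField F] [NumberField M] [Algebra F M] :
    (FractionalIdeal (𝓞 F)⁰ F)ˣ →* (FractionalIdeal (𝓞 M)⁰ M)ˣ :=
  Units.map (FractionalIdeal.extendedHom M (𝓞 M) :
    FractionalIdeal (𝓞 F)⁰ F →+* FractionalIdeal (𝓞 M)⁰ M).toMonoidHom

theorem coe_ext (I : (FractionalIdeal (𝓞 F)⁰ F)ˣ) :
    (ext F M I : FractionalIdeal (𝓞 M)⁰ M) =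
      FractionalIdeal.extendedHom M (𝓞 M) (I : FractionalIdeal (𝓞 F)⁰ F) := rfl

theorem ext_injective : Function.Injective (ext F M) :=
  Units.map_injective (FractionalIdeal.extendedHom_injective (𝓞 F) F M (𝓞 M))

theorem ext_span (x : F) :
    FractionalIdeal.extendedHom M (𝓞 M) (FractionalIdeal.spanSingleton (𝓞 F)⁰ x) =
      FractionalIdeal.spanSingleton (𝓞 M)⁰ (algebraMap F M x) := by
  apply FractionalIdeal.coeToSubmodule_injective
  simp only
  rw [FractionalIdeal.coe_extendedHom_eq_span, FractionalIdeal.coe_spanSingleton]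
  apply le_antisymm
  · rw [Submodule.span_le]
    rintro _ ⟨y, hy, rfl⟩
    obtain ⟨z, rfl⟩ := (FractionalIdeal.mem_spanSingleton _).1 hy
    rw [SetLike.mem_coe, Submodule.mem_span_singleton]
    refine ⟨algebraMap (𝓞 F) (𝓞 M) z, ?_⟩
    rw [Algebra.smul_def, Algebra.smul_def, map_mul, ← IsScalarTower.algebraMap_apply,
      ← IsScalarTower.algebraMap_apply]
  · apply Submodule.span_mono
    rintro _ rfl
    exact ⟨x, FractionalIdeal.mem_spanSingleton_self _ x, rfl⟩

theorem range_le_stab (ρ : Gal(M/F)) (hr : ∀ x, ρ (ρ x) = x) : (ext F M).range ≤ stab ρ hr := by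
  rintro _ ⟨I, rfl⟩ x hx
  rw [coe_ext, ← FractionalIdeal.mem_coe, FractionalIdeal.coe_extendedHom_eq_span] at hx ⊢
  induction hx using Submodule.span_induction with
  | mem x hx =>
    obtain ⟨y, hy, rfl⟩ := hx
    rw [AlgEquiv.commutes]
    exact Submodule.subset_span ⟨y, hy, rfl⟩
  | zero => rw [map_zero]; exact Submodule.zero_mem _
  | add x y _ _ hx hy => rw [map_add]; exact Submodule.add_mem _ hx hy
  | smul a x _ hx =>
    rw [Algebra.smul_def, map_mul, ← coe_smul, ← Algebra.smul_def]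
    exact Submodule.smul_mem _ _ hx

theorem index_principal (L : Type) [Field L] [NumberField L] :
    (toPrincipalIdeal (𝓞 L) L).range.index = classNumber L := by
  rw [classNumber, ← Nat.card_eq_fintype_card, Nat.card_congr (ClassGroup.equiv L).toEquiv]
  rfl

theorem even_count_coe (ρ : Gal(M/F)) (h2 : Module.finrank F M = 2) (hρ : ρ ≠ 1)
    (v : IsDedekindDomain.HeightOneSpectrum (𝓞 M)) (hv : ρ ∈ v.asIdeal.inertia Gal(M/F))
    (a : Ideal (𝓞 F)) (ha : a ≠ ⊥) :
    Even (FractionalIdeal.count M v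
      ((a.map (algebraMap (𝓞 F) (𝓞 M)) : Ideal (𝓞 M)) : FractionalIdeal (𝓞 M)⁰ M)) := by
  have := isGalois ρ h2 hρ
  have hm : a.map (algebraMap (𝓞 F) (𝓞 M)) ≠ ⊥ := Ideal.map_ne_bot_of_ne_bot ha
  set p : IsDedekindDomain.HeightOneSpectrum (𝓞 F) := v.under (𝓞 F) with hp
  have hl : v.asIdeal.LiesOver p.asIdeal := ⟨rfl⟩
  have hvp := v.isPrime
  have hpp := p.isPrime
  have hpm := p.isMaximal
  have he : p.asIdeal.ramificationIdx' v.asIdeal = 2 := by
    rw [Ideal.ramificationIdx'_eq_ramificationIdx p.asIdeal v.asIdeal p.ne_bot,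
      ← Ideal.ramificationIdxIn_eq_ramificationIdx p.asIdeal v.asIdeal Gal(M/F),
      ← Ideal.card_inertia_eq_ramificationIdxIn (G := Gal(M/F)) p.asIdeal v.asIdeal]
    have ht : v.asIdeal.inertia Gal(M/F) = ⊤ := by
      rw [eq_top_iff]
      intro σ _
      rcases gal_cases ρ h2 hρ σ with h | h
      · rw [h]; exact one_mem _
      · rw [h]; exact hv
    rw [ht, Subgroup.card_top, card_gal ρ h2 hρ]
  have h := Ideal.IsDedekindDomain.emultiplicity_map_eq_ramificationIdx'_mul (S := 𝓞 M) ha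
    p.irreducible v.irreducible v.ne_bot
  rw [he, UniqueFactorizationMonoid.emultiplicity_eq_count_normalizedFactors v.irreducible hm,
    UniqueFactorizationMonoid.emultiplicity_eq_count_normalizedFactors p.irreducible ha,
    normalize_eq, normalize_eq] at h
  rw [FractionalIdeal.count_coe M v hm, Ideal.count_associates_factors_eq hm hvp v.ne_bot]
  have h' : Multiset.count v.asIdeal
      (UniqueFactorizationMonoid.normalizedFactors (a.map (algebraMap (𝓞 F) (𝓞 M)))) =
      2 * Multiset.count p.asIdeal (UniqueFactorizationMonoid.normalizedFactors a) := by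
    exact_mod_cast h
  rw [h']
  exact ⟨_, by push_cast; rw [two_mul]⟩

theorem even_count_ext (ρ : Gal(M/F)) (h2 : Module.finrank F M = 2) (hρ : ρ ≠ 1)
    (v : IsDedekindDomain.HeightOneSpectrum (𝓞 M)) (hv : ρ ∈ v.asIdeal.inertia Gal(M/F))
    (I : (FractionalIdeal (𝓞 F)⁰ F)ˣ) :
    Even (FractionalIdeal.count M v (ext F M I : FractionalIdeal (𝓞 M)⁰ M)) := by
  obtain ⟨a, J, ha, hJ⟩ := FractionalIdeal.exists_eq_spanSingleton_mul
    (I : FractionalIdeal (𝓞 F)⁰ F)
  have hJ0 : J ≠ ⊥ := by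
    rintro rfl
    apply I.ne_zero
    rw [hJ, FractionalIdeal.coeIdeal_bot, mul_zero]
  have ha0 : (Ideal.span {a} : Ideal (𝓞 F)) ≠ ⊥ := by
    rwa [Ne, Ideal.span_singleton_eq_bot]
  have e1 : (FractionalIdeal.spanSingleton (𝓞 F)⁰ (algebraMap (𝓞 F) F a)⁻¹) =
      (((Ideal.span {a} : Ideal (𝓞 F)) : FractionalIdeal (𝓞 F)⁰ F))⁻¹ := by
    rw [FractionalIdeal.coeIdeal_span_singleton, FractionalIdeal.spanSingleton_inv]
  rw [coe_ext, hJ, e1, map_mul, map_inv₀, FractionalIdeal.extendedHom_coeIdeal_eq_map,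
    FractionalIdeal.extendedHom_coeIdeal_eq_map, FractionalIdeal.count_mul, FractionalIdeal.count_inv]
  · exact (even_count_coe ρ h2 hρ v hv _ ha0).neg.add (even_count_coe ρ h2 hρ v hv _ hJ0)
  · exact inv_ne_zero (FractionalIdeal.coeIdeal_ne_zero.2 (Ideal.map_ne_bot_of_ne_bot ha0))
  · exact FractionalIdeal.coeIdeal_ne_zero.2 (Ideal.map_ne_bot_of_ne_bot hJ0)

/-- Parities of the valuations at a finite family of primes. -/
def par {ι : Type} (v : ι → IsDedekindDomain.HeightOneSpectrum (𝓞 M)) :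
    (FractionalIdeal (𝓞 M)⁰ M)ˣ →* Multiplicative (ι → ZMod 2) where
  toFun I := Multiplicative.ofAdd fun i =>
    ((FractionalIdeal.count M (v i) (I : FractionalIdeal (𝓞 M)⁰ M) : ℤ) : ZMod 2)
  map_one' := by
    rw [← ofAdd_zero]
    congr 1
    funext i
    simp [FractionalIdeal.count_one]
  map_mul' I J := by
    rw [← ofAdd_add]
    congr 1
    funext i
    rw [Units.val_mul, FractionalIdeal.count_mul M (v i) I.ne_zero J.ne_zero]
    simp

theorem two_pow_dvd (ρ : Gal(M/F)) (h2 : Module.finrank F M = 2) (hρ : ρ ≠ 1)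
    {ι : Type} [Fintype ι] (v : ι → IsDedekindDomain.HeightOneSpectrum (𝓞 M))
    (hinj : Function.Injective v) (hv : ∀ i, ρ ∈ (v i).asIdeal.inertia Gal(M/F)) :
    2 ^ Fintype.card ι ∣ (ext F M).range.relIndex (stab ρ (rho_rho ρ h2 hρ)) := by
  have h1 : (ext F M).range ≤ (par v).ker := by
    rintro _ ⟨I, rfl⟩
    rw [MonoidHom.mem_ker]
    change Multiplicative.ofAdd _ = Multiplicative.ofAdd 0
    congr 1
    funext i
    exact (ZMod.intCast_eq_zero_iff_even).2 (even_count_ext ρ h2 hρ (v i) (hv i) I)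
  have h3 : (stab ρ (rho_rho ρ h2 hρ)).map (par v) = ⊤ := by
    have hs : ∀ i, Multiplicative.ofAdd (Pi.single i (1 : ZMod 2)) ∈
        (stab ρ (rho_rho ρ h2 hρ)).map (par v) := by
      intro i
      refine ⟨Units.mk0 ((v i).asIdeal : FractionalIdeal (𝓞 M)⁰ M)
        (FractionalIdeal.coeIdeal_ne_zero.2 (v i).ne_bot), ?_, ?_⟩
      · intro x hx
        rw [Units.val_mk0, FractionalIdeal.mem_coeIdeal] at hx ⊢
        obtain ⟨z, hz, rfl⟩ := hx
        refine ⟨ρ • z, ?_, coe_smul ρ z⟩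
        have h := (v i).asIdeal.add_mem (hv i z) hz
        simpa using h
      · change Multiplicative.ofAdd _ = _
        congr 1
        funext k
        rw [Units.val_mk0, FractionalIdeal.count_maximal, Pi.single_apply]
        by_cases h : k = i
        · simp [h]
        · have h' : v i ≠ v k := fun e => h (hinj e).symm
          simp [h, h']
    rw [eq_top_iff]
    intro g _
    have hg : g = ∏ i, (Multiplicative.ofAdd (Pi.single i (1 : ZMod 2))) ^
        (Multiplicative.toAdd g i).val := by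
      apply Multiplicative.toAdd.injective
      funext k
      simp only [toAdd_prod, toAdd_pow, toAdd_ofAdd, Finset.sum_apply, Pi.smul_apply,
        Pi.single_apply]
      simp
    rw [hg]
    exact prod_mem fun i _ => pow_mem (hs i) _
  have h4 := Subgroup.relIndex_dvd_of_le_left (stab ρ (rho_rho ρ h2 hρ)) h1
  rw [Subgroup.relIndex_ker, h3, Subgroup.card_top] at h4
  simpa [Nat.card_eq_fintype_card] using h4

/-- The map `x ↦ x / ρ x`. -/
def dlt (ρ : Gal(M/F)) : Mˣ →* Mˣ :=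
  (MonoidHom.id Mˣ) / (Units.map (ρ : M →* M))

omit [NumberField F] [NumberField M] in
theorem coe_dlt (ρ : Gal(M/F)) (x : Mˣ) : (dlt ρ x : M) = x / ρ x := by
  simp [dlt]

/-- Units of the ring of integers as units of the field. -/
def inc (M : Type) [Field M] : (𝓞 M)ˣ →* Mˣ := Units.map (algebraMap (𝓞 M) M : 𝓞 M →* M)

omit [NumberField M] in
theorem coe_inc (u : (𝓞 M)ˣ) : (inc M u : M) = (u : M) := rfl

omit [NumberField M] in
theorem inc_injective : Function.Injective (inc M) :=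
  Units.map_injective RingOfIntegers.coe_injective

theorem principal_dvd (ρ : Gal(M/F)) (h2 : Module.finrank F M = 2) (hρ : ρ ≠ 1) :
    ((toPrincipalIdeal (𝓞 F) F).range.map (ext F M)).relIndex
      (stab ρ (rho_rho ρ h2 hρ) ⊓ (toPrincipalIdeal (𝓞 M) M).range) ∣
      (Ecob ρ).relIndex (Eminus ρ) := by
  have hr := rho_rho ρ h2 hρ
  set X : Subgroup Mˣ := (stab ρ hr).comap (toPrincipalIdeal (𝓞 M) M) with hX
  have e1 : stab ρ hr ⊓ (toPrincipalIdeal (𝓞 M) M).range = X.map (toPrincipalIdeal (𝓞 M) M) := by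
    rw [hX, Subgroup.map_comap_eq, inf_comm]
  rw [e1, ← Subgroup.relIndex_comap,
    ← Subgroup.relIndex_map_map_of_injective (Ecob ρ) (Eminus ρ) inc_injective]
  have hle : ((Ecob ρ).map (inc M)).comap (dlt ρ) ≤
      ((toPrincipalIdeal (𝓞 F) F).range.map (ext F M)).comap (toPrincipalIdeal (𝓞 M) M) := by
    rintro x ⟨v, ⟨u, hu⟩, hv⟩
    have hv' : (v : M) = x / ρ x := by rw [← coe_dlt, ← hv, coe_inc]
    have hu0 : (u : M) ≠ 0 := (inc M u).ne_zero
    have hx0 : (x : M) ≠ 0 := x.ne_zero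
    have hρx : ρ (x : M) ≠ 0 := (map_ne_zero ρ).2 hx0
    have hρu : ρ (u : M) ≠ 0 := (map_ne_zero ρ).2 hu0
    have hfix : ρ ((x : M) / u) = x / u := by
      rw [hv'] at hu
      rw [map_div₀, div_eq_div_iff hρu hu0]
      field_simp at hu
      linear_combination -hu
    obtain ⟨y, hy⟩ := fixed ρ h2 hρ _ hfix
    have hy0 : y ≠ 0 := by
      rintro rfl
      rw [map_zero] at hy
      exact div_ne_zero hx0 hu0 hy.symm
    refine ⟨toPrincipalIdeal (𝓞 F) F (Units.mk0 y hy0), ⟨_, rfl⟩, ?_⟩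
    apply Units.ext
    rw [coe_ext, coe_toPrincipalIdeal, coe_toPrincipalIdeal, Units.val_mk0, ext_span, hy,
      FractionalIdeal.spanSingleton_eq_spanSingleton]
    refine ⟨u, ?_⟩
    rw [Units.smul_def, Algebra.smul_def]
    field_simp
  have hle2 : X.map (dlt ρ) ≤ (Eminus ρ).map (inc M) := by
    rintro _ ⟨x, hx, rfl⟩
    have hx0 : (x : M) ≠ 0 := x.ne_zero
    have hρx : ρ (x : M) ≠ 0 := (map_ne_zero ρ).2 hx0
    have h := hx (x : M) (by
      rw [coe_toPrincipalIdeal]; exact FractionalIdeal.mem_spanSingleton_self _ _)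
    rw [coe_toPrincipalIdeal, FractionalIdeal.mem_spanSingleton] at h
    obtain ⟨a, ha⟩ := h
    rw [Algebra.smul_def] at ha
    have h1 : ρ (algebraMap (𝓞 M) M a) * ρ x = x := by rw [← map_mul, ha, hr]
    have h3 : ρ (algebraMap (𝓞 M) M a) * algebraMap (𝓞 M) M a = 1 := by
      apply mul_right_cancel₀ hx0
      rw [mul_assoc, ha, h1, one_mul]
    have h4 : (ρ • a) * a = 1 := by
      apply RingOfIntegers.coe_injective
      rw [map_mul, coe_smul, h3, map_one]
    refine ⟨Units.mkOfMulEqOne _ _ h4, ?_, ?_⟩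
    · change ρ (algebraMap (𝓞 M) M (ρ • a)) * algebraMap (𝓞 M) M (ρ • a) = 1
      rw [coe_smul, hr, mul_comm, h3]
    · apply Units.ext
      rw [coe_dlt, eq_div_iff hρx]
      exact h1
  refine (Subgroup.relIndex_dvd_of_le_left X hle).trans ?_
  rw [Subgroup.relIndex_comap]
  exact relIndex_dvd_right _ _ _ hle2

end TCl

open TCl in
theorem tcl : TCL := by
  intro F M _ _ _ _ _ ρ T h2 hρ hT
  have hr := rho_rho ρ h2 hρ
  let v : T → IsDedekindDomain.HeightOneSpectrum (𝓞 M) := fun P =>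
    ⟨P.1, (hT P.1 P.2).1.isPrime,
      Ring.ne_bot_of_isMaximal_of_not_isField (hT P.1 P.2).1 (RingOfIntegers.not_isField M)⟩
  have hinj : Function.Injective v := fun P Q h =>
    Subtype.ext (congrArg IsDedekindDomain.HeightOneSpectrum.asIdeal h)
  have ha := two_pow_dvd ρ h2 hρ v hinj (fun P => (hT P.1 P.2).2)
  rw [Fintype.card_coe] at ha
  set PF := (toPrincipalIdeal (𝓞 F) F).range with hPF
  set PM := (toPrincipalIdeal (𝓞 M) M).range with hPM
  have l1 : PF.map (ext F M) ≤ (ext F M).range := Subgroup.map_le_range _ _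
  have l2 := range_le_stab ρ hr
  have l3 : PF.map (ext F M) ≤ stab ρ hr ⊓ PM := by
    refine le_inf (l1.trans l2) ?_
    rintro _ ⟨_, ⟨y, rfl⟩, rfl⟩
    rw [hPM, mem_principal_ideals_iff]
    exact ⟨algebraMap F M y, by rw [coe_ext, coe_toPrincipalIdeal, ext_span]⟩
  have e1 : (PF.map (ext F M)).relIndex (ext F M).range = classNumber F := by
    rw [MonoidHom.range_eq_map, Subgroup.relIndex_map_map_of_injective _ _ ext_injective,
      Subgroup.relIndex_top_right, index_principal]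
  have e2 := Subgroup.relIndex_mul_relIndex _ _ _ l1 l2
  have e3 := Subgroup.relIndex_mul_relIndex _ _ _ l3 (inf_le_left : stab ρ hr ⊓ PM ≤ stab ρ hr)
  have hb : (stab ρ hr ⊓ PM).relIndex (stab ρ hr) ∣ classNumber M := by
    rw [Subgroup.inf_relIndex_left, ← index_principal M]
    exact Subgroup.relIndex_dvd_index_of_normal _ _
  have hc := principal_dvd ρ h2 hρ
  calc 2 ^ T.card * classNumber F
      ∣ (ext F M).range.relIndex (stab ρ hr) * classNumber F := mul_dvd_mul_right ha _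
    _ = (stab ρ hr ⊓ PM).relIndex (stab ρ hr) *
        (PF.map (ext F M)).relIndex (stab ρ hr ⊓ PM) := by
      rw [mul_comm, ← e1, e2, ← e3, mul_comm]
    _ ∣ classNumber M * (Ecob ρ).relIndex (Eminus ρ) := mul_dvd_mul hb hc

end

end Pool.Agent.P.MP_29cb78_nt
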