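import Pool.Agent.P.MP_29cb78_nt.Iface

/-!
The theta integral of an ideal as a sum over the principal ideals that it contains.
-/

namespace Pool.Agent.P.MP_29cb78_nt

open NumberField NumberField.InfinitePlace NumberField.Units NumberField.mixedEmbedding
open MeasureTheory Set Ideal Module
open scoped Classical Real

noncomputable section

namespace ZClass

lemma swap {A ρ : Type} [Countable A] [Fintype ρ] (f : A → ℝ → (ρ → ℝ) → ENNReal)
    (hf : ∀ a, Measurable fun p : ℝ × (ρ → ℝ) => f a p.1 p.2) (s : ℝ) :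
    ∫⁻ y in Ioi (0 : ℝ), (∫⁻ c in cube ρ, ∑' a, f a y c) * ENNReal.ofReal (y ^ (s - 1)) =
      ∑' a, ∫⁻ y in Ioi (0 : ℝ), (∫⁻ c in cube ρ, f a y c) * ENNReal.ofReal (y ^ (s - 1)) := by
  rw [← lintegral_tsum]
  · refine lintegral_congr fun y => ?_
    rw [lintegral_tsum, ENNReal.tsum_mul_right]
    exact fun a => ((hf a).comp measurable_prodMk_left).aemeasurable
  · intro a
    refine Measurable.aemeasurable (Measurable.mul ?_ (by fun_prop))
    exact (hf a).lintegral_prod_right'

variable (L : Type) [Field L] [NumberField L]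

/-- The place under a coordinate of the mixed space. -/
def pl : index L → InfinitePlace L := Sum.elim (fun w => w.1) fun w => w.1.1

lemma sum_pl (g : InfinitePlace L → ℝ) : ∑ c, g (pl L c) = ∑ w, (w.mult : ℝ) * g w := by
  rw [Fintype.sum_sum_type, Fintype.sum_prod_type, sum_eq_sum_add_sum]
  simp only [pl, Sum.elim_inl, Sum.elim_inr, Fin.sum_univ_two, mult_isReal, mult_isComplex,
    Nat.cast_one, one_mul, Nat.cast_ofNat, two_mul]

lemma sum_sq (f : InfinitePlace L → ℝ) (x : L) :
    ∑ c, (f (pl L c) * (stdBasis L).repr (mixedEmbedding L x) c) ^ 2 = ∑ w, (f w * w x) ^ 2 := by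
  rw [Fintype.sum_sum_type, Fintype.sum_prod_type, sum_eq_sum_add_sum]
  congr 1
  · refine Finset.sum_congr rfl fun w _ => ?_
    rw [← normAtPlace_apply, normAtPlace_apply_of_isReal w.2, stdBasis_apply_isReal, mul_pow,
      mul_pow, Real.norm_eq_abs, sq_abs]
    rfl
  · refine Finset.sum_congr rfl fun w _ => ?_
    rw [← normAtPlace_apply, normAtPlace_apply_of_isComplex w.2, Fin.sum_univ_two,
      stdBasis_apply_isComplex_fst, stdBasis_apply_isComplex_snd, mul_pow, mul_pow, mul_pow,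
      Complex.sq_norm, Complex.normSq_apply]
    simp only [pl, Sum.elim_inr]
    ring

lemma prod_mult : ∏ w : InfinitePlace L, (w.mult : ℝ) = 2 ^ nrComplexPlaces L := by
  rw [prod_eq_prod_mul_prod]
  simp [mult_isReal, mult_isComplex, nrComplexPlaces]

/-- Enumeration of the coordinates. -/
def en : Fin (finrank ℚ L) ≃ index L :=
  Fintype.equivOfCardEq (by
    rw [Fintype.card_fin, ← finrank_eq_card_basis (stdBasis L), mixedEmbedding.finrank])

variable {L}

/-- A basis of a nonzero ideal. -/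
def bas (J : Ideal (𝓞 L)) (hJ : J ≠ ⊥) : Basis (Fin (finrank ℚ L)) ℤ J :=
  Ideal.selfBasis ((RingOfIntegers.basis L).reindex (Fintype.equivFinOfCardEq (by
    rw [← finrank_eq_card_basis (RingOfIntegers.basis L), RingOfIntegers.rank]))) J hJ

/-- The matrix of the lattice. -/
def mat (J : Ideal (𝓞 L)) (hJ : J ≠ ⊥) : Matrix (Fin (finrank ℚ L)) (Fin (finrank ℚ L)) ℝ :=
  Matrix.of fun j i => (stdBasis L).repr (mixedEmbedding L ((bas J hJ i : 𝓞 L) : L)) (en L j)

/-- The element with given coordinates. -/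
def elt (J : Ideal (𝓞 L)) (hJ : J ≠ ⊥) (m : Fin (finrank ℚ L) → ℤ) : 𝓞 L :=
  ((bas J hJ).equivFun.symm m : J)

lemma emb_elt (J : Ideal (𝓞 L)) (hJ : J ≠ ⊥) (m : Fin (finrank ℚ L) → ℤ) :
    mixedEmbedding L (elt J hJ m : L) =
      ∑ i, (m i : ℝ) • mixedEmbedding L ((bas J hJ i : 𝓞 L) : L) := by
  simp only [elt, Basis.equivFun_symm_apply, AddSubmonoidClass.coe_finsetSum, SetLike.val_smul_of_tower,
    RingOfIntegers.coe_eq_algebraMap, map_sum, map_zsmul, Int.cast_smul_eq_zsmul]

lemma mat_mulVec (J : Ideal (𝓞 L)) (hJ : J ≠ ⊥) (m : Fin (finrank ℚ L) → ℤ)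
    (j : Fin (finrank ℚ L)) : (mat J hJ).mulVec (fun i => (m i : ℝ)) j =
      (stdBasis L).repr (mixedEmbedding L (elt J hJ m : L)) (en L j) := by
  rw [emb_elt, map_sum, Finsupp.finsetSum_apply]
  simp only [Matrix.mulVec, dotProduct, mat, Matrix.of_apply, map_smul, Finsupp.smul_apply,
    smul_eq_mul, mul_comm]

lemma mat_det (J : Ideal (𝓞 L)) (hJ : J ≠ ⊥) : (mat J hJ).det ≠ 0 := by
  set v : Fin (finrank ℚ L) → mixedSpace L :=
    fun i => mixedEmbedding L ((bas J hJ i : 𝓞 L) : L) with hv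
  have hsp : ⊤ ≤ Submodule.span ℝ (Set.range v) := by
    rw [← (latticeBasis L).span_eq, Submodule.span_le]
    rintro _ ⟨i, rfl⟩
    have hN : (absNorm J : ℝ) ≠ 0 := Nat.cast_ne_zero.2 (by rwa [Ne, absNorm_eq_zero_iff])
    have hmem : (absNorm J : 𝓞 L) * RingOfIntegers.basis L i ∈ J :=
      J.mul_mem_right _ (absNorm_mem J)
    have h := emb_elt J hJ ((bas J hJ).equivFun ⟨_, hmem⟩)
    rw [elt, LinearEquiv.symm_apply_apply] at h
    have h2 : latticeBasis L i = (absNorm J : ℝ)⁻¹ •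
        mixedEmbedding L (((absNorm J : 𝓞 L) * RingOfIntegers.basis L i : 𝓞 L) : L) := by
      rw [latticeBasis_apply, integralBasis_apply, RingOfIntegers.coe_eq_algebraMap, map_mul,
        map_natCast, map_mul, map_natCast, ← nsmul_eq_mul, ← Nat.cast_smul_eq_nsmul ℝ, smul_smul,
        inv_mul_cancel₀ hN, one_smul]
    rw [h2, h]
    exact Submodule.smul_mem _ _ (Submodule.sum_mem _ fun j _ =>
      Submodule.smul_mem _ _ (Submodule.subset_span ⟨j, rfl⟩))
  have hu := ((stdBasis L).reindex (en L).symm).isUnit_det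
    (basisOfTopLeSpanOfCardEqFinrank v hsp (by rw [Fintype.card_fin, mixedEmbedding.finrank]))
  rw [coe_basisOfTopLeSpanOfCardEqFinrank, Basis.det_apply] at hu
  convert hu.ne_zero using 2
  ext j i
  simp [mat, Basis.toMatrix_apply, hv]

lemma gauss_eq (J : Ideal (𝓞 L)) (hJ : J ≠ ⊥) (f : InfinitePlace L → ℝ)
    (m : Fin (finrank ℚ L) → ℤ) :
    gauss (Matrix.diagonal (fun j => f (pl L (en L j))) * mat J hJ) m =
      Real.exp (-π * ∑ w, (f w * w (elt J hJ m : L)) ^ 2) := by
  rw [gauss, ← sum_sq, ← (en L).sum_comp]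
  simp only [← Matrix.mulVec_mulVec, Matrix.mulVec_diagonal, mat_mulVec]

/-- The nonzero principal ideals contained in `J`. -/
abbrev T (J : Ideal (𝓞 L)) : Type := {I : Ideal (𝓞 L) // I ≠ ⊥ ∧ I ≤ J ∧ I.IsPrincipal}

/-- A generator. -/
def gen {J : Ideal (𝓞 L)} (I : T J) : 𝓞 L := I.2.2.2.principal.choose

omit [NumberField L] in
lemma span_gen {J : Ideal (𝓞 L)} (I : T J) : span {gen I} = I.1 :=
  I.2.2.2.principal.choose_spec.symm

omit [NumberField L] in
lemma gen_ne {J : Ideal (𝓞 L)} (I : T J) : gen I ≠ 0 := fun h =>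
  I.2.1 (by rw [← span_gen, h, Ideal.span_singleton_zero])

omit [NumberField L] in
lemma gen_mem {J : Ideal (𝓞 L)} (I : T J) : gen I ∈ J :=
  I.2.2.1 (span_gen I ▸ Ideal.mem_span_singleton_self _)

/-- The unit with given coordinates. -/
def unit (p : torsion L × (Fin (rank L) → ℤ)) : (𝓞 L)ˣ := p.1 * ∏ i, fundSystem L i ^ p.2 i

lemma unit_bij : Function.Bijective (unit (L := L)) :=
  (Function.bijective_iff_existsUnique _).2 fun x => by
    simpa only [unit, eq_comm] using exist_unique_eq_mul_prod L x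

lemma tsum_elt (J : Ideal (𝓞 L)) (hJ : J ≠ ⊥) (H : 𝓞 L → ENNReal) :
    ∑' m : {m : Fin (finrank ℚ L) → ℤ // m ≠ 0}, H (elt J hJ m) =
      ∑' I : T J, ∑' ζ : torsion L, ∑' k : Fin (rank L) → ℤ, H (gen I * unit (ζ, k)) := by
  let Φ : T J × (𝓞 L)ˣ → {m : Fin (finrank ℚ L) → ℤ // m ≠ 0} := fun p =>
    ⟨(bas J hJ).equivFun ⟨gen p.1 * p.2, J.mul_mem_right _ (gen_mem p.1)⟩, fun h =>
      mul_ne_zero (gen_ne p.1) p.2.ne_zero
        (congrArg Subtype.val ((LinearEquiv.map_eq_zero_iff _).1 h))⟩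
  have hΦ : ∀ p, elt J hJ (Φ p) = gen p.1 * p.2 := fun p => by
    simp only [elt, Φ, LinearEquiv.symm_apply_apply]
  have hb : Function.Bijective Φ := by
    constructor
    · rintro ⟨I, u⟩ ⟨I', u'⟩ h
      have h1 : gen I * u = gen I' * u' := by
        have := congrArg (fun m : {m : Fin (finrank ℚ L) → ℤ // m ≠ 0} => elt J hJ m) h
        simpa only [hΦ] using this
      obtain rfl : I = I' := Subtype.ext (by
        rw [← span_gen, ← span_gen, ← Ideal.span_singleton_mul_right_unit u.isUnit, h1,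
          Ideal.span_singleton_mul_right_unit u'.isUnit])
      rw [Units.ext (mul_left_cancel₀ (gen_ne I) h1)]
    · rintro ⟨m, hm⟩
      have h0 : elt J hJ m ≠ 0 := fun h =>
        hm ((LinearEquiv.map_eq_zero_iff _).1 (Subtype.ext h : (bas J hJ).equivFun.symm m = 0))
      let I : T J := ⟨span {elt J hJ m}, by simpa using h0,
        (Ideal.span_singleton_le_iff_mem _).2 ((bas J hJ).equivFun.symm m).2, ⟨_, rfl⟩⟩
      obtain ⟨u, hu⟩ := Ideal.span_singleton_eq_span_singleton.1 (span_gen I)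
      refine ⟨(I, u), Subtype.ext ?_⟩
      change (bas J hJ).equivFun _ = m
      rw [← LinearEquiv.eq_symm_apply]
      exact Subtype.ext hu
  rw [← (Equiv.ofBijective Φ hb).tsum_eq, ENNReal.tsum_prod']
  refine tsum_congr fun I => ?_
  rw [← (Equiv.ofBijective _ unit_bij).tsum_eq, ENNReal.tsum_prod']
  simp only [Equiv.ofBijective_apply, hΦ]

lemma place_unit (w : InfinitePlace L) (g : 𝓞 L) (ζ : torsion L) (k : Fin (rank L) → ℤ) :
    w ((g * unit (ζ, k) : 𝓞 L) : L) =
      Real.exp (∑ i, k i * Real.log (w (fundSystem L i))) * w (g : L) := by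
  have h1 : ((g * unit (ζ, k) : 𝓞 L) : L) =
      (g : L) * (((ζ : (𝓞 L)ˣ) : L) * ∏ i, (fundSystem L i : L) ^ k i) := by
    simp only [unit, RingOfIntegers.coe_eq_algebraMap, map_mul, Units.val_mul, Units.coe_prod,
      map_prod]
    congr 2
    exact Finset.prod_congr rfl fun i _ => NumberField.Units.coe_zpow _ _
  rw [h1, map_mul, map_mul, (mem_torsion L).1 ζ.2 w, one_mul, map_prod, mul_comm, Real.exp_sum]
  congr 1
  refine Finset.prod_congr rfl fun i _ => ?_
  rw [map_zpow₀, ← Real.log_zpow, Real.exp_log (zpow_pos (pos_at_place _ w) _)]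

lemma det_eq : |(Matrix.of fun i w : InfinitePlace L =>
      if h : i = dirichletUnitTheorem.w₀ then (1 : ℝ)
      else Real.log (w (fundSystem L ((equivFinRank L).symm ⟨i, h⟩)))).det| *
      2 ^ nrComplexPlaces L = finrank ℚ L * regulator L := by
  rw [finrank_mul_regulator_eq_det L dirichletUnitTheorem.w₀ (equivFinRank L).symm, ← prod_mult,
    ← abs_of_pos (a := ∏ w : InfinitePlace L, (w.mult : ℝ))
      (Finset.prod_pos fun w _ => Nat.cast_pos.2 mult_pos), ← abs_mul, mul_comm,
    ← Matrix.det_mul_row]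
  congr 2
  ext i w
  simp only [Matrix.of_apply]
  split_ifs <;> simp

lemma prod_gam (g : 𝓞 L) (hg : g ≠ 0) (s : ℝ) :
    ∏ w : InfinitePlace L, (1 / 2 * Real.Gamma (s * w.mult / 2) *
      (π * w (g : L) ^ 2) ^ (-(s * w.mult / 2))) =
      gam L s * (absNorm (span {g}) : ℝ) ^ (-s) := by
  have hpos : ∀ w : InfinitePlace L, 0 < w (g : L) := fun w =>
    pos_iff.2 (RingOfIntegers.coe_ne_zero_iff.2 hg)
  have h1 : (absNorm (span {g}) : ℝ) = ∏ w : InfinitePlace L, w (g : L) ^ w.mult := by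
    rw [prod_eq_abs_norm, Ideal.absNorm_span_singleton, ← Algebra.coe_norm_int, Nat.cast_natAbs]
    push_cast
    rfl
  rw [h1, ← Real.finsetProd_rpow _ _ (fun w _ => (pow_pos (hpos w) _).le), gam,
    ← Finset.prod_mul_distrib]
  refine Finset.prod_congr rfl fun w _ => ?_
  rw [Real.mul_rpow Real.pi_pos.le (sq_nonneg _), ← Real.rpow_natCast, ← Real.rpow_natCast,
    ← Real.rpow_mul (hpos w).le, ← Real.rpow_mul (hpos w).le, ← mul_assoc]
  congr 2
  push_cast
  ring

end ZClass

open ZClass in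
theorem zclass : GAUSSINT → ZCLASS := by
  intro hG L _ _ J hJ
  refine ⟨mat J hJ, fun i j => Real.log (pl L (en L j) (fundSystem L i)), mat_det J hJ,
    fun i => ?_, fun s hs => ?_⟩
  · rw [(en L).sum_comp (fun c => Real.log (pl L c (fundSystem L i))),
      sum_pl L fun w => Real.log (w (fundSystem L i)), sum_mult_mul_log]
  set H : 𝓞 L → ENNReal := fun x => ∫⁻ y in Ioi (0 : ℝ), (∫⁻ c in cube (Fin (rank L)),
    ENNReal.ofReal (Real.exp (-π * ∑ w : InfinitePlace L, (Real.exp (∑ i, c i *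
      Real.log (w (fundSystem L i)) + Real.log y / (finrank ℚ L : ℕ)) * w (x : L)) ^ 2))) *
      ENNReal.ofReal (y ^ (s - 1)) with hH
  have h1 : thetaMellin (mat J hJ) (fun i j => Real.log (pl L (en L j) (fundSystem L i))) s =
      ∑' m : {m : Fin (finrank ℚ L) → ℤ // m ≠ 0}, H (elt J hJ m) := by
    rw [hH, ← swap (fun (m : {m : Fin (finrank ℚ L) → ℤ // m ≠ 0}) y c =>
      ENNReal.ofReal (Real.exp (-π * ∑ w : InfinitePlace L, (Real.exp (∑ i, c i *
      Real.log (w (fundSystem L i)) + Real.log y / (finrank ℚ L : ℕ)) *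
        w (elt J hJ m : L)) ^ 2))) (fun m => by fun_prop), thetaMellin, Fintype.card_fin]
    refine lintegral_congr fun y => ?_
    congr 1
    refine lintegral_congr fun c => tsum_congr fun m => ?_
    rw [← gauss_eq J hJ (fun w => Real.exp (∑ i, c i * Real.log (w (fundSystem L i)) +
      Real.log y / (finrank ℚ L : ℕ)))]
  have hdet := det_eq (L := L)
  have hn : (0 : ℝ) < finrank ℚ L := Nat.cast_pos.2 finrank_pos
  have hreg := regulator_pos L
  set D := |(Matrix.of fun i w : InfinitePlace L =>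
      if h : i = dirichletUnitTheorem.w₀ then (1 : ℝ)
      else Real.log (w (fundSystem L ((equivFinRank L).symm ⟨i, h⟩)))).det| with hD
  have hD0 : D ≠ 0 := fun h => by
    rw [h, zero_mul] at hdet
    exact (mul_pos hn hreg).ne hdet
  have hc : (finrank ℚ L : ℝ) / D = 2 ^ nrComplexPlaces L / regulator L := by
    rw [div_eq_div_iff hD0 hreg.ne', ← hdet, mul_comm]
  have hgam : 0 ≤ gam L s := Finset.prod_nonneg fun w _ => by
    have : 0 < s * w.mult / 2 := by
      have : (0 : ℝ) < w.mult := Nat.cast_pos.2 mult_pos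
      positivity
    have := Real.Gamma_pos_of_pos this
    have := Real.pi_pos
    positivity
  have h2 : ∀ (I : T J) (ζ : torsion L), ∑' k : Fin (rank L) → ℤ, H (gen I * unit (ζ, k)) =
      ENNReal.ofReal (2 ^ nrComplexPlaces L / regulator L * gam L s) *
        ENNReal.ofReal ((absNorm I.1 : ℝ) ^ (-s)) := fun I ζ => by
    have h := hG (InfinitePlace L) (Fin (rank L)) mult
      (fun i w => Real.log (w (fundSystem L i))) dirichletUnitTheorem.w₀ (equivFinRank L).symm
      (fun w => w (gen I : L)) s (fun w => mult_pos) (fun i => sum_mult_mul_log _)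
      (fun w => pos_iff.2 (RingOfIntegers.coe_ne_zero_iff.2 (gen_ne I))) hs
      (fun h => hD0 (by rw [hD, h, abs_zero]))
    rw [sum_mult_eq, ← hD, hc, prod_gam _ (gen_ne I), span_gen, ← mul_assoc,
      ENNReal.ofReal_mul (by positivity)] at h
    rw [← h]
    refine tsum_congr fun k => lintegral_congr fun y => ?_
    congr 1
    refine lintegral_congr fun c => ?_
    congr 3
    refine Finset.sum_congr rfl fun w _ => ?_
    rw [place_unit, ← mul_assoc, ← Real.exp_add]
    simp only [add_mul, Finset.sum_add_distrib]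
    congr 3
    ring
  rw [h1, tsum_elt, ← ENNReal.tsum_mul_left]
  refine tsum_congr fun I => ?_
  rw [tsum_congr (h2 I), ENNReal.tsum_const, ← mul_assoc, mul_div_assoc, mul_assoc (_ : ℝ),
    ENNReal.ofReal_mul (Nat.cast_nonneg _), ENNReal.ofReal_natCast, torsionOrder,
    ENat.card_eq_coe_natCard]
  rfl

end

end Pool.Agent.P.MP_29cb78_nt
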