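import Pool.Agent.P.MP_29cb78_nt.Iface

/-! Continuation of the Dedekind zeta function and its leading term at `0`. -/

namespace Pool.Agent.P.MP_29cb78_nt

open NumberField NumberField.InfinitePlace NumberField.Units MeasureTheory Set Ideal
open scoped Classical Real Matrix nonZeroDivisors Topology

noncomputable section

namespace Zeta

variable {L : Type} [Field L] [NumberField L]

/-- The class of an ideal, trivial for the zero ideal. -/
def cls (I : Ideal (𝓞 L)) : ClassGroup (𝓞 L) :=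
  if h : I = ⊥ then 1 else ClassGroup.mk0 ⟨I, mem_nonZeroDivisors_of_ne_zero h⟩

theorem cls_mul {I J : Ideal (𝓞 L)} (hI : I ≠ ⊥) (hJ : J ≠ ⊥) : cls (I * J) = cls I * cls J := by
  have h : I * J ≠ ⊥ := mul_ne_zero hI hJ
  simp only [cls, dif_neg hI, dif_neg hJ, dif_neg h, ← map_mul]
  rfl

theorem cls_eq_one {I : Ideal (𝓞 L)} (hI : I ≠ ⊥) : cls I = 1 ↔ I.IsPrincipal := by
  simp only [cls, dif_neg hI]
  exact ClassGroup.mk0_eq_one_iff _

theorem exists_cls (C : ClassGroup (𝓞 L)) : ∃ J : Ideal (𝓞 L), J ≠ ⊥ ∧ cls J = C := by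
  obtain ⟨⟨J, hJ⟩, rfl⟩ := ClassGroup.mk0_surjective C
  have h : J ≠ ⊥ := nonZeroDivisors.ne_zero hJ
  exact ⟨J, h, by simp only [cls, dif_neg h]⟩

/-- The real term of the zeta function. -/
def tm (s : ℝ) (I : Ideal (𝓞 L)) : ℝ := (absNorm I : ℝ) ^ (-s)

theorem tm_nonneg (s : ℝ) (I : Ideal (𝓞 L)) : 0 ≤ tm s I := by
  unfold tm; positivity

theorem tm_mul (s : ℝ) (I J : Ideal (𝓞 L)) : tm s (I * J) = tm s I * tm s J := by
  simp only [tm, map_mul, Nat.cast_mul]
  exact Real.mul_rpow (by positivity) (by positivity)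

theorem tsum_class {J : Ideal (𝓞 L)} (hJ : J ≠ ⊥) (C : ClassGroup (𝓞 L)) (hC : cls J = C⁻¹)
    (s : ℝ) : ∑' I : {I : Ideal (𝓞 L) // I ≠ ⊥ ∧ I ≤ J ∧ I.IsPrincipal}, tm s I.1 =
      (∑' I : {I : Ideal (𝓞 L) // I ≠ ⊥ ∧ cls I = C}, tm s I.1) * tm s J := by
  let f : {I : Ideal (𝓞 L) // I ≠ ⊥ ∧ cls I = C} →
      {I : Ideal (𝓞 L) // I ≠ ⊥ ∧ I ≤ J ∧ I.IsPrincipal} := fun I =>
    ⟨I.1 * J, mul_ne_zero I.2.1 hJ, Ideal.mul_le_right, (cls_eq_one (mul_ne_zero I.2.1 hJ)).1 (by
      rw [cls_mul I.2.1 hJ, I.2.2, hC, mul_inv_cancel])⟩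
  have hf : Function.Bijective f := by
    refine ⟨fun I I' h => Subtype.ext (mul_right_cancel₀ hJ (congrArg Subtype.val h)), ?_⟩
    rintro ⟨I, h1, h2, h3⟩
    obtain ⟨K, rfl⟩ := Ideal.dvd_iff_le.2 h2
    have hK : K ≠ ⊥ := right_ne_zero_of_mul h1
    refine ⟨⟨K, hK, ?_⟩, Subtype.ext (mul_comm _ _)⟩
    have := (cls_eq_one h1).2 h3
    rw [cls_mul hJ hK, hC, inv_mul_eq_one] at this
    exact this.symm
  rw [← (Equiv.ofBijective f hf).tsum_eq, ← tsum_mul_right]
  exact tsum_congr fun I => tm_mul s _ _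

theorem tsum_split {s : ℝ} (hs : s ≠ 0) (h : Summable (tm s : Ideal (𝓞 L) → ℝ)) :
    ∑' I : Ideal (𝓞 L), tm s I =
      ∑ C : ClassGroup (𝓞 L), ∑' I : {I : Ideal (𝓞 L) // I ≠ ⊥ ∧ cls I = C}, tm s I.1 := by
  have h1 : ∀ C : ClassGroup (𝓞 L), ∑' I : {I : Ideal (𝓞 L) // I ≠ ⊥ ∧ cls I = C}, tm s I.1 =
      ∑' I, Set.indicator {I : Ideal (𝓞 L) | I ≠ ⊥ ∧ cls I = C} (tm s) I := fun C =>
    tsum_subtype {I : Ideal (𝓞 L) | I ≠ ⊥ ∧ cls I = C} (tm s)
  simp only [h1]
  rw [← Summable.tsum_finsetSum fun C _ => h.indicator _]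
  refine tsum_congr fun I => ?_
  by_cases hI : I = ⊥
  · simp [hI, tm, Real.zero_rpow (neg_ne_zero.2 hs)]
  · simp [Set.indicator_apply, hI]

/-- The entire factor coming from the Gamma functions. -/
def ent (L : Type) [Field L] [NumberField L] (s : ℂ) : ℂ :=
  ∏ w : InfinitePlace L, ((w.mult : ℂ) * (π : ℂ) ^ (s * w.mult / 2) *
    (Complex.Gamma (s * w.mult / 2 + 1))⁻¹)

theorem ent_diff : Differentiable ℂ (ent L) := by
  refine Differentiable.fun_finsetProd fun w _ => ?_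
  refine ((differentiable_const _).mul ?_).mul ?_
  · exact Differentiable.const_cpow (by fun_prop) (Or.inl (by simp [Real.pi_ne_zero]))
  · exact Complex.differentiable_one_div_Gamma.comp (by fun_prop)

theorem ent_zero : ent L 0 = 2 ^ nrComplexPlaces L := by
  simp [ent, prod_eq_prod_mul_prod, mult_isReal, mult_isComplex, nrComplexPlaces]

theorem gam_pos {s : ℝ} (hs : 0 < s) : 0 < gam L s := by
  refine Finset.prod_pos fun w _ => ?_
  have h1 : (0 : ℝ) < w.mult := by exact_mod_cast mult_pos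
  have := Real.Gamma_pos_of_pos (by positivity : 0 < s * w.mult / 2)
  have := Real.pi_pos
  positivity

theorem gam_ent {s : ℝ} (hs : 0 < s) : (gam L s : ℂ) * ((s : ℂ) ^ (rank L + 1) * ent L s) = 1 := by
  have hc : rank L + 1 = (Finset.univ : Finset (InfinitePlace L)).card := by
    have := Fintype.card_pos (α := InfinitePlace L)
    rw [Finset.card_univ, rank]
    omega
  rw [hc, ← Finset.prod_const, gam, ent, Complex.ofReal_prod, ← Finset.prod_mul_distrib,
    ← Finset.prod_mul_distrib]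
  refine Finset.prod_eq_one fun w _ => ?_
  have h1 : (0 : ℝ) < w.mult := by exact_mod_cast mult_pos
  have h2 : 0 < s * w.mult / 2 := by positivity
  have h3 := Real.Gamma_pos_of_pos h2
  have h4 : (s : ℂ) * w.mult / 2 = ((s * w.mult / 2 : ℝ) : ℂ) := by push_cast; ring
  have h5 : Complex.Gamma ((s * w.mult / 2 : ℝ) + 1) =
      ((s * w.mult / 2 * Real.Gamma (s * w.mult / 2) : ℝ) : ℂ) := by
    rw [← Real.Gamma_add_one h2.ne', ← Complex.Gamma_ofReal]
    push_cast
    rfl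
  rw [h4, h5, ← Complex.ofReal_cpow Real.pi_pos.le, Real.rpow_neg Real.pi_pos.le]
  have h6 := Real.rpow_pos_of_pos Real.pi_pos (s * w.mult / 2)
  generalize π ^ (s * w.mult / 2) = a at *
  generalize Real.Gamma (s * w.mult / 2) = b at *
  have h7 : (1 / 2 * b * a⁻¹) * (s * (w.mult * a * (s * w.mult / 2 * b)⁻¹)) = 1 := by
    field_simp
  exact_mod_cast h7

theorem summable_tm (hD : DIRI) {s : ℝ} (hs : 1 < s) : Summable (tm s : Ideal (𝓞 L) → ℝ) := by
  refine (hD L s (by simpa using hs)).1.congr fun I => ?_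
  rw [Complex.norm_natCast_cpow_of_re_ne_zero _ (by simp; linarith)]
  simp [tm]

theorem lser_real (s : ℝ) :
    Lser (fun _ : Ideal (𝓞 L) => 1) s = ((∑' I : Ideal (𝓞 L), tm s I : ℝ) : ℂ) := by
  rw [Complex.ofReal_tsum, Lser]
  refine tsum_congr fun I => ?_
  rw [tm, Complex.ofReal_cpow (by positivity)]
  simp

/-- The continuation of the sum over one ideal class. -/
theorem one_class (hM : MELLIN) (hZ : ZCLASS) (hD : DIRI) (C : ClassGroup (𝓞 L)) :
    ∃ g : ℂ → ℂ, Differentiable ℂ g ∧ g 0 = ((regulator L / torsionOrder L : ℝ) : ℂ) ∧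
      ∀ s : ℝ, 1 < s → ((s : ℂ) - 1) *
        ((∑' I : {I : Ideal (𝓞 L) // I ≠ ⊥ ∧ cls I = C}, tm s I.1 : ℝ) : ℂ) =
          (s : ℂ) ^ rank L * g s := by
  obtain ⟨J, hJ, hC⟩ := exists_cls C⁻¹
  obtain ⟨B, lam, h1, h2, h3⟩ := hZ L J hJ
  have : Nonempty (Fin (Module.finrank ℚ L)) := ⟨⟨0, Module.finrank_pos⟩⟩
  obtain ⟨Λ, hΛ, h4⟩ := hM _ _ B lam h1 h2
  have hN : absNorm J ≠ 0 := by rwa [Ne, absNorm_eq_zero_iff]
  have hR := regulator_pos L
  have hw : (0 : ℝ) < torsionOrder L := by exact_mod_cast torsionOrder_pos L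
  set c : ℝ := torsionOrder L * 2 ^ nrComplexPlaces L / regulator L with hc
  have hc0 : 0 < c := by positivity
  refine ⟨fun s => (absNorm J : ℂ) ^ s * (c : ℂ)⁻¹ *
    (s * (s - 1) * Λ s - (s - 1) + ((|B.det|⁻¹ : ℝ) : ℂ) * s) * ent L s, ?_, ?_, fun s hs => ?_⟩
  · refine Differentiable.mul (Differentiable.mul (Differentiable.mul ?_ (by fun_prop))
      (by fun_prop)) ent_diff
    exact Differentiable.const_cpow differentiable_id (Or.inl (by exact_mod_cast hN))
  · have h5 : c⁻¹ * 2 ^ nrComplexPlaces L = regulator L / torsionOrder L := by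
      rw [hc]; field_simp
    rw [← h5]
    simp [ent_zero]
  · obtain ⟨X, hX, h5, h6⟩ := h4 s hs
    have hs0 : 0 < s := by linarith
    have hg := gam_pos (L := L) hs0
    have h7 := h3 s hs0
    have h8 := ENNReal.ofReal_tsum_of_nonneg
      (f := fun I : {I : Ideal (𝓞 L) // I ≠ ⊥ ∧ I ≤ J ∧ I.IsPrincipal} => tm s I.1)
      (fun I => tm_nonneg s _) ((summable_tm hD hs).subtype _)
    rw [h5] at h7
    replace h7 := h7.trans (congrArg _ h8.symm)
    rw [← ENNReal.ofReal_mul (by positivity), ENNReal.ofReal_eq_ofReal_iff hX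
      (mul_nonneg (by positivity) (tsum_nonneg fun I => tm_nonneg s _)),
      tsum_class hJ C hC] at h7
    have h9 := gam_ent (L := L) hs0
    have h10 : (absNorm J : ℂ) ^ (s : ℂ) * (tm s J : ℝ) = 1 := by
      rw [tm, Complex.ofReal_cpow (by positivity)]
      push_cast
      rw [← Complex.cpow_add _ _ (by exact_mod_cast hN)]
      simp
    have h11 : (s : ℂ) * (s - 1) * Λ s - (s - 1) + ((|B.det|⁻¹ : ℝ) : ℂ) * s =
        s * (s - 1) * X := by
      have e1 : (s : ℂ) ≠ 0 := by exact_mod_cast hs0.ne'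
      have e2 : (1 : ℂ) - s ≠ 0 := by exact_mod_cast (by linarith : (1 : ℝ) - s ≠ 0)
      rw [h6]
      field_simp
      ring
    have e3 : (c : ℂ)⁻¹ * c = 1 := inv_mul_cancel₀ (by exact_mod_cast hc0.ne')
    generalize (∑' I : {I : Ideal (𝓞 L) // I ≠ ⊥ ∧ cls I = C}, tm s I.1 : ℝ) = Z at h7 ⊢
    simp only [h11, h7]
    push_cast
    rw [pow_succ] at h9
    generalize (absNorm J : ℂ) ^ (s : ℂ) = n at *
    linear_combination (-(s - 1) * Z : ℂ) * h9
      - ((s - 1) * Z * gam L s * (s ^ rank L * s * ent L s) : ℂ) * h10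
      - ((s - 1) * Z * gam L s * (s ^ rank L * s * ent L s) * n * (tm s J : ℝ) : ℂ) * e3

end Zeta

open Zeta in
theorem zeta : THETA → MELLIN → ZCLASS → DIRI → ZETA := by
  intro _ hM hZ hD L _ _
  choose g h1 h2 h3 using one_class (L := L) hM hZ hD
  have hg : Differentiable ℂ fun s => ∑ C, g C s := Differentiable.fun_sum fun C _ => h1 C
  refine ⟨fun s => ∑ C, g C s, hg, ?_, ?_⟩
  · simp only [h2, Finset.sum_const, Finset.card_univ, nsmul_eq_mul, classNumber]
    push_cast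
    ring
  have hA : AnalyticOnNhd ℂ (fun s => (s - 1) * Lser (fun _ : Ideal (𝓞 L) => 1) s)
      {s : ℂ | 1 < s.re} := by
    have ho : IsOpen {s : ℂ | 1 < s.re} := isOpen_lt continuous_const Complex.continuous_re
    have ha := LSeries.abscissaOfAbsConv_le_of_forall_lt_LSeriesSummable (x := 1)
      fun y hy => (hD L y (by simpa using hy)).2.1
    refine DifferentiableOn.analyticOnNhd (DifferentiableOn.mul (by fun_prop) ?_) ho
    refine ((LSeries_differentiableOn _).mono fun s hs => lt_of_le_of_lt ha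
      (by exact_mod_cast hs)).congr fun s hs => ?_
    simpa using ((hD L s hs).2.2 fun _ => True).symm
  have hB : AnalyticOnNhd ℂ (fun s : ℂ => s ^ rank L * ∑ C, g C s) {s : ℂ | 1 < s.re} :=
    fun s _ => ((differentiable_id.pow _).mul hg).analyticAt s
  refine fun s hs => hA.eqOn_of_preconnected_of_frequently_eq hB
    (convex_halfSpace_re_gt 1).isPreconnected (z₀ := 2) (by simp) ?_ hs
  have ht : Filter.Tendsto (fun x : ℝ => (x : ℂ)) (𝓝[>] 2) (𝓝[≠] 2) := by
    refine tendsto_nhdsWithin_iff.2 ⟨?_, ?_⟩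
    · exact (Complex.continuous_ofReal.tendsto' 2 2 (by simp)).mono_left nhdsWithin_le_nhds
    · filter_upwards [self_mem_nhdsWithin] with x hx
      have : (2 : ℝ) < x := hx
      simp only [mem_compl_iff, mem_singleton_iff]
      exact_mod_cast this.ne'
  refine ht.frequently (Filter.Eventually.frequently ?_)
  filter_upwards [self_mem_nhdsWithin] with x hx
  have hx1 : (1 : ℝ) < x := lt_trans (by norm_num) (show (2 : ℝ) < x from hx)
  rw [lser_real, tsum_split (by linarith) (summable_tm hD hx1), Complex.ofReal_sum,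
    Finset.mul_sum, Finset.mul_sum]
  exact Finset.sum_congr rfl fun C _ => h3 C x hx1

end

end Pool.Agent.P.MP_29cb78_nt
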