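import Pool.Agent.P.MP_29cb78_nt.Two
import Pool.Agent.P.MP_29cb78_nt.Theta
import Pool.Agent.P.MP_29cb78_nt.Mellin
import Pool.Agent.P.MP_29cb78_nt.GaussInt
import Pool.Agent.P.MP_29cb78_nt.ZClass
import Pool.Agent.P.MP_29cb78_nt.Zeta
import Pool.Agent.P.MP_29cb78_nt.Diri
import Pool.Agent.P.MP_29cb78_nt.Euler
import Pool.Agent.P.MP_29cb78_nt.ArtEx
import Pool.Agent.P.MP_29cb78_nt.Art1
import Pool.Agent.P.MP_29cb78_nt.Artin
import Pool.Agent.P.MP_29cb78_nt.Even
import Pool.Agent.P.MP_29cb78_nt.TReg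
import Pool.Agent.P.MP_29cb78_nt.TCl
import Pool.Agent.P.MP_29cb78_nt.Par
import Pool.Agent.P.MP_29cb78_nt.Abel

/-!
All the pieces hold.
-/

namespace Pool.Agent.P.MP_29cb78_nt

theorem pieces : Pieces where
  diri := diri
  zeta := zeta theta (mellin_cont theta) (zclass gaussint) diri
  euler := euler diri
  corr := corr (euler diri)
  artex := artex
  artin := artin (euler diri) (art1 artex)
  even := even_factor artex
  treg := treg
  tcl := tcl
  par := par
  rank := rank_tors
  abel := abel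

end Pool.Agent.P.MP_29cb78_nt
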