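import Pool.Agent.P.MP_29cb78_nt.Tower

/-!
The derivative at `0` of the quotient of the zeta functions of a quadratic step.
-/

namespace Pool.Agent.P.MP_29cb78_nt

open NumberField NumberField.InfinitePlace NumberField.Units Set Ideal Filter Topology
open NumberField.ComplexEmbedding (IsConj conjugate)
open scoped Classical ComplexConjugate

set_option linter.unusedSectionVars false

noncomputable section

/-- All the pieces. -/
structure Pieces : Prop where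
  diri : DIRI
  zeta : ZETA
  euler : EULER
  corr : CORR
  artex : ARTEX
  artin : ARTIN
  even : EVEN
  treg : TREG
  tcl : TCL
  par : PAR
  rank : RANK
  abel : ABEL

variable {k0 K : Type} [Field k0] [Field K] [NumberField k0] [NumberField K] [Algebra k0 K]
  [IsGalois k0 K] [IsTotallyReal k0]
  {F M : Type} [Field F] [Field M] [NumberField F] [NumberField M]
  [Algebra k0 F] [Algebra k0 M] [Algebra F M] [Algebra F K] [Algebra M K]
  [IsScalarTower k0 F K] [IsScalarTower k0 M K] [IsScalarTower F M K]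

theorem isUnramified_of {φ : K →+* ℂ} {c : Gal(K/k0)} (h : IsConj φ c)
    (hc : ¬ (c ∈ fixSub k0 F K ∧ c ∉ fixSub k0 M K)) :
    (mk (φ.comp (algebraMap M K))).IsUnramified F := by
  by_contra h1
  exact hc ((isRamified_iff_mem h).mp h1)

theorem quad_even (hP : Pieces) (h2 : Module.finrank F M = 2) (a : ℂ → ℂ)
    (ha : ∀ s : ℂ, 1 < s.re → a s * Lser (fun _ : Ideal (𝓞 F) => 1) s =
      Lser (fun _ : Ideal (𝓞 M) => 1) s)
    {φ φ' : K →+* ℂ} {c c' : Gal(K/k0)} (h : IsConj φ c) (h' : IsConj φ' c')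
    (hc : ¬ (c ∈ fixSub k0 F K ∧ c ∉ fixSub k0 M K)) (hc' : c' ∈ fixSub k0 M K)
    (hne : mk (φ'.comp (algebraMap F K)) ≠ mk (φ.comp (algebraMap F K))) : Cont a 0 := by
  have h3 := (hP.rank F M).1 h2 _ _ (isUnramified_of h' fun hh => hh.2 hc') (isUnramified_of h hc)
    (by rwa [comap_mk_tower, comap_mk_tower])
  have := cont_quad hP.zeta hP.euler F M a ha (by omega)
  rwa [if_neg (by omega)] at this

theorem ram_of_odd {φ : K →+* ℂ}
    (hodd : ∀ (φ' : K →+* ℂ) (c' : Gal(K/k0)), IsConj φ' c' →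
      mk (φ'.comp (algebraMap F K)) ≠ mk (φ.comp (algebraMap F K)) →
      c' ∈ fixSub k0 F K ∧ c' ∉ fixSub k0 M K) (w : InfinitePlace M)
    (hw : w.comap (algebraMap F M) ≠ (mk (φ.comp (algebraMap M K))).comap (algebraMap F M)) :
    w.IsRamified F := by
  obtain ⟨φ', rfl⟩ := exists_mk_comp (K := K) w
  obtain ⟨c', hc'⟩ := exists_isConj (k0 := k0) φ'
  rw [comap_mk_tower, comap_mk_tower] at hw
  exact (isRamified_iff_mem hc').mpr (hodd φ' c' hc' hw)

theorem quad_odd (hP : Pieces) (h2 : Module.finrank F M = 2) (a : ℂ → ℂ)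
    (ha : ∀ s : ℂ, 1 < s.re → a s * Lser (fun _ : Ideal (𝓞 F) => 1) s =
      Lser (fun _ : Ideal (𝓞 M) => 1) s)
    {φ : K →+* ℂ} {c : Gal(K/k0)} (h : IsConj φ c)
    (hc : ¬ (c ∈ fixSub k0 F K ∧ c ∉ fixSub k0 M K))
    (hodd : ∀ (φ' : K →+* ℂ) (c' : Gal(K/k0)), IsConj φ' c' →
      mk (φ'.comp (algebraMap F K)) ≠ mk (φ.comp (algebraMap F K)) →
      c' ∈ fixSub k0 F K ∧ c' ∉ fixSub k0 M K) (hr : 1 ≤ rank F)
    (ρ : Gal(M/F)) (hρ1 : ρ ≠ 1)
    (hρ : ∀ g ∈ fixSub k0 F K, g ∉ fixSub k0 M K →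
      ∀ y : M, g (algebraMap M K y) = algebraMap M K (ρ y))
    (T : Finset (Ideal (𝓞 M))) (hT : ∀ P ∈ T, P.IsMaximal ∧ ρ ∈ P.inertia Gal(M/F)) :
    ∃ η : (𝓞 K)ˣ, (∀ g ∈ fixSub k0 M K, g (η : K) = η) ∧
      (∀ g ∈ fixSub k0 F K, g ∉ fixSub k0 M K → g (η : K) * η = 1) ∧
      (∀ z : K, z ^ torsionOrder M = 1 → (∀ g ∈ fixSub k0 M K, g z = z) ∧
        ∀ g ∈ fixSub k0 F K, g ∉ fixSub k0 M K → g z * z = 1) ∧
      Cont a ((2 ^ (rank F + T.card) * (mk (φ.comp (algebraMap M K))).mult *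
        Real.log ‖φ η‖ / (2 * torsionOrder M) : ℝ) : ℂ) := by
  have hw := isUnramified_of h hc
  have hram := ram_of_odd hodd
  obtain ⟨h3, -, h4, -⟩ := hP.treg F M ρ _ h2 hρ1 hr hw hram
  obtain ⟨η, hη, h5⟩ := tate hP.treg hP.tcl F M ρ _ h2 hρ1 hr hw hram T hT
  have e : ((Units.map (algebraMap (𝓞 M) (𝓞 K)).toMonoidHom η : (𝓞 K)ˣ) : K) =
      algebraMap M K η := rfl
  refine ⟨Units.map (algebraMap (𝓞 M) (𝓞 K)).toMonoidHom η, fun g hg => ?_, fun g hg hg' => ?_,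
    fun z hz => ?_, ?_⟩
  · rw [e]
    exact hg _
  · rw [e, hρ g hg hg', ← map_mul, show ρ (η : M) * η = 1 from hη, map_one]
  · obtain ⟨y, rfl⟩ := (hP.rank M K).2.2 z hz
    refine ⟨fun g hg => hg y, fun g hg hg' => ?_⟩
    rw [hρ g hg hg', ← map_mul, h4 y, map_one]
    apply (algebraMap M K).injective
    rw [map_pow, hz, map_one]
  · have := cont_quad hP.zeta hP.euler F M a ha h3.ge
    rw [if_pos h3, h5] at this
    exact this

theorem quad_par (hP : Pieces) (h2 : Module.finrank F M = 2) [IsTotallyReal F]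
    (hev : Even (Module.finrank ℚ F)) {φ : K →+* ℂ} {c : Gal(K/k0)} (h : IsConj φ c)
    (hc : ¬ (c ∈ fixSub k0 F K ∧ c ∉ fixSub k0 M K))
    (hodd : ∀ (φ' : K →+* ℂ) (c' : Gal(K/k0)), IsConj φ' c' →
      mk (φ'.comp (algebraMap F K)) ≠ mk (φ.comp (algebraMap F K)) →
      c' ∈ fixSub k0 F K ∧ c' ∉ fixSub k0 M K) (ρ : Gal(M/F)) (hρ1 : ρ ≠ 1) :
    ∃ T : Finset (Ideal (𝓞 M)), T.card = 1 ∧ ∀ P ∈ T, P.IsMaximal ∧ ρ ∈ P.inertia Gal(M/F) := by
  obtain ⟨P, hP⟩ := hP.par F M ρ _ h2 hρ1 hev (isUnramified_of h hc) (ram_of_odd hodd)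
  exact ⟨{P}, Finset.card_singleton _, fun Q hQ => Finset.mem_singleton.mp hQ ▸ hP⟩

/-- The trivial character of the group fixing `L`. -/
theorem artData_one (L : Type) [Field L] [NumberField L] [Algebra k0 L] [Algebra L K]
    [IsScalarTower k0 L K] :
    ArtData k0 L K (fun g => if g ∈ fixSub k0 L K then 1 else 0) 1 where
  char := ⟨if_pos (one_mem _), fun g hg h hh => by simp [hg, hh, mul_mem hg hh],
    fun g hg => if_neg hg⟩
  bound := fun I => by simp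
  frob := fun Q _ _ g hg _ => by simp [hg]
  ram := fun Q _ ⟨g, hg, _, h⟩ => (h (if_pos hg)).elim

theorem lser_one (L : Type) [Field L] [NumberField L] (s : ℂ) :
    Lser (1 : Ideal (𝓞 L) →* ℂ) s = Lser (fun _ : Ideal (𝓞 L) => 1) s := rfl

end

end Pool.Agent.P.MP_29cb78_nt
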