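import Pool.Agent.P.MP_29cb78_nt.Dih

/-!
Imprimitive `L`-series.
-/

namespace Pool.Agent.P.MP_29cb78_nt

open NumberField NumberField.InfinitePlace NumberField.Units Set Ideal Filter Topology
open NumberField.ComplexEmbedding (IsConj conjugate)
open scoped Classical ComplexConjugate

set_option linter.unusedSectionVars false

noncomputable section

/-- `A` gives the coefficients of the `L`-series of `Ψ` without the primes dividing `f`. -/
structure Imp (k0 k K : Type) [Field k0] [Field k] [Field K] [NumberField k] [NumberField K]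
    [Algebra k0 K] [Algebra k K] (f : Ideal (𝓞 k)) (Ψ : Gal(K/k0) → ℂ)
    (A : Ideal (𝓞 k) →* ℂ) : Prop where
  ne : f ≠ ⊥
  unr : ∀ Q : Ideal (𝓞 K), Q.IsMaximal → ¬ f ≤ Q.under (𝓞 k) →
    ∀ g ∈ fixSub k0 k K, g ∈ Q.inertia Gal(K/k0) → g = 1
  bound : ∀ I, ‖A I‖ ≤ 1
  zero : ∀ P : Ideal (𝓞 k), P.IsMaximal → f ≤ P → A P = 0
  frob : ∀ Q : Ideal (𝓞 K), Q.IsMaximal → ¬ f ≤ Q.under (𝓞 k) →
    ∀ g ∈ fixSub k0 k K, (∀ z : 𝓞 K, g • z - z ^ absNorm (Q.under (𝓞 k)) ∈ Q) →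
      A (Q.under (𝓞 k)) = Ψ g

variable {k0 k K : Type} [Field k0] [Field k] [Field K] [NumberField k0] [NumberField k]
  [NumberField K] [Algebra k0 k] [Algebra k0 K] [Algebra k K] [IsScalarTower k0 k K]
  [IsGalois k0 K] [IsTotallyReal k0] {f : Ideal (𝓞 k)} {Ψ : Gal(K/k0) → ℂ} {A A' : Ideal (𝓞 k) →* ℂ}

variable (K) in
theorem exists_over (P : Ideal (𝓞 k)) (hP : P.IsMaximal) :
    ∃ Q : Ideal (𝓞 K), Q.IsMaximal ∧ Q.under (𝓞 k) = P := by
  obtain ⟨Q, h1, h2⟩ := Ideal.exists_maximal_ideal_liesOver_of_isIntegral (S := 𝓞 K) P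
  exact ⟨Q, h1, h2.over.symm⟩

theorem isMaximal_of_mem_pdiv {P : Ideal (𝓞 k)} (hP : P ∈ pdiv f) : P.IsMaximal := by
  have h := UniqueFactorizationMonoid.prime_of_normalized_factor P (Multiset.mem_toFinset.mp hP)
  exact (Ideal.isPrime_of_prime h).isMaximal h.ne_zero

theorem absNorm_ne_zero_of_isMaximal {P : Ideal (𝓞 k)} (hP : P.IsMaximal) : absNorm P ≠ 0 :=
  fun h => Ring.ne_bot_of_isMaximal_of_not_isField hP (RingOfIntegers.not_isField k)
    (Ideal.absNorm_eq_zero_iff.mp h)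

theorem imp_cont (hP : Pieces) (hA : ArtData k0 k K Ψ A) (hI : Imp k0 k K f Ψ A') {d : ℂ}
    (h : Cont (Lser A) d) : Cont (Lser A') (d * ∏ P ∈ pdiv f, (1 - A P)) := by
  have h1 : ∀ P : Ideal (𝓞 k), P.IsMaximal → A' P = if f ≤ P then 0 else A P := fun P hP' => by
    split_ifs with h2
    · exact hI.zero P hP' h2
    · obtain ⟨Q, hQ, rfl⟩ := exists_over K P hP'
      obtain ⟨g, hg, h3⟩ := (hP.artex k0 k K).2.1 Q hQ
      rw [hI.frob Q hQ h2 g hg h3, hA.frob Q hQ (fun y hy hy' => by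
        rw [hI.unr Q hQ h2 y hy hy', hA.char.one]) g hg h3]
  have h2 : Differentiable ℂ fun s : ℂ =>
      ∏ P ∈ pdiv f, (1 - A P * (absNorm P : ℂ) ^ (-s)) := by
    refine Differentiable.fun_finsetProd fun P hP' => ?_
    have h3 : (absNorm P : ℂ) ≠ 0 :=
      Nat.cast_ne_zero.mpr (absNorm_ne_zero_of_isMaximal (isMaximal_of_mem_pdiv hP'))
    exact (differentiable_const _).sub ((differentiable_const _).mul
      (differentiable_id.neg.const_cpow (Or.inl h3)))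
  refine (h.mul_entire h2).congr (fun s hs => ?_) (by simp)
  exact (hP.corr k A A' f hI.ne hA.bound hI.bound h1 s hs).symm

/-- The conjugate coefficients. -/
def conjHom (A : Ideal (𝓞 k) →* ℂ) : Ideal (𝓞 k) →* ℂ := (starRingEnd ℂ).toMonoidHom.comp A

theorem conjHom_apply (A : Ideal (𝓞 k) →* ℂ) (I : Ideal (𝓞 k)) : conjHom A I = conj (A I) := rfl

theorem ArtData.cj (hA : ArtData k0 k K Ψ A) :
    ArtData k0 k K (fun g => conj (Ψ g)) (conjHom A) where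
  char := hA.char.cj
  bound := fun I => by rw [conjHom_apply, RCLike.norm_conj]; exact hA.bound I
  frob := fun Q hQ h g hg h' => by
    rw [conjHom_apply, hA.frob Q hQ (fun y hy hy' => by
      simpa using congrArg conj (h y hy hy')) g hg h']
  ram := fun Q hQ ⟨g, hg, h1, h2⟩ => by
    rw [conjHom_apply, hA.ram Q hQ ⟨g, hg, h1, fun h => h2 (by simp [h])⟩, map_zero]

theorem art_val (hP : Pieces) (hA : ArtData k0 k K Ψ A) {P : Ideal (𝓞 k)} (hP' : P.IsMaximal) :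
    A P = 0 ∨ ∃ g ∈ fixSub k0 k K, A P = Ψ g := by
  obtain ⟨Q, hQ, rfl⟩ := exists_over K P hP'
  obtain ⟨g, hg, h3⟩ := (hP.artex k0 k K).2.1 Q hQ
  by_cases h : ∀ g ∈ fixSub k0 k K, g ∈ Q.inertia Gal(K/k0) → Ψ g = 1
  · exact Or.inr ⟨g, hg, hA.frob Q hQ h g hg h3⟩
  · push Not at h
    exact Or.inl (hA.ram Q hQ h)

theorem gauss_val (hP : Pieces) (hA : ArtData k0 k K Ψ A)
    (h4 : ∀ g ∈ fixSub k0 k K, Ψ g ^ 4 = 1) :
    ∃ x y : ℤ, ∏ P ∈ pdiv f, (1 - A P) = x + y * Complex.I := by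
  refine Finset.prod_induction _ (fun z : ℂ => ∃ x y : ℤ, z = x + y * Complex.I) ?_
    ⟨1, 0, by simp⟩ fun P hP' => ?_
  · rintro a b ⟨x, y, rfl⟩ ⟨x', y', rfl⟩
    exact ⟨x * x' - y * y', x * y' + y * x', by
      push_cast
      linear_combination (y * y' : ℂ) * Complex.I_mul_I⟩
  · rcases art_val hP hA (isMaximal_of_mem_pdiv hP') with h | ⟨g, hg, h⟩
    · exact ⟨1, 0, by simp [h]⟩
    · rcases four_cases (h4 g hg) with h' | h' | h' | h'
      · exact ⟨0, 0, by simp [h, h']⟩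
      · exact ⟨2, 0, by rw [h, h']; norm_num⟩
      · exact ⟨1, -1, by rw [h, h']; push_cast; ring⟩
      · exact ⟨1, 1, by rw [h, h']; push_cast; ring⟩

theorem sq_eq_one_iff_of_ne_zero_or {z : ℂ} (h : z ^ 2 = 1) : z = 1 ∨ z = -1 :=
  sq_eq_one_iff.mp h

theorem real_val (hP : Pieces) (hA : ArtData k0 k K Ψ A)
    (h2 : ∀ g ∈ fixSub k0 k K, Ψ g ^ 2 = 1) : (∏ P ∈ pdiv f, (1 - A P)).im = 0 := by
  refine Finset.prod_induction _ (fun z : ℂ => z.im = 0) (fun a b ha hb => by simp [ha, hb])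
    (by simp) fun P hP' => ?_
  rcases art_val hP hA (isMaximal_of_mem_pdiv hP') with h | ⟨g, hg, h⟩
  · simp [h]
  · rcases sq_eq_one_iff_of_ne_zero_or (h2 g hg) with h' | h' <;> simp [h, h']

/-- The action of an automorphism on units. -/
def uact (g : Gal(K/k0)) (η : (𝓞 K)ˣ) : (𝓞 K)ˣ :=
  Units.map (MulSemiringAction.toRingHom Gal(K/k0) (𝓞 K) g).toMonoidHom η

theorem coe_uact (g : Gal(K/k0)) (η : (𝓞 K)ˣ) : (uact g η : K) = g η := rfl

theorem norm_pos_unit (φ : K →+* ℂ) (g : Gal(K/k0)) (η : (𝓞 K)ˣ) : 0 < ‖φ (g (η : K))‖ :=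
  norm_pos_iff.mpr ((map_ne_zero φ).mpr ((map_ne_zero g).mpr (NumberField.Units.coe_ne_zero η)))

theorem log_mul_unit (φ : K →+* ℂ) (g : Gal(K/k0)) (η η' : (𝓞 K)ˣ) :
    Real.log ‖φ (g ((η * η' : (𝓞 K)ˣ) : K))‖ =
      Real.log ‖φ (g (η : K))‖ + Real.log ‖φ (g (η' : K))‖ := by
  rw [NumberField.Units.coe_mul, map_mul, map_mul, norm_mul,
    Real.log_mul (norm_pos_unit φ g η).ne' (norm_pos_unit φ g η').ne']

theorem log_zpow_unit (φ : K →+* ℂ) (g : Gal(K/k0)) (η : (𝓞 K)ˣ) (n : ℤ) :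
    Real.log ‖φ (g ((η ^ n : (𝓞 K)ˣ) : K))‖ = n * Real.log ‖φ (g (η : K))‖ := by
  rw [NumberField.Units.coe_zpow, map_zpow₀, map_zpow₀, norm_zpow, Real.log_zpow]

end

end Pool.Agent.P.MP_29cb78_nt
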