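import Pool.Agent.P.MP_29cb78_nt.Iface

/-!
Meromorphic continuations vanishing at `0`, with a prescribed derivative there.
-/

namespace Pool.Agent.P.MP_29cb78_nt

open NumberField NumberField.InfinitePlace NumberField.Units Set Ideal Filter Topology
open scoped Classical

noncomputable section

/-- `a` on `re s > 1` continues meromorphically, is analytic at `0`, vanishes there and has
derivative `d`. -/
def Cont (a : ℂ → ℂ) (d : ℂ) : Prop :=
  ∃ Y : ℂ → ℂ, MeromorphicOn Y univ ∧ (∀ s : ℂ, 1 < s.re → Y s = a s) ∧ AnalyticAt ℂ Y 0 ∧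
    Y 0 = 0 ∧ deriv Y 0 = d

theorem Cont.congr {a b : ℂ → ℂ} {d d' : ℂ} (h : Cont a d) (hab : ∀ s : ℂ, 1 < s.re → a s = b s)
    (hd : d = d') : Cont b d' := by
  obtain ⟨Y, h1, h2, h3, h4, h5⟩ := h
  exact ⟨Y, h1, fun s hs => (h2 s hs).trans (hab s hs), h3, h4, h5.trans hd⟩

theorem Cont.zero : Cont (fun _ => 0) 0 :=
  ⟨fun _ => 0, fun _ _ => analyticAt_const.meromorphicAt, fun _ _ => rfl, analyticAt_const, rfl,
    by simp⟩

theorem Cont.add {a b : ℂ → ℂ} {d d' : ℂ} (h : Cont a d) (h' : Cont b d') :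
    Cont (fun s => a s + b s) (d + d') := by
  obtain ⟨Y, h1, h2, h3, h4, h5⟩ := h
  obtain ⟨Z, k1, k2, k3, k4, k5⟩ := h'
  refine ⟨fun s => Y s + Z s, h1.fun_add k1, fun s hs => by simp only [h2 s hs, k2 s hs],
    h3.fun_add k3, by simp [h4, k4], ?_⟩
  rw [deriv_fun_add h3.differentiableAt k3.differentiableAt, h5, k5]

theorem Cont.mul_entire {a E : ℂ → ℂ} {d : ℂ} (h : Cont a d) (hE : Differentiable ℂ E) :
    Cont (fun s => a s * E s) (d * E 0) := by
  obtain ⟨Y, h1, h2, h3, h4, h5⟩ := h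
  have hE' : ∀ z, AnalyticAt ℂ E z := fun z => hE.analyticAt z
  refine ⟨fun s => Y s * E s, h1.fun_mul fun z _ => (hE' z).meromorphicAt,
    fun s hs => by simp only [h2 s hs], h3.fun_mul (hE' 0), by simp [h4], ?_⟩
  rw [deriv_fun_mul h3.differentiableAt (hE 0), h5, h4]
  simp

theorem Cont.const_mul {a : ℂ → ℂ} {d : ℂ} (h : Cont a d) (c : ℂ) :
    Cont (fun s => c * a s) (c * d) :=
  (h.mul_entire (E := fun _ => c) (differentiable_const c)).congr (fun _ _ => mul_comm _ _)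
    (mul_comm _ _)

theorem Cont.sum {ι : Type} (S : Finset ι) {a : ι → ℂ → ℂ} {d : ι → ℂ}
    (h : ∀ i ∈ S, Cont (a i) (d i)) : Cont (fun s => ∑ i ∈ S, a i s) (∑ i ∈ S, d i) := by
  induction S using Finset.induction_on with
  | empty => simpa using Cont.zero
  | insert i S hi ih =>
    simp only [Finset.sum_insert hi]
    exact (h i (Finset.mem_insert_self _ _)).add
      (ih fun j hj => h j (Finset.mem_insert_of_mem hj))

/-- `s ^ n * g / g'` with entire `g`, `g'` and `g' 0 ≠ 0`. -/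
theorem cont_of_quot {a g g' : ℂ → ℂ} (hg : Differentiable ℂ g) (hg' : Differentiable ℂ g')
    (h0 : g' 0 ≠ 0) (n : ℕ) (ha : ∀ s : ℂ, 1 < s.re → s ^ (n + 1) * g s / g' s = a s) :
    Cont a (if n = 0 then g 0 / g' 0 else 0) := by
  have h1 : AnalyticAt ℂ (fun s => g s / g' s) 0 :=
    (hg.analyticAt 0).fun_div (hg'.analyticAt 0) h0
  have h2 : AnalyticAt ℂ (fun s : ℂ => s ^ (n + 1)) 0 := by fun_prop
  refine ⟨fun s => s ^ (n + 1) * (g s / g' s), fun z _ => ?_, fun s hs => ?_, h2.fun_mul h1,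
    by simp, ?_⟩
  · have h3 : AnalyticAt ℂ (fun s : ℂ => s ^ (n + 1)) z := by fun_prop
    exact h3.meromorphicAt.fun_mul
      ((hg.analyticAt z).meromorphicAt.fun_div (hg'.analyticAt z).meromorphicAt)
  · rw [← ha s hs, mul_div_assoc]
  · rw [deriv_fun_mul h2.differentiableAt h1.differentiableAt]
    rcases n with _ | n
    · simp
    · simp

/-- The leading coefficient `h R / w`. -/
def hrw (L : Type) [Field L] [NumberField L] : ℝ := classNumber L * regulator L / torsionOrder L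

theorem hrw_pos (L : Type) [Field L] [NumberField L] : 0 < hrw L :=
  div_pos (mul_pos (Nat.cast_pos.mpr (classNumber_pos L)) (regulator_pos L))
    (Nat.cast_pos.mpr (torsionOrder_pos L))

theorem lser_ne_zero (hE : EULER) {L : Type} [Field L] [NumberField L] {s : ℂ} (hs : 1 < s.re) :
    Lser (fun _ : Ideal (𝓞 L) => 1) s ≠ 0 := by
  have := (hE L 1 (fun I => by simp) s hs).2
  have e : ((1 : Ideal (𝓞 L) →* ℂ) : Ideal (𝓞 L) → ℂ) = fun _ => 1 := by ext; simp
  rw [e] at this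
  rw [this]
  exact Complex.exp_ne_zero _

theorem cont_zeta (hZ : ZETA) (L : Type) [Field L] [NumberField L] (h : 2 ≤ rank L) :
    Cont (Lser fun _ : Ideal (𝓞 L) => 1) 0 := by
  obtain ⟨g, hg, -, h2⟩ := hZ L
  obtain ⟨n, hn⟩ : ∃ n, rank L = n + 1 + 1 := ⟨rank L - 2, by omega⟩
  have := cont_of_quot (a := Lser fun _ : Ideal (𝓞 L) => 1) (g' := fun s => s - 1) hg
    (by fun_prop) (by simp) (n + 1) fun s hs => by
      have h1 : s - 1 ≠ 0 := fun h => by
        rw [sub_eq_zero.mp h] at hs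
        simp at hs
      rw [← hn, ← h2 s hs]
      field_simp
  simpa using this

theorem cont_quad (hZ : ZETA) (hE : EULER) (F M : Type) [Field F] [NumberField F] [Field M]
    [NumberField M] (a : ℂ → ℂ)
    (ha : ∀ s : ℂ, 1 < s.re → a s * Lser (fun _ : Ideal (𝓞 F) => 1) s =
      Lser (fun _ : Ideal (𝓞 M) => 1) s) (h : rank F + 1 ≤ rank M) :
    Cont a (if rank M = rank F + 1 then ((hrw M / hrw F : ℝ) : ℂ) else 0) := by
  obtain ⟨g, hg, g0, h2⟩ := hZ M
  obtain ⟨g', hg', g0', h2'⟩ := hZ F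
  obtain ⟨n, hn⟩ : ∃ n, rank M = rank F + (n + 1) := ⟨rank M - rank F - 1, by omega⟩
  have h0 : g' 0 ≠ 0 := by
    rw [g0']
    exact_mod_cast (hrw_pos F).ne'
  refine (cont_of_quot (a := a) hg hg' h0 n fun s hs => ?_).congr (fun _ _ => rfl) ?_
  · have h1 : s - 1 ≠ 0 := fun h => by
      rw [sub_eq_zero.mp h] at hs
      simp at hs
    have h3 : s ≠ 0 := fun h => by
      rw [h] at hs
      simp at hs
      linarith
    have h4 := lser_ne_zero hE (L := F) hs
    have h5 : g' s ≠ 0 := fun h => by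
      have := h2' s hs
      rw [h, mul_zero] at this
      exact mul_ne_zero h1 h4 this
    rw [div_eq_iff h5]
    apply mul_left_cancel₀ (pow_ne_zero (rank F) h3)
    have e1 := h2 s hs
    rw [hn, pow_add] at e1
    linear_combination (-1 : ℂ) * e1 + a s * h2' s hs - (s - 1) * ha s hs
  · rw [g0, g0']
    by_cases h6 : n = 0
    · rw [if_pos h6, if_pos (by omega)]
      simp [hrw]
    · rw [if_neg h6, if_neg (by omega)]

/-- Tate's formula for a quadratic extension with one split infinite place. -/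
theorem tate (hT : TREG) (hC : TCL) (F M : Type) [Field F] [Field M] [NumberField F]
    [NumberField M] [Algebra F M] (ρ : Gal(M/F)) (w0 : InfinitePlace M)
    (h2 : Module.finrank F M = 2) (hρ : ρ ≠ 1) (hr : 1 ≤ rank F) (hw : w0.IsUnramified F)
    (hram : ∀ w : InfinitePlace M, w.comap (algebraMap F M) ≠ w0.comap (algebraMap F M) →
      w.IsRamified F)
    (T : Finset (Ideal (𝓞 M))) (hTT : ∀ P ∈ T, P.IsMaximal ∧ ρ ∈ P.inertia Gal(M/F)) :
    ∃ η : (𝓞 M)ˣ, η ∈ Eminus ρ ∧ hrw M / hrw F =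
      2 ^ (rank F + T.card) * w0.mult * Real.log (w0 η) / (2 * torsionOrder M) := by
  obtain ⟨-, h3, -, η, hη, h4⟩ := hT F M ρ w0 h2 hρ hr hw hram
  obtain ⟨c, hc⟩ := hC F M ρ T h2 hρ hTT
  refine ⟨η ^ c, Subgroup.pow_mem _ hη c, ?_⟩
  have hc' : (classNumber M : ℝ) * (Ecob ρ).relIndex (Eminus ρ) =
      2 ^ T.card * classNumber F * c := by exact_mod_cast hc
  have e1 : (classNumber F : ℝ) ≠ 0 := Nat.cast_ne_zero.mpr (classNumber_pos F).ne'
  have e2 : (torsionOrder M : ℝ) ≠ 0 := Nat.cast_ne_zero.mpr (torsionOrder_pos M).ne'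
  have e3 := regulator_ne_zero F
  rw [NumberField.Units.coe_pow, map_pow, Real.log_pow, hrw, hrw, h3, pow_add]
  push_cast
  field_simp
  linear_combination (classNumber M : ℝ) * h4 +
    (2 ^ rank F * w0.mult * Real.log (w0 η) * regulator F) * hc'

end

end Pool.Agent.P.MP_29cb78_nt
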