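import Pool.Agent.P.MP_29cb78_nt.QTower

/-!
Generalised dihedral extensions over a field with exactly one complex place.
-/

namespace Pool.Agent.P.MP_29cb78_nt

open NumberField NumberField.InfinitePlace NumberField.Units Set Ideal Filter Topology
open NumberField.ComplexEmbedding (IsConj conjugate)
open scoped Classical ComplexConjugate

set_option linter.unusedSectionVars false

noncomputable section

/-- The standing hypotheses. -/
structure Dih (k0 k K : Type) [Field k0] [Field k] [Field K] [NumberField k] [Algebra k0 k]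
    [Algebra k0 K] [Algebra k K] (φ : K →+* ℂ) (τ : Gal(K/k0)) : Prop where
  h2 : Module.finrank k0 k = 2
  hc : nrComplexPlaces k = 1
  hr : 1 ≤ nrRealPlaces k
  inv : ∀ g, g ∉ fixSub k0 k K → g * g = 1
  exp : ∀ g ∈ fixSub k0 k K, g ^ 4 = 1
  cj : IsConj φ τ
  notMem : τ ∉ fixSub k0 k K
  card : Nat.card (fixSub k0 k K) = Module.finrank k K

variable {k0 k K : Type} [Field k0] [Field k] [Field K] [NumberField k0] [NumberField k]
  [NumberField K] [Algebra k0 k] [Algebra k0 K] [Algebra k K] [IsScalarTower k0 k K]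
  [IsGalois k0 K] [IsTotallyReal k0] {φ : K →+* ℂ} {τ : Gal(K/k0)}

namespace Dih

variable (D : Dih k0 k K φ τ)
include D

theorem card_gal : Nat.card Gal(K/k0) = 2 * Nat.card (fixSub k0 k K) := by
  rw [IsGalois.card_aut_eq_finrank, D.card, ← Module.finrank_mul_finrank k0 k K, D.h2]

theorem index : (fixSub k0 k K).index = 2 := by
  have h := (fixSub k0 k K).index_mul_card
  rw [D.card_gal] at h
  exact Nat.eq_of_mul_eq_mul_right Nat.card_pos h

theorem mul_mem_iff {a b : Gal(K/k0)} :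
    a * b ∈ fixSub k0 k K ↔ (a ∈ fixSub k0 k K ↔ b ∈ fixSub k0 k K) :=
  Subgroup.mul_mem_iff_of_index_two D.index

theorem ττ : τ * τ = 1 := D.inv τ D.notMem

theorem mulτ_mem {g : Gal(K/k0)} : g * τ ∈ fixSub k0 k K ↔ g ∉ fixSub k0 k K := by
  rw [D.mul_mem_iff]
  simp [D.notMem]

theorem conj_inv {n : Gal(K/k0)} (hn : n ∈ fixSub k0 k K) : τ * n * τ = n⁻¹ := by
  have h := D.inv (n * τ) fun h => D.mulτ_mem.mp h hn
  rw [eq_inv_iff_mul_eq_one]
  calc τ * n * τ * n = τ * (n * τ * (n * τ)) * τ * (τ * τ) := by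
        simp only [mul_assoc, D.ττ, mul_one]
    _ = 1 := by rw [h, mul_one, D.ττ, mul_one]

theorem τ_inv : τ⁻¹ = τ := inv_eq_of_mul_eq_one_right D.ττ

theorem comm {a b : Gal(K/k0)} (ha : a ∈ fixSub k0 k K) (hb : b ∈ fixSub k0 k K) :
    a * b = b * a := by
  have h := D.conj_inv (mul_mem ha hb)
  have h' : τ * (a * b) * τ = (τ * a * τ) * (τ * b * τ) := by
    simp only [mul_assoc, ← mul_assoc τ τ, D.ττ, one_mul]
  rw [h', D.conj_inv ha, D.conj_inv hb, ← mul_inv_rev] at h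
  exact (inv_injective h).symm

theorem conj_mem {g x : Gal(K/k0)} : g * x * g⁻¹ ∈ fixSub k0 k K ↔ x ∈ fixSub k0 k K := by
  rw [D.mul_mem_iff, D.mul_mem_iff, inv_mem_iff]
  tauto

theorem conjτ {h : Gal(K/k0)} (hh : h ∈ fixSub k0 k K) : h⁻¹ * τ * h * τ = h⁻¹ * h⁻¹ := by
  rw [← D.conj_inv hh]
  conv_lhs => rw [D.conj_inv hh]
  simp only [mul_assoc]
  rw [← D.conj_inv hh]
  simp only [mul_assoc]

theorem not_isReal : ¬ NumberField.ComplexEmbedding.IsReal (φ.comp (algebraMap k K)) :=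
  fun h => D.notMem ((isReal_iff_mem D.cj).mp h)

/-- The complex conjugations of `K`. -/
theorem conj_cases {φ' : K →+* ℂ} {c : Gal(K/k0)} (hc : IsConj φ' c) (h : c ∉ fixSub k0 k K) :
    ∃ g ∈ fixSub k0 k K, c = g⁻¹ * τ * g ∧ InfinitePlace.mk φ' = InfinitePlace.mk (φ.comp (g : K →+* K)) := by
  have h1 : ¬ NumberField.ComplexEmbedding.IsReal (φ'.comp (algebraMap k K)) :=
    fun h' => h ((isReal_iff_mem hc).mp h')
  have h2 : InfinitePlace.mk (φ.comp (algebraMap k K)) = InfinitePlace.mk (φ'.comp (algebraMap k K)) := by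
    have h3 := D.hc
    rw [nrComplexPlaces, Fintype.card_eq_one_iff] at h3
    obtain ⟨w, hw⟩ := h3
    exact congrArg Subtype.val ((hw ⟨_, isComplex_mk_iff.mpr D.not_isReal⟩).trans
      (hw ⟨_, isComplex_mk_iff.mpr h1⟩).symm)
  rcases mk_eq_iff.mp h2 with h3 | h3
  · obtain ⟨g, hg, h4⟩ := exists_fix_of_comp_eq (k0 := k0) φ φ' h3
    have h5 : φ' = φ.comp (g : K →+* K) := RingHom.ext h4
    exact ⟨g, hg, hc.ext (h5 ▸ D.cj.comp g), by rw [h5]⟩
  · rw [← NumberField.ComplexEmbedding.conjugate_comp] at h3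
    obtain ⟨g, hg, h4⟩ := exists_fix_of_comp_eq (k0 := k0) (conjugate φ) φ' h3
    have h5 : φ' = conjugate (φ.comp (g : K →+* K)) := RingHom.ext h4
    refine ⟨g, hg, ?_, by rw [h5, mk_conjugate_eq]⟩
    ext x
    apply φ'.injective
    rw [hc.eq, h5]
    have := (D.cj.comp g).eq x
    simp only [NumberField.ComplexEmbedding.conjugate_coe_eq]
    rw [this]
    rfl

theorem mk_eq_of_mem {L : Type} [Field L] [Algebra L K] {φ' : K →+* ℂ} {g : Gal(K/k0)}
    (hg : g ∈ fixSub k0 L K) (h : InfinitePlace.mk φ' = InfinitePlace.mk (φ.comp (g : K →+* K))) :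
    InfinitePlace.mk (φ'.comp (algebraMap L K)) = InfinitePlace.mk (φ.comp (algebraMap L K)) := by
  rw [← comap_mk, h, comap_mk]
  congr 1
  ext y
  exact congrArg φ (hg y)

theorem finrank_k : Module.finrank ℚ k = nrRealPlaces k + 2 := by
  rw [← card_add_two_mul_card_eq_rank, D.hc]

theorem two_le : 2 ≤ nrRealPlaces k := by
  have h1 := D.finrank_k
  rw [← Module.finrank_mul_finrank ℚ k0 k, D.h2] at h1
  have := D.hr
  omega

theorem rank_k : rank k = nrRealPlaces k := by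
  rw [rank, card_eq_nrRealPlaces_add_nrComplexPlaces, D.hc]
  rfl

theorem exists_real : ∃ (φ' : K →+* ℂ) (c : Gal(K/k0)), IsConj φ' c ∧ c ∈ fixSub k0 k K := by
  have h := D.hr
  rw [nrRealPlaces, Nat.one_le_iff_ne_zero, ← Nat.pos_iff_ne_zero, Fintype.card_pos_iff] at h
  obtain ⟨w, hw⟩ := h
  obtain ⟨φ', rfl⟩ := exists_mk_comp (K := K) w
  obtain ⟨c, hc⟩ := exists_isConj (k0 := k0) φ'
  exact ⟨φ', c, hc, (isReal_iff_mem hc).mp (isReal_mk_iff.mp hw)⟩

theorem mk_ne {φ' : K →+* ℂ} {c : Gal(K/k0)} (hc : IsConj φ' c) (h : c ∈ fixSub k0 k K)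
    {L : Type} [Field L] [Algebra k0 L] [Algebra L K] [IsScalarTower k0 L K] :
    InfinitePlace.mk (φ'.comp (algebraMap L K)) ≠ InfinitePlace.mk (φ.comp (algebraMap L K)) := by
  intro h1
  have key : ∀ ψ : K →+* ℂ, IsConj ψ τ →
      ψ.comp (algebraMap L K) = φ'.comp (algebraMap L K) → False := fun ψ hψ h2 => by
    obtain ⟨g, -, h4⟩ := exists_fix_of_comp_eq (k0 := k0) ψ φ' h2
    have h5 : φ' = ψ.comp (g : K →+* K) := RingHom.ext h4
    have h6 : c = g⁻¹ * τ * g := hc.ext (h5 ▸ hψ.comp g)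
    rw [h6] at h
    exact D.notMem (D.conj_mem.mp (by simpa using h : g⁻¹ * τ * g⁻¹⁻¹ ∈ fixSub k0 k K))
  rcases mk_eq_iff.mp h1.symm with h3 | h3
  · exact key φ D.cj h3
  · refine key (conjugate φ) ?_ h3
    ext x
    have := D.cj.eq x
    simp only [NumberField.ComplexEmbedding.conjugate_coe_eq, RingHom.comp_apply,
      RingHom.coe_coe, this]
    simp

/-- The subgroup generated by `N` and `τ`. -/
def dih (N : Subgroup Gal(K/k0)) (hN : N ≤ fixSub k0 k K) : Subgroup Gal(K/k0) where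
  carrier := {g | g ∈ N ∨ g * τ ∈ N}
  one_mem' := Or.inl (one_mem _)
  mul_mem' := by
    rintro a b (ha | ha) (hb | hb)
    · exact Or.inl (mul_mem ha hb)
    · exact Or.inr (by rw [mul_assoc]; exact mul_mem ha hb)
    · right
      have := mul_mem ha (inv_mem hb)
      rw [← D.conj_inv (hN hb)] at this
      simpa only [mul_assoc, ← mul_assoc τ τ, D.ττ, one_mul] using this
    · left
      have := mul_mem ha (inv_mem hb)
      rw [← D.conj_inv (hN hb)] at this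
      simpa only [mul_assoc, ← mul_assoc τ τ, D.ττ, one_mul, mul_one] using this
  inv_mem' := by
    rintro a (ha | ha)
    · exact Or.inl (inv_mem ha)
    · right
      rwa [inv_eq_of_mul_eq_one_right (D.inv a (D.mulτ_mem.mp (hN ha)))]

theorem mem_dih {N : Subgroup Gal(K/k0)} {hN : N ≤ fixSub k0 k K} {g : Gal(K/k0)} :
    g ∈ D.dih N hN ↔ g ∈ N ∨ g * τ ∈ N := Iff.rfl

theorem mem_dih_of_mem {N : Subgroup Gal(K/k0)} {hN : N ≤ fixSub k0 k K} {g : Gal(K/k0)}
    (hg : g ∈ fixSub k0 k K) : g ∈ D.dih N hN ↔ g ∈ N :=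
  ⟨fun h => h.resolve_right fun h' => D.mulτ_mem.mp (hN h') hg, Or.inl⟩

theorem mem_dih_of_notMem {N : Subgroup Gal(K/k0)} {hN : N ≤ fixSub k0 k K} {g : Gal(K/k0)}
    (hg : g ∉ fixSub k0 k K) : g ∈ D.dih N hN ↔ g * τ ∈ N :=
  ⟨fun h => h.resolve_left fun h' => hg (hN h'), Or.inr⟩

theorem card_dih (N : Subgroup Gal(K/k0)) (hN : N ≤ fixSub k0 k K) :
    Nat.card (D.dih N hN) = 2 * Nat.card N :=
  card_two (fun _ h => Or.inl h) (a := τ) (Or.inr (by rw [D.ττ]; exact one_mem _))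
    (fun h => D.notMem (hN h)) fun _ hb => hb.symm

end Dih

namespace IsChar

variable {L : Type} [Field L] [Algebra L K] {Ψ : Gal(K/k0) → ℂ} (C : IsChar k0 L K Ψ)
include C

theorem pow {g : Gal(K/k0)} (hg : g ∈ fixSub k0 L K) (n : ℕ) : Ψ (g ^ n) = Ψ g ^ n := by
  induction n with
  | zero => simpa using C.one
  | succ n ih => rw [pow_succ, C.mul _ (pow_mem hg n) _ hg, ih, pow_succ]

theorem mul_inv {g : Gal(K/k0)} (hg : g ∈ fixSub k0 L K) : Ψ g * Ψ g⁻¹ = 1 := by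
  rw [← C.mul _ hg _ (inv_mem hg), mul_inv_cancel, C.one]

theorem inv {g : Gal(K/k0)} (hg : g ∈ fixSub k0 L K) : Ψ g⁻¹ = (Ψ g)⁻¹ :=
  eq_inv_of_mul_eq_one_right (C.mul_inv hg)

/-- The elements on which `Ψ ^ n` is trivial. -/
def ker (n : ℕ) : Subgroup Gal(K/k0) where
  carrier := {g | g ∈ fixSub k0 L K ∧ Ψ g ^ n = 1}
  one_mem' := ⟨one_mem _, by rw [C.one, one_pow]⟩
  mul_mem' := fun {a b} ha hb => ⟨mul_mem ha.1 hb.1, by
    rw [C.mul _ ha.1 _ hb.1, mul_pow, ha.2, hb.2, mul_one]⟩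
  inv_mem' := fun {a} ha => ⟨inv_mem ha.1, by rw [C.inv ha.1, inv_pow, ha.2, inv_one]⟩

theorem mem_ker {n : ℕ} {g : Gal(K/k0)} :
    g ∈ C.ker n ↔ g ∈ fixSub k0 L K ∧ Ψ g ^ n = 1 := Iff.rfl

theorem ker_le (n : ℕ) : C.ker n ≤ fixSub k0 L K := fun _ h => h.1

theorem cj : IsChar k0 L K fun g => conj (Ψ g) :=
  ⟨by rw [C.one, map_one], fun g hg h hh => by rw [C.mul g hg h hh, map_mul],
    fun g hg => by rw [C.zero g hg, map_zero]⟩

end IsChar

theorem four_cases {z : ℂ} (h : z ^ 4 = 1) :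
    z = 1 ∨ z = -1 ∨ z = Complex.I ∨ z = -Complex.I := by
  have : (z - 1) * ((z + 1) * ((z - Complex.I) * (z + Complex.I))) = 0 := by
    linear_combination h - (z ^ 2 - 1) * Complex.I_sq
  simpa only [mul_eq_zero, sub_eq_zero, add_eq_zero_iff_eq_neg] using this

end

end Pool.Agent.P.MP_29cb78_nt
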