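import Pool.Agent.P.MP_29cb78_nt.Imp

/-!
Characters of order four.
-/

namespace Pool.Agent.P.MP_29cb78_nt

open NumberField NumberField.InfinitePlace NumberField.Units Set Ideal Filter Topology
open NumberField.ComplexEmbedding (IsConj conjugate)
open scoped Classical ComplexConjugate

set_option linter.unusedSectionVars false

noncomputable section

variable {k0 k K : Type} [Field k0] [Field k] [Field K] [NumberField k0] [NumberField k]
  [NumberField K] [Algebra k0 k] [Algebra k0 K] [Algebra k K] [IsScalarTower k0 k K]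
  [IsGalois k0 K] [IsTotallyReal k0] {φ : K →+* ℂ} {τ : Gal(K/k0)} {f : Ideal (𝓞 k)}
  {Ψ : Gal(K/k0) → ℂ}

theorem sum_conj_eq_zero {G : Type} [Group G] [Fintype G] (W : G → ℂ) (x y : G)
    (h : ∀ g : G, W (y * (g * x * g⁻¹) * y⁻¹) = -W (g * x * g⁻¹)) :
    ∑ g : G, W (g * x * g⁻¹) = 0 := by
  have h1 : ∑ g : G, W (g * x * g⁻¹) = ∑ g : G, W (y * g * x * (y * g)⁻¹) :=
    (Equiv.sum_comp (Equiv.mulLeft y) fun g => W (g * x * g⁻¹)).symm
  have h2 : ∑ g : G, W (y * g * x * (y * g)⁻¹) = -∑ g : G, W (g * x * g⁻¹) := by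
    rw [← Finset.sum_neg_distrib]
    refine Finset.sum_congr rfl fun g _ => ?_
    rw [← h g]
    simp only [mul_assoc, mul_inv_rev]
  linear_combination (h1.trans h2) / 2

theorem IsChar.four (C : IsChar k0 k K Ψ) (D : Dih k0 k K φ τ) {g : Gal(K/k0)}
    (hg : g ∈ fixSub k0 k K) : Ψ g ^ 4 = 1 := by
  rw [← C.pow hg, D.exp g hg, C.one]

theorem I_ne : Complex.I ≠ 1 ∧ -Complex.I ≠ 1 ∧ (-1 : ℂ) ≠ 1 ∧ Complex.I ≠ -1 ∧
    -Complex.I ≠ -1 := by
  refine ⟨fun h => ?_, fun h => ?_, by norm_num, fun h => ?_, fun h => ?_⟩ <;>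
    simpa using congrArg Complex.im h

section four

variable (D : Dih k0 k K φ τ) (C : IsChar k0 k K Ψ) {g1 : Gal(K/k0)}
  (hg1 : g1 ∈ fixSub k0 k K) (hI : Ψ g1 = -Complex.I)
include D C hg1 hI

theorem card_ker_two : Nat.card (fixSub k0 k K) = 2 * Nat.card (C.ker 2) := by
  refine card_two (C.ker_le 2) hg1 (fun h => ?_) fun b hb => ?_
  · have := h.2
    rw [hI, neg_sq, Complex.I_sq] at this
    norm_num at this
  · simp only [C.mem_ker, mul_mem hb hg1, hb, true_and, C.mul b hb g1 hg1, hI]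
    rcases four_cases (C.four D hb) with h | h | h | h <;> rw [h] <;>
      simp [Complex.I_sq]

theorem card_ker_one : Nat.card (C.ker 2) = 2 * Nat.card (C.ker 1) := by
  have h1 : Ψ (g1 * g1) = -1 := by rw [C.mul _ hg1 _ hg1, hI]; simp
  refine card_two (a := g1 * g1) (fun g hg => ⟨hg.1, by rw [sq, ← pow_one (Ψ g), hg.2, mul_one]⟩)
    ⟨mul_mem hg1 hg1, by rw [h1]; norm_num⟩ (fun h => ?_) fun b hb => ?_
  · have := h.2
    rw [h1] at this
    norm_num at this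
  · simp only [C.mem_ker, mul_mem hb.1 (mul_mem hg1 hg1), hb.1, true_and,
      C.mul b hb.1 _ (mul_mem hg1 hg1), h1]
    rcases sq_eq_one_iff_of_ne_zero_or hb.2 with h | h <;> rw [h] <;> simp

theorem induced_four (x : Gal(K/k0)) : ∑ g : Gal(K/k0),
    (Ψ (g * x * g⁻¹) / Nat.card (fixSub k0 k K) +
      (if g * x * g⁻¹ ∈ D.dih _ (C.ker_le 2) then 1 else 0) / Nat.card (D.dih _ (C.ker_le 2)) -
      (if g * x * g⁻¹ ∈ D.dih _ (C.ker_le 1) then 1 else 0) /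
        Nat.card (D.dih _ (C.ker_le 1))) = 0 := by
  have hn : (Nat.card (C.ker 1) : ℂ) ≠ 0 := Nat.cast_ne_zero.mpr Nat.card_pos.ne'
  rw [D.card_dih, D.card_dih, card_ker_two D C hg1 hI, card_ker_one D C hg1 hI]
  push_cast
  obtain ⟨i1, i2, i3, i4, i5⟩ := I_ne
  by_cases hx : x ∈ fixSub k0 k K
  · refine sum_conj_eq_zero (fun z => Ψ z / _ + (if z ∈ D.dih _ (C.ker_le 2) then 1 else 0) / _ -
      (if z ∈ D.dih _ (C.ker_le 1) then 1 else 0) / _) x τ fun g => ?_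
    have hz := (D.conj_mem (g := g)).mpr hx
    generalize g * x * g⁻¹ = z at hz
    rw [D.τ_inv, D.conj_inv hz]
    simp only [inv_mem_iff, D.mem_dih_of_mem hz, C.mem_ker, hz, true_and, C.inv hz, pow_one]
    rcases four_cases (C.four D hz) with h | h | h | h <;> rw [h] <;>
      simp [Complex.I_sq, i1, i2, i3] <;> field_simp <;> ring
  · refine sum_conj_eq_zero (fun z => Ψ z / _ + (if z ∈ D.dih _ (C.ker_le 2) then 1 else 0) / _ -
      (if z ∈ D.dih _ (C.ker_le 1) then 1 else 0) / _) x g1 fun g => ?_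
    have hz : g * x * g⁻¹ ∉ fixSub k0 k K := fun h => hx (D.conj_mem.mp h)
    generalize g * x * g⁻¹ = z at hz
    have hz' : g1 * z * g1⁻¹ ∉ fixSub k0 k K := fun h => hz (D.conj_mem.mp h)
    have hn1 := D.mulτ_mem.mpr hz
    have e : g1 * z * g1⁻¹ * τ = g1 * (z * τ) * g1 := by
      rw [← D.conj_inv hg1]
      simp only [mul_assoc, D.ττ, mul_one]
    have e2 : Ψ (g1 * (z * τ) * g1) = -Ψ (z * τ) := by
      rw [C.mul _ (mul_mem hg1 hn1) _ hg1, C.mul _ hg1 _ hn1, hI]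
      linear_combination Ψ (z * τ) * Complex.I_mul_I
    simp only [D.mem_dih_of_notMem hz, D.mem_dih_of_notMem hz', C.mem_ker, C.zero _ hz,
      C.zero _ hz', e, e2, hn1, mul_mem (mul_mem hg1 hn1) hg1, true_and, pow_one]
    rcases four_cases (C.four D hn1) with h | h | h | h <;> rw [h] <;>
      simp [Complex.I_sq, i1, i2, i3] <;> field_simp <;> ring

end four

/-- Complex conjugations above the place of `φ`. -/
theorem conj_over (D : Dih k0 k K φ τ) (C : IsChar k0 k K Ψ) {g : Gal(K/k0)}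
    (hg : g ∈ fixSub k0 k K) : g⁻¹ * τ * g ∈ D.dih _ (C.ker_le 2) ∧
      (g⁻¹ * τ * g ∈ D.dih _ (C.ker_le 1) ↔ Ψ g ^ 2 = 1) := by
  have h1 : g⁻¹ * τ * g ∉ fixSub k0 k K := fun h =>
    D.notMem (D.conj_mem.mp (by simpa using h : g⁻¹ * τ * g⁻¹⁻¹ ∈ fixSub k0 k K))
  have h2 := mul_mem (inv_mem hg) (inv_mem hg)
  have h3 : Ψ (g⁻¹ * g⁻¹) = (Ψ g ^ 2)⁻¹ := by
    rw [C.mul _ (inv_mem hg) _ (inv_mem hg), C.inv hg, sq, mul_inv]
  rw [D.mem_dih_of_notMem h1, D.mem_dih_of_notMem h1, D.conjτ hg, C.mem_ker, C.mem_ker, h3,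
    pow_one, inv_eq_one, inv_pow, ← pow_mul, C.four D hg, inv_one]
  simp [h2]

theorem exists_field0 (H : Subgroup Gal(K/k0)) :
    ∃ (M : Type) (_ : Field M) (_ : NumberField M) (_ : Algebra k0 M)
      (_ : Algebra M K) (_ : IsScalarTower k0 M K), fixSub k0 M K = H := by
  obtain ⟨F, a, b, c, _, d, e, _, hF⟩ := exists_field H k0 (fun g _ y => g.commutes y)
  exact ⟨F, a, b, c, d, e, hF⟩

/-- The primitive `L`-series of a character of order four. -/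
theorem prim_four (hP : Pieces) (D : Dih k0 k K φ τ) (C : IsChar k0 k K Ψ) {g1 : Gal(K/k0)}
    (hg1 : g1 ∈ fixSub k0 k K) (hI : Ψ g1 = -Complex.I) {A : Ideal (𝓞 k) →* ℂ}
    (hA : ArtData k0 k K Ψ A) (t : ℕ)
    (ht : t = 1 ∨ ∃ R : Finset (Ideal (𝓞 K)), R.card = t ∧
      (∀ Q ∈ R, Q.IsMaximal ∧ ∃ g ∈ fixSub k0 k K, g ∈ Q.inertia Gal(K/k0) ∧ Ψ g = -1) ∧
      Set.InjOn (fun Q : Ideal (𝓞 K) => Q.under (𝓞 k0)) R) :
    ∃ η : (𝓞 K)ˣ, (∀ (φ' : K →+* ℂ) (c : Gal(K/k0)), IsConj φ' c → c ∈ fixSub k0 k K →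
        ‖φ' (η : K)‖ = 1) ∧
      (∀ σ ∈ fixSub k0 k K, Real.log ‖φ (σ (η : K))‖ = (Ψ σ).re * Real.log ‖φ η‖) ∧
      Cont (Lser A) ((2 ^ (nrRealPlaces k - 1 + t) * Real.log ‖φ η‖ : ℝ) : ℂ) ∧
      Cont (Lser (conjHom A)) ((2 ^ (nrRealPlaces k - 1 + t) * Real.log ‖φ η‖ : ℝ) : ℂ) := by
  obtain ⟨F, _, _, _, _, _, hF⟩ := exists_field0 (D.dih _ (C.ker_le 2))
  have hle : D.dih _ (C.ker_le 1) ≤ D.dih _ (C.ker_le 2) := fun g hg =>
    hg.imp (fun h => ⟨h.1, by rw [sq, ← pow_one (Ψ g), h.2, mul_one]⟩)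
      fun h => ⟨h.1, by rw [sq, ← pow_one (Ψ _), h.2, mul_one]⟩
  obtain ⟨M, _, _, _, _, _, _, _, hM⟩ := exists_field (D.dih _ (C.ker_le 1)) F (hF ▸ hle)
  have h2 : Module.finrank F M = 2 := finrank_eq_two (k0 := k0) (K := K) hP.artex (by
    rw [hF, hM, D.card_dih, D.card_dih, card_ker_one D C hg1 hI])
  have a1 : ∀ s : ℂ, 1 < s.re → Lser A s * Lser (fun _ : Ideal (𝓞 F) => 1) s =
      Lser (fun _ : Ideal (𝓞 M) => 1) s :=
    hP.artin k0 K k F M _ _ _ _ _ _ hA (artData_one F) (artData_one M) fun x => by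
      rw [hF, hM]
      exact induced_four D C hg1 hI x
  have a2 : ∀ s : ℂ, 1 < s.re → Lser (conjHom A) s * Lser (fun _ : Ideal (𝓞 F) => 1) s =
      Lser (fun _ : Ideal (𝓞 M) => 1) s :=
    hP.artin k0 K k F M _ _ _ _ _ _ hA.cj (artData_one F) (artData_one M) fun x => by
      rw [hF, hM]
      have := congrArg conj (induced_four D C hg1 hI x)
      simpa only [map_sum, map_sub, map_add, map_div₀, apply_ite conj, map_one, map_zero,
        map_natCast] using this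
  have hτ : τ ∈ fixSub k0 M K := by
    rw [hM]
    exact Or.inr (by rw [D.ττ]; exact one_mem _)
  have hc : ¬ (τ ∈ fixSub k0 F K ∧ τ ∉ fixSub k0 M K) := fun h => h.2 hτ
  have memF : ∀ g ∈ fixSub k0 k K, (g ∈ fixSub k0 F K ↔ Ψ g ^ 2 = 1) := fun g hg => by
    rw [hF, D.mem_dih_of_mem hg, C.mem_ker, and_iff_right hg]
  have memM : ∀ g ∈ fixSub k0 k K, (g ∈ fixSub k0 M K ↔ Ψ g = 1) := fun g hg => by
    rw [hM, D.mem_dih_of_mem hg, C.mem_ker, and_iff_right hg, pow_one]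
  have neg : ∀ g ∈ fixSub k0 k K, Ψ g = -1 → g ∈ fixSub k0 F K ∧ g ∉ fixSub k0 M K :=
    fun g hg h => ⟨(memF g hg).mpr (by rw [h]; norm_num), fun h' => by
      have := (memM g hg).mp h'
      rw [h] at this
      norm_num at this⟩
  have sqc : ∀ (φ' : K →+* ℂ) (c : Gal(K/k0)), IsConj φ' c → c ∈ fixSub k0 k K →
      Ψ c ^ 2 = 1 := fun φ' c h h' => by rw [← C.pow h', sq, isConj_mul_self h, C.one]
  by_cases hodd : ∀ (φ' : K →+* ℂ) (c : Gal(K/k0)), IsConj φ' c → c ∈ fixSub k0 k K → Ψ c = -1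
  swap
  · push Not at hodd
    obtain ⟨φ', c, h3, h4, h5⟩ := hodd
    have h6 : c ∈ fixSub k0 M K :=
      (memM c h4).mpr ((sq_eq_one_iff_of_ne_zero_or (sqc φ' c h3 h4)).resolve_right h5)
    refine ⟨1, fun _ _ _ _ => by simp, fun _ _ => by simp, ?_, ?_⟩
    · simpa using quad_even hP h2 _ a1 D.cj h3 hc h6 (D.mk_ne h3 h4)
    · simpa using quad_even hP h2 _ a2 D.cj h3 hc h6 (D.mk_ne h3 h4)
  have hodd' : ∀ (φ' : K →+* ℂ) (c' : Gal(K/k0)), IsConj φ' c' →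
      mk (φ'.comp (algebraMap F K)) ≠ mk (φ.comp (algebraMap F K)) →
      c' ∈ fixSub k0 F K ∧ c' ∉ fixSub k0 M K := fun φ' c h3 h4 => by
    by_cases h5 : c ∈ fixSub k0 k K
    · exact neg c h5 (hodd φ' c h3 h5)
    · obtain ⟨g, hg, rfl, h6⟩ := D.conj_cases h3 h5
      obtain ⟨h7, h8⟩ := conj_over D C hg
      refine ⟨hF ▸ h7, fun h9 => h4 (D.mk_eq_of_mem ((memF g hg).mpr (h8.mp (hM ▸ h9))) h6)⟩
  have : IsTotallyReal F := ⟨fun w => by
    obtain ⟨φ', rfl⟩ := exists_mk_comp (K := K) w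
    obtain ⟨c, h3⟩ := exists_isConj (k0 := k0) φ'
    rw [isReal_mk_iff, isReal_iff_mem h3]
    by_cases h5 : c ∈ fixSub k0 k K
    · exact (memF c h5).mpr (sqc φ' c h3 h5)
    · obtain ⟨g, hg, rfl, -⟩ := D.conj_cases h3 h5
      exact hF ▸ (conj_over D C hg).1⟩
  have hF2 : Module.finrank k0 F = 2 := by
    have h3 := D.card_gal
    rw [IsGalois.card_aut_eq_finrank, ← Module.finrank_mul_finrank k0 F K, ← (hP.artex k0 F K).1,
      hF, D.card_dih, ← card_ker_two D C hg1 hI] at h3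
    exact Nat.eq_of_mul_eq_mul_right Nat.card_pos h3
  have hFk : Module.finrank ℚ F = nrRealPlaces k + 2 := by
    rw [← D.finrank_k, ← Module.finrank_mul_finrank ℚ k0 F, ← Module.finrank_mul_finrank ℚ k0 k,
      hF2, D.h2]
  have hrk : rank F = nrRealPlaces k + 1 := by
    rw [rank, card_eq_nrRealPlaces_add_nrComplexPlaces, IsTotallyReal.nrComplexPlaces_eq_zero,
      ← IsTotallyReal.finrank, hFk]
    rfl
  obtain ⟨ρ, hρ1, hρ⟩ := exists_rho (k0 := k0) (K := K) h2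
  obtain ⟨T, hT, hT'⟩ : ∃ T : Finset (Ideal (𝓞 M)), T.card = t ∧
      ∀ P ∈ T, P.IsMaximal ∧ ρ ∈ P.inertia Gal(M/F) := by
    rcases ht with rfl | ⟨R, rfl, h3, h4⟩
    · exact quad_par hP h2 (by
        rw [← Module.finrank_mul_finrank ℚ k0 F, hF2]
        exact even_two.mul_left _) D.cj hc hodd' ρ hρ1
    · refine exists_ramified_set ρ hρ R (fun Q hQ => ?_) h4
      obtain ⟨h5, g, h6, h7, h8⟩ := h3 Q hQ
      exact ⟨h5, g, (neg g h6 h8).1, (neg g h6 h8).2, h7⟩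
  have hreal : (mk (φ.comp (algebraMap M K))).IsReal :=
    isReal_mk_iff.mpr ((isReal_iff_mem D.cj).mpr hτ)
  have key : ∀ l : ℝ, 2 ^ (rank F + T.card) * ((mk (φ.comp (algebraMap M K))).mult : ℝ) * l /
      (2 * torsionOrder M) = 2 ^ (nrRealPlaces k - 1 + t) * l := fun l => by
    obtain ⟨r, hr⟩ : ∃ r, nrRealPlaces k = r + 1 := ⟨nrRealPlaces k - 1, by have := D.hr; omega⟩
    rw [hreal.mult_eq_one, torsionOrder_eq_two hreal, hrk, hT, hr, Nat.add_sub_cancel]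
    push_cast
    ring
  obtain ⟨η, e1, e2, -, e4⟩ := quad_odd hP h2 _ a1 D.cj hc hodd' (by omega) ρ hρ1 hρ T hT'
  rw [key] at e4
  refine ⟨η, fun φ' c h3 h4 => ?_, fun σ hσ => ?_, e4, e4.congr (fun s hs => ?_) rfl⟩
  · have := neg c h4 (hodd φ' c h3 h4)
    exact norm_eq_one_of_conj h3 (e2 c this.1 this.2)
  · have hi : Ψ σ ^ 2 = -1 → Real.log ‖φ (σ (η : K))‖ = 0 := fun h => by
      obtain ⟨h7, h8⟩ := conj_over D C hσ
      have := norm_eq_one_of_conj (D.cj.comp σ) (e2 _ (hF ▸ h7) fun h9 => by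
        have := h8.mp (hM ▸ h9)
        rw [h] at this
        norm_num at this)
      rw [show ‖φ (σ (η : K))‖ = 1 from this, Real.log_one]
    rcases four_cases (C.four D hσ) with h | h | h | h
    · rw [e1 σ ((memM σ hσ).mpr h), h]
      simp
    · have := neg σ hσ h
      rw [eq_inv_of_mul_eq_one_left (e2 σ this.1 this.2), h, map_inv₀, norm_inv, Real.log_inv]
      simp
    · rw [hi (by rw [h, Complex.I_sq]), h]
      simp
    · rw [hi (by rw [h, neg_sq, Complex.I_sq]), h]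
      simp
  · exact mul_right_cancel₀ (lser_ne_zero hP.euler (L := F) hs) ((a1 s hs).trans (a2 s hs).symm)

/-- A pair of conjugate characters of order four. -/
theorem pair_four (hP : Pieces) (D : Dih k0 k K φ τ) (C : IsChar k0 k K Ψ) {g0 : Gal(K/k0)}
    (hg0 : g0 ∈ fixSub k0 k K) (h0 : Ψ g0 ^ 2 ≠ 1) {A1 A2 : Ideal (𝓞 k) →* ℂ}
    (h1 : Imp k0 k K f Ψ A1) (h2 : Imp k0 k K f (fun g => conj (Ψ g)) A2)
    (hsize : Nat.card (fixSub k0 k K) ∣ 2 ^ (nrRealPlaces k - 1 + nfull k0 f) ∨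
      Nat.card (fixSub k0 k K) ∣ 2 ^ (nrRealPlaces k - 1 + 1)) :
    ∃ v : (𝓞 K)ˣ, (∀ (φ' : K →+* ℂ) (c : Gal(K/k0)), IsConj φ' c → c ∈ fixSub k0 k K →
        ‖φ' (v : K)‖ = 1) ∧
      ∀ σ ∈ fixSub k0 k K, Cont (fun s => conj (Ψ σ) * Lser A1 s + Ψ σ * Lser A2 s)
        (-(Nat.card (fixSub k0 k K) * 2 * Real.log ‖φ (σ (v : K))‖ : ℝ) : ℂ) := by
  obtain ⟨g1, hg1, hI⟩ : ∃ g1 ∈ fixSub k0 k K, Ψ g1 = -Complex.I := by
    rcases four_cases (C.four D hg0) with h | h | h | h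
    · exact (h0 (by rw [h]; norm_num)).elim
    · exact (h0 (by rw [h]; norm_num)).elim
    · exact ⟨g0⁻¹, inv_mem hg0, by rw [C.inv hg0, h, Complex.inv_I]⟩
    · exact ⟨g0, hg0, h⟩
  obtain ⟨A, hA⟩ := (hP.artex k0 k K).2.2 Ψ C
  obtain ⟨t, N, x, y, ht, hN⟩ : ∃ (t N : ℕ) (x y : ℤ),
      (t = 1 ∨ ∃ R : Finset (Ideal (𝓞 K)), R.card = t ∧
      (∀ Q ∈ R, Q.IsMaximal ∧ ∃ g ∈ fixSub k0 k K, g ∈ Q.inertia Gal(K/k0) ∧ Ψ g = -1) ∧
      Set.InjOn (fun Q : Ideal (𝓞 K) => Q.under (𝓞 k0)) R) ∧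
      2 ^ (nrRealPlaces k - 1 + t) * ∏ P ∈ pdiv f, (1 - A P) =
        Nat.card (fixSub k0 k K) * N * (x + y * Complex.I) := by
    rcases hsize with ⟨N, hN⟩ | ⟨N, hN⟩
    · obtain ⟨R, r1, r2, x, y, r3⟩ := hP.even k0 k K Ψ A f h1.ne hA D.h2 D.inv
        fun g hg => C.four D hg
      refine ⟨R.card, N, x, y, Or.inr ⟨R, rfl, r1, r2⟩, ?_⟩
      rw [pow_add, mul_assoc, r3, ← mul_assoc, ← pow_add]
      congr 1
      exact_mod_cast hN
    · obtain ⟨x, y, r3⟩ := gauss_val (f := f) hP hA fun g hg => C.four D hg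
      refine ⟨1, N, x, y, Or.inl rfl, ?_⟩
      rw [r3]
      congr 1
      exact_mod_cast hN
  obtain ⟨η, e1, e2, e3, e4⟩ := prim_four hP D C hg1 hI hA t ht
  refine ⟨(η ^ x * uact g1 η ^ y) ^ (-(N : ℤ)), fun φ' c h3 h4 => ?_, fun σ hσ => ?_⟩
  · have h5 : ‖φ' (g1 (η : K))‖ = 1 :=
      e1 _ _ (h3.comp g1) (mul_mem (mul_mem (inv_mem hg1) h4) hg1)
    simp only [NumberField.Units.coe_zpow, NumberField.Units.coe_mul, map_zpow₀, map_mul,
      norm_zpow, norm_mul, coe_uact, e1 φ' c h3 h4, h5, one_zpow, mul_one]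
  · refine (((imp_cont hP hA h1 e3).const_mul (conj (Ψ σ))).add
      ((imp_cont hP hA.cj h2 e4).const_mul (Ψ σ))).congr (fun _ _ => rfl) ?_
    have h5 : ∏ P ∈ pdiv f, (1 - conjHom A P) = conj (∏ P ∈ pdiv f, (1 - A P)) := by
      simp only [map_prod, map_sub, map_one, conjHom_apply]
    have hN' := congrArg conj hN
    simp only [map_mul, map_pow, map_ofNat, map_natCast, map_add, map_intCast,
      Complex.conj_I] at hN'
    rw [log_zpow_unit, log_mul_unit, log_zpow_unit, log_zpow_unit, coe_uact,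
      ← AlgEquiv.mul_apply, e2 σ hσ, e2 _ (mul_mem hσ hg1), C.mul _ hσ _ hg1, hI, h5]
    have h6 : conj (Ψ σ) = (Ψ σ).re - (Ψ σ).im * Complex.I := by
      apply Complex.ext <;> simp
    have h7 : Ψ σ = (Ψ σ).re + (Ψ σ).im * Complex.I := (Complex.re_add_im _).symm
    have h8 : (Ψ σ * -Complex.I).re = (Ψ σ).im := by simp
    rw [h8, h6]
    generalize (Ψ σ).re = a at h7 ⊢
    generalize (Ψ σ).im = b at h7 ⊢
    rw [h7]
    push_cast
    linear_combination (a - b * Complex.I) * (Real.log ‖φ η‖ : ℂ) * hN +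
      (a + b * Complex.I) * (Real.log ‖φ η‖ : ℂ) * hN' -
      2 * Nat.card (fixSub k0 k K) * N * b * y * (Real.log ‖φ η‖ : ℂ) * Complex.I_mul_I

end

end Pool.Agent.P.MP_29cb78_nt
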