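import Pool.Agent.P.MP_29cb78_nt.All

/-!
Assembly of the Stark unit from the units attached to the characters.
-/

namespace Pool.Agent.P.MP_29cb78_nt

open NumberField NumberField.InfinitePlace NumberField.Units Set Ideal Filter Topology
open NumberField.ComplexEmbedding (IsConj conjugate)
open scoped Classical ComplexConjugate nonZeroDivisors

set_option linter.unusedSectionVars false

noncomputable section

theorem exists_chars (G : Type) [Group G] [Finite G] (hc : ∀ a b : G, a * b = b * a) :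
    ∃ (X : Type) (_ : Fintype X) (e : X → G →* ℂ) (i : X → X), (∀ x, i (i x) = x) ∧
      (∀ x g, e (i x) g = conj (e x g)) ∧ (∀ x g, ‖e x g‖ = 1) ∧ (∀ x y, e x = e y → x = y) ∧
      ∀ g σ, ∑ x, conj (e x σ) * e x g = if g = σ then (Nat.card G : ℂ) else 0 := by
  let _ : CommGroup G := { (inferInstance : Group G) with mul_comm := hc }
  let _ := Fintype.ofFinite G
  refine ⟨AddChar (Additive G) ℂ, inferInstance,
    fun x => ⟨⟨fun g => x (Additive.ofMul g), by simp⟩, fun a b => by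
      simp [AddChar.map_add_eq_mul]⟩, fun x => x⁻¹, fun x => inv_inv x, fun x g => ?_,
      fun x g => ?_, fun x y h => ?_, fun g σ => ?_⟩
  · simp [AddChar.inv_apply, AddChar.map_neg_eq_conj]
  · simp
  · ext g
    exact DFunLike.congr_fun h g.toMul
  · have := AddChar.sum_apply_eq_ite (Additive.ofMul g - Additive.ofMul σ)
    simp only [sub_eq_zero, EmbeddingLike.apply_eq_iff_eq] at this
    rw [Nat.card_eq_fintype_card, ← Fintype.card_additive, ← this]
    refine Finset.sum_congr rfl fun x _ => ?_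
    simp [sub_eq_add_neg, AddChar.map_add_eq_mul, AddChar.map_neg_eq_conj, mul_comm]

theorem sum_split {X : Type} [Fintype X] (i : X → X) (hi : ∀ x, i (i x) = x) :
    ∃ R : Finset X, (∀ x ∈ R, i x ≠ x) ∧ ∀ F : X → ℂ,
      ∑ x, F x = ∑ x : {x // i x = x}, F x + ∑ x ∈ R, (F x + F (i x)) := by
  let o : X → Fin (Fintype.card X) := Fintype.equivFin X
  have ho : Function.Injective o := (Fintype.equivFin X).injective
  refine ⟨Finset.univ.filter fun x => o x < o (i x), fun x hx h => ?_, fun F => ?_⟩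
  · rw [Finset.mem_filter, h] at hx
    exact lt_irrefl _ hx.2
  · have h1 : ∑ x ∈ Finset.univ.filter fun x => o x < o (i x), F (i x) =
        ∑ x ∈ Finset.univ.filter fun x => o (i x) < o x, F x := by
      refine Finset.sum_nbij' i i ?_ ?_ ?_ ?_ ?_ <;> simp [hi]
    rw [Finset.sum_add_distrib, h1, ← Finset.sum_subtype (Finset.univ.filter fun x => i x = x)
      (by simp), Finset.sum_filter, Finset.sum_filter, Finset.sum_filter,
      ← Finset.sum_add_distrib, ← Finset.sum_add_distrib]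
    refine Finset.sum_congr rfl fun x _ => ?_
    rcases lt_trichotomy (o x) (o (i x)) with h | h | h
    · simp [h, h.not_gt, show i x ≠ x from fun h' => h.ne' (congrArg o h')]
    · simp [← ho h]
    · simp [h, h.not_gt, show i x ≠ x from fun h' => h.ne (congrArg o h')]


variable {k0 k K : Type} [Field k0] [Field k] [Field K] [NumberField k0] [NumberField k]
  [NumberField K] [Algebra k0 k] [Algebra k0 K] [Algebra k K] [IsScalarTower k0 k K]
  [IsGalois k0 K] {φ : K →+* ℂ} {τ : Gal(K/k0)} {f : Ideal (𝓞 k)}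

theorem res_mem (σ : Gal(K/k)) : σ.restrictScalars k0 ∈ fixSub k0 k K := σ.commutes

variable (k0) in
/-- Extension by zero of a character. -/
def extChar (e : Gal(K/k) →* ℂ) (g : Gal(K/k0)) : ℂ :=
  if h : g ∈ fixSub k0 k K then e (toAut g h) else 0

theorem extChar_of_mem (e : Gal(K/k) →* ℂ) {g : Gal(K/k0)} (h : g ∈ fixSub k0 k K) :
    extChar k0 e g = e (toAut g h) := dif_pos h

theorem extChar_res (e : Gal(K/k) →* ℂ) (σ : Gal(K/k)) :
    extChar k0 e (σ.restrictScalars k0) = e σ := dif_pos (res_mem σ)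

theorem isChar_ext (e : Gal(K/k) →* ℂ) : IsChar k0 k K (extChar k0 e) where
  one := (extChar_of_mem e (one_mem _)).trans (map_one e)
  mul := fun g hg h hh => by
    rw [extChar_of_mem e (mul_mem hg hh), extChar_of_mem e hg, extChar_of_mem e hh, ← map_mul]
    rfl
  zero := fun g hg => dif_neg hg

/-- The coefficients of the `L`-series of a character. -/
def coef (f : Ideal (𝓞 k)) (art : (Ideal (𝓞 k))⁰ →* Gal(K/k)) (e : Gal(K/k) →* ℂ) :
    Ideal (𝓞 k) →* ℂ where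
  toFun I := if h : I ∈ (Ideal (𝓞 k))⁰ ∧ IsCoprime I f then e (art ⟨I, h.1⟩) else 0
  map_one' := by
    rw [dif_pos ⟨one_mem _, isCoprime_one_left⟩]
    exact (congrArg e (map_one art)).trans (map_one e)
  map_mul' I J := by
    by_cases hI : I ∈ (Ideal (𝓞 k))⁰ ∧ IsCoprime I f
    · by_cases hJ : J ∈ (Ideal (𝓞 k))⁰ ∧ IsCoprime J f
      · rw [dif_pos hI, dif_pos hJ, dif_pos ⟨mul_mem hI.1 hJ.1, hI.2.mul_left hJ.2⟩, ← map_mul,
          ← map_mul]
        rfl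
      · rw [dif_neg hJ, mul_zero, dif_neg fun h =>
          hJ ⟨(mul_mem_nonZeroDivisors.mp h.1).2, h.2.of_mul_left_right⟩]
    · rw [dif_neg hI, zero_mul, dif_neg fun h =>
        hI ⟨(mul_mem_nonZeroDivisors.mp h.1).1, h.2.of_mul_left_left⟩]

theorem coef_apply (art : (Ideal (𝓞 k))⁰ →* Gal(K/k)) (e : Gal(K/k) →* ℂ) (I : Ideal (𝓞 k)) :
    coef f art e I =
      if h : I ∈ (Ideal (𝓞 k))⁰ ∧ IsCoprime I f then e (art ⟨I, h.1⟩) else 0 := rfl

theorem norm_coef_le (art : (Ideal (𝓞 k))⁰ →* Gal(K/k)) {e : Gal(K/k) →* ℂ}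
    (he : ∀ g, ‖e g‖ = 1) (I : Ideal (𝓞 k)) : ‖coef f art e I‖ ≤ 1 := by
  rw [coef_apply]
  split_ifs <;> simp [he]

theorem imp_coef (hf : f ≠ ⊥)
    (hunr : ∀ (Q : Ideal (𝓞 K)) [Q.IsMaximal], ¬ f ≤ Q.under (𝓞 k) →
      Algebra.IsUnramifiedAt (𝓞 k) Q) (art : (Ideal (𝓞 k))⁰ →* Gal(K/k))
    (hart : ∀ (P : (Ideal (𝓞 k))⁰) (Q : Ideal (𝓞 K)), Q.IsMaximal → Q.under (𝓞 k) = P →
      ¬ f ≤ P → ∀ z : 𝓞 K, art P • z - z ^ absNorm P.1 ∈ Q) {e : Gal(K/k) →* ℂ}
    (he : ∀ g, ‖e g‖ = 1) : Imp k0 k K f (extChar k0 e) (coef f art e) := by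
  have : IsGalois k K := IsGalois.tower_top_of_isGalois k0 k K
  have hnz : ∀ Q : Ideal (𝓞 K), Q.IsMaximal → Q.under (𝓞 k) ∈ (Ideal (𝓞 k))⁰ := fun Q hQ =>
    mem_nonZeroDivisors_of_ne_zero (Ring.ne_bot_of_isMaximal_of_not_isField
      (inferInstance : (Q.under (𝓞 k)).IsMaximal) (RingOfIntegers.not_isField k))
  have huniq : ∀ (Q : Ideal (𝓞 K)) (hQ : Q.IsMaximal), ¬ f ≤ Q.under (𝓞 k) → ∀ σ : Gal(K/k),
      (∀ z : 𝓞 K, σ • z - z ^ absNorm (Q.under (𝓞 k)) ∈ Q) → σ = art ⟨_, hnz Q hQ⟩ :=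
      fun Q hQ h σ hσ => by
    have := hunr Q h
    have a1 : IsArithFrobAt (𝓞 k) σ Q := hσ
    have a2 : IsArithFrobAt (𝓞 k) (art ⟨_, hnz Q hQ⟩) Q := hart ⟨_, hnz Q hQ⟩ Q hQ rfl h
    have h1 := AlgHom.IsArithFrobAt.eq_of_isUnramifiedAt a1 a2 Q.primeCompl_le_nonZeroDivisors
    refine AlgEquiv.ext fun x => ?_
    obtain ⟨a, b, -, rfl⟩ := IsFractionRing.div_surjective (𝓞 K) x
    have h2 : ∀ z : 𝓞 K, σ (z : K) = art ⟨_, hnz Q hQ⟩ (z : K) := fun z =>
      congrArg (fun y : 𝓞 K => (y : K)) (AlgHom.congr_fun h1 z)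
    rw [map_div₀, map_div₀]
    exact congrArg₂ _ (h2 a) (h2 b)
  refine ⟨hf, fun Q hQ h g hg hi => ?_, norm_coef_le art he, fun P hP h => ?_,
    fun Q hQ h g hg h1 => ?_⟩
  · have h1 := huniq Q hQ h (toAut g hg * art ⟨_, hnz Q hQ⟩) fun z => by
      have := add_mem (hi (art ⟨_, hnz Q hQ⟩ • z)) (hart ⟨_, hnz Q hQ⟩ Q hQ rfl h z)
      rw [sub_add_sub_cancel] at this
      exact this
    have h2 : toAut g hg = 1 := by simpa using h1
    exact AlgEquiv.ext fun x => AlgEquiv.congr_fun h2 x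
  · rw [coef_apply, dif_neg fun h1 => hP.ne_top ?_]
    rw [← sup_eq_left.mpr h]
    exact Ideal.isCoprime_iff_sup_eq.mp h1.2
  · have h2 : IsCoprime (Q.under (𝓞 k)) f := by
      rw [Ideal.isCoprime_iff_sup_eq]
      exact (inferInstance : (Q.under (𝓞 k)).IsMaximal).out.2 _ (left_lt_sup.mpr h)
    rw [coef_apply, dif_pos ⟨hnz Q hQ, h2⟩, extChar_of_mem e hg,
      huniq Q hQ h (toAut g hg) fun z => h1 z]

/-- Fourier expansion of the series over one class. -/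
theorem lser_class (hD : DIRI) (art : (Ideal (𝓞 k))⁰ →* Gal(K/k)) {X : Type} [Fintype X]
    (e : X → Gal(K/k) →* ℂ) (he : ∀ x g, ‖e x g‖ = 1)
    (horth : ∀ g σ, ∑ x, conj (e x σ) * e x g = if g = σ then (Nat.card Gal(K/k) : ℂ) else 0)
    (σ : Gal(K/k)) {s : ℂ} (hs : 1 < s.re) :
    LSeries (fun n => (Nat.card {I : (Ideal (𝓞 k))⁰ //
      IsCoprime I.1 f ∧ art I = σ ∧ absNorm I.1 = n} : ℂ)) s =
      (Nat.card Gal(K/k) : ℂ)⁻¹ * ∑ x, conj (e x σ) * Lser (coef f art (e x)) s := by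
  have hn : (Nat.card Gal(K/k) : ℂ) ≠ 0 := Nat.cast_ne_zero.mpr Nat.card_pos.ne'
  obtain ⟨h1, -, h2⟩ := hD k s hs
  have h3 := h2 fun I => ∃ h : I ∈ (Ideal (𝓞 k))⁰, IsCoprime I f ∧ art ⟨I, h⟩ = σ
  have h4 : ∀ n, Nat.card {I : (Ideal (𝓞 k))⁰ // IsCoprime I.1 f ∧ art I = σ ∧ absNorm I.1 = n} =
      Nat.card {I : Ideal (𝓞 k) // (∃ h : I ∈ (Ideal (𝓞 k))⁰, IsCoprime I f ∧ art ⟨I, h⟩ = σ) ∧
        absNorm I = n} := fun n => Nat.card_congr
    { toFun := fun I => ⟨I.1.1, ⟨I.1.2, I.2.1, I.2.2.1⟩, I.2.2.2⟩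
      invFun := fun I => ⟨⟨I.1, I.2.1.1⟩, I.2.1.2.1, I.2.1.2.2, I.2.2⟩
      left_inv := fun _ => rfl
      right_inv := fun _ => rfl }
  simp only [h4, h3, Lser]
  have h5 : ∀ x, Summable fun I : Ideal (𝓞 k) =>
      conj (e x σ) * (coef f art (e x) I * (absNorm I : ℂ) ^ (-s)) := fun x =>
    Summable.mul_left _ (Summable.of_norm_bounded h1 fun I => by
      rw [norm_mul]
      exact mul_le_of_le_one_left (norm_nonneg _) (norm_coef_le art (he x) I))
  simp only [← tsum_mul_left]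
  rw [← Summable.tsum_finsetSum fun x _ => h5 x, ← tsum_mul_left]
  refine tsum_congr fun I => ?_
  simp only [← mul_assoc, ← Finset.sum_mul]
  congr 1
  simp only [coef_apply]
  by_cases h : I ∈ (Ideal (𝓞 k))⁰ ∧ IsCoprime I f
  · simp only [dif_pos h, horth]
    by_cases h6 : art ⟨I, h.1⟩ = σ
    · rw [if_pos ⟨h.1, h.2, h6⟩, if_pos h6, inv_mul_cancel₀ hn]
    · rw [if_neg fun ⟨_, h7⟩ => h6 h7.2, if_neg h6, mul_zero]
  · simp only [dif_neg h]
    rw [if_neg fun ⟨h7, h8⟩ => h ⟨h7, h8.1⟩]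
    simp

end

end Pool.Agent.P.MP_29cb78_nt
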