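import Mathlib

/-!
Definitions and statements of the pieces of the proof of the rank one abelian Stark conjecture
for generalised dihedral extensions of exponent four.
-/

namespace Pool.Agent.P.MP_29cb78_nt

open NumberField NumberField.InfinitePlace NumberField.Units MeasureTheory Set Ideal
open scoped Classical Real Matrix nonZeroDivisors

noncomputable section

/-! ### Analytic part -/

/-- The Gaussian `exp (-π |B m|^2)` at an integer vector `m`. -/
def gauss {ι : Type} [Fintype ι] (B : Matrix ι ι ℝ) (m : ι → ℤ) : ℝ :=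
  Real.exp (-π * ∑ j, (B.mulVec (fun i => (m i : ℝ)) j) ^ 2)

/-- Poisson summation for the Gaussian on the lattice `B ℤ^ι`. -/
def THETA : Prop :=
  ∀ (ι : Type) [Fintype ι] [DecidableEq ι] (B : Matrix ι ι ℝ), B.det ≠ 0 →
    Summable (gauss B) ∧ ∑' m, gauss B m = |B.det|⁻¹ * ∑' m, gauss (B⁻¹)ᵀ m

/-- The unit cube. -/
def cube (ρ : Type) : Set (ρ → ℝ) := Set.pi univ fun _ => Ico (0 : ℝ) 1

/-- Mellin transform of the theta series without its constant term, averaged over the cube. -/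
def thetaMellin {ι ρ : Type} [Fintype ι] [DecidableEq ι] [Fintype ρ] (B : Matrix ι ι ℝ)
    (lam : ρ → ι → ℝ) (s : ℝ) : ENNReal :=
  ∫⁻ y in Ioi (0 : ℝ), (∫⁻ c in cube ρ, ∑' m : {m : ι → ℤ // m ≠ 0},
    ENNReal.ofReal (gauss (Matrix.diagonal (fun j =>
      Real.exp (∑ i, c i * lam i j + Real.log y / Fintype.card ι)) * B) m)) *
    ENNReal.ofReal (y ^ (s - 1))

/-- Continuation of the Mellin transform. -/
def MELLIN : Prop :=
  ∀ (ι ρ : Type) [Fintype ι] [DecidableEq ι] [Nonempty ι] [Fintype ρ] (B : Matrix ι ι ℝ)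
    (lam : ρ → ι → ℝ), B.det ≠ 0 → (∀ i, ∑ j, lam i j = 0) →
    ∃ Λ : ℂ → ℂ, Differentiable ℂ Λ ∧ ∀ s : ℝ, 1 < s → ∃ X : ℝ, 0 ≤ X ∧
      thetaMellin B lam s = ENNReal.ofReal X ∧
      (X : ℂ) = Λ s - 1 / s - ((|B.det|⁻¹ : ℝ) : ℂ) / (1 - s)

/-- Unfolding of the Gaussian integral over a unit lattice. -/
def GAUSSINT : Prop :=
  ∀ (P ρ : Type) [Fintype P] [DecidableEq P] [Fintype ρ] (m : P → ℕ) (lam : ρ → P → ℝ) (w' : P)
    (e : {w : P // w ≠ w'} ≃ ρ) (a : P → ℝ) (s : ℝ),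
    (∀ w, 0 < m w) → (∀ i, ∑ w, (m w : ℝ) * lam i w = 0) → (∀ w, 0 < a w) → 0 < s →
    (Matrix.of fun i w : P => if h : i = w' then (1 : ℝ) else lam (e ⟨i, h⟩) w).det ≠ 0 →
    ∑' k : ρ → ℤ, ∫⁻ y in Ioi (0 : ℝ), (∫⁻ c in cube ρ, ENNReal.ofReal (Real.exp (-π * ∑ w,
        (Real.exp (∑ i, (c i + k i) * lam i w + Real.log y / (∑ w, m w : ℕ)) * a w) ^ 2))) *
        ENNReal.ofReal (y ^ (s - 1)) =
      ENNReal.ofReal ((∑ w, m w : ℕ) /
        |(Matrix.of fun i w : P => if h : i = w' then (1 : ℝ) else lam (e ⟨i, h⟩) w).det| *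
        ∏ w, (1 / 2 * Real.Gamma (s * m w / 2) * (π * a w ^ 2) ^ (-(s * m w / 2))))

/-- The archimedean factor. -/
def gam (L : Type) [Field L] [NumberField L] (s : ℝ) : ℝ :=
  ∏ w : InfinitePlace L, (1 / 2 * Real.Gamma (s * w.mult / 2) * π ^ (-(s * w.mult / 2)))

/-- The theta integral of an ideal is the sum over the principal ideals that it contains. -/
def ZCLASS : Prop :=
  ∀ (L : Type) [Field L] [NumberField L] (J : Ideal (𝓞 L)), J ≠ ⊥ →
    ∃ (B : Matrix (Fin (Module.finrank ℚ L)) (Fin (Module.finrank ℚ L)) ℝ)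
      (lam : Fin (rank L) → Fin (Module.finrank ℚ L) → ℝ),
      B.det ≠ 0 ∧ (∀ i, ∑ j, lam i j = 0) ∧ ∀ s : ℝ, 0 < s →
        thetaMellin B lam s =
          ENNReal.ofReal (torsionOrder L * 2 ^ nrComplexPlaces L / regulator L * gam L s) *
            ∑' I : {I : Ideal (𝓞 L) // I ≠ ⊥ ∧ I ≤ J ∧ I.IsPrincipal},
              ENNReal.ofReal ((absNorm I.1 : ℝ) ^ (-s))

/-- Dirichlet series over the ideals of `L` (the zero ideal contributes `0` when `s ≠ 0`). -/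
def Lser {L : Type} [Field L] [NumberField L] (a : Ideal (𝓞 L) → ℂ) (s : ℂ) : ℂ :=
  ∑' I : Ideal (𝓞 L), a I * (absNorm I : ℂ) ^ (-s)

/-- Series over ideals versus `LSeries`. -/
def DIRI : Prop :=
  ∀ (L : Type) [Field L] [NumberField L] (s : ℂ), 1 < s.re →
    Summable (fun I : Ideal (𝓞 L) => ‖(absNorm I : ℂ) ^ (-s)‖) ∧
    LSeriesSummable (fun n => (Nat.card {I : Ideal (𝓞 L) // absNorm I = n} : ℂ)) s ∧
    ∀ p : Ideal (𝓞 L) → Prop,
      LSeries (fun n => (Nat.card {I : Ideal (𝓞 L) // p I ∧ absNorm I = n} : ℂ)) s =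
        Lser (fun I => if p I then 1 else 0) s

/-- Continuation of the Dedekind zeta function and its leading term at `0`. -/
def ZETA : Prop :=
  ∀ (L : Type) [Field L] [NumberField L], ∃ g : ℂ → ℂ, Differentiable ℂ g ∧
    g 0 = ((classNumber L * regulator L / torsionOrder L : ℝ) : ℂ) ∧
    ∀ s : ℂ, 1 < s.re → (s - 1) * Lser (fun _ : Ideal (𝓞 L) => 1) s = s ^ rank L * g s

/-- Euler product. -/
def EULER : Prop :=
  ∀ (L : Type) [Field L] [NumberField L] (A : Ideal (𝓞 L) →* ℂ), (∀ I, ‖A I‖ ≤ 1) →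
    ∀ s : ℂ, 1 < s.re →
      Summable (fun P : IsDedekindDomain.HeightOneSpectrum (𝓞 L) =>
        Complex.log (1 - A P.asIdeal * (absNorm P.asIdeal : ℂ) ^ (-s))) ∧
      Lser A s = Complex.exp (-∑' P : IsDedekindDomain.HeightOneSpectrum (𝓞 L),
        Complex.log (1 - A P.asIdeal * (absNorm P.asIdeal : ℂ) ^ (-s)))

/-- The prime ideals dividing `f`. -/
def pdiv {L : Type} [Field L] [NumberField L] (f : Ideal (𝓞 L)) : Finset (Ideal (𝓞 L)) :=
  (UniqueFactorizationMonoid.normalizedFactors f).toFinset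

/-- Removing the Euler factors at the primes dividing `f`. -/
def CORR : Prop :=
  ∀ (L : Type) [Field L] [NumberField L] (A A' : Ideal (𝓞 L) →* ℂ) (f : Ideal (𝓞 L)), f ≠ ⊥ →
    (∀ I, ‖A I‖ ≤ 1) → (∀ I, ‖A' I‖ ≤ 1) →
    (∀ P : Ideal (𝓞 L), P.IsMaximal → A' P = if f ≤ P then 0 else A P) →
    ∀ s : ℂ, 1 < s.re →
      Lser A' s = Lser A s * ∏ P ∈ pdiv f, (1 - A P * (absNorm P : ℂ) ^ (-s))

/-! ### Artin formalism -/

/-- The automorphisms of `K` over `k0` that fix `L`. -/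
def fixSub (k0 L K : Type) [Field k0] [Field L] [Field K] [Algebra k0 K] [Algebra L K] :
    Subgroup Gal(K/k0) where
  carrier := {g | ∀ y : L, g (algebraMap L K y) = algebraMap L K y}
  one_mem' := fun _ => rfl
  mul_mem' := fun {a b} ha hb y => by
    rw [AlgEquiv.mul_apply, hb y, ha y]
  inv_mem' := fun {a} ha y => by
    have h := congrArg (a⁻¹ : Gal(K/k0)) (ha y)
    rw [← AlgEquiv.mul_apply, inv_mul_cancel, AlgEquiv.one_apply] at h
    exact h.symm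

/-- `Ψ` is a linear character of the group fixing `L`, extended by zero. -/
structure IsChar (k0 L K : Type) [Field k0] [Field L] [Field K] [Algebra k0 K] [Algebra L K]
    (Ψ : Gal(K/k0) → ℂ) : Prop where
  one : Ψ 1 = 1
  mul : ∀ g ∈ fixSub k0 L K, ∀ h ∈ fixSub k0 L K, Ψ (g * h) = Ψ g * Ψ h
  zero : ∀ g, g ∉ fixSub k0 L K → Ψ g = 0

/-- `A` gives the coefficients of the primitive Artin `L`-series of `Ψ`. -/
structure ArtData (k0 L K : Type) [Field k0] [Field L] [Field K] [NumberField L] [NumberField K]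
    [Algebra k0 K] [Algebra L K] (Ψ : Gal(K/k0) → ℂ) (A : Ideal (𝓞 L) →* ℂ) : Prop where
  char : IsChar k0 L K Ψ
  bound : ∀ I, ‖A I‖ ≤ 1
  frob : ∀ Q : Ideal (𝓞 K), Q.IsMaximal →
    (∀ g ∈ fixSub k0 L K, g ∈ Q.inertia Gal(K/k0) → Ψ g = 1) →
    ∀ g ∈ fixSub k0 L K, (∀ z : 𝓞 K, g • z - z ^ absNorm (Q.under (𝓞 L)) ∈ Q) →
      A (Q.under (𝓞 L)) = Ψ g
  ram : ∀ Q : Ideal (𝓞 K), Q.IsMaximal →
    (∃ g ∈ fixSub k0 L K, g ∈ Q.inertia Gal(K/k0) ∧ Ψ g ≠ 1) → A (Q.under (𝓞 L)) = 0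

/-- Existence of the coefficients of the primitive Artin `L`-series, and of Frobenius elements. -/
def ARTEX : Prop :=
  ∀ (k0 L K : Type) [Field k0] [Field L] [Field K] [NumberField k0] [NumberField L]
    [NumberField K] [Algebra k0 L] [Algebra k0 K] [Algebra L K] [IsScalarTower k0 L K]
    [IsGalois k0 K],
    Nat.card (fixSub k0 L K) = Module.finrank L K ∧
    (∀ Q : Ideal (𝓞 K), Q.IsMaximal → ∃ g ∈ fixSub k0 L K,
      ∀ z : 𝓞 K, g • z - z ^ absNorm (Q.under (𝓞 L)) ∈ Q) ∧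
    ∀ Ψ : Gal(K/k0) → ℂ, IsChar k0 L K Ψ → ∃ A : Ideal (𝓞 L) →* ℂ, ArtData k0 L K Ψ A

/-- Sum of `W` over the `m`-th powers of Frobenius elements above `p`. -/
def frobSum {k0 K : Type} [Field k0] [Field K] [NumberField k0] [NumberField K] [Algebra k0 K]
    (W : Gal(K/k0) → ℂ) (p : Ideal (𝓞 k0)) (m : ℕ) : ℂ :=
  ∑ Q ∈ IsDedekindDomain.primesOverFinset p (𝓞 K), (Q.inertiaDeg (𝓞 k0) : ℂ) *
    ∑ g : Gal(K/k0), if ∀ z : 𝓞 K, g • z - z ^ (absNorm p ^ m) ∈ Q then W g else 0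

/-- The local factor of an Artin `L`-series through the induced character. -/
def ART1 : Prop :=
  ∀ (k0 L K : Type) [Field k0] [Field L] [Field K] [NumberField k0] [NumberField L]
    [NumberField K] [Algebra k0 L] [Algebra k0 K] [Algebra L K] [IsScalarTower k0 L K]
    [IsGalois k0 K] (Ψ : Gal(K/k0) → ℂ) (A : Ideal (𝓞 L) →* ℂ), ArtData k0 L K Ψ A →
    ∀ p : Ideal (𝓞 k0), p.IsMaximal → ∀ T : ℂ, ‖T‖ < 1 →
      HasSum (fun m : ℕ => T ^ (m + 1) / (m + 1) *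
          frobSum (fun g => Ψ g / Nat.card (fixSub k0 L K)) p (m + 1))
        (-∑ P ∈ IsDedekindDomain.primesOverFinset p (𝓞 L),
          Complex.log (1 - A P * T ^ P.inertiaDeg (𝓞 k0)))

/-- Invariance of Artin `L`-series under induction, in the form that is used. -/
def ARTIN : Prop :=
  ∀ (k0 K L1 L2 L3 : Type) [Field k0] [Field K] [Field L1] [Field L2] [Field L3]
    [NumberField k0] [NumberField K] [NumberField L1] [NumberField L2] [NumberField L3]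
    [Algebra k0 K] [IsGalois k0 K]
    [Algebra k0 L1] [Algebra L1 K] [IsScalarTower k0 L1 K]
    [Algebra k0 L2] [Algebra L2 K] [IsScalarTower k0 L2 K]
    [Algebra k0 L3] [Algebra L3 K] [IsScalarTower k0 L3 K]
    (Ψ1 Ψ2 Ψ3 : Gal(K/k0) → ℂ) (A1 : Ideal (𝓞 L1) →* ℂ) (A2 : Ideal (𝓞 L2) →* ℂ)
    (A3 : Ideal (𝓞 L3) →* ℂ), ArtData k0 L1 K Ψ1 A1 → ArtData k0 L2 K Ψ2 A2 →
    ArtData k0 L3 K Ψ3 A3 →
    (∀ x : Gal(K/k0), ∑ g : Gal(K/k0),
      (Ψ1 (g * x * g⁻¹) / Nat.card (fixSub k0 L1 K) + Ψ2 (g * x * g⁻¹) / Nat.card (fixSub k0 L2 K)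
        - Ψ3 (g * x * g⁻¹) / Nat.card (fixSub k0 L3 K)) = 0) →
    ∀ s : ℂ, 1 < s.re → Lser A1 s * Lser A2 s = Lser A3 s

/-- The number of primes of `k0` all of whose prime factors in `k` divide `f`. -/
def nfull (k0 : Type) {k : Type} [Field k0] [Field k] [Algebra k0 k] (f : Ideal (𝓞 k)) : ℕ :=
  Set.ncard {p : Ideal (𝓞 k0) | p.IsMaximal ∧
    ∀ P : Ideal (𝓞 k), P.IsMaximal → P.under (𝓞 k0) = p → f ≤ P}

/-- Every prime counted by `nfull` gives a factor two. -/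
def EVEN : Prop :=
  ∀ (k0 k K : Type) [Field k0] [Field k] [Field K] [NumberField k0] [NumberField k]
    [NumberField K] [Algebra k0 k] [Algebra k0 K] [Algebra k K] [IsScalarTower k0 k K]
    [IsGalois k0 K] (Ψ : Gal(K/k0) → ℂ) (A : Ideal (𝓞 k) →* ℂ) (f : Ideal (𝓞 k)), f ≠ ⊥ →
    ArtData k0 k K Ψ A → Module.finrank k0 k = 2 →
    (∀ g, g ∉ fixSub k0 k K → g * g = 1) → (∀ g ∈ fixSub k0 k K, Ψ g ^ 4 = 1) →
    ∃ R : Finset (Ideal (𝓞 K)),
      (∀ Q ∈ R, Q.IsMaximal ∧ ∃ g ∈ fixSub k0 k K, g ∈ Q.inertia Gal(K/k0) ∧ Ψ g = -1) ∧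
      Set.InjOn (fun Q : Ideal (𝓞 K) => Q.under (𝓞 k0)) R ∧
      ∃ x y : ℤ, 2 ^ R.card * ∏ P ∈ pdiv f, (1 - A P) = 2 ^ nfull k0 f * (x + y * Complex.I)

/-! ### Quadratic extensions -/

/-- Units of relative norm one. -/
def Eminus {F M : Type} [Field F] [Field M] [Algebra F M] (ρ : Gal(M/F)) : Subgroup (𝓞 M)ˣ where
  carrier := {u | ρ (u : M) * u = 1}
  one_mem' := by simp
  mul_mem' := fun {a b} ha hb => by
    simp only [mem_ofPred_eq, NumberField.Units.coe_mul, map_mul] at *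
    linear_combination (ρ (b : M) * b) * ha + hb
  inv_mem' := fun {a} ha => by
    have h : ((a⁻¹ : (𝓞 M)ˣ) : M) = (a : M)⁻¹ := by
      rw [← zpow_neg_one, NumberField.Units.coe_zpow, zpow_neg_one]
    simp only [mem_ofPred_eq, h, map_inv₀] at *
    rw [← mul_inv, ha, inv_one]

/-- Units of the form `u / ρ u` with `u` a unit. -/
def Ecob {F M : Type} [Field F] [Field M] [Algebra F M] (ρ : Gal(M/F)) : Subgroup (𝓞 M)ˣ where
  carrier := {v | ∃ u : (𝓞 M)ˣ, ρ (u : M) * v = u}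
  one_mem' := ⟨1, by simp⟩
  mul_mem' := fun {a b} ⟨u, hu⟩ ⟨v, hv⟩ => ⟨u * v, by
    simp only [NumberField.Units.coe_mul, map_mul]
    linear_combination (ρ (v : M) * b) * hu + (u : M) * hv⟩
  inv_mem' := fun {a} ⟨u, hu⟩ => ⟨u⁻¹, by
    have h : ∀ x : (𝓞 M)ˣ, ((x⁻¹ : (𝓞 M)ˣ) : M) = (x : M)⁻¹ := fun x => by
      rw [← zpow_neg_one, NumberField.Units.coe_zpow, zpow_neg_one]
    rw [h, h, map_inv₀, ← mul_inv, hu]⟩

/-- Regulators in a quadratic extension in which exactly one infinite place splits. -/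
def TREG : Prop :=
  ∀ (F M : Type) [Field F] [Field M] [NumberField F] [NumberField M] [Algebra F M]
    (ρ : Gal(M/F)) (w0 : InfinitePlace M), Module.finrank F M = 2 → ρ ≠ 1 → 1 ≤ rank F →
    w0.IsUnramified F →
    (∀ w : InfinitePlace M, w.comap (algebraMap F M) ≠ w0.comap (algebraMap F M) →
      w.IsRamified F) →
    rank M = rank F + 1 ∧ torsionOrder F = 2 ∧
    (∀ z : M, z ^ torsionOrder M = 1 → ρ z * z = 1) ∧
    ∃ η : (𝓞 M)ˣ, η ∈ Eminus ρ ∧
      4 * regulator M = (Ecob ρ).relIndex (Eminus ρ) * 2 ^ rank F * w0.mult *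
        Real.log (w0 η) * regulator F

/-- Class numbers in a quadratic extension. -/
def TCL : Prop :=
  ∀ (F M : Type) [Field F] [Field M] [NumberField F] [NumberField M] [Algebra F M]
    (ρ : Gal(M/F)) (T : Finset (Ideal (𝓞 M))), Module.finrank F M = 2 → ρ ≠ 1 →
    (∀ P ∈ T, P.IsMaximal ∧ ρ ∈ P.inertia Gal(M/F)) →
    2 ^ T.card * classNumber F ∣ classNumber M * (Ecob ρ).relIndex (Eminus ρ)

/-- A quadratic extension ramified at an odd number of real places ramifies at a finite prime. -/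
def PAR : Prop :=
  ∀ (F M : Type) [Field F] [Field M] [NumberField F] [NumberField M] [Algebra F M]
    [IsTotallyReal F] (ρ : Gal(M/F)) (w0 : InfinitePlace M), Module.finrank F M = 2 → ρ ≠ 1 →
    Even (Module.finrank ℚ F) → w0.IsUnramified F →
    (∀ w : InfinitePlace M, w.comap (algebraMap F M) ≠ w0.comap (algebraMap F M) →
      w.IsRamified F) →
    ∃ P : Ideal (𝓞 M), P.IsMaximal ∧ ρ ∈ P.inertia Gal(M/F)

/-- Two split places raise the unit rank by at least two; roots of unity in extensions. -/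
def RANK : Prop :=
  ∀ (F M : Type) [Field F] [Field M] [NumberField F] [NumberField M] [Algebra F M],
    (Module.finrank F M = 2 → ∀ w1 w2 : InfinitePlace M, w1.IsUnramified F → w2.IsUnramified F →
      w1.comap (algebraMap F M) ≠ w2.comap (algebraMap F M) → rank F + 2 ≤ rank M) ∧
    torsionOrder F ∣ torsionOrder M ∧
    ∀ z : M, z ^ torsionOrder F = 1 → ∃ y : F, algebraMap F M y = z

/-- The abelian condition. -/
def ABEL : Prop :=
  ∀ (k K : Type) [Field k] [Field K] [NumberField k] [NumberField K] [Algebra k K]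
    [IsAbelianGalois k K] (ι : Type) [Fintype ι] (η : ι → (𝓞 K)ˣ) (d : ι → ℕ) (n : ι → ℤ)
    (sgn : ι → Gal(K/k) → ℤ) (v : (𝓞 K)ˣ), (∀ i, d i ∣ torsionOrder K) →
    (∀ i (σ : Gal(K/k)), σ (η i : K) = (η i : K) ^ sgn i σ) →
    (∀ i (σ : Gal(K/k)) (z : K), z ^ d i = 1 → σ z = z ^ sgn i σ) →
    ∀ x : AlgebraicClosure K, x ^ torsionOrder K = algebraMap K (AlgebraicClosure K)
        ((v ^ torsionOrder K * ∏ i, η i ^ (((torsionOrder K / d i : ℕ) : ℤ) * n i) : (𝓞 K)ˣ) : K) →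
      IsAbelianGalois k (IntermediateField.adjoin K {x})

end

end Pool.Agent.P.MP_29cb78_nt
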