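import Pool.Agent.P.MP_29cb78_nt.Fourier

/-!
The main theorem.
-/

namespace Pool.Agent.P.MP_29cb78_nt

open NumberField NumberField.InfinitePlace NumberField.Units Set Ideal Filter Topology
open NumberField.ComplexEmbedding (IsConj conjugate)
open scoped Classical ComplexConjugate nonZeroDivisors

set_option linter.unusedSectionVars false

noncomputable section

variable {k0 k K : Type} [Field k0] [Field k] [Field K] [NumberField k0] [NumberField k]
  [NumberField K] [Algebra k0 k] [Algebra k0 K] [Algebra k K] [IsScalarTower k0 k K]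
  [IsGalois k0 K] {φ : K →+* ℂ} {τ : Gal(K/k0)} {f : Ideal (𝓞 k)}

theorem log_prod_unit (φ : K →+* ℂ) (g : Gal(K/k0)) {ι : Type} (S : Finset ι)
    (η : ι → (𝓞 K)ˣ) [IsTotallyReal k0] :
    Real.log ‖φ (g ((∏ i ∈ S, η i : (𝓞 K)ˣ) : K))‖ = ∑ i ∈ S, Real.log ‖φ (g (η i : K))‖ := by
  induction S using Finset.induction_on with
  | empty => simp
  | insert i S hi ih => rw [Finset.prod_insert hi, Finset.sum_insert hi, log_mul_unit, ih]

/-- The units of absolute value one under `ψ`. -/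
def unitOne (ψ : K →+* ℂ) : Subgroup (𝓞 K)ˣ where
  carrier := {u | ‖ψ (u : K)‖ = 1}
  one_mem' := by simp
  mul_mem' := fun {a b} ha hb => by
    simp only [mem_ofPred_eq, NumberField.Units.coe_mul, map_mul, norm_mul] at *
    rw [ha, hb, mul_one]
  inv_mem' := fun {a} ha => by
    simp only [mem_ofPred_eq] at *
    rw [← zpow_neg_one, NumberField.Units.coe_zpow, map_zpow₀, norm_zpow, ha, one_zpow]

theorem core [IsTotallyReal k0] (D : Dih k0 k K φ τ)
    (hsize : Nat.card (fixSub k0 k K) ∣ 2 ^ (nrRealPlaces k - 1 + nfull k0 f) ∨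
      (Nat.card (fixSub k0 k K) ∣ 2 ^ (nrRealPlaces k - 1 + 1) ∧
      ∀ c ∈ fixSub k0 k K, c * c = 1 → ∃ b ∈ fixSub k0 k K, c = b * b)) (hf : f ≠ ⊥)
    (hunr : ∀ (Q : Ideal (𝓞 K)) [Q.IsMaximal], ¬ f ≤ Q.under (𝓞 k) →
      Algebra.IsUnramifiedAt (𝓞 k) Q) (art : (Ideal (𝓞 k))⁰ →* Gal(K/k))
    (hart : ∀ (P : (Ideal (𝓞 k))⁰) (Q : Ideal (𝓞 K)), Q.IsMaximal → Q.under (𝓞 k) = P →
      ¬ f ≤ P → ∀ z : 𝓞 K, art P • z - z ^ absNorm P.1 ∈ Q) :
    ∃ u : (𝓞 K)ˣ, (∀ σ : Gal(K/k), Cont (LSeries fun n => (Nat.card {I : (Ideal (𝓞 k))⁰ //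
        IsCoprime I.1 f ∧ art I = σ ∧ absNorm I.1 = n} : ℂ))
        (-(1 / torsionOrder K * Real.log (‖φ (σ u)‖ ^ 2) : ℝ))) ∧
      (∀ ψ : K →+* ℂ, ComplexEmbedding.IsReal (ψ.comp (algebraMap k K)) → ‖ψ u‖ = 1) ∧
      ∀ x : AlgebraicClosure K, x ^ torsionOrder K = algebraMap K (AlgebraicClosure K) u →
        IsAbelianGalois k (IntermediateField.adjoin K {x}) := by
  have hP := pieces
  have : IsGalois k K := IsGalois.tower_top_of_isGalois k0 k K
  have hc : ∀ a b : Gal(K/k), a * b = b * a := fun a b =>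
    AlgEquiv.restrictScalars_injective k0 (D.comm (res_mem a) (res_mem b))
  have : IsAbelianGalois k K := { is_comm := ⟨hc⟩ }
  obtain ⟨X, _, e, i, hi, hie, he, hinj, horth⟩ := exists_chars Gal(K/k) hc
  obtain ⟨R, hR, hsplit⟩ := sum_split i hi
  have hI := fun x => imp_coef (k0 := k0) hf hunr art hart (he x)
  have hsq : ∀ x, (∀ g, e x g ^ 2 = 1) ↔ i x = x := fun x => by
    have h1 : ∀ g, conj (e x g) * e x g = 1 := fun g => by
      rw [Complex.conj_mul', he, Complex.ofReal_one, one_pow]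
    refine ⟨fun h => hinj _ _ (MonoidHom.ext fun g => ?_), fun h g => ?_⟩
    · rw [hie]
      linear_combination e x g * h1 g - conj (e x g) * h g
    · rw [← h1 g, ← hie, h, sq]
  have hreal : ∀ x : {x // i x = x}, RealData k φ fun (σ : Gal(K/k0)) s =>
      conj (extChar k0 (e x) σ) * Lser (coef f art (e x)) s := fun x =>
    real_char hP D (isChar_ext _) (fun g hg => by
      rw [extChar_of_mem _ hg]
      exact (hsq x).mpr x.2 _) (hI x) (hsize.imp id And.right)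
  have hpair : ∀ x, ∃ v : (𝓞 K)ˣ, x ∈ R →
      (∀ (φ' : K →+* ℂ) (c : Gal(K/k0)), IsConj φ' c → c ∈ fixSub k0 k K → ‖φ' (v : K)‖ = 1) ∧
      ∀ σ ∈ fixSub k0 k K, Cont (fun s => conj (extChar k0 (e x) σ) * Lser (coef f art (e x)) s +
        extChar k0 (e x) σ * Lser (coef f art (e (i x))) s)
        (-(Nat.card (fixSub k0 k K) * 2 * Real.log ‖φ (σ (v : K))‖ : ℝ) : ℂ) := fun x => by
    by_cases hx : x ∈ R
    · obtain ⟨g, hg⟩ := not_forall.mp fun h => hR x hx ((hsq x).mp h)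
      have h2 : extChar k0 (e (i x)) = fun g => conj (extChar k0 (e x) g) := by
        ext g
        unfold extChar
        split_ifs <;> simp [hie]
      obtain ⟨v, hv⟩ := pair_four hP D (isChar_ext (e x)) (res_mem g)
        (by rwa [extChar_res]) (hI x) (h2 ▸ hI (i x)) (hsize.imp id And.left)
      exact ⟨v, fun _ => hv⟩
    · exact ⟨1, fun h => (hx h).elim⟩
  choose η d n sgn r1 r2 r3 r4 r5 using hreal
  choose v hv using hpair
  refine ⟨(∏ x ∈ R, v x) ^ torsionOrder K *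
    ∏ x, η x ^ (((torsionOrder K / d x : ℕ) : ℤ) * n x), fun σ => ?_, fun ψ hψ => ?_,
    hP.abel k K _ η d n (fun x σ => sgn x (σ.restrictScalars k0)) _ r2
      (fun x σ => r3 x _ (res_mem σ)) fun x σ => r4 x _ (res_mem σ)⟩
  · have h1 := ((Cont.sum Finset.univ fun x _ => r5 x _ (res_mem σ)).add
      (Cont.sum R fun x hx => (hv x hx).2 _ (res_mem σ))).const_mul
      (Nat.card Gal(K/k) : ℂ)⁻¹
    refine h1.congr (fun s hs => ?_) ?_
    · rw [lser_class hP.diri art e he horth σ hs, hsplit]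
      simp only [extChar_res, hie, Complex.conj_conj]
    · have hn : (Nat.card Gal(K/k) : ℂ) ≠ 0 := Nat.cast_ne_zero.mpr Nat.card_pos.ne'
      have hw : (torsionOrder K : ℝ) ≠ 0 := Nat.cast_ne_zero.mpr (torsionOrder_ne_zero K)
      have h2 : Nat.card (fixSub k0 k K) = Nat.card Gal(K/k) := by
        rw [D.card, IsGalois.card_aut_eq_finrank]
      have h3 : ∀ u : (𝓞 K)ˣ, σ (u : K) = σ.restrictScalars k0 (u : K) := fun _ => rfl
      rw [h2, h3, Real.log_pow, log_mul_unit, ← zpow_natCast, log_zpow_unit, log_prod_unit,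
        log_prod_unit, inv_mul_eq_iff_eq_mul₀ hn]
      simp only [log_zpow_unit, ← Complex.ofReal_neg, ← Complex.ofReal_sum, ← Complex.ofReal_add,
        ← Complex.ofReal_natCast, ← Complex.ofReal_mul, Complex.ofReal_inj]
      simp only [Finset.mul_sum, mul_add, neg_add, ← Finset.sum_neg_distrib]
      rw [add_comm]
      congr 1 <;> refine Finset.sum_congr rfl fun x _ => ?_
      · push_cast
        field_simp
      · obtain ⟨c, hc⟩ := r2 x
        have hd : d x ≠ 0 := fun h => torsionOrder_ne_zero K (by rw [hc, h, zero_mul])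
        have hc0 : c ≠ 0 := fun h => torsionOrder_ne_zero K (by rw [hc, h, mul_zero])
        rw [hc, Nat.mul_div_cancel_left _ (Nat.pos_of_ne_zero hd)]
        push_cast
        field_simp
  · obtain ⟨c, hc⟩ := exists_isConj (k0 := k0) ψ
    have h1 := (isReal_iff_mem hc).mp hψ
    exact (unitOne ψ).mul_mem (pow_mem (prod_mem fun x hx => (hv x hx).1 ψ c hc h1) _)
      (prod_mem fun x _ => zpow_mem (r1 x ψ c hc h1) _)

theorem totallyReal (h2 : Module.finrank k0 k = 2) (hc : nrComplexPlaces k = 1) :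
    IsTotallyReal k0 := by
  have : Algebra.IsQuadraticExtension k0 k := ⟨h2⟩
  have h3 : Nat.card Gal(k/k0) = 2 := by rw [IsGalois.card_aut_eq_finrank, h2]
  obtain ⟨ρ, hρ, -⟩ := (Nat.card_eq_two_iff' (1 : Gal(k/k0))).mp h3
  refine ⟨fun w => ?_⟩
  by_contra h
  obtain ⟨ψ, rfl⟩ := exists_mk_comp (K := k) w
  rw [isReal_mk_iff] at h
  have e : (ψ.comp (ρ : k →+* k)).comp (algebraMap k0 k) = ψ.comp (algebraMap k0 k) :=
    RingHom.ext fun y => congrArg ψ (ρ.commutes y)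
  have h4 : ¬ ComplexEmbedding.IsReal ψ := fun h' => h (h'.comp _)
  have h5 : ¬ ComplexEmbedding.IsReal (ψ.comp (ρ : k →+* k)) := fun h' => h (e ▸ h'.comp _)
  rw [nrComplexPlaces, Fintype.card_eq_one_iff] at hc
  obtain ⟨w, hw⟩ := hc
  have h6 : mk (ψ.comp (ρ : k →+* k)) = mk ψ :=
    congrArg Subtype.val ((hw ⟨_, isComplex_mk_iff.mpr h5⟩).trans
      (hw ⟨_, isComplex_mk_iff.mpr h4⟩).symm)
  rcases mk_eq_iff.mp h6 with h7 | h7
  · exact hρ (AlgEquiv.ext fun x => ψ.injective (RingHom.congr_fun h7 x))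
  · refine h (NumberField.ComplexEmbedding.isReal_iff.mpr ?_)
    rw [← e, ← NumberField.ComplexEmbedding.conjugate_comp, h7, e]

theorem size_cases {G : Type} [Group G] [Finite G] (h4 : ∀ g : G, g ^ 4 = 1) {r s : ℕ}
    (hr : 2 ≤ r) (h : IsCyclic G ∨ Nat.card G ≤ 2 ^ (r - 1 + s)) :
    Nat.card G ∣ 2 ^ (r - 1 + s) ∨
      (Nat.card G ∣ 2 ^ (r - 1 + 1) ∧ ∀ c : G, c * c = 1 → ∃ b, c = b * b) := by
  have hp : IsPGroup 2 G := fun g => ⟨2, h4 g⟩
  obtain ⟨j, hj⟩ := hp.exists_card_eq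
  rcases h with h | h
  · obtain ⟨g, hg⟩ := h.exists_generator
    have h1 : orderOf g = Nat.card G := orderOf_eq_card_of_forall_mem_zpowers hg
    have h2 : Nat.card G ∣ 2 ^ 2 := h1 ▸ orderOf_dvd_of_pow_eq_one (h4 g)
    by_cases h3 : g ^ 2 = 1
    · left
      have h5 : Nat.card G ∣ 2 ^ 1 := h1 ▸ orderOf_dvd_of_pow_eq_one h3
      exact h5.trans (pow_dvd_pow 2 (by omega))
    · refine Or.inr ⟨h2.trans (pow_dvd_pow 2 (by omega)), fun c hc => ?_⟩
      obtain ⟨m, rfl⟩ := hg c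
      rcases Int.even_or_odd' m with ⟨t, rfl | rfl⟩
      · exact ⟨g ^ t, by simp only [two_mul, zpow_add]⟩
      · refine (h3 ?_).elim
        have h6 : g ^ (4 * t + 2) = 1 := by
          rw [← hc, ← zpow_add]
          congr 1
          ring
        rwa [zpow_add, zpow_mul, show g ^ (4 : ℤ) = 1 from by exact_mod_cast h4 g, one_zpow,
          one_mul, zpow_two, ← sq] at h6
  · left
    rw [hj] at h ⊢
    exact pow_dvd_pow 2 ((pow_le_pow_iff_right₀ one_lt_two).mp h)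

theorem main (h2 : Module.finrank k0 k = 2) (hc : nrComplexPlaces k = 1)
    (hr : 1 ≤ nrRealPlaces k)
    (hinv : ∀ g : Gal(K/k0), (∃ y : k, g (algebraMap k K y) ≠ algebraMap k K y) → g * g = 1)
    (hexp : ∀ σ : Gal(K/k), σ ^ 4 = 1)
    (hsize : IsCyclic Gal(K/k) ∨ Module.finrank k K ≤ 2 ^ (nrRealPlaces k - 1 + nfull k0 f))
    (hf : f ≠ ⊥)
    (hunr : ∀ (Q : Ideal (𝓞 K)) [Q.IsMaximal], ¬ f ≤ Q.under (𝓞 k) →
      Algebra.IsUnramifiedAt (𝓞 k) Q) (art : (Ideal (𝓞 k))⁰ →* Gal(K/k))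
    (hart : ∀ (P : (Ideal (𝓞 k))⁰) (Q : Ideal (𝓞 K)), Q.IsMaximal → Q.under (𝓞 k) = P →
      ¬ f ≤ P → ∀ z : 𝓞 K, art P • z - z ^ absNorm P.1 ∈ Q)
    (hφ : ¬ ComplexEmbedding.IsReal (φ.comp (algebraMap k K))) :
    ∃ u : (𝓞 K)ˣ, (∀ σ : Gal(K/k), Cont (LSeries fun n => (Nat.card {I : (Ideal (𝓞 k))⁰ //
        IsCoprime I.1 f ∧ art I = σ ∧ absNorm I.1 = n} : ℂ))
        (-(1 / torsionOrder K * Real.log (‖φ (σ u)‖ ^ 2) : ℝ))) ∧
      (∀ ψ : K →+* ℂ, ComplexEmbedding.IsReal (ψ.comp (algebraMap k K)) → ‖ψ u‖ = 1) ∧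
      ∀ x : AlgebraicClosure K, x ^ torsionOrder K = algebraMap K (AlgebraicClosure K) u →
        IsAbelianGalois k (IntermediateField.adjoin K {x}) := by
  have := totallyReal h2 hc
  have : IsGalois k K := IsGalois.tower_top_of_isGalois k0 k K
  obtain ⟨τ, hτ⟩ := exists_isConj (k0 := k0) φ
  have D : Dih k0 k K φ τ := ⟨h2, hc, hr, fun g hg => hinv g (not_forall.mp hg),
    fun g hg => congrArg (AlgEquiv.restrictScalars k0) (hexp (toAut g hg)), hτ,
    fun h => hφ ((isReal_iff_mem hτ).mpr h), (artex k0 k K).1⟩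
  refine core D ?_ hf hunr art hart
  rw [← IsGalois.card_aut_eq_finrank] at hsize
  rw [D.card, ← IsGalois.card_aut_eq_finrank]
  refine (size_cases hexp D.two_le hsize).imp id (And.imp id fun h c hc h1 => ?_)
  obtain ⟨b, hb⟩ := h (toAut c hc) (AlgEquiv.restrictScalars_injective k0 h1)
  exact ⟨b.restrictScalars k0, res_mem b, congrArg (AlgEquiv.restrictScalars k0) hb⟩

end

end Pool.Agent.P.MP_29cb78_nt
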