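import Pool.Agent.P.MP_29cb78_nt.TRegAux2

/-!
Regulators in a quadratic extension in which exactly one infinite place splits.
-/

namespace Pool.Agent.P.MP_29cb78_nt

open NumberField NumberField.InfinitePlace NumberField.Units
open scoped Classical

namespace TReg

variable {F M : Type} [Field F] [Field M] [NumberField F] [NumberField M] [Algebra F M]

lemma place_mul (ρ : Gal(M/F)) {u : (𝓞 M)ˣ} (hu : u ∈ Eminus ρ) (w : InfinitePlace M) :
    w (ρ u) * w u = 1 := by
  have h : ρ (u : M) * u = 1 := hu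
  rw [← map_mul, h, map_one]

lemma place_eq_one (h2 : Module.finrank F M = 2) {ρ : Gal(M/F)} (hρ : ρ ≠ 1)
    {w : InfinitePlace M} (hw : w.IsRamified F) {u : (𝓞 M)ˣ} (hu : u ∈ Eminus ρ) : w u = 1 := by
  have h := place_mul ρ hu w
  rw [place_rho_of_ram h2 hρ hw] at h
  have h0 := pos_at_place u w
  nlinarith

lemma place_cases (h2 : Module.finrank F M = 2) {ρ : Gal(M/F)} (hρ : ρ ≠ 1)
    {w0 : InfinitePlace M}
    (hr : ∀ w : InfinitePlace M, w.comap (algebraMap F M) ≠ w0.comap (algebraMap F M) →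
      w.IsRamified F) {u : (𝓞 M)ˣ} (hu : u ∈ Eminus ρ) (w : InfinitePlace M) :
    w u = 1 ∨ w u = w0 u ∨ w u = (w0 u)⁻¹ := by
  by_cases hc : w.comap (algebraMap F M) = w0.comap (algebraMap F M)
  · rcases (comap_eq_iff h2 hρ).mp hc.symm with h | h
    · exact Or.inr (Or.inl (by rw [h]))
    · refine Or.inr (Or.inr ?_)
      rw [h, smul_apply' h2 hρ]
      exact eq_inv_of_mul_eq_one_left (place_mul ρ hu w0)
  · exact Or.inl (place_eq_one h2 hρ (hr w hc) hu)

lemma place_div (w : InfinitePlace M) (u v : (𝓞 M)ˣ) :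
    w ((u / v : (𝓞 M)ˣ) : M) = w u / w v := by
  rw [eq_div_iff (pos_at_place v w).ne', ← map_mul, ← NumberField.Units.coe_mul, div_mul_cancel]

lemma place_zpow (w : InfinitePlace M) (u : (𝓞 M)ˣ) (n : ℤ) :
    w ((u ^ n : (𝓞 M)ˣ) : M) = w u ^ n := by
  rw [NumberField.Units.coe_zpow, map_zpow₀]

lemma exists_eta (h2 : Module.finrank F M = 2) {ρ : Gal(M/F)} (hρ : ρ ≠ 1)
    {w0 : InfinitePlace M} (h0 : w0.IsUnramified F)
    (hr : ∀ w : InfinitePlace M, w.comap (algebraMap F M) ≠ w0.comap (algebraMap F M) →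
      w.IsRamified F) :
    ∃ η ∈ Eminus ρ, 1 < w0 η ∧ ∀ u ∈ Eminus ρ, ∃ n : ℤ, u / η ^ n ∈ torsion M := by
  obtain ⟨u0, hu0⟩ := dirichletUnitTheorem.exists_unit M w0
  have hne := smul_ne hρ h0
  have hlt : ∀ w, w ≠ w0 → w u0 < 1 := fun w hw =>
    (Real.log_neg_iff (pos_at_place u0 w)).mp (hu0 w hw)
  have hge : 1 ≤ w0 u0 := by
    by_contra hc
    rw [not_le] at hc
    have hneg : ∀ w : InfinitePlace M, (w.mult : ℝ) * Real.log (w u0) < 0 := fun w => by
      refine mul_neg_of_pos_of_neg (by exact_mod_cast mult_pos) ?_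
      by_cases hw : w = w0
      · rw [hw]
        exact Real.log_neg (pos_at_place u0 w0) hc
      · exact hu0 w hw
    have := Finset.sum_neg (s := Finset.univ) (fun w _ => hneg w) Finset.univ_nonempty
    rw [sum_mult_mul_log] at this
    exact lt_irrefl _ this
  have hd : 1 < w0 (dU ρ u0 : (𝓞 M)ˣ) := by
    rw [dU_apply, place_div, coe_rU, ← smul_apply' h2 hρ, one_lt_div (pos_at_place u0 _)]
    exact (hlt _ hne.symm).trans_le hge
  set C := w0 (dU ρ u0 : (𝓞 M)ˣ) with hC
  let S : Set (𝓞 M)ˣ := {u | u ∈ Eminus ρ ∧ 1 < w0 u ∧ w0 u ≤ C}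
  have hS : S.Finite := by
    refine Set.Finite.of_finite_image ?_ (coe_injective M).injOn
    refine (Embeddings.finite_of_norm_le M ℂ C).subset ?_
    rintro _ ⟨u, ⟨hu, h1, h3⟩, rfl⟩
    refine ⟨u.1.isIntegral_coe, (le_iff_le _ _).mp fun w => ?_⟩
    rcases place_cases h2 hρ hr hu w with h | h | h
    · rw [h]
      exact hd.le
    · rw [h]
      exact h3
    · rw [h]
      exact (inv_le_one_of_one_le₀ h1.le).trans hd.le
  obtain ⟨η, ⟨hη, hη1, hηC⟩, hmin⟩ := Set.exists_min_image S (fun u => w0 u) hS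
    ⟨dU ρ u0, range_dU_le h2 hρ ⟨u0, rfl⟩, hd, le_rfl⟩
  refine ⟨η, hη, hη1, fun u hu => ?_⟩
  obtain ⟨n, hn1, hn2⟩ := exists_mem_Ico_zpow (pos_at_place u w0) hη1
  have hpos : 0 < w0 η ^ n := zpow_pos (pos_at_place η w0) n
  have hv : u / η ^ n ∈ Eminus ρ := (Eminus ρ).div_mem hu ((Eminus ρ).zpow_mem hη n)
  have h1 : 1 ≤ w0 ((u / η ^ n : (𝓞 M)ˣ) : M) := by
    rw [place_div, place_zpow, one_le_div hpos]
    exact hn1
  have h3 : w0 ((u / η ^ n : (𝓞 M)ˣ) : M) < w0 η := by
    rw [place_div, place_zpow, div_lt_iff₀ hpos, mul_comm, ← zpow_add_one₀ (pos_at_place η w0).ne']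
    exact hn2
  have h4 : w0 ((u / η ^ n : (𝓞 M)ˣ) : M) = 1 := by
    by_contra hc
    have := hmin _ ⟨hv, lt_of_le_of_ne h1 (Ne.symm hc), h3.le.trans hηC⟩
    exact absurd h3 (not_lt.mpr this)
  refine ⟨n, (mem_torsion M).mpr fun w => ?_⟩
  rcases place_cases h2 hρ hr hv w with h | h | h
  · exact h
  · rw [h, h4]
  · rw [h, h4, inv_one]

lemma det_block {ι : Type} [Fintype ι] (B : Matrix ι ι ℝ) (a : ι) (h : ∀ j, j ≠ a → B a j = 0) :
    B.det = B a a * (Matrix.of fun i j : {x // x ≠ a} => B i j).det := by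
  rw [Matrix.twoBlockTriangular_det' B (fun v => v = a) (by
    rintro i rfl j hj
    exact h j hj)]
  congr 1
  exact @Matrix.det_eq_elem_of_subsingleton {v // v = a} (_) (_) ℝ _ _ _ ⟨a, rfl⟩

lemma exists_family (h2 : Module.finrank F M = 2) {ρ : Gal(M/F)} (hρ : ρ ≠ 1)
    {w0 : InfinitePlace M} (h0 : w0.IsUnramified F)
    (hr : ∀ w : InfinitePlace M, w.comap (algebraMap F M) ≠ w0.comap (algebraMap F M) →
      w.IsRamified F) {η : (𝓞 M)ˣ} (hη : η ∈ Eminus ρ) (hη1 : 1 < w0 η) :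
    ∃ u : Fin (rank M) → (𝓞 M)ˣ,
      Set.range u = insert η (jU F M '' Set.range (fundSystem F)) ∧
      regOfFamily u = 2 ^ rank F * w0.mult * Real.log (w0 η) * regulator F := by
  set v0 := w0.comap (algebraMap F M) with hv0
  let c := placeEquiv h2 hρ h0 hr
  have hc : ∀ w, c w = w.1.comap (algebraMap F M) := fun w => rfl
  have hc' : ∀ v, (c.symm v).1.comap (algebraMap F M) = v := fun v => c.apply_symm_apply v
  have hc0 : (c.symm v0).1 = w0 := by
    have : c ⟨w0, smul_ne hρ h0⟩ = v0 := rfl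
    rw [← this, c.symm_apply_apply]
  let eM : {w : InfinitePlace M // w ≠ ρ • w0} ≃ Fin (rank M) := Fintype.equivFinOfCardEq <| by
    rw [Fintype.card_subtype_compl, Fintype.card_subtype_eq, rank]
  have hcard : Fintype.card {v : InfinitePlace F // v ≠ v0} = rank F := by
    rw [Fintype.card_subtype_compl, Fintype.card_subtype_eq, rank]
  let eF : {v : InfinitePlace F // v ≠ v0} ≃ Fin (rank F) := Fintype.equivFinOfCardEq hcard
  let fam : InfinitePlace F → (𝓞 M)ˣ := fun v =>
    if h : v = v0 then η else jU F M (fundSystem F (eF ⟨v, h⟩))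
  refine ⟨fun i => fam (c (eM.symm i)), ?_, ?_⟩
  · ext x
    constructor
    · rintro ⟨i, rfl⟩
      simp only [fam]
      split_ifs with h
      · exact Or.inl rfl
      · exact Or.inr ⟨_, ⟨_, rfl⟩, rfl⟩
    · rintro (rfl | ⟨_, ⟨i, rfl⟩, rfl⟩)
      · exact ⟨eM (c.symm v0), by simp [fam]⟩
      · refine ⟨eM (c.symm (eF.symm i).1), ?_⟩
        simp only [Equiv.symm_apply_apply, Equiv.apply_symm_apply, fam]
        rw [dif_neg (eF.symm i).2]
        simp
  · let B : Matrix (InfinitePlace F) (InfinitePlace F) ℝ := Matrix.of fun i v =>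
      ((c.symm v).1.mult : ℝ) * Real.log ((c.symm v).1 (fam i))
    have hB : regOfFamily (fun i => fam (c (eM.symm i))) = |B.det| := by
      rw [regOfFamily_eq_det _ (ρ • w0) eM, ← Matrix.det_reindex_self c]
      congr 2
      ext i v
      simp [B]
    have hram : ∀ v, v ≠ v0 → (c.symm v).1.IsRamified F := fun v hv => hr _ (by rwa [hc'])
    have h1 : B v0 v0 = w0.mult * Real.log (w0 η) := by
      simp only [Matrix.of_apply, B, hc0, fam, dif_pos]
    have h3 : (Matrix.of fun i j : {v : InfinitePlace F // v ≠ v0} => B i j) =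
        (2 : ℝ) • Matrix.of fun i v : {v : InfinitePlace F // v ≠ v0} => (v.1.mult : ℝ) *
          Real.log (v.1 (fundSystem F (eF i) : F)) := by
      ext i v
      have hv := hram v.1 v.2
      have hv' := hv.isReal
      rw [hc'] at hv'
      simp only [Matrix.of_apply, B, fam, Matrix.smul_apply, smul_eq_mul]
      rw [dif_neg i.2, coe_jU, ← comap_apply, hc', hv.isComplex.mult_eq_two, hv'.mult_eq_one]
      simp
    have h4 : 0 < (w0.mult : ℝ) * Real.log (w0 η) :=
      mul_pos (by exact_mod_cast mult_pos) (Real.log_pos hη1)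
    have h5 : 0 < (2 : ℝ) ^ rank F := by positivity
    rw [hB, det_block B v0, h1, h3, Matrix.det_smul,
      regulator_eq_det F v0 eF, hcard, abs_mul, abs_of_pos h4, abs_mul, abs_of_pos h5]
    · ring
    · intro j hj
      simp only [B, Matrix.of_apply, fam, dif_pos]
      rw [place_eq_one h2 hρ (hram j hj) hη, Real.log_one, mul_zero]

end TReg

open TReg in
theorem treg : TREG := by
  intro F M _ _ _ _ _ ρ w0 h2 hρ h1 h0 hr
  obtain ⟨w, hw⟩ := exists_ram h2 h1 hr
  refine ⟨rank_eq h2 hρ h0 hr, torsionOrder_eq_two hw.isReal,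
    fun z hz => root_mem h2 hρ hw (torsionOrder_ne_zero M) hz, ?_⟩
  obtain ⟨η, hη, hη1, hgen⟩ := exists_eta h2 hρ h0 hr
  obtain ⟨u, hu, hreg⟩ := exists_family h2 hρ h0 hr hη hη1
  have hT : torsion M ≤ Eminus ρ := fun t ht => by
    refine root_mem h2 hρ hw (torsionOrder_ne_zero M) ?_
    rw [← rootsOfUnity_eq_torsion, mem_rootsOfUnity] at ht
    rw [← NumberField.Units.coe_pow, ht]
    rfl
  have h4 := relIndex_sq (torsion M) (Eminus ρ) (even_torsionOrder M) η hT hη hgen (by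
    intro n hn
    have := (mem_torsion M).mp hn w0
    rw [place_zpow] at this
    exact (zpow_eq_one_iff_right₀ (pos_at_place η w0).le hη1.ne').mp this)
  have h5 := index_mul (dU ρ) (Eminus ρ) (dU_sq ρ) (range_dU_le h2 hρ) h4
  have h6 : Subgroup.closure (Set.range u) ⊔ torsion M = (dU ρ).ker ⊔ Eminus ρ := by
    rw [ker_dU h2 hρ, hu]
    apply le_antisymm
    · refine sup_le ((Subgroup.closure_le _).mpr ?_) (hT.trans le_sup_right)
      rintro x (rfl | ⟨y, -, rfl⟩)
      · exact Subgroup.mem_sup_right hη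
      · exact Subgroup.mem_sup_left ⟨y, rfl⟩
    · refine sup_le ?_ fun x hx => ?_
      · rw [MonoidHom.range_eq_map, ← closure_fundSystem_sup_torsion_eq_top, Subgroup.map_sup,
          MonoidHom.map_closure]
        refine sup_le_sup (Subgroup.closure_mono (Set.subset_insert _ _)) ?_
        rintro _ ⟨x, hx, rfl⟩
        exact MonoidHom.isOfFinOrder _ hx
      · obtain ⟨n, hn⟩ := hgen x hx
        rw [← div_mul_cancel x (η ^ n), mul_comm]
        exact Subgroup.mul_mem_sup
          (Subgroup.zpow_mem _ (Subgroup.subset_closure (Set.mem_insert _ _)) n) hn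
  have h7 := regOfFamily_div_regulator u
  rw [h6, hreg, div_eq_iff (regulator_ne_zero M)] at h7
  rw [range_dU] at h5
  have h8 : (((dU ρ).ker ⊔ Eminus ρ).index : ℝ) * (Ecob ρ).relIndex (Eminus ρ) = 4 := by
    exact_mod_cast h5
  refine ⟨η, hη, ?_⟩
  linear_combination (-regulator M) * h8 - ((Ecob ρ).relIndex (Eminus ρ) : ℝ) * h7

end Pool.Agent.P.MP_29cb78_nt
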