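import Pool.Agent.P.MP_29cb78_nt.Iface

/-!
Group theoretic lemmas for the regulator formula.
-/

namespace Pool.Agent.P.MP_29cb78_nt.TReg

open Subgroup

lemma index_sq_int :
    (powMonoidHom 2 : Multiplicative ℤ →* Multiplicative ℤ).range.index = 2 := by
  have h : (powMonoidHom 2 : Multiplicative ℤ →* Multiplicative ℤ).range =
      AddSubgroup.toSubgroup (AddSubgroup.zmultiples (2 : ℤ)) := by
    ext x
    simp only [MonoidHom.mem_range, powMonoidHom_apply, Multiplicative.mem_toSubgroup,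
      Int.mem_zmultiples_iff]
    constructor
    · rintro ⟨y, rfl⟩
      exact ⟨y.toAdd, by simp⟩
    · rintro ⟨y, hy⟩
      refine ⟨Multiplicative.ofAdd y, ?_⟩
      apply Multiplicative.toAdd.injective
      simp [hy]
  rw [h, AddSubgroup.index_toSubgroup, Int.index_zmultiples]
  rfl

lemma relIndex_sq {U : Type} [CommGroup U] (T E : Subgroup U) [Finite T] [IsCyclic T]
    (hT : Even (Nat.card T)) (η : U) (hTE : T ≤ E) (hη : η ∈ E)
    (hgen : ∀ u ∈ E, ∃ n : ℤ, u / η ^ n ∈ T) (hinf : ∀ n : ℤ, η ^ n ∈ T → n = 0) :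
    (E.map (powMonoidHom 2)).relIndex E = 4 := by
  let φ : T × Multiplicative ℤ →* U := T.subtype.coprod (zpowersHom U η)
  have hφ : ∀ x : T × Multiplicative ℤ, φ x = x.1 * η ^ x.2.toAdd := fun x => rfl
  have hinj : Function.Injective φ := by
    rw [injective_iff_map_eq_one]
    rintro ⟨t, n⟩ h
    rw [hφ] at h
    have h1 : η ^ n.toAdd ∈ T := by
      rw [eq_inv_of_mul_eq_one_right h]
      exact T.inv_mem t.2
    have h2 := hinf _ h1
    simp only [h2, zpow_zero, mul_one, OneMemClass.coe_eq_one] at h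
    refine Prod.ext h ?_
    exact Multiplicative.toAdd.injective h2
  have hE : E = (⊤ : Subgroup (T × Multiplicative ℤ)).map φ := by
    ext u
    constructor
    · intro hu
      obtain ⟨n, hn⟩ := hgen u hu
      exact ⟨(⟨_, hn⟩, Multiplicative.ofAdd n), trivial, by simp [hφ]⟩
    · rintro ⟨x, -, rfl⟩
      rw [hφ]
      exact E.mul_mem (hTE x.1.2) (E.zpow_mem hη _)
  have hE2 : E.map (powMonoidHom 2) =
      (((powMonoidHom 2 : T →* T).range).prod
        (powMonoidHom 2 : Multiplicative ℤ →* Multiplicative ℤ).range).map φ := by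
    ext u
    constructor
    · rintro ⟨v, hv, rfl⟩
      rw [hE] at hv
      obtain ⟨x, -, rfl⟩ := hv
      refine ⟨x ^ 2, ⟨⟨x.1, rfl⟩, ⟨x.2, rfl⟩⟩, ?_⟩
      rw [map_pow, powMonoidHom_apply]
    · rintro ⟨x, ⟨⟨a, ha⟩, ⟨b, hb⟩⟩, rfl⟩
      refine ⟨φ (a, b), hE ▸ ⟨_, trivial, rfl⟩, ?_⟩
      rw [powMonoidHom_apply, ← map_pow]
      congr 1
      exact Prod.ext ha hb
  rw [hE2]
  conv_lhs => rw [hE]
  rw [relIndex_map_map_of_injective _ _ hinj, relIndex_top_right, index_prod, index_sq_int,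
    IsCyclic.index_powMonoidHom_range, Nat.gcd_eq_right (even_iff_two_dvd.mp hT)]
  norm_num

lemma index_mul {U : Type} [CommGroup U] (D : U →* U) (E : Subgroup U)
    (hD : ∀ u ∈ E, D u = u ^ 2) (hr : D.range ≤ E)
    (h4 : (E.map (powMonoidHom 2)).relIndex E = 4) :
    (D.ker ⊔ E).index * D.range.relIndex E = 4 := by
  have h1 : E.map D = E.map (powMonoidHom 2) := by
    ext u
    constructor
    · rintro ⟨v, hv, rfl⟩
      exact ⟨v, hv, (hD v hv).symm⟩
    · rintro ⟨v, hv, rfl⟩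
      exact ⟨v, hv, hD v hv⟩
  have h2 : D.ker ⊔ E = (E.map (powMonoidHom 2)).comap D := by
    rw [← h1, comap_map_eq, sup_comm]
  rw [h2, index_comap, relIndex_mul_relIndex _ _ _ (h1 ▸ map_le_range D E) hr, h4]

end Pool.Agent.P.MP_29cb78_nt.TReg
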