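import Pool.Agent.P.MP_29cb78_nt.TRegAux1

/-!
Places and units in a quadratic extension in which exactly one infinite place splits.
-/

namespace Pool.Agent.P.MP_29cb78_nt.TReg

open NumberField NumberField.InfinitePlace NumberField.Units
open scoped Classical

noncomputable section

variable {F M : Type} [Field F] [Field M] [NumberField F] [NumberField M] [Algebra F M]

lemma isGalois (h2 : Module.finrank F M = 2) : IsGalois F M :=
  haveI : Algebra.IsQuadraticExtension F M := { finrank_eq_two' := h2 }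
  inferInstance

lemma eq_one_or (h2 : Module.finrank F M = 2) {ρ : Gal(M/F)} (hρ : ρ ≠ 1) (σ : Gal(M/F)) :
    σ = 1 ∨ σ = ρ := by
  have := isGalois h2
  have h : Nat.card Gal(M/F) = 2 := h2 ▸ IsGalois.card_aut_eq_finrank F M
  rw [Nat.card_eq_two_iff' 1] at h
  by_cases hσ : σ = 1
  · exact Or.inl hσ
  · exact Or.inr (h.unique hσ hρ)

lemma symm_eq (h2 : Module.finrank F M = 2) {ρ : Gal(M/F)} (hρ : ρ ≠ 1) : ρ.symm = ρ := by
  rcases eq_one_or h2 hρ ρ⁻¹ with h | h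
  · exact absurd (inv_eq_one.mp h) hρ
  · exact h

lemma rho_rho (h2 : Module.finrank F M = 2) {ρ : Gal(M/F)} (hρ : ρ ≠ 1) (x : M) :
    ρ (ρ x) = x := by
  conv_lhs => rw [← symm_eq h2 hρ]
  rw [symm_eq h2 hρ]
  nth_rewrite 1 [← symm_eq h2 hρ]
  exact ρ.symm_apply_apply x

lemma fixed (h2 : Module.finrank F M = 2) {ρ : Gal(M/F)} (hρ : ρ ≠ 1) {x : M} (hx : ρ x = x) :
    ∃ y : F, algebraMap F M y = x := by
  have := isGalois h2
  have : x ∈ (⊥ : IntermediateField F M) := by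
    rw [IsGalois.mem_bot_iff_fixed]
    intro σ
    rcases eq_one_or h2 hρ σ with rfl | rfl
    · rfl
    · exact hx
  exact IntermediateField.mem_bot.mp this

lemma isConj_of_ram (h2 : Module.finrank F M = 2) {ρ : Gal(M/F)} (hρ : ρ ≠ 1)
    {w : InfinitePlace M} (hw : w.IsRamified F) :
    ComplexEmbedding.IsConj w.embedding ρ := by
  have := isGalois h2
  have hw' : (mk w.embedding).IsRamified F := by rwa [mk_embedding]
  obtain ⟨σ, hσ⟩ := exists_isConj_of_isRamified hw'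
  rcases eq_one_or h2 hρ σ with rfl | rfl
  · exact absurd (hσ.isUnramified_mk_iff.mpr rfl) hw'
  · exact hσ

lemma place_rho_of_ram (h2 : Module.finrank F M = 2) {ρ : Gal(M/F)} (hρ : ρ ≠ 1)
    {w : InfinitePlace M} (hw : w.IsRamified F) (x : M) : w (ρ x) = w x := by
  rw [← norm_embedding_eq, (isConj_of_ram h2 hρ hw).eq, norm_star, norm_embedding_eq]

lemma smul_apply' (h2 : Module.finrank F M = 2) {ρ : Gal(M/F)} (hρ : ρ ≠ 1)
    (w : InfinitePlace M) (x : M) : (ρ • w) x = w (ρ x) := by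
  rw [InfinitePlace.smul_apply, symm_eq h2 hρ]

lemma comap_eq_iff (h2 : Module.finrank F M = 2) {ρ : Gal(M/F)} (hρ : ρ ≠ 1)
    {w w' : InfinitePlace M} :
    w.comap (algebraMap F M) = w'.comap (algebraMap F M) ↔ w' = w ∨ w' = ρ • w := by
  have := isGalois h2
  rw [← mem_orbit_iff]
  constructor
  · rintro ⟨σ, rfl⟩
    rcases eq_one_or h2 hρ σ with rfl | rfl
    · exact Or.inl (one_smul _ _)
    · exact Or.inr rfl
  · rintro (rfl | rfl)
    · exact MulAction.mem_orbit_self _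
    · exact MulAction.mem_orbit _ _

lemma smul_ne {ρ : Gal(M/F)} (hρ : ρ ≠ 1) {w0 : InfinitePlace M} (h0 : w0.IsUnramified F) :
    w0 ≠ ρ • w0 := by
  intro h
  have : ρ ∈ MulAction.stabilizer Gal(M/F) w0 := h.symm
  rw [h0.stabilizer_eq_bot] at this
  exact hρ this

lemma smul_eq_of_ram (h2 : Module.finrank F M = 2) {ρ : Gal(M/F)} (hρ : ρ ≠ 1)
    {w : InfinitePlace M} (hw : w.IsRamified F) : ρ • w = w := by
  ext x
  exact (smul_apply' h2 hρ w x).trans (place_rho_of_ram h2 hρ hw x)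

/-- The places of `M` other than `ρ • w0` correspond to the places of `F`. -/
def placeEquiv (h2 : Module.finrank F M = 2) {ρ : Gal(M/F)} (hρ : ρ ≠ 1) {w0 : InfinitePlace M}
    (h0 : w0.IsUnramified F)
    (hr : ∀ w : InfinitePlace M, w.comap (algebraMap F M) ≠ w0.comap (algebraMap F M) →
      w.IsRamified F) : {w : InfinitePlace M // w ≠ ρ • w0} ≃ InfinitePlace F :=
  Equiv.ofBijective (fun w => w.1.comap (algebraMap F M)) <| by
    have := isGalois h2
    constructor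
    · rintro ⟨w, hw⟩ ⟨w', hw'⟩ h
      simp only at h
      apply Subtype.ext
      by_cases hc : w.comap (algebraMap F M) = w0.comap (algebraMap F M)
      · have h1 := ((comap_eq_iff h2 hρ).mp hc.symm).resolve_right hw
        have h3 := ((comap_eq_iff h2 hρ).mp (hc.symm.trans h)).resolve_right hw'
        exact h1.trans h3.symm
      · rcases (comap_eq_iff h2 hρ).mp h with h1 | h1
        · exact h1.symm
        · rw [smul_eq_of_ram h2 hρ (hr w hc)] at h1
          exact h1.symm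
    · intro v
      obtain ⟨w, rfl⟩ := comap_surjective (K := M) v
      by_cases hw : w = ρ • w0
      · exact ⟨⟨w0, smul_ne hρ h0⟩, (comap_eq_iff h2 hρ).mpr (Or.inr hw)⟩
      · exact ⟨⟨w, hw⟩, rfl⟩

lemma rank_eq (h2 : Module.finrank F M = 2) {ρ : Gal(M/F)} (hρ : ρ ≠ 1) {w0 : InfinitePlace M}
    (h0 : w0.IsUnramified F)
    (hr : ∀ w : InfinitePlace M, w.comap (algebraMap F M) ≠ w0.comap (algebraMap F M) →
      w.IsRamified F) : rank M = rank F + 1 := by
  have h := Fintype.card_congr (placeEquiv h2 hρ h0 hr)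
  rw [Fintype.card_subtype_compl, Fintype.card_subtype_eq] at h
  have : 0 < Fintype.card (InfinitePlace F) := Fintype.card_pos
  unfold rank
  omega

lemma exists_ram (h2 : Module.finrank F M = 2) (h1 : 1 ≤ rank F) {w0 : InfinitePlace M}
    (hr : ∀ w : InfinitePlace M, w.comap (algebraMap F M) ≠ w0.comap (algebraMap F M) →
      w.IsRamified F) : ∃ w : InfinitePlace M, w.IsRamified F := by
  have := isGalois h2
  have : 1 < Fintype.card (InfinitePlace F) := by
    unfold rank at h1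
    omega
  obtain ⟨v, hv⟩ := Fintype.exists_ne_of_one_lt_card this (w0.comap (algebraMap F M))
  obtain ⟨w, rfl⟩ := comap_surjective (K := M) v
  exact ⟨w, hr w hv⟩

lemma torsionOrder_eq_two {v : InfinitePlace F} (hv : v.IsReal) : torsionOrder F = 2 := by
  obtain ⟨g, hg⟩ := IsCyclic.exists_ofOrder_eq_natCard (α := torsion F)
  have h1 : IsPrimitiveRoot ((g : (𝓞 F)ˣ) : F) (torsionOrder F) := by
    rw [IsPrimitiveRoot.coe_coe_iff, torsionOrder, ← hg, ← Subgroup.orderOf_coe]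
    exact IsPrimitiveRoot.orderOf _
  have h3 : ¬ 2 < torsionOrder F := by
    intro h
    have h4 := h1.nrRealPlaces_eq_zero_of_two_lt h
    rw [nrRealPlaces, Fintype.card_eq_zero_iff] at h4
    exact h4.elim ⟨v, hv⟩
  have h5 := even_torsionOrder F
  have h6 := torsionOrder_pos F
  obtain ⟨k, hk⟩ := h5
  omega

lemma root_mem (h2 : Module.finrank F M = 2) {ρ : Gal(M/F)} (hρ : ρ ≠ 1)
    {w : InfinitePlace M} (hw : w.IsRamified F) {n : ℕ} (hn : n ≠ 0) {z : M} (hz : z ^ n = 1) :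
    ρ z * z = 1 := by
  apply w.embedding.injective
  have h1 : ‖w.embedding z‖ = 1 :=
    Complex.norm_eq_one_of_pow_eq_one (by rw [← map_pow, hz, map_one]) hn
  rw [map_mul, (isConj_of_ram h2 hρ hw).eq, map_one, Complex.star_def, Complex.conj_mul', h1]
  simp

/-- The action of `ρ` on units. -/
def rU (ρ : Gal(M/F)) : (𝓞 M)ˣ →* (𝓞 M)ˣ :=
  Units.map (RingOfIntegers.mapRingEquiv ρ.toRingEquiv).toMonoidHom

lemma coe_rU (ρ : Gal(M/F)) (u : (𝓞 M)ˣ) : (rU ρ u : M) = ρ u := rfl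

/-- The map `u ↦ u / ρ u`. -/
def dU (ρ : Gal(M/F)) : (𝓞 M)ˣ →* (𝓞 M)ˣ := MonoidHom.id _ / rU ρ

lemma dU_apply (ρ : Gal(M/F)) (u : (𝓞 M)ˣ) : dU ρ u = u / rU ρ u := rfl

lemma mem_Eminus (ρ : Gal(M/F)) (u : (𝓞 M)ˣ) : u ∈ Eminus ρ ↔ rU ρ u * u = 1 := by
  rw [← (coe_injective M).eq_iff]
  rfl

lemma range_dU (ρ : Gal(M/F)) : (dU ρ).range = Ecob ρ := by
  ext v
  constructor
  · rintro ⟨u, rfl⟩
    refine ⟨u, ?_⟩
    rw [← coe_rU, ← NumberField.Units.coe_mul, dU_apply, mul_div_cancel]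
  · rintro ⟨u, hu⟩
    refine ⟨u, ?_⟩
    rw [← coe_rU, ← NumberField.Units.coe_mul, (coe_injective M).eq_iff] at hu
    rw [dU_apply, div_eq_iff_eq_mul', hu]

lemma dU_sq (ρ : Gal(M/F)) (u : (𝓞 M)ˣ) (hu : u ∈ Eminus ρ) : dU ρ u = u ^ 2 := by
  rw [mem_Eminus] at hu
  rw [dU_apply, eq_inv_of_mul_eq_one_left hu, div_inv_eq_mul, sq]

lemma rU_rU (h2 : Module.finrank F M = 2) {ρ : Gal(M/F)} (hρ : ρ ≠ 1) (u : (𝓞 M)ˣ) :
    rU ρ (rU ρ u) = u := by
  apply coe_injective M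
  simp only [coe_rU, rho_rho h2 hρ]

lemma range_dU_le (h2 : Module.finrank F M = 2) {ρ : Gal(M/F)} (hρ : ρ ≠ 1) :
    (dU ρ).range ≤ Eminus ρ := by
  rintro _ ⟨u, rfl⟩
  rw [mem_Eminus, dU_apply, map_div, rU_rU h2 hρ, div_mul_div_cancel, div_self']

/-- The units of `F` seen in `M`. -/
def jU (F M : Type) [Field F] [Field M] [Algebra F M] : (𝓞 F)ˣ →* (𝓞 M)ˣ :=
  Units.map (algebraMap (𝓞 F) (𝓞 M)).toMonoidHom

lemma coe_jU (u : (𝓞 F)ˣ) : (jU F M u : M) = algebraMap F M u := rfl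

lemma ker_dU (h2 : Module.finrank F M = 2) {ρ : Gal(M/F)} (hρ : ρ ≠ 1) :
    (dU ρ).ker = (jU F M).range := by
  ext u
  rw [MonoidHom.mem_ker, dU_apply, div_eq_one, ← (coe_injective M).eq_iff, coe_rU]
  constructor
  · intro h
    obtain ⟨y, hy⟩ := fixed h2 hρ h.symm
    have hi : IsIntegral ℤ y := by
      rw [← isIntegral_algebraMap_iff (algebraMap F M).injective, hy]
      exact u.1.isIntegral_coe
    have hy' : algebraMap (𝓞 F) (𝓞 M) ⟨y, hi⟩ = u := RingOfIntegers.ext hy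
    have hu : IsUnit (⟨y, hi⟩ : 𝓞 F) := by
      apply IsUnit.of_map (algebraMap (𝓞 F) (𝓞 M))
      rw [hy']
      exact u.isUnit
    exact ⟨hu.unit, Units.ext hy'⟩
  · rintro ⟨y, rfl⟩
    rw [coe_jU, AlgEquiv.commutes]

end

end Pool.Agent.P.MP_29cb78_nt.TReg
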