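import Pool.Agent.P.MP_29cb78_nt.Cont

/-!
Complex conjugations, intermediate fields and quadratic steps inside a Galois extension.
-/

namespace Pool.Agent.P.MP_29cb78_nt

open NumberField NumberField.InfinitePlace NumberField.Units Set Ideal Filter Topology
open NumberField.ComplexEmbedding (IsConj conjugate)
open scoped Classical ComplexConjugate

set_option linter.unusedSectionVars false

noncomputable section

variable {k0 K : Type} [Field k0] [Field K] [NumberField k0] [NumberField K] [Algebra k0 K]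
  [IsGalois k0 K]

theorem mem_fixSub {L : Type} [Field L] [Algebra L K] {g : Gal(K/k0)} :
    g ∈ fixSub k0 L K ↔ ∀ y : L, g (algebraMap L K y) = algebraMap L K y := Iff.rfl

theorem exists_isConj [IsTotallyReal k0] (φ : K →+* ℂ) : ∃ c : Gal(K/k0), IsConj φ c := by
  obtain ⟨σ, hσ⟩ := NumberField.ComplexEmbedding.exists_comp_symm_eq_of_comp_eq (k := k0) φ
    (conjugate φ) (by
      rw [NumberField.ComplexEmbedding.conjugate_comp]
      exact (NumberField.ComplexEmbedding.isReal_iff.mp
        (IsTotallyReal.complexEmbedding_isReal _)).symm)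
  exact ⟨σ.symm, hσ.symm⟩

theorem isConj_mul_self {φ : K →+* ℂ} {c : Gal(K/k0)} (h : IsConj φ c) : c * c = 1 := by
  ext x
  exact NumberField.ComplexEmbedding.isConj_apply_apply h x

theorem isReal_iff_mem {L : Type} [Field L] [Algebra L K] {φ : K →+* ℂ} {c : Gal(K/k0)}
    (h : IsConj φ c) :
    NumberField.ComplexEmbedding.IsReal (φ.comp (algebraMap L K)) ↔ c ∈ fixSub k0 L K := by
  rw [NumberField.ComplexEmbedding.isReal_iff, mem_fixSub, RingHom.ext_iff]
  refine forall_congr' fun y => ?_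
  rw [NumberField.ComplexEmbedding.conjugate_coe_eq, RingHom.comp_apply, ← φ.injective.eq_iff,
    h.eq]
  rfl

theorem norm_eq_one_of_conj {φ : K →+* ℂ} {c : Gal(K/k0)} (h : IsConj φ c) {x : K}
    (hx : c x * x = 1) : ‖φ x‖ = 1 := by
  have h1 := congrArg (fun y => ‖φ y‖) hx
  simp only [map_mul, h.eq, norm_mul, norm_star, map_one, norm_one] at h1
  nlinarith [norm_nonneg (φ x)]

/-- An element of `fixSub` as an automorphism over `L`. -/
def toAut {L : Type} [Field L] [Algebra L K] (g : Gal(K/k0)) (hg : g ∈ fixSub k0 L K) :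
    Gal(K/L) :=
  { g.toRingEquiv with commutes' := hg }

theorem toAut_apply {L : Type} [Field L] [Algebra L K] (g : Gal(K/k0)) (hg : g ∈ fixSub k0 L K)
    (x : K) : toAut g hg x = g x := rfl

/-- Two embeddings that agree on `L` differ by an automorphism fixing `L`. -/
theorem exists_fix_of_comp_eq {L : Type} [Field L] [Algebra k0 L] [Algebra L K]
    [IsScalarTower k0 L K] (φ ψ : K →+* ℂ)
    (h : φ.comp (algebraMap L K) = ψ.comp (algebraMap L K)) :
    ∃ g ∈ fixSub k0 L K, ∀ x, ψ x = φ (g x) := by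
  have : IsGalois L K := IsGalois.tower_top_of_isGalois k0 L K
  obtain ⟨σ, hσ⟩ := NumberField.ComplexEmbedding.exists_comp_symm_eq_of_comp_eq (k := L) φ ψ h
  exact ⟨σ.symm.restrictScalars k0, fun y => σ.symm.commutes y,
    fun x => (RingHom.congr_fun hσ x).symm⟩

theorem exists_field (H : Subgroup Gal(K/k0)) (L : Type) [Field L] [Algebra k0 L] [Algebra L K]
    [IsScalarTower k0 L K] (h : H ≤ fixSub k0 L K) :
    ∃ (M : Type) (_ : Field M) (_ : NumberField M) (_ : Algebra k0 M) (_ : Algebra L M)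
      (_ : Algebra M K) (_ : IsScalarTower k0 M K) (_ : IsScalarTower L M K),
      fixSub k0 M K = H := by
  let M := IntermediateField.fixedField H
  have hmem : ∀ y : L, algebraMap L K y ∈ M := fun y g => h g.2 y
  let a : L →+* M := (algebraMap L K).codRestrict M hmem
  let _ : Algebra L M := a.toAlgebra
  refine ⟨M, inferInstance, inferInstance, inferInstance, inferInstance, inferInstance,
    inferInstance, IsScalarTower.of_algebraMap_eq fun _ => rfl, ?_⟩
  rw [← IntermediateField.fixingSubgroup_fixedField H]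
  ext g
  rw [mem_fixSub, IntermediateField.mem_fixingSubgroup_iff]
  exact ⟨fun hg x hx => hg ⟨x, hx⟩, fun hg y => hg y y.2⟩

theorem card_two {G : Type} [Group G] {A B : Subgroup G} (hAB : A ≤ B) {a : G} (ha : a ∈ B)
    (ha' : a ∉ A) (h : ∀ b ∈ B, b * a ∈ A ∨ b ∈ A) : Nat.card B = 2 * Nat.card A := by
  have h1 : A.relIndex B = 2 := Subgroup.relIndex_eq_two_iff_exists_notMem_and.mpr ⟨a, ha, ha', h⟩
  rw [← h1, Subgroup.relIndex, ← Nat.card_congr (Subgroup.subgroupOfEquivOfLe hAB).toEquiv,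
    Subgroup.index_mul_card]

section quad

variable {F M : Type} [Field F] [Field M] [NumberField F] [NumberField M]
  [Algebra k0 F] [Algebra k0 M] [Algebra F M] [Algebra F K] [Algebra M K]
  [IsScalarTower k0 F K] [IsScalarTower k0 M K] [IsScalarTower F M K]

theorem fixSub_le : fixSub k0 M K ≤ fixSub k0 F K := fun g hg y => by
  rw [IsScalarTower.algebraMap_apply F M K]
  exact hg _

theorem finrank_eq_two (hA : ARTEX)
    (h : Nat.card (fixSub k0 F K) = 2 * Nat.card (fixSub k0 M K)) : Module.finrank F M = 2 := by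
  rw [(hA k0 F K).1, (hA k0 M K).1, ← Module.finrank_mul_finrank F M K] at h
  exact Nat.eq_of_mul_eq_mul_right Module.finrank_pos h

/-- The nontrivial automorphism of a quadratic step. -/
theorem exists_rho (h2 : Module.finrank F M = 2) : ∃ ρ : Gal(M/F), ρ ≠ 1 ∧
    ∀ g ∈ fixSub k0 F K, g ∉ fixSub k0 M K →
      ∀ y : M, g (algebraMap M K y) = algebraMap M K (ρ y) := by
  have : Algebra.IsQuadraticExtension F M := ⟨h2⟩
  have hc : Nat.card Gal(M/F) = 2 := by rw [IsGalois.card_aut_eq_finrank, h2]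
  obtain ⟨ρ, hρ, hu⟩ := (Nat.card_eq_two_iff' (1 : Gal(M/F))).mp hc
  refine ⟨ρ, hρ, fun g hg hg' y => ?_⟩
  have h1 : (toAut g hg).restrictNormal M = ρ := by
    refine hu _ fun h => hg' fun y => ?_
    have := AlgEquiv.restrictNormal_commutes (toAut g hg) M y
    rw [h] at this
    exact this.symm
  rw [← h1]
  exact (AlgEquiv.restrictNormal_commutes (toAut g hg) M y).symm

theorem comap_mk_tower (φ : K →+* ℂ) :
    (mk (φ.comp (algebraMap M K))).comap (algebraMap F M) = mk (φ.comp (algebraMap F K)) := by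
  rw [comap_mk, RingHom.comp_assoc, ← IsScalarTower.algebraMap_eq]

theorem isRamified_iff_mem {φ : K →+* ℂ} {c : Gal(K/k0)} (h : IsConj φ c) :
    (mk (φ.comp (algebraMap M K))).IsRamified F ↔ c ∈ fixSub k0 F K ∧ c ∉ fixSub k0 M K := by
  rw [isRamified_iff, comap_mk_tower, isComplex_mk_iff, isReal_mk_iff, isReal_iff_mem h,
    isReal_iff_mem h, and_comm]

theorem exists_mk_comp (w : InfinitePlace M) :
    ∃ φ : K →+* ℂ, mk (φ.comp (algebraMap M K)) = w :=
  ⟨NumberField.ComplexEmbedding.lift K w.embedding, by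
    rw [NumberField.ComplexEmbedding.lift_comp_algebraMap, mk_embedding]⟩

/-- Primes of `K` with an inertia element that moves `M` give ramified primes of `M`. -/
theorem exists_ramified_set (ρ : Gal(M/F))
    (hρ : ∀ g ∈ fixSub k0 F K, g ∉ fixSub k0 M K →
      ∀ y : M, g (algebraMap M K y) = algebraMap M K (ρ y))
    (R : Finset (Ideal (𝓞 K)))
    (hR : ∀ Q ∈ R, Q.IsMaximal ∧ ∃ g ∈ fixSub k0 F K, g ∉ fixSub k0 M K ∧
      g ∈ Q.inertia Gal(K/k0))
    (hinj : Set.InjOn (fun Q : Ideal (𝓞 K) => Q.under (𝓞 k0)) R) :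
    ∃ T : Finset (Ideal (𝓞 M)), T.card = R.card ∧
      ∀ P ∈ T, P.IsMaximal ∧ ρ ∈ P.inertia Gal(M/F) := by
  have : IsScalarTower (𝓞 k0) (𝓞 M) (𝓞 K) := inferInstance
  refine ⟨R.image fun Q : Ideal (𝓞 K) => Q.under (𝓞 M), Finset.card_image_of_injOn ?_,
    fun P hP => ?_⟩
  · intro Q hQ Q' hQ' h
    refine hinj hQ hQ' ?_
    have := congrArg (Ideal.under (𝓞 k0)) h
    simpa only [Ideal.under_under] using this
  · obtain ⟨Q, hQ, rfl⟩ := Finset.mem_image.mp hP
    obtain ⟨h1, g, h2, h3, h4⟩ := hR Q hQ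
    refine ⟨inferInstance, fun x => ?_⟩
    have h5 := h4 (algebraMap (𝓞 M) (𝓞 K) x)
    have h6 : g • algebraMap (𝓞 M) (𝓞 K) x = algebraMap (𝓞 M) (𝓞 K) (ρ • x) := by
      apply RingOfIntegers.ext
      exact hρ g h2 h3 x
    rw [h6, ← map_sub] at h5
    exact h5

end quad

theorem torsionOrder_eq_two {M : Type} [Field M] [NumberField M] {w : InfinitePlace M}
    (hw : w.IsReal) : torsionOrder M = 2 := by
  obtain ⟨ζ, hζ⟩ := IsCyclic.exists_ofOrder_eq_natCard (α := torsion M)
  have h1 : IsPrimitiveRoot ((ζ : (𝓞 M)ˣ) : M) (torsionOrder M) := by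
    rw [IsPrimitiveRoot.coe_coe_iff, torsionOrder, ← hζ, ← Subgroup.orderOf_coe]
    exact IsPrimitiveRoot.orderOf _
  have h2 : ¬ 2 < torsionOrder M := fun h => by
    have h3 := h1.nrRealPlaces_eq_zero_of_two_lt h
    rw [nrRealPlaces, Fintype.card_eq_zero_iff] at h3
    exact h3.elim ⟨w, hw⟩
  obtain ⟨j, hj⟩ := even_torsionOrder M
  have := torsionOrder_pos M
  omega

end

end Pool.Agent.P.MP_29cb78_nt
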