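import Pool.Agent.P.MP_29cb78_nt.Four

/-!
Characters of order at most two.
-/

namespace Pool.Agent.P.MP_29cb78_nt

open NumberField NumberField.InfinitePlace NumberField.Units Set Ideal Filter Topology
open NumberField.ComplexEmbedding (IsConj conjugate)
open scoped Classical ComplexConjugate

set_option linter.unusedSectionVars false

noncomputable section

variable {k0 k K : Type} [Field k0] [Field k] [Field K] [NumberField k0] [NumberField k]
  [NumberField K] [Algebra k0 k] [Algebra k0 K] [Algebra k K] [IsScalarTower k0 k K]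
  [IsGalois k0 K] [IsTotallyReal k0] {φ : K →+* ℂ} {τ : Gal(K/k0)} {f : Ideal (𝓞 k)}
  {Ψ : Gal(K/k0) → ℂ}

/-- The data attached to a real character. -/
def RealData (k : Type) [Field k] [Algebra k K] (φ : K →+* ℂ) (a : Gal(K/k0) → ℂ → ℂ) : Prop :=
  ∃ (η : (𝓞 K)ˣ) (d : ℕ) (n : ℤ) (sgn : Gal(K/k0) → ℤ),
    (∀ (φ' : K →+* ℂ) (c : Gal(K/k0)), IsConj φ' c → c ∈ fixSub k0 k K → ‖φ' (η : K)‖ = 1) ∧
    d ∣ torsionOrder K ∧
    (∀ σ ∈ fixSub k0 k K, σ (η : K) = (η : K) ^ sgn σ) ∧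
    (∀ σ ∈ fixSub k0 k K, ∀ z : K, z ^ d = 1 → σ z = z ^ sgn σ) ∧
    ∀ σ ∈ fixSub k0 k K, Cont (a σ)
      (-(Nat.card (fixSub k0 k K) * (2 / d) * n * Real.log ‖φ (σ (η : K))‖ : ℝ) : ℂ)

theorem realData_zero {a : Gal(K/k0) → ℂ → ℂ} (h : ∀ σ, Cont (a σ) 0) : RealData k φ a :=
  ⟨1, 1, 0, fun _ => 1, fun _ _ _ _ => by simp, one_dvd _, fun _ _ => by simp,
    fun _ _ z hz => by
      rw [pow_one] at hz
      simp [hz],
    fun σ _ => by simpa using h σ⟩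

theorem real_char (hP : Pieces) (D : Dih k0 k K φ τ) (C : IsChar k0 k K Ψ)
    (h2 : ∀ g ∈ fixSub k0 k K, Ψ g ^ 2 = 1) {A1 : Ideal (𝓞 k) →* ℂ} (h1 : Imp k0 k K f Ψ A1)
    (hsize : Nat.card (fixSub k0 k K) ∣ 2 ^ (nrRealPlaces k - 1 + nfull k0 f) ∨
      ∀ c ∈ fixSub k0 k K, c * c = 1 → ∃ b ∈ fixSub k0 k K, c = b * b) :
    RealData k φ fun (σ : Gal(K/k0)) s => conj (Ψ σ) * Lser A1 s := by
  by_cases h0 : ∀ g ∈ fixSub k0 k K, Ψ g = 1
  · have e : Ψ = fun g => if g ∈ fixSub k0 k K then 1 else 0 := by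
      ext g
      split_ifs with h
      exacts [h0 g h, C.zero g h]
    have := imp_cont hP (e ▸ artData_one k) h1 (cont_zeta hP.zeta k (D.rank_k ▸ D.two_le))
    exact realData_zero fun σ => by simpa using this.const_mul (conj (Ψ σ))
  push Not at h0
  obtain ⟨g0, hg0, h0⟩ := h0
  have h0' : Ψ g0 = -1 := (sq_eq_one_iff_of_ne_zero_or (h2 g0 hg0)).resolve_left h0
  obtain ⟨A, hA⟩ := (hP.artex k0 k K).2.2 Ψ C
  obtain ⟨M, _, _, _, _, _, _, _, hM⟩ := exists_field (C.ker 1) k (C.ker_le 1)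
  have memM : ∀ g, g ∈ fixSub k0 M K ↔ g ∈ fixSub k0 k K ∧ Ψ g = 1 := fun g => by
    rw [hM, C.mem_ker, pow_one]
  have hcard : Nat.card (fixSub k0 k K) = 2 * Nat.card (fixSub k0 M K) := by
    refine card_two fixSub_le hg0 (fun h => h0 ((memM _).mp h).2) fun b hb => ?_
    simp only [memM, mul_mem hb hg0, hb, true_and, C.mul b hb g0 hg0, h0']
    rcases sq_eq_one_iff_of_ne_zero_or (h2 b hb) with h | h <;> rw [h] <;> simp
  have hf2 : Module.finrank k M = 2 := finrank_eq_two hP.artex hcard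
  have a1 : ∀ s : ℂ, 1 < s.re → Lser A s * Lser (fun _ : Ideal (𝓞 k) => 1) s =
      Lser (fun _ : Ideal (𝓞 M) => 1) s :=
    hP.artin k0 K k k M _ _ _ _ _ _ hA (artData_one k) (artData_one M) fun x => by
      refine Finset.sum_eq_zero fun g _ => ?_
      generalize g * x * g⁻¹ = z
      have hn : (Nat.card (fixSub k0 M K) : ℂ) ≠ 0 := Nat.cast_ne_zero.mpr Nat.card_pos.ne'
      rw [hcard]
      by_cases hz : z ∈ fixSub k0 k K
      · simp only [memM, hz, true_and, if_true]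
        rcases sq_eq_one_iff_of_ne_zero_or (h2 z hz) with h | h
        · rw [h, if_pos rfl]
          push_cast
          field_simp
          ring
        · rw [h, if_neg (by norm_num)]
          ring
      · simp [memM, hz, C.zero z hz]
  have hc : ¬ (τ ∈ fixSub k0 k K ∧ τ ∉ fixSub k0 M K) := fun h => D.notMem h.1
  have neg : ∀ g ∈ fixSub k0 k K, Ψ g = -1 → g ∉ fixSub k0 M K := fun g hg h h' => by
    have := ((memM g).mp h').2
    rw [h] at this
    norm_num at this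
  by_cases hodd : ∀ (φ' : K →+* ℂ) (c : Gal(K/k0)), IsConj φ' c → c ∈ fixSub k0 k K → Ψ c = -1
  swap
  · push Not at hodd
    obtain ⟨φ', c, h3, h4, h5⟩ := hodd
    have h6 : c ∈ fixSub k0 M K :=
      (memM c).mpr ⟨h4, (sq_eq_one_iff_of_ne_zero_or (h2 c h4)).resolve_right h5⟩
    have := imp_cont hP hA h1 (quad_even hP hf2 _ a1 D.cj h3 hc h6 (D.mk_ne h3 h4))
    exact realData_zero fun σ => by simpa using this.const_mul (conj (Ψ σ))
  obtain ⟨N, hN⟩ : Nat.card (fixSub k0 k K) ∣ 2 ^ (nrRealPlaces k - 1 + nfull k0 f) := by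
    refine hsize.resolve_right fun h => ?_
    obtain ⟨φ', c, h3, h4⟩ := D.exists_real
    obtain ⟨b, hb, rfl⟩ := h c h4 (isConj_mul_self h3)
    have := hodd φ' _ h3 h4
    rw [C.mul b hb b hb, ← sq, h2 b hb] at this
    norm_num at this
  have hodd' : ∀ (φ' : K →+* ℂ) (c' : Gal(K/k0)), IsConj φ' c' →
      mk (φ'.comp (algebraMap k K)) ≠ mk (φ.comp (algebraMap k K)) →
      c' ∈ fixSub k0 k K ∧ c' ∉ fixSub k0 M K := fun φ' c h3 h4 => by
    by_cases h5 : c ∈ fixSub k0 k K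
    · exact ⟨h5, neg c h5 (hodd φ' c h3 h5)⟩
    · obtain ⟨g, hg, -, h6⟩ := D.conj_cases h3 h5
      exact (h4 (D.mk_eq_of_mem hg h6)).elim
  obtain ⟨ρ, hρ1, hρ⟩ := exists_rho (k0 := k0) (K := K) hf2
  obtain ⟨R, r1, r2, x, y, r3⟩ := hP.even k0 k K Ψ A f h1.ne hA D.h2 D.inv
    fun g hg => C.four D hg
  obtain ⟨T, hT, hT'⟩ := exists_ramified_set ρ hρ R (fun Q hQ => by
    obtain ⟨h5, g, h6, h7, h8⟩ := r1 Q hQ
    exact ⟨h5, g, h6, neg g h6 h8, h7⟩) r2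
  obtain ⟨η, e1, e2, e3, e4⟩ := quad_odd hP hf2 _ a1 D.cj hc hodd' (D.rank_k ▸ D.hr) ρ hρ1 hρ T hT'
  have hcx : (mk (φ.comp (algebraMap M K))).IsComplex :=
    isComplex_mk_iff.mpr fun h => D.notMem (fixSub_le ((isReal_iff_mem D.cj).mp h))
  have hy : y = 0 := by
    have h3 := congrArg Complex.im r3
    have h4 := real_val (f := f) hP hA h2
    have h5 : ∀ j : ℕ, ((2 : ℂ) ^ j).im = 0 := fun j => by
      rw [← Complex.ofReal_ofNat, ← Complex.ofReal_pow, Complex.ofReal_im]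
    have h6 : ((2 : ℂ) ^ nfull k0 f).re ≠ 0 := by
      rw [← Complex.ofReal_ofNat, ← Complex.ofReal_pow, Complex.ofReal_re]
      positivity
    rw [Complex.mul_im, Complex.mul_im, h4, h5, h5] at h3
    simpa [h6] using h3
  have act : ∀ σ ∈ fixSub k0 k K, ∀ z : K, (∀ g ∈ fixSub k0 M K, g z = z) →
      (∀ g ∈ fixSub k0 k K, g ∉ fixSub k0 M K → g z * z = 1) →
      σ z = z ^ (if Ψ σ = 1 then 1 else -1 : ℤ) := fun σ hσ z h3 h4 => by
    split_ifs with h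
    · rw [zpow_one, h3 σ ((memM σ).mpr ⟨hσ, h⟩)]
    · rw [zpow_neg_one]
      exact eq_inv_of_mul_eq_one_left (h4 σ hσ fun h' => h ((memM σ).mp h').2)
  refine ⟨η, torsionOrder M, -(N * x), fun σ => if Ψ σ = 1 then 1 else -1,
    fun φ' c h3 h4 => norm_eq_one_of_conj h3 (e2 c h4 (neg c h4 (hodd φ' c h3 h4))),
    (hP.rank M K).2.1, fun σ hσ => act σ hσ _ e1 e2,
    fun σ hσ z hz => act σ hσ z (e3 z hz).1 (e3 z hz).2, fun σ hσ => ?_⟩
  refine ((imp_cont hP hA h1 e4).const_mul (conj (Ψ σ))).congr (fun _ _ => rfl) ?_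
  obtain ⟨r, hr⟩ : ∃ r, nrRealPlaces k = r + 1 := ⟨nrRealPlaces k - 1, by have := D.hr; omega⟩
  rw [hr, Nat.add_sub_cancel] at hN
  have hN' : (2 : ℂ) ^ r * 2 ^ nfull k0 f = Nat.card (fixSub k0 k K) * N := by
    rw [← pow_add]
    exact_mod_cast hN
  have hw : (torsionOrder M : ℂ) ≠ 0 := Nat.cast_ne_zero.mpr (torsionOrder_ne_zero M)
  rw [act σ hσ _ e1 e2, map_zpow₀, norm_zpow, Real.log_zpow, hcx.mult_eq_two, D.rank_k, hr, hT]
  rw [hy] at r3
  have h3 : conj (Ψ σ) = ((if Ψ σ = 1 then 1 else -1 : ℤ) : ℂ) := by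
    rcases sq_eq_one_iff_of_ne_zero_or (h2 σ hσ) with h | h
    · simp [h]
    · rw [h, if_neg (by norm_num)]
      simp
  rw [h3]
  generalize (if Ψ σ = 1 then 1 else -1 : ℤ) = ε
  push_cast at r3 ⊢
  field_simp
  linear_combination (ε * 2 ^ r * 2 * Real.log ‖φ η‖ : ℂ) * r3 +
    (ε * 2 * x * Real.log ‖φ η‖ : ℂ) * hN'

end

end Pool.Agent.P.MP_29cb78_nt
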